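import Pool.Agent.W_1bfdb5fd_h19.GenP
import Pool.Agent.W_1bfdb5_h19.Jensen

/-!
# The process for chordless closed walks

`r = m + 2 i`, `k` chordless.  `gen_proc` for the sequences `v t = k (s + t)`, `t < r`:
`S 0 = univ`, `S t = Nb G (v (t-1))` for `1 ≤ t ≤ 2 i + 2` (size at most `D`), and for
`2 i + 3 ≤ t < r` the set of all `w` adjacent to `v (t-1)` but not to `v (t - 1 - 2 a)`,
`1 ≤ a ≤ i + 1`; this set is `FS G i k (s + t - 1)`, and it contains `v t` because `k` is
chordless.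
`ai_sum`: average over `s`, AM-GM (see `jen_exp` in `W_1bfdb5_h19/Jensen.lean`): every
`FS G i k t` appears in `r - (2 i + 3)` of the `r` products.
-/

namespace Pool.Agent.CycFD

open Finset Pool.Agent.CycGT
open scoped Classical

variable {V : Type} [Fintype V] {G : SimpleGraph V} {r : ℕ} [NeZero r]

/-- Chordless walks: no adjacency at odd distance `2 a + 1`, `1 ≤ a ≤ i + 1`. -/
private lemma ai_nadj {i : ℕ} (h6 : 6 * i + 6 < r) {k : ZMod r → V} (hk : k ∈ AI G r)
    {p q : ZMod r} {a : ℕ} (ha : a ∈ Icc 1 (i + 1)) (hq : p = q + ((2 * a + 1 : ℕ) : ZMod r)) :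
    ¬ G.Adj (k p) (k q) := by
  intro h
  rw [mem_Icc] at ha
  have hz : ∀ n : ℕ, 0 < n → n < r → (n : ZMod r) ≠ 0 := by
    intro n h0 h1 h2
    rw [ZMod.natCast_eq_zero_iff] at h2
    exact absurd (Nat.le_of_dvd h0 h2) (by omega)
  rcases (mem_AI.1 hk).2 p q h with e | e
  · refine hz (2 * a + 2) (by omega) (by omega) ?_
    rw [e] at hq
    push_cast at hq ⊢
    linear_combination -hq
  · refine hz (2 * a) (by omega) (by omega) ?_
    rw [e] at hq
    push_cast at hq ⊢
    linear_combination -hq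

theorem fs_pos {i : ℕ} (h6 : 6 * i + 6 < r) {k : ZMod r → V} (hk : k ∈ AI G r) (t : ZMod r) :
    0 < #(FS G i k t) := by
  refine card_pos.2 ⟨k (t + 1), mem_FS.2 ⟨((mem_AI.1 hk).1 t).symm, ?_⟩⟩
  intro a ha
  refine ai_nadj h6 hk ha ?_
  push_cast
  ring

/-- The sets of the process. -/
private noncomputable def aiS (G : SimpleGraph V) (i : ℕ) (t : ℕ) (v : ℕ → V) : Finset V :=
  if t = 0 then univ else if t ≤ 2 * i + 2 then Nb G (v (t - 1)) else
    univ.filter (fun w => G.Adj w (v (t - 1)) ∧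
      ∀ a ∈ Icc 1 (i + 1), ¬ G.Adj w (v (t - 1 - 2 * a)))

theorem ai_proc (i : ℕ) (h6 : 6 * i + 6 < r) {D : ℝ} (hD : DegLe G D) (s : ZMod r) :
    ∑ k ∈ AI G r, ((Fintype.card V : ℝ) * D ^ (2 * i + 2) *
      ∏ t ∈ Ico (2 * i + 3) r, (#(FS G i k (s + t - 1)) : ℝ))⁻¹ ≤ 1 := by
  have hmem : ∀ k ∈ AI G r, ∀ t < r, k (s + (t : ZMod r)) ∈ aiS G i t (fun t => k (s + (t : ZMod r))) := by
    intro k hk t ht
    unfold aiS
    split_ifs with h1 h2
    · exact mem_univ _
    · rw [mem_Nb]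
      have e : s + (t : ZMod r) = s + ((t - 1 : ℕ) : ZMod r) + 1 := by
        rw [Nat.cast_sub (by omega)]; push_cast; ring
      rw [e]
      exact ((mem_AI.1 hk).1 _).symm
    · rw [mem_filter]
      refine ⟨mem_univ _, ?_, ?_⟩
      · have e : s + (t : ZMod r) = s + ((t - 1 : ℕ) : ZMod r) + 1 := by
          rw [Nat.cast_sub (by omega)]; push_cast; ring
        rw [e]
        exact ((mem_AI.1 hk).1 _).symm
      · intro a ha
        refine ai_nadj h6 hk ha ?_
        have ha' := mem_Icc.1 ha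
        rw [Nat.cast_sub (by omega), Nat.cast_sub (by omega)]
        push_cast
        ring
  have h := gen_proc r (aiS G i) (by
    intro t v v' hvv
    unfold aiS
    split_ifs with h1 h2
    · rfl
    · rw [hvv (t - 1) (by omega)]
    · refine filter_congr fun w _ => ?_
      rw [hvv (t - 1) (by omega)]
      refine and_congr Iff.rfl (forall₂_congr fun a ha => ?_)
      have ha' := mem_Icc.1 ha
      rw [hvv (t - 1 - 2 * a) (by omega)]) (AI G r) (fun k t => k (s + (t : ZMod r))) (by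
    intro k _ k' _ h
    funext x
    have h1 := h (x - s).val (ZMod.val_lt _)
    rw [ZMod.natCast_zmod_val] at h1
    have e : s + (x - s) = x := by ring
    rwa [e] at h1) hmem
  refine le_trans (sum_le_sum fun k hk => ?_) h
  have hV : Nonempty V := ⟨k 0⟩
  have hn : (0 : ℝ) < Fintype.card V := by exact_mod_cast Fintype.card_pos
  have hNb : ∀ x : ZMod r, 0 < #(Nb G (k x)) := fun x =>
    card_pos.2 ⟨k (x + 1), mem_Nb.2 ((mem_AI.1 hk).1 x).symm⟩
  have hD0 : 0 < D := lt_of_lt_of_le (by exact_mod_cast hNb 0) (hD (k 0))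
  set v : ℕ → V := fun t => k (s + (t : ZMod r)) with hv
  rw [range_eq_Ico, ← prod_Ico_consecutive _ (Nat.zero_le (2 * i + 3)) (by omega : 2 * i + 3 ≤ r)]
  have e1 : ∏ t ∈ Ico (2 * i + 3) r, ((#(aiS G i t v) : ℝ))⁻¹ =
      (∏ t ∈ Ico (2 * i + 3) r, (#(FS G i k (s + t - 1)) : ℝ))⁻¹ := by
    rw [← prod_inv_distrib]
    refine prod_congr rfl fun t ht => ?_
    have ht' := mem_Ico.1 ht
    congr 3
    unfold aiS
    rw [if_neg (by omega), if_neg (by omega)]
    ext w
    rw [mem_FS, mem_filter]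
    have e2 : v (t - 1) = k (s + t - 1) := by
      rw [hv]
      beta_reduce
      rw [Nat.cast_sub (by omega)]
      congr 1
      push_cast
      ring
    rw [e2]
    refine ⟨fun h => ⟨h.2.1, fun a ha => ?_⟩, fun h => ⟨mem_univ _, h.1, fun a ha => ?_⟩⟩
    · have := h.2.2 a ha
      have ha' := mem_Icc.1 ha
      have e3 : v (t - 1 - 2 * a) = k (s + t - 1 - 2 * (a : ZMod r)) := by
        rw [hv]
        beta_reduce
        rw [Nat.cast_sub (by omega), Nat.cast_sub (by omega)]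
        congr 1
        push_cast
        ring
      rwa [e3] at this
    · have := h.2 a ha
      have ha' := mem_Icc.1 ha
      have e3 : v (t - 1 - 2 * a) = k (s + t - 1 - 2 * (a : ZMod r)) := by
        rw [hv]
        beta_reduce
        rw [Nat.cast_sub (by omega), Nat.cast_sub (by omega)]
        congr 1
        push_cast
        ring
      rwa [e3]
  have e4 : ((Fintype.card V : ℝ) * D ^ (2 * i + 2))⁻¹ ≤
      ∏ t ∈ Ico 0 (2 * i + 3), ((#(aiS G i t v) : ℝ))⁻¹ := by
    rw [← range_eq_Ico, prod_range_succ']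
    have e5 : (#(aiS G i 0 v) : ℝ) = Fintype.card V := by
      unfold aiS
      rw [if_pos rfl, Finset.card_univ]
    rw [e5, mul_inv, mul_comm]
    refine mul_le_mul_of_nonneg_right ?_ (by positivity)
    rw [← inv_pow]
    calc (D⁻¹) ^ (2 * i + 2) = ∏ _t ∈ range (2 * i + 2), D⁻¹ := by
          rw [prod_const, card_range]
      _ ≤ _ := by
          refine prod_le_prod (fun _ _ => by positivity) fun t ht => ?_
          have ht' := mem_range.1 ht
          have e6 : aiS G i (t + 1) v = Nb G (v t) := by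
            unfold aiS
            rw [if_neg (by omega), if_pos (by omega)]
            rfl
          rw [e6]
          have h7 : (0 : ℝ) < #(Nb G (v t)) := by exact_mod_cast hNb (s + t)
          exact inv_anti₀ h7 (hD _)
  rw [e1, mul_inv]
  exact mul_le_mul_of_nonneg_right e4 (by positivity)

theorem ai_sum (i : ℕ) (h6 : 6 * i + 6 < r) {D : ℝ} (hD : DegLe G D) :
    ∑ k ∈ AI G r, ((Fintype.card V : ℝ) * D ^ (2 * i + 2) *
      Real.exp (((r : ℝ) - (2 * i + 3)) / r * ∑ t, Real.log (#(FS G i k t) : ℝ)))⁻¹ ≤ 1 := by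
  have hr0 : (0 : ℝ) < r := by exact_mod_cast (by omega : 0 < r)
  have h1 : ∑ s : ZMod r, ∑ k ∈ AI G r, ((Fintype.card V : ℝ) * D ^ (2 * i + 2) *
      ∏ t ∈ Ico (2 * i + 3) r, (#(FS G i k (s + t - 1)) : ℝ))⁻¹ ≤ r := by
    refine (sum_le_sum fun s _ => ai_proc i h6 hD s).trans (le_of_eq ?_)
    rw [sum_const, Finset.card_univ, ZMod.card, nsmul_eq_mul, mul_one]
  rw [sum_comm] at h1
  have h2 : ∀ k ∈ AI G r, (r : ℝ) * ((Fintype.card V : ℝ) * D ^ (2 * i + 2) *
      Real.exp (((r : ℝ) - (2 * i + 3)) / r * ∑ t, Real.log (#(FS G i k t) : ℝ)))⁻¹ ≤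
      ∑ s : ZMod r, ((Fintype.card V : ℝ) * D ^ (2 * i + 2) *
      ∏ t ∈ Ico (2 * i + 3) r, (#(FS G i k (s + t - 1)) : ℝ))⁻¹ := by
    intro k hk
    have hV : Nonempty V := ⟨k 0⟩
    have hn : (0 : ℝ) < Fintype.card V := by exact_mod_cast Fintype.card_pos
    have hD0 : 0 < D := lt_of_lt_of_le (by
      exact_mod_cast card_pos.2 ⟨k (0 + 1), mem_Nb.2 ((mem_AI.1 hk).1 0).symm⟩) (hD (k 0))
    have hf : ∀ x, (0 : ℝ) < #(FS G i k x) := fun x => by exact_mod_cast fs_pos h6 hk x
    simp only [mul_inv]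
    rw [← mul_sum]
    have h3 := jen_exp (univ : Finset (ZMod r)) univ_nonempty
      (fun s => ∑ t ∈ Ico (2 * i + 3) r, Real.log (#(FS G i k (s + t - 1)) : ℝ))
    rw [Finset.card_univ, ZMod.card] at h3
    have h4 : ∀ s : ZMod r, Real.exp (-∑ t ∈ Ico (2 * i + 3) r,
        Real.log (#(FS G i k (s + t - 1)) : ℝ)) =
        (∏ t ∈ Ico (2 * i + 3) r, (#(FS G i k (s + t - 1)) : ℝ))⁻¹ := by
      intro s
      rw [Real.exp_neg, Real.exp_sum]
      congr 1
      exact prod_congr rfl fun t _ => Real.exp_log (hf _)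
    rw [sum_congr rfl fun s _ => h4 s] at h3
    have h5 : (∑ s : ZMod r, ∑ t ∈ Ico (2 * i + 3) r, Real.log (#(FS G i k (s + t - 1)) : ℝ)) / r =
        ((r : ℝ) - (2 * i + 3)) / r * ∑ t, Real.log (#(FS G i k t) : ℝ) := by
      rw [sum_comm]
      have h6' : ∀ t ∈ Ico (2 * i + 3) r, ∑ s : ZMod r, Real.log (#(FS G i k (s + t - 1)) : ℝ) =
          ∑ x, Real.log (#(FS G i k x) : ℝ) := by
        intro t _
        have := Equiv.sum_comp (Equiv.addRight ((t : ZMod r) - 1))
          (fun x => Real.log (#(FS G i k x) : ℝ))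
        rw [← this]
        refine sum_congr rfl fun s _ => ?_
        rw [Equiv.coe_addRight, add_sub_assoc]
      rw [sum_congr rfl h6', sum_const, Nat.card_Ico, nsmul_eq_mul, Nat.cast_sub (by omega)]
      push_cast
      ring
    rw [h5] at h3
    rw [← Real.exp_neg]
    have h8 : 0 ≤ ((Fintype.card V : ℝ))⁻¹ * (D ^ (2 * i + 2))⁻¹ := by positivity
    calc _ = (((Fintype.card V : ℝ))⁻¹ * (D ^ (2 * i + 2))⁻¹) *
        (r * Real.exp (-(((r : ℝ) - (2 * i + 3)) / r * ∑ t, Real.log (#(FS G i k t) : ℝ)))) := by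
          ring
      _ ≤ _ := mul_le_mul_of_nonneg_left h3 h8
  have h9 := (sum_le_sum h2).trans h1
  rw [← mul_sum] at h9
  exact le_of_mul_le_mul_left (by rw [mul_one]; exact h9) hr0

end Pool.Agent.CycFD
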