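import Pool.Agent.W_1bfdb5fd_h19.AsA

/-!
# The classes of a shortest odd closed walk

`c` a closed walk of length `m`.  By `arc` two positions adjacent to the same vertex are equal or
differ by 2 (`CComb_pos`, `CComb_no4` in `W_1bfdb5_h19/CComb.lean`).
* `E_le`: let `(x, y)` be counted by `ee G c s`.  `x` bad: `x` is adjacent to at most one `c s`, and
  `y` is a neighbour of `x`: at most `#BB * D` triples `(s, x, y)`; the same for `y` bad.  If `y` is
  good, `y` is adjacent to `c (s+1)` and not to `c (s-1)`, so `y ∈ AA G c (s+2)`; if `x` is good,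
  `x ∈ AA G c (s-1)` or `x ∈ AA G c (s+1)`, and `x ∈ AA G c (s-1)` would give the walk
  `c (s-2), x, y, c (s+3)` of length 3.
* `nb_sum`: `F1`, `F5` of `CComb.lean`.  `b3_sum`: `CB3_left`, `CB3_add` in `CB3.lean` give
  `∑ #B3 = ∑ (#QS - #PS)`; `#QS ≤ 3` always (two elements of `QS` differ by 0, 2 or 4 up to sign).
* `qt_sum`: two elements of `QS G c w` differ by an even number at most 4, so every `w` is in at
  most one `QT G c t`.
-/

namespace Pool.Agent.CycFD

open Finset Pool.Agent.CycGT
open scoped Classical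

variable {V : Type} [Fintype V] {G : SimpleGraph V} {m : ℕ} [NeZero m] {c : ZMod m → V}

private theorem asb_one (ho : Odd m) (hG : OddFree G m) (hc : IsCl G m c)
    {w : V} (hw : w ∈ BB G c) {p q : ZMod m} (hp : G.Adj w (c p)) (hq : G.Adj w (c q)) :
    p = q := by
  rw [mem_BB] at hw
  rcases CComb_pos ho hG hc hp hq with e | e | e
  · exact e.symm
  · exfalso
    apply hw (p + 1)
    rw [mem_AA]
    have e1 : p + 1 - 1 = p := by ring
    have e2 : p + 1 + 1 = q := by rw [e]; ring
    rw [e1, e2]
    exact ⟨hp, hq⟩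
  · exfalso
    apply hw (q + 1)
    rw [mem_AA]
    have e1 : q + 1 - 1 = q := by ring
    have e2 : q + 1 + 1 = p := by rw [e]; ring
    rw [e1, e2]
    exact ⟨hq, hp⟩

/-- A good vertex adjacent to `c p` is in one of two classes. -/
private theorem asb_good (hm : 13 ≤ m) (ho : Odd m) (hG : OddFree G m) (hc : IsCl G m c)
    {w : V} (hw : w ∉ BB G c) {p : ZMod m} (hp : G.Adj w (c p)) :
    w ∈ AA G c (p + 1) ∨ w ∈ AA G c (p - 1) := by
  rw [mem_BB] at hw
  push Not at hw
  obtain ⟨t, ht⟩ := hw
  have ht' := mem_AA.1 ht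
  rcases CComb_pos ho hG hc ht'.1 hp with e | e | e
  · left
    have e1 : p + 1 = t := by rw [e]; ring
    rw [e1]
    exact ht
  · right
    have e1 : p - 1 = t := by rw [e]; ring
    rw [e1]
    exact ht
  · exact (CComb_no4 (by omega) ho hG hc hp ht'.2 (by rw [e]; ring)).elim

private theorem asb_far (hm : 13 ≤ m) (ho : Odd m) (hG : OddFree G m) (hc : IsCl G m c)
    {x y : V} {s : ZMod m} (hx : G.Adj x (c (s - 2))) (hxy : G.Adj x y)
    (hy : G.Adj y (c (s + 3))) : False := by
  have hw : Wk G 3 (c (s - 2)) (c (s + 3)) := by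
    have h1 : Wk G 1 (c (s - 2)) x := wk_one.2 hx.symm
    have h2 : Wk G 1 x y := wk_one.2 hxy
    have h3 : Wk G 1 y (c (s + 3)) := wk_one.2 hy
    exact (h1.trans h2).trans h3
  obtain ⟨e, he1, he2, he3⟩ := arc (M := m) (h := 0) (by omega) ho hG hc hw
  have key : ∀ n : ℕ, 0 < n → n < m → ((n : ℕ) : ZMod m) ≠ 0 := by
    intro n h0 h1 h
    rw [ZMod.natCast_eq_zero_iff] at h
    exact absurd (Nat.le_of_dvd h0 h) (by omega)
  have he : e = 1 ∨ e = 3 := by omega
  rcases he with rfl | rfl
  · rcases he3 with h | h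
    · apply key 4 (by omega) (by omega)
      push_cast at h ⊢
      linear_combination h
    · apply key 6 (by omega) (by omega)
      push_cast at h ⊢
      linear_combination h
  · rcases he3 with h | h
    · apply key 2 (by omega) (by omega)
      push_cast at h ⊢
      linear_combination h
    · apply key 8 (by omega) (by omega)
      push_cast at h ⊢
      linear_combination h

private theorem asb_ee (hm : 13 ≤ m) (ho : Odd m) (hG : OddFree G m) (hc : IsCl G m c)
    (s : ZMod m) :
    ee G c s ≤ #(AA G c (s + 1)) * #(AA G c (s + 1 + 1)) +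
      ∑ x ∈ BB G c, (if G.Adj x (c s) then #(Nb G x) else 0) +
      ∑ y ∈ BB G c, (if G.Adj y (c (s + 1)) then #(Nb G y) else 0) := by
  have hsub : (univ : Finset (V × V)).filter (fun z => G.Adj (c s) z.1 ∧ G.Adj z.1 z.2 ∧
      G.Adj z.2 (c (s + 1)) ∧ ¬ G.Adj z.2 (c (s - 1))) ⊆
      (AA G c (s + 1) ×ˢ AA G c (s + 1 + 1)) ∪
      (((BB G c).filter (fun x => G.Adj x (c s))).biUnion
        (fun x => (Nb G x).image (fun y => (x, y)))) ∪
      (((BB G c).filter (fun y => G.Adj y (c (s + 1)))).biUnion
        (fun y => (Nb G y).image (fun x => (x, y)))) := by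
    rintro ⟨x, y⟩ hz
    simp only [mem_filter, mem_univ, true_and] at hz
    obtain ⟨h1, h2, h3, h4⟩ := hz
    rw [mem_union, mem_union]
    by_cases hx : x ∈ BB G c
    · left; right
      rw [mem_biUnion]
      refine ⟨x, mem_filter.2 ⟨hx, h1.symm⟩, ?_⟩
      rw [mem_image]
      exact ⟨y, mem_Nb.2 h2.symm, rfl⟩
    · by_cases hy : y ∈ BB G c
      · right
        rw [mem_biUnion]
        refine ⟨y, mem_filter.2 ⟨hy, h3⟩, ?_⟩
        rw [mem_image]
        exact ⟨x, mem_Nb.2 h2, rfl⟩
      · left; left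
        have hy1 : y ∈ AA G c (s + 1 + 1) := by
          rcases asb_good hm ho hG hc hy h3 with h | h
          · exact h
          · exfalso
            apply h4
            have h5 := (mem_AA.1 h).1
            have e : s + 1 - 1 - 1 = s - 1 := by ring
            rw [e] at h5
            exact h5
        have hx1 : x ∈ AA G c (s + 1) := by
          rcases asb_good hm ho hG hc hx h1.symm with h | h
          · exact h
          · exfalso
            have h5 := (mem_AA.1 h).1
            have e : s - 1 - 1 = s - 2 := by ring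
            rw [e] at h5
            have h6 := (mem_AA.1 hy1).2
            have e' : s + 1 + 1 + 1 = s + 3 := by ring
            rw [e'] at h6
            exact asb_far hm ho hG hc h5 h2 h6
        rw [mem_product]
        exact ⟨hx1, hy1⟩
  unfold ee
  refine (card_le_card hsub).trans ?_
  refine (card_union_le _ _).trans ?_
  have hA : #((AA G c (s + 1) ×ˢ AA G c (s + 1 + 1)) ∪
      (((BB G c).filter (fun x => G.Adj x (c s))).biUnion
        (fun x => (Nb G x).image (fun y => (x, y))))) ≤
      #(AA G c (s + 1)) * #(AA G c (s + 1 + 1)) +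
      ∑ x ∈ BB G c, (if G.Adj x (c s) then #(Nb G x) else 0) := by
    refine (card_union_le _ _).trans ?_
    rw [card_product]
    refine Nat.add_le_add_left ?_ _
    refine card_biUnion_le.trans ?_
    rw [← sum_filter]
    exact sum_le_sum fun x _ => card_image_le
  have hB : #(((BB G c).filter (fun y => G.Adj y (c (s + 1)))).biUnion
        (fun y => (Nb G y).image (fun x => (x, y)))) ≤
      ∑ y ∈ BB G c, (if G.Adj y (c (s + 1)) then #(Nb G y) else 0) := by
    refine card_biUnion_le.trans ?_
    rw [← sum_filter]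
    exact sum_le_sum fun x _ => card_image_le
  exact Nat.add_le_add hA hB

theorem E_le (hm : 13 ≤ m) (ho : Odd m) (hG : OddFree G m) (hc : IsCl G m c) {D : ℝ}
    (hD : DegLe G D) :
    EE G c ≤ ∑ t, (#(AA G c t) : ℝ) * #(AA G c (t + 1)) + 2 * #(BB G c) * D := by
  have hshift : ∑ s, #(AA G c (s + 1)) * #(AA G c (s + 1 + 1)) =
      ∑ t, #(AA G c t) * #(AA G c (t + 1)) :=
    Equiv.sum_comp (Equiv.addRight (1 : ZMod m)) (fun t => #(AA G c t) * #(AA G c (t + 1)))
  have hbad : ∀ f : ZMod m → ZMod m, Function.Injective f →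
      ∑ s, ∑ x ∈ BB G c, (if G.Adj x (c (f s)) then #(Nb G x) else 0) ≤
      ∑ x ∈ BB G c, #(Nb G x) := by
    intro f hf
    rw [sum_comm]
    refine sum_le_sum fun x hx => ?_
    rw [← sum_filter, sum_const, smul_eq_mul]
    have h1 : #((univ : Finset (ZMod m)).filter (fun s => G.Adj x (c (f s)))) ≤ 1 := by
      rw [card_le_one]
      intro a ha b hb
      rw [mem_filter] at ha hb
      exact hf (asb_one ho hG hc hx ha.2 hb.2)
    calc _ ≤ 1 * #(Nb G x) := Nat.mul_le_mul_right _ h1
      _ = _ := one_mul _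
  have hnat : ∑ s, ee G c s ≤ ∑ t, #(AA G c t) * #(AA G c (t + 1)) +
      2 * ∑ x ∈ BB G c, #(Nb G x) := by
    have h1 := sum_le_sum (fun s (_ : s ∈ (univ : Finset (ZMod m))) => asb_ee hm ho hG hc s)
    rw [sum_add_distrib, sum_add_distrib, hshift] at h1
    have h2 := hbad (fun s => s) (fun a b h => h)
    have h3 := hbad (fun s => s + 1) (add_left_injective 1)
    omega
  have hreal : (∑ x ∈ BB G c, (#(Nb G x) : ℝ)) ≤ #(BB G c) * D := by
    have h1 : ∑ x ∈ BB G c, (#(Nb G x) : ℝ) ≤ ∑ x ∈ BB G c, D :=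
      sum_le_sum fun x _ => hD x
    rw [sum_const, nsmul_eq_mul] at h1
    exact h1
  have hcast : (∑ s, (ee G c s : ℝ)) ≤ ∑ t, (#(AA G c t) : ℝ) * #(AA G c (t + 1)) +
      2 * ∑ x ∈ BB G c, (#(Nb G x) : ℝ) := by
    exact_mod_cast hnat
  unfold EE
  linarith

end Pool.Agent.CycFD
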