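import Pool.Agent.W_1bfdb5fd_h19.AsA

/-!
# The classes of a shortest odd closed walk

`c` a closed walk of length `m`.  By `arc` two positions adjacent to the same vertex are equal or
differ by 2 (`CComb_pos`, `CComb_no4` in `W_1bfdb5_h19/CComb.lean`).
* `E_le`: let `(x, y)` be counted by `ee G c s`.  `x` bad: `x` is adjacent to at most one `c s`, and
  `y` is a neighbour of `x`: at most `#BB * D` triples `(s, x, y)`; the same for `y` bad.  If `y` is
  good, `y` is adjacent to `c (s+1)` and not to `c (s-1)`, so `y ∈ AA G c (s+2)`; if `x` is good,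
  `x ∈ AA G c (s-1)` or `x ∈ AA G c (s+1)`, and `x ∈ AA G c (s-1)` would give the walk
  `c (s-2), x, y, c (s+3)` of length 3.
* `nb_sum`: `F1`, `F5` of `CComb.lean`.  `b3_sum`: `CB3_left`, `CB3_add` in `CB3.lean` give
  `∑ #B3 = ∑ (#QS - #PS)`; `#QS ≤ 3` always (two elements of `QS` differ by 0, 2 or 4 up to sign).
* `qt_sum`: two elements of `QS G c w` differ by an even number at most 4, so every `w` is in at
  most one `QT G c t`.
-/

namespace Pool.Agent.CycFD

open Finset Pool.Agent.CycGT
open scoped Classical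

variable {V : Type} [Fintype V] {G : SimpleGraph V} {m : ℕ} [NeZero m] {c : ZMod m → V}

private lemma asc_diff (hm : 13 ≤ m) (ho : Odd m) (hG : OddFree G m) (hc : IsCl G m c) {w : V}
    {s s' : ZMod m} (h : Wk G 2 w (c s)) (h' : Wk G 2 w (c s')) :
    s' = s ∨ s' = s + 2 ∨ s' = s - 2 ∨ s' = s + 4 ∨ s' = s - 4 := by
  have h2 : Wk G 4 (c s) (c s') := h.symm.trans h'
  obtain ⟨e, he, hpar, hcase⟩ := arc (M := m) (h := 0) (by omega) ho hG hc h2
  have he4 : e = 0 ∨ e = 2 ∨ e = 4 := by omega
  rcases he4 with rfl | rfl | rfl <;> rcases hcase with h | h <;> simp at h <;> tauto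

private lemma asc_nz (hm : 13 ≤ m) (ho : Odd m) {n : ℕ}
    (hn : n = 2 ∨ n = 4 ∨ n = 6 ∨ n = 8 ∨ n = 10 ∨ n = 12) : (n : ZMod m) ≠ 0 :=
  nz (by omega) ho (by omega)

private lemma asc_not6 (hm : 13 ≤ m) (ho : Odd m) (hG : OddFree G m) (hc : IsCl G m c) {w : V}
    {s s' : ZMod m} (h : Wk G 2 w (c s)) (h' : Wk G 2 w (c s')) (e : s' = s + 6) : False := by
  have n2 := asc_nz (m := m) hm ho (n := 2) (by omega)
  have n4 := asc_nz (m := m) hm ho (n := 4) (by omega)
  have n6 := asc_nz (m := m) hm ho (n := 6) (by omega)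
  have n8 := asc_nz (m := m) hm ho (n := 8) (by omega)
  have n10 := asc_nz (m := m) hm ho (n := 10) (by omega)
  push_cast at n2 n4 n6 n8 n10
  rcases asc_diff hm ho hG hc h h' with a | a | a | a | a
  · exact n6 (by linear_combination a - e)
  · exact n4 (by linear_combination a - e)
  · exact n8 (by linear_combination a - e)
  · exact n2 (by linear_combination a - e)
  · exact n10 (by linear_combination a - e)

private lemma asc_not8 (hm : 13 ≤ m) (ho : Odd m) (hG : OddFree G m) (hc : IsCl G m c) {w : V}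
    {s s' : ZMod m} (h : Wk G 2 w (c s)) (h' : Wk G 2 w (c s')) (e : s' = s + 8) : False := by
  have n4 := asc_nz (m := m) hm ho (n := 4) (by omega)
  have n6 := asc_nz (m := m) hm ho (n := 6) (by omega)
  have n8 := asc_nz (m := m) hm ho (n := 8) (by omega)
  have n10 := asc_nz (m := m) hm ho (n := 10) (by omega)
  have n12 := asc_nz (m := m) hm ho (n := 12) (by omega)
  push_cast at n4 n6 n8 n10 n12
  rcases asc_diff hm ho hG hc h h' with a | a | a | a | a
  · exact n8 (by linear_combination a - e)
  · exact n6 (by linear_combination a - e)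
  · exact n10 (by linear_combination a - e)
  · exact n4 (by linear_combination a - e)
  · exact n12 (by linear_combination a - e)

private lemma asc_qs (hm : 13 ≤ m) (ho : Odd m) (hG : OddFree G m) (hc : IsCl G m c) (w : V) :
    #(QS G c w) ≤ 3 := by
  rcases (QS G c w).eq_empty_or_nonempty with h0 | ⟨s, hs⟩
  · rw [h0]; simp
  have hs' := CB3_mem_QS.1 hs
  by_cases h4 : s + 4 ∈ QS G c w
  · have hsub : QS G c w ⊆ {s, s + 2, s + 4} := by
      intro x hx
      simp only [Finset.mem_insert, Finset.mem_singleton]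
      rcases asc_diff hm ho hG hc hs' (CB3_mem_QS.1 hx) with a | a | a | a | a
      · exact Or.inl a
      · exact Or.inr (Or.inl a)
      · exact (asc_not6 hm ho hG hc (CB3_mem_QS.1 hx) (CB3_mem_QS.1 h4)
          (by rw [a]; ring)).elim
      · exact Or.inr (Or.inr a)
      · exact (asc_not8 hm ho hG hc (CB3_mem_QS.1 hx) (CB3_mem_QS.1 h4)
          (by rw [a]; ring)).elim
    exact (Finset.card_le_card hsub).trans Finset.card_le_three
  by_cases h2 : s + 2 ∈ QS G c w
  · have hsub : QS G c w ⊆ {s, s + 2, s - 2} := by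
      intro x hx
      simp only [Finset.mem_insert, Finset.mem_singleton]
      rcases asc_diff hm ho hG hc hs' (CB3_mem_QS.1 hx) with a | a | a | a | a
      · exact Or.inl a
      · exact Or.inr (Or.inl a)
      · exact Or.inr (Or.inr a)
      · exact absurd (a ▸ hx) h4
      · exact (asc_not6 hm ho hG hc (CB3_mem_QS.1 hx) (CB3_mem_QS.1 h2)
          (by rw [a]; ring)).elim
    exact (Finset.card_le_card hsub).trans Finset.card_le_three
  · have hsub : QS G c w ⊆ {s, s - 2, s - 4} := by
      intro x hx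
      simp only [Finset.mem_insert, Finset.mem_singleton]
      rcases asc_diff hm ho hG hc hs' (CB3_mem_QS.1 hx) with a | a | a | a | a
      · exact Or.inl a
      · exact absurd (a ▸ hx) h2
      · exact Or.inr (Or.inl a)
      · exact absurd (a ▸ hx) h4
      · exact Or.inr (Or.inr a)
    exact (Finset.card_le_card hsub).trans Finset.card_le_three

theorem b3_sum (hm : 13 ≤ m) (ho : Odd m) (hG : OddFree G m) (hc : IsCl G m c) :
    ∑ t, #(B3 G (c t) (c (t + 1))) ≤ Fintype.card V + 2 * #(BB G c) := by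
  rw [CB3_left]
  have h1 : Fintype.card V + 2 * #(BB G c) = ∑ w : V, (1 + if w ∈ BB G c then 2 else 0) := by
    rw [Finset.sum_add_distrib, Finset.sum_const, Finset.card_univ, smul_eq_mul, mul_one]
    congr 1
    rw [← Finset.sum_filter, Finset.sum_const, smul_eq_mul, Finset.filter_mem_eq_inter,
      Finset.univ_inter]
    ring
  rw [h1]
  refine Finset.sum_le_sum fun w _ => ?_
  have e1 := CB3_add hc w
  have e2 := asc_qs hm ho hG hc w
  by_cases hw : w ∈ BB G c
  · rw [if_pos hw]; omega
  · rw [if_neg hw]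
    rw [mem_BB] at hw
    push Not at hw
    obtain ⟨t, ht⟩ := hw
    rw [mem_AA] at ht
    obtain ⟨h3, h4⟩ := CB3_case_A (by omega) ho hG hc (CB3_mem_PS.2 ht.1) (CB3_mem_PS.2 ht.2)
    omega

private lemma asc_qt (hm : 13 ≤ m) (ho : Odd m) (hG : OddFree G m) (hc : IsCl G m c) {w : V}
    {t t' : ZMod m} (h : w ∈ QT G c t) (h' : w ∈ QT G c t') : t = t' := by
  rw [mem_QT] at h h'
  obtain ⟨a1, a2, a3⟩ := h
  obtain ⟨b1, b2, b3⟩ := h'
  rcases asc_diff hm ho hG hc a1 b1 with a | a | a | a | a
  · linear_combination -a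
  · exact absurd (by rw [show t' - 4 = t - 2 by linear_combination a]; exact a1) b2
  · exact absurd (by rw [show t - 4 = t' - 2 by linear_combination -a]; exact b1) a2
  · exact absurd (by rw [show t' - 6 = t - 2 by linear_combination a]; exact a1) b3
  · exact absurd (by rw [show t - 6 = t' - 2 by linear_combination -a]; exact b1) a3

theorem qt_sum (hm : 13 ≤ m) (ho : Odd m) (hG : OddFree G m) (hc : IsCl G m c) :
    ∑ t, #(QT G c t) ≤ Fintype.card V := by
  rw [← Finset.card_biUnion]
  · exact Finset.card_le_univ _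
  · intro t _ t' _ hne
    exact Finset.disjoint_left.2 fun w hw hw' => hne (asc_qt hm ho hG hc hw hw')

end Pool.Agent.CycFD
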