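import Pool.Agent.W_1bfdb5fd_h19.Df

/-!
# The classes of a shortest odd closed walk

`c` a closed walk of length `m`.  By `arc` two positions adjacent to the same vertex are equal or
differ by 2 (`CComb_pos`, `CComb_no4` in `W_1bfdb5_h19/CComb.lean`).
* `E_le`: let `(x, y)` be counted by `ee G c s`.  `x` bad: `x` is adjacent to at most one `c s`, and
  `y` is a neighbour of `x`: at most `#BB * D` triples `(s, x, y)`; the same for `y` bad.  If `y` is
  good, `y` is adjacent to `c (s+1)` and not to `c (s-1)`, so `y ∈ AA G c (s+2)`; if `x` is good,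
  `x ∈ AA G c (s-1)` or `x ∈ AA G c (s+1)`, and `x ∈ AA G c (s-1)` would give the walk
  `c (s-2), x, y, c (s+3)` of length 3.
* `nb_sum`: `F1`, `F5` of `CComb.lean`.  `b3_sum`: `CB3_left`, `CB3_add` in `CB3.lean` give
  `∑ #B3 = ∑ (#QS - #PS)`; `#QS ≤ 3` always (two elements of `QS` differ by 0, 2 or 4 up to sign).
* `qt_sum`: two elements of `QS G c w` differ by an even number at most 4, so every `w` is in at
  most one `QT G c t`.
-/

namespace Pool.Agent.CycFD

open Finset Pool.Agent.CycGT
open scoped Classical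

variable {V : Type} [Fintype V] {G : SimpleGraph V} {m : ℕ} [NeZero m] {c : ZMod m → V}

theorem AA_disj (hm : 13 ≤ m) (ho : Odd m) (hG : OddFree G m) (hc : IsCl G m c) {t t' : ZMod m}
    {w : V} (h : w ∈ AA G c t) (h' : w ∈ AA G c t') : t = t' := by
  rw [mem_AA] at h h'
  rcases CComb_pos ho hG hc h.1 h'.1 with e | e | e
  · have : t' = t := by linear_combination e
    exact this.symm
  · exact (CComb_no4 (by omega) ho hG hc h.1 h'.2 (by linear_combination e)).elim
  · exact (CComb_no4 (by omega) ho hG hc h'.1 h.2 (by linear_combination -e)).elim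

/-- The classes and the bad vertices partition `V`. -/
theorem AA_sum (hm : 13 ≤ m) (ho : Odd m) (hG : OddFree G m) (hc : IsCl G m c) :
    ∑ t, #(AA G c t) + #(BB G c) = Fintype.card V := by
  have key : ∀ w : V, #(univ.filter (fun t : ZMod m => w ∈ AA G c t)) +
      (if ∀ t, w ∉ AA G c t then 1 else 0) = 1 := by
    intro w
    by_cases hU : ∀ t, w ∉ AA G c t
    · rw [if_pos hU]
      have h1 : univ.filter (fun t : ZMod m => w ∈ AA G c t) = ∅ := by
        rw [eq_empty_iff_forall_notMem]
        intro a ha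
        exact hU a (mem_filter.1 ha).2
      rw [h1, card_empty]
    · rw [if_neg hU, add_zero]
      push Not at hU
      obtain ⟨t, ht⟩ := hU
      rw [card_eq_one]
      refine ⟨t, ?_⟩
      ext b
      simp only [mem_filter, mem_univ, true_and, mem_singleton]
      exact ⟨fun hb => AA_disj hm ho hG hc hb ht, fun hb => hb ▸ ht⟩
  have eA : ∑ t, #(AA G c t) = ∑ w : V, #(univ.filter (fun t : ZMod m => w ∈ AA G c t)) := by
    have e1 : ∀ t, #(AA G c t) = ∑ w : V, if w ∈ AA G c t then 1 else 0 := by
      intro t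
      rw [← card_filter]
      congr 1
      ext w
      simp
    have e2 : ∀ w : V, #(univ.filter (fun t : ZMod m => w ∈ AA G c t)) =
        ∑ t, if w ∈ AA G c t then 1 else 0 := fun w => card_filter _ _
    rw [sum_congr rfl fun t _ => e1 t, sum_congr rfl fun w _ => e2 w]
    exact sum_comm
  have eB : #(BB G c) = ∑ w : V, (if ∀ t, w ∉ AA G c t then 1 else 0) := by
    unfold BB
    rw [card_filter]
    refine sum_congr rfl fun w _ => ?_
    congr
  rw [eA, eB, ← sum_add_distrib, sum_congr rfl fun w _ => key w]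
  simp

theorem AA_self (hc : IsCl G m c) (t : ZMod m) : c t ∈ AA G c t := by
  rw [mem_AA]
  have h1 := hc (t - 1)
  have e : t - 1 + 1 = t := by ring
  rw [e] at h1
  exact ⟨h1.symm, hc t⟩

theorem nb_sum (hm : 13 ≤ m) (ho : Odd m) (hG : OddFree G m) (hc : IsCl G m c) :
    ∑ t, #(Nb G (c t)) + #(BB G c) ≤ 2 * Fintype.card V := by
  have h1 := F1 (by omega) ho hG hc
  have h5 := F5 (by omega) ho hG hc
  have hA := AA_sum hm ho hG hc
  have e : ∑ t, cA G c t = ∑ t, #(AA G c t) := rfl
  omega

end Pool.Agent.CycFD
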