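import Pool.Agent.W_1bfdb5fd_h19.Df

/-!
# Closed walks in the cycle

`pats r m` (in `W_1bfdb5_h19/NegA.lean`): the closed walks `h : ZMod r → ZMod m` with steps `1, -1`.
Let `r = m + 2 i` with `2 i < 2 m` and `m` odd.  Such a walk is given by `h 0` and by the signs; the
sum of the signs is divisible by `m`, odd and less than `3 m` in absolute value, so it is `m` or `-m`:
`i` signs of one kind and `m + i` of the other kind.
* `pats_at`, `pats_card`: exact counts.
* `pats_two`: fix `s`; `h 1 = h (-1) = s`: two choices for `h 0`, and the rest is a closed walk of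
  length `m + 2 (i - 1)` from `s` to `s` (for `i = 0` impossible).
* `pats_onto`: a closed walk that avoids a vertex is a closed walk in a path, so its length is even.
* `pats_visits`: by rotation all vertices of the cycle have the same total number of visits.
-/

namespace Pool.Agent.CycFD

open Finset Pool.Agent.CycGT
open scoped Classical

private lemma PtA_mem {r m : ℕ} [NeZero r] [NeZero m] {h : ZMod r → ZMod m} :
    h ∈ pats r m ↔ ∀ i, h (i + 1) = h i + 1 ∨ h i = h (i + 1) + 1 := by
  simp only [pats, mem_filter, mem_univ, true_and]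

private lemma PtA_one_ne {m : ℕ} (hm : 3 ≤ m) : (1 : ZMod m) ≠ -1 := by
  intro h
  have h1 : ((2 : ℕ) : ZMod m) = 0 := by
    push_cast
    linear_combination h
  rw [ZMod.natCast_eq_zero_iff] at h1
  have := Nat.le_of_dvd (by norm_num) h1
  omega

/-- the sign of a step -/
private noncomputable def PtA_sg {r m : ℕ} (S : Finset (ZMod r)) (t : ZMod r) : ZMod m :=
  if t ∈ S then 1 else -1

/-- the positive steps -/
private noncomputable def PtA_S {r m : ℕ} [NeZero r] (h : ZMod r → ZMod m) : Finset (ZMod r) :=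
  univ.filter (fun t => h (t + 1) = h t + 1)

/-- the walk with given positive steps -/
private noncomputable def PtA_h {r m : ℕ} (p : ZMod r) (s : ZMod m) (S : Finset (ZMod r)) :
    ZMod r → ZMod m :=
  fun t => s + ∑ u ∈ range (t - p).val, PtA_sg S (p + (u : ZMod r))

private lemma PtA_step {r m : ℕ} [NeZero r] [NeZero m] {h : ZMod r → ZMod m}
    (hh : h ∈ pats r m) (t : ZMod r) : h (t + 1) = h t + PtA_sg (PtA_S h) t := by
  rw [PtA_mem] at hh
  unfold PtA_sg
  by_cases h1 : h (t + 1) = h t + 1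
  · rw [if_pos]
    · exact h1
    · rw [PtA_S, mem_filter]
      exact ⟨mem_univ _, h1⟩
  · rw [if_neg]
    · rcases hh t with h2 | h2
      · exact absurd h2 h1
      · rw [h2]
        ring
    · rw [PtA_S, mem_filter]
      exact fun h3 => h1 h3.2

private lemma PtA_along {r m : ℕ} [NeZero r] [NeZero m] {h : ZMod r → ZMod m}
    (hh : h ∈ pats r m) (p : ZMod r) (u : ℕ) :
    h (p + (u : ZMod r)) = h p + ∑ l ∈ range u, PtA_sg (PtA_S h) (p + (l : ZMod r)) := by
  induction u with
  | zero => simp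
  | succ u ih =>
    rw [sum_range_succ, ← add_assoc, ← ih, ← PtA_step hh]
    congr 1
    push_cast
    ring

private lemma PtA_range {r m : ℕ} [NeZero r] (p : ZMod r) (S : Finset (ZMod r)) :
    ∑ l ∈ range r, PtA_sg (m := m) S (p + (l : ZMod r)) = ∑ t, PtA_sg (m := m) S t := by
  refine sum_bij (fun l _ => p + (l : ZMod r)) (fun _ _ => mem_univ _) ?_ ?_ (fun _ _ => rfl)
  · intro a ha b hb hab
    have h1 : (a : ZMod r) = (b : ZMod r) := add_left_cancel hab
    have h2 := congrArg ZMod.val h1
    rwa [ZMod.val_natCast_of_lt (mem_range.1 ha), ZMod.val_natCast_of_lt (mem_range.1 hb)] at h2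
  · intro t _
    refine ⟨(t - p).val, mem_range.2 (ZMod.val_lt _), ?_⟩
    rw [ZMod.natCast_zmod_val]
    ring

private lemma PtA_tot {r m : ℕ} [NeZero r] [NeZero m] {h : ZMod r → ZMod m}
    (hh : h ∈ pats r m) : ∑ t, PtA_sg (m := m) (PtA_S h) t = 0 := by
  have h1 := PtA_along hh 0 r
  rw [ZMod.natCast_self, add_zero, PtA_range] at h1
  exact left_eq_add.1 h1

private lemma PtA_hstep {r m : ℕ} [NeZero r] (p : ZMod r) (s : ZMod m) (S : Finset (ZMod r))
    (hS : ∑ t, PtA_sg (m := m) S t = 0) (t : ZMod r) :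
    PtA_h p s S (t + 1) = PtA_h p s S t + PtA_sg S t := by
  have hr : 0 < r := Nat.pos_of_ne_zero (NeZero.ne r)
  have e : p + (((t - p).val : ℕ) : ZMod r) = t := by
    rw [ZMod.natCast_zmod_val]
    ring
  have hlt : (t - p).val < r := ZMod.val_lt _
  have hv : (t + 1 - p) = (((t - p).val + 1 : ℕ) : ZMod r) := by
    push_cast
    rw [ZMod.natCast_zmod_val]
    ring
  by_cases hc : (t - p).val + 1 < r
  · unfold PtA_h
    rw [hv, ZMod.val_natCast_of_lt hc, sum_range_succ, e, add_assoc]
  · have hc' : (t - p).val + 1 = r := by omega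
    have h0 : (t + 1 - p).val = 0 := by
      rw [hv, hc', ZMod.natCast_self, ZMod.val_zero]
    have h1 := PtA_range (m := m) p S
    rw [hS] at h1
    have h2 : ∑ l ∈ range ((t - p).val + 1), PtA_sg (m := m) S (p + (l : ZMod r)) = 0 := by
      rw [hc']
      exact h1
    rw [sum_range_succ, e] at h2
    unfold PtA_h
    rw [h0, range_zero, sum_empty, add_assoc, h2]

private lemma PtA_hmem {r m : ℕ} [NeZero r] [NeZero m] (p : ZMod r) (s : ZMod m)
    (S : Finset (ZMod r)) (hS : ∑ t, PtA_sg (m := m) S t = 0) :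
    PtA_h p s S ∈ pats r m := by
  rw [PtA_mem]
  intro t
  rw [PtA_hstep p s S hS]
  unfold PtA_sg
  by_cases h : t ∈ S
  · rw [if_pos h]
    exact Or.inl rfl
  · rw [if_neg h]
    right
    ring

private lemma PtA_hS {r m : ℕ} [NeZero r] [NeZero m] (hm : 3 ≤ m) (p : ZMod r) (s : ZMod m)
    (S : Finset (ZMod r)) (hS : ∑ t, PtA_sg (m := m) S t = 0) :
    PtA_S (PtA_h p s S) = S := by
  ext t
  rw [PtA_S, mem_filter, PtA_hstep p s S hS]
  unfold PtA_sg
  by_cases h : t ∈ S
  · rw [if_pos h]
    simp [h]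
  · rw [if_neg h]
    have := PtA_one_ne hm
    simp only [mem_univ, true_and, add_right_inj, h, iff_false]
    exact fun h1 => this h1.symm

private lemma PtA_hp {r m : ℕ} (p : ZMod r) (s : ZMod m) (S : Finset (ZMod r)) :
    PtA_h p s S p = s := by
  unfold PtA_h
  rw [sub_self, ZMod.val_zero, range_zero, sum_empty, add_zero]

private lemma PtA_hback {r m : ℕ} [NeZero r] [NeZero m] {h : ZMod r → ZMod m}
    (hh : h ∈ pats r m) (p : ZMod r) : PtA_h p (h p) (PtA_S h) = h := by
  funext t
  have h1 := PtA_along hh p (t - p).val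
  rw [ZMod.natCast_zmod_val, add_sub_cancel] at h1
  rw [h1]
  rfl

/-- the sum of the signs vanishes iff there are `i` or `m + i` positive ones -/
private lemma PtA_sum {m i : ℕ} [NeZero m] (ho : Odd m) (hi : i < m)
    (S : Finset (ZMod (m + 2 * i))) :
    ∑ t, PtA_sg (m := m) S t = 0 ↔ #S = i ∨ #S = m + i := by
  have h1 : ∑ t, PtA_sg (m := m) S t = (#S : ZMod m) - (#Sᶜ : ZMod m) := by
    unfold PtA_sg
    rw [sum_ite, sum_const, sum_const, nsmul_eq_mul, nsmul_eq_mul, mul_one, mul_neg, mul_one,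
      ← sub_eq_add_neg]
    congr 2
    · congr 1
      ext t
      simp
    · congr 1
      ext t
      simp
  have h2 : #S + #Sᶜ = m + 2 * i := by
    rw [card_add_card_compl, ZMod.card]
  have h3 : (#Sᶜ : ZMod m) = ((m + 2 * i : ℕ) : ZMod m) - (#S : ZMod m) := by
    have h2' := congrArg (fun x : ℕ => (x : ZMod m)) h2
    simp only [Nat.cast_add] at h2'
    rw [Nat.cast_add]
    linear_combination h2'
  have h4 : ∑ t, PtA_sg (m := m) S t = 2 * ((#S : ZMod m) - (i : ZMod m)) := by
    rw [h1, h3]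
    push_cast
    rw [ZMod.natCast_self]
    ring
  have hu : IsUnit (2 : ZMod m) := by
    have : IsUnit ((2 : ℕ) : ZMod m) := by
      rw [ZMod.isUnit_iff_coprime]
      exact (Nat.coprime_two_left).2 ho
    simpa using this
  rw [h4, hu.mul_right_eq_zero, sub_eq_zero, ZMod.natCast_eq_natCast_iff]
  have hle : #S ≤ m + 2 * i := by omega
  constructor
  · intro h
    have h5 : (#S) % m = i := by
      have := h
      rw [Nat.ModEq, Nat.mod_eq_of_lt hi] at this
      exact this
    have h6 := Nat.div_add_mod (#S) m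
    rw [h5] at h6
    have h7 : #S / m < 2 := by
      by_contra hcon
      have h8 : m * 2 ≤ m * (#S / m) := Nat.mul_le_mul_left m (not_lt.1 hcon)
      omega
    rcases Nat.lt_or_ge (#S / m) 1 with h9 | h9
    · left
      have : #S / m = 0 := Nat.lt_one_iff.1 h9
      rw [this, Nat.mul_zero, Nat.zero_add] at h6
      exact h6.symm
    · right
      have : #S / m = 1 := by omega
      rw [this, Nat.mul_one] at h6
      exact h6.symm
  · rintro (h | h)
    · rw [h]
    · rw [h]
      exact Nat.add_modEq_left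

private lemma PtA_sets {m i : ℕ} [NeZero m] (hm : 3 ≤ m) (ho : Odd m) (hi : i < m)
    (p : ZMod (m + 2 * i)) (s : ZMod m) :
    #((pats (m + 2 * i) m).filter (fun h => h p = s)) =
      #((univ : Finset (Finset (ZMod (m + 2 * i)))).filter (fun S => #S = i ∨ #S = m + i)) := by
  refine card_nbij' (fun h => PtA_S h) (fun S => PtA_h p s S) ?_ ?_ ?_ ?_
  · intro h hh
    rw [mem_coe, mem_filter] at hh
    rw [mem_coe, mem_filter]
    exact ⟨mem_univ _, (PtA_sum ho hi _).1 (PtA_tot hh.1)⟩
  · intro S hS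
    rw [mem_coe, mem_filter] at hS
    rw [mem_coe, mem_filter]
    exact ⟨PtA_hmem p s S ((PtA_sum ho hi _).2 hS.2), PtA_hp p s S⟩
  · intro h hh
    rw [mem_coe, mem_filter] at hh
    show PtA_h p s (PtA_S h) = h
    rw [← hh.2]
    exact PtA_hback hh.1 p
  · intro S hS
    rw [mem_coe, mem_filter] at hS
    exact PtA_hS hm p s S ((PtA_sum ho hi _).2 hS.2)

theorem pats_at {m : ℕ} [NeZero m] (hm : 3 ≤ m) (ho : Odd m) (i : ℕ) (hi : i < m)
    (p : ZMod (m + 2 * i)) (s : ZMod m) :
    #((pats (m + 2 * i) m).filter (fun h => h p = s)) = 2 * (m + 2 * i).choose i := by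
  rw [PtA_sets hm ho hi, filter_or, card_union_of_disjoint]
  · have e1 : ∀ a : ℕ, #((univ : Finset (Finset (ZMod (m + 2 * i)))).filter (fun S => #S = a)) =
        (m + 2 * i).choose a := by
      intro a
      have : ((univ : Finset (Finset (ZMod (m + 2 * i)))).filter (fun S => #S = a)) =
          powersetCard a univ := by
        ext S
        rw [mem_filter, mem_powersetCard]
        simp
      rw [this, card_powersetCard, card_univ, ZMod.card]
    rw [e1, e1, Nat.choose_symm_of_eq_add (n := m + 2 * i) (a := m + i) (b := i) (by ring)]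
    ring
  · rw [disjoint_left]
    intro S h1 h2
    rw [mem_filter] at h1 h2
    omega

theorem pats_card {m : ℕ} [NeZero m] (hm : 3 ≤ m) (ho : Odd m) (i : ℕ) (hi : i < m) :
    #(pats (m + 2 * i) m) = 2 * m * (m + 2 * i).choose i := by
  have h1 := card_eq_sum_card_fiberwise (s := pats (m + 2 * i) m) (t := (univ : Finset (ZMod m)))
    (f := fun h => h 0) (fun _ _ => mem_coe.2 (mem_univ _))
  rw [h1, sum_congr rfl (fun s _ => pats_at hm ho i hi 0 s), sum_const, card_univ, ZMod.card,
    smul_eq_mul]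
  ring

private lemma PtA_card1 {r : ℕ} [NeZero r] (i : ℕ) (a : ZMod r) :
    #((univ : Finset (Finset (ZMod r))).filter (fun T => #T = i ∧ a ∈ T)) ≤ i * r ^ (i - 1) := by
  rcases Nat.eq_zero_or_pos i with rfl | hi
  · rw [zero_mul, nonpos_iff_eq_zero, card_eq_zero, filter_eq_empty_iff]
    rintro T - ⟨h1, h2⟩
    rw [card_eq_zero] at h1
    rw [h1] at h2
    exact notMem_empty a h2
  · have h1 : #((univ : Finset (Finset (ZMod r))).filter (fun T => #T = i ∧ a ∈ T)) ≤
        #(powersetCard (i - 1) (univ : Finset (ZMod r))) := by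
      refine card_le_card_of_injOn (fun T => T.erase a) ?_ ?_
      · intro T hT
        rw [mem_coe, mem_filter] at hT
        rw [mem_coe, mem_powersetCard]
        refine ⟨subset_univ _, ?_⟩
        rw [card_erase_of_mem hT.2.2, hT.2.1]
      · intro T hT T' hT' he
        rw [mem_coe, mem_filter] at hT hT'
        have he' : T.erase a = T'.erase a := he
        rw [← insert_erase hT.2.2, he', insert_erase hT'.2.2]
    rw [card_powersetCard, card_univ, ZMod.card] at h1
    calc _ ≤ _ := h1
      _ ≤ r ^ (i - 1) := Nat.choose_le_pow _ _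
      _ ≤ i * r ^ (i - 1) := Nat.le_mul_of_pos_left _ hi

theorem pats_two {m : ℕ} [NeZero m] (hm : 3 ≤ m) (ho : Odd m) (i : ℕ) (hi : i < m) (s : ZMod m) :
    #((pats (m + 2 * i) m).filter (fun h => h 1 = s ∧ h (-1) = s)) ≤
      4 * i * (m + 2 * i) ^ (i - 1) := by
  have h2 : (2 : ZMod m) ≠ 0 := by
    intro h
    exact PtA_one_ne hm (by linear_combination h)
  obtain ⟨A, hA⟩ : ∃ A : ZMod (m + 2 * i) → Finset (Finset (ZMod (m + 2 * i))),
      A = fun a => univ.filter (fun T => #T = i ∧ a ∈ T) := ⟨_, rfl⟩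
  obtain ⟨B, hB⟩ : ∃ B : ZMod (m + 2 * i) → Finset (Finset (ZMod (m + 2 * i))),
      B = fun a => (A a).image (fun T => Tᶜ) := ⟨_, rfl⟩
  have cA : ∀ a, #(A a) ≤ i * (m + 2 * i) ^ (i - 1) := by
    intro a
    rw [hA]
    exact PtA_card1 i a
  have cB : ∀ a, #(B a) ≤ i * (m + 2 * i) ^ (i - 1) := by
    intro a
    rw [hB]
    exact card_image_le.trans (cA a)
  have key : #((pats (m + 2 * i) m).filter (fun h => h 1 = s ∧ h (-1) = s)) ≤
      #((A (-1) ∪ A 0) ∪ (B (-1) ∪ B 0)) := by
    refine card_le_card_of_injOn (fun h => PtA_S h) ?_ ?_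
    · intro h hh
      rw [mem_coe, mem_filter] at hh
      obtain ⟨h3, h4, h5⟩ := hh
      have s1 := PtA_step h3 (-1)
      have s0 := PtA_step h3 0
      rw [neg_add_cancel, h5] at s1
      rw [zero_add, h4, s1] at s0
      have ht := (PtA_sum ho hi _).1 (PtA_tot h3)
      have hx : (-1 ∈ PtA_S h ∧ (0 : ZMod (m + 2 * i)) ∉ PtA_S h) ∨
          (-1 ∉ PtA_S h ∧ (0 : ZMod (m + 2 * i)) ∈ PtA_S h) := by
        by_cases c1 : -1 ∈ PtA_S h
        · by_cases c2 : (0 : ZMod (m + 2 * i)) ∈ PtA_S h
          · exfalso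
            unfold PtA_sg at s0
            rw [if_pos c1, if_pos c2] at s0
            exact h2 (by linear_combination -s0)
          · exact Or.inl ⟨c1, c2⟩
        · by_cases c2 : (0 : ZMod (m + 2 * i)) ∈ PtA_S h
          · exact Or.inr ⟨c1, c2⟩
          · exfalso
            unfold PtA_sg at s0
            rw [if_neg c1, if_neg c2] at s0
            exact h2 (by linear_combination s0)
      have hcc : #(PtA_S h) + #(PtA_S h)ᶜ = m + 2 * i := by
        rw [card_add_card_compl, ZMod.card]
      rw [mem_coe, mem_union, mem_union, mem_union]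
      rcases ht with ht | ht
      · left
        rw [hA]
        simp only [mem_filter, mem_univ, true_and]
        rcases hx with hx | hx
        · exact Or.inl ⟨ht, hx.1⟩
        · exact Or.inr ⟨ht, hx.2⟩
      · right
        have hci : #(PtA_S h)ᶜ = i := by omega
        rw [hB, hA]
        simp only [mem_image, mem_filter, mem_univ, true_and]
        rcases hx with hx | hx
        · exact Or.inr ⟨(PtA_S h)ᶜ, ⟨hci, mem_compl.2 hx.2⟩, compl_compl _⟩
        · exact Or.inl ⟨(PtA_S h)ᶜ, ⟨hci, mem_compl.2 hx.1⟩, compl_compl _⟩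
    · intro h hh h' hh' he
      rw [mem_coe, mem_filter] at hh hh'
      have he' : PtA_S h = PtA_S h' := he
      rw [← PtA_hback hh.1 (-1), ← PtA_hback hh'.1 (-1), he', hh.2.2, hh'.2.2]
  have u1 := card_union_le (A (-1) ∪ A 0) (B (-1) ∪ B 0)
  have u2 := card_union_le (A (-1)) (A 0)
  have u3 := card_union_le (B (-1)) (B 0)
  have a1 := cA (-1)
  have a2 := cA 0
  have b1 := cB (-1)
  have b2 := cB 0
  have e : 4 * i * (m + 2 * i) ^ (i - 1) = 4 * (i * (m + 2 * i) ^ (i - 1)) := by ring
  rw [e]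
  omega

end Pool.Agent.CycFD
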