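import Pool.Agent.W_1bfdb5fd_h19.RaA
import Pool.Agent.W_1bfdb5_h19.Red1
import Pool.Agent.W_1bfdb5_h19.Red2
import Pool.Agent.W_1bfdb5_h19.Red4

/-!
# The asymptotic upper bound, general length

Copies of the proofs of `sampling` (`W_1bfdb5_h19/Red3.lean`) and `upper_asymp`
(`W_1bfdb5_h19/Red4.lean`) with `M` in the place of `2 r + 5`.  (Copy the private lemmas
`Red3_min`, `Red3_count`, `Red3_sum`, `red4_cast`, `red4_small`, `red4_q` here under new names.)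
-/

namespace Pool.Agent.CycFD

open Finset Pool.Agent.CycGT
open scoped Classical

private lemma raB_cast {V : Type} [Fintype V] (G : SimpleGraph V) (a b : ℕ) [NeZero a] [NeZero b]
    (h : a = b) : #(clos G a) = #(clos G b) := by
  subst h
  rfl

private lemma raB_small (r : ℕ) : ∀ k i : ℕ, i + k + 1 = r → ∀ η : ℝ, 0 < η →
    ∃ N : ℕ, ∀ n ≥ N, ∀ G : SimpleGraph (Fin n), (SimpleGraph.cycleGraph (2 * r + 1)).Free G →
      (#(clos G (2 * i + 3)) : ℝ) / (n : ℝ) ^ (2 * i + 3) ≤ η := by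
  intro k
  induction k with
  | zero =>
    intro i hi η hη
    obtain ⟨N, hN⟩ := exists_nat_gt (((2 * i + 3 : ℕ) : ℝ) ^ 2 / η)
    refine ⟨max N 1, fun n hn G hG => ?_⟩
    have hn1 : 1 ≤ n := le_trans (le_max_right _ _) hn
    have hn0 : (0 : ℝ) < n := by exact_mod_cast hn1
    have hnN : (N : ℝ) ≤ n := by exact_mod_cast le_trans (le_max_left _ _) hn
    have hG' : (SimpleGraph.cycleGraph (2 * i + 3)).Free G := by
      have e : 2 * r + 1 = 2 * i + 3 := by omega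
      rw [← e]
      exact hG
    have h1 := free_clos G (2 * i + 3) (by omega) hG'
    rw [Fintype.card_fin] at h1
    have h2 : (#(clos G (2 * i + 3)) : ℝ) ≤
        ((2 * i + 3 : ℕ) : ℝ) ^ 2 * (n : ℝ) ^ (2 * i + 3 - 1) := by exact_mod_cast h1
    have e2 : (n : ℝ) ^ (2 * i + 3) = (n : ℝ) ^ (2 * i + 3 - 1) * n := by
      rw [← pow_succ]; congr 1
    rw [div_le_iff₀ (by positivity), e2]
    have h3 : ((2 * i + 3 : ℕ) : ℝ) ^ 2 ≤ η * n := by
      rw [div_lt_iff₀ hη] at hN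
      nlinarith
    calc (#(clos G (2 * i + 3)) : ℝ) ≤ ((2 * i + 3 : ℕ) : ℝ) ^ 2 * (n : ℝ) ^ (2 * i + 3 - 1) := h2
      _ ≤ (η * n) * (n : ℝ) ^ (2 * i + 3 - 1) := by gcongr
      _ = η * ((n : ℝ) ^ (2 * i + 3 - 1) * n) := by ring
  | succ k ih =>
    intro i hi η hη
    obtain ⟨N, hN⟩ := ih (i + 1) (by omega) ((η / 2) ^ 4) (by positivity)
    refine ⟨max N 1, fun n hn G hG => ?_⟩
    have hn1 : 1 ≤ n := le_trans (le_max_right _ _) hn
    have hn0 : (0 : ℝ) < n := by exact_mod_cast hn1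
    have h1 := hN n (le_trans (le_max_left _ _) hn) G hG
    have h2 := step_up G (2 * i + 3) (by omega)
    rw [Fintype.card_fin] at h2
    have e1 : #(clos G (2 * (i + 1) + 3)) = #(clos G (2 * i + 3 + 2)) :=
      raB_cast G _ _ (by ring)
    have e2 : (n : ℝ) ^ (2 * (i + 1) + 3) = (n : ℝ) ^ (2 * i + 3 + 2) := by
      congr 1
    rw [e1, e2, div_le_iff₀ (by positivity)] at h1
    have h3 : ((#(clos G (2 * i + 3)) : ℝ) / (n : ℝ) ^ (2 * i + 3) / 2) ^ 4 ≤ (η / 2) ^ 4 := by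
      have := h2.trans h1
      exact le_of_mul_le_mul_right this (by positivity)
    have h4 : (#(clos G (2 * i + 3)) : ℝ) / (n : ℝ) ^ (2 * i + 3) / 2 ≤ η / 2 :=
      (pow_le_pow_iff_left₀ (by positivity) (by positivity) (by norm_num)).mp h3
    linarith

private lemma raB_q (M : ℕ) (ε : ℝ) (hε : 0 < ε) :
    ∃ q : ℕ, 1 ≤ q ∧ 1 - ε / 2 ≤ (q.descFactorial M : ℝ) / (q : ℝ) ^ M := by
  obtain ⟨q, hq⟩ := exists_nat_gt (max (2 * (M : ℝ) ^ 2 / ε) ((M : ℝ) + 1))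
  have hq1 : 2 * (M : ℝ) ^ 2 / ε < q := lt_of_le_of_lt (le_max_left _ _) hq
  have hq2 : (M : ℝ) + 1 < q := lt_of_le_of_lt (le_max_right _ _) hq
  have hqM : M + 1 < q := by exact_mod_cast hq2
  have hq0 : (0 : ℝ) < q := by
    have : (0 : ℝ) ≤ M := Nat.cast_nonneg _
    linarith
  refine ⟨q, by omega, ?_⟩
  have h1 : (q + 1 - M) ^ M ≤ q.descFactorial M := Nat.pow_sub_le_descFactorial q M
  have h2 : ((q : ℝ) - M) ^ M ≤ (q.descFactorial M : ℝ) := by
    have h3 : ((q + 1 - M : ℕ) : ℝ) = (q : ℝ) + 1 - M := by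
      rw [Nat.cast_sub (by omega)]; push_cast; ring
    calc ((q : ℝ) - M) ^ M ≤ ((q + 1 - M : ℕ) : ℝ) ^ M := by
          rw [h3]
          have : (0 : ℝ) ≤ (q : ℝ) - M := by linarith
          gcongr
          linarith
      _ ≤ (q.descFactorial M : ℝ) := by exact_mod_cast h1
  have h3 : 1 + (M : ℝ) * (-(M / q)) ≤ (1 + (-(M / q))) ^ M := by
    apply one_add_mul_le_pow
    have : (M : ℝ) / q ≤ 1 := by
      rw [div_le_one hq0]; linarith
    linarith
  have h4 : (1 + (-(M / q : ℝ))) ^ M = ((q : ℝ) - M) ^ M / (q : ℝ) ^ M := by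
    rw [← div_pow]
    congr 1
    field_simp
    ring
  rw [h4] at h3
  have h5 : (M : ℝ) * (M / q) ≤ ε / 2 := by
    rw [div_lt_iff₀ hε] at hq1
    rw [mul_div_assoc', div_le_iff₀ hq0]
    nlinarith
  calc 1 - ε / 2 ≤ 1 + (M : ℝ) * (-(M / q)) := by linarith
    _ ≤ ((q : ℝ) - M) ^ M / (q : ℝ) ^ M := h3
    _ ≤ _ := by gcongr

theorem upper_gen (r : ℕ) (hr : 1 ≤ r) (M : ℕ) [NeZero M] (B : ℝ) (hB0 : 0 ≤ B)
    (hB : ∀ (q : ℕ) (H : SimpleGraph (Fin q)), OddFree H (2 * r + 3) →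
      (#(clos H M) : ℝ) ≤ B * (q : ℝ) ^ M)
    (ε : ℝ) (hε : 0 < ε) :
    ∃ N : ℕ, ∀ n ≥ N, ∀ G : SimpleGraph (Fin n), (SimpleGraph.cycleGraph (2 * r + 1)).Free G →
      (#(clos G M) : ℝ) ≤ (B + ε) * (n : ℝ) ^ M := by
  obtain ⟨q, hq1, hq⟩ := raB_q M ε hε
  have hq0 : (0 : ℝ) < q := by exact_mod_cast hq1
  have hq1' : (1 : ℝ) ≤ q := by exact_mod_cast hq1
  have hr0 : (0 : ℝ) < r := by exact_mod_cast hr
  set η : ℝ := ε / (2 * (r * (q : ℝ) ^ (2 * r + 3))) with hη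
  have hη0 : 0 < η := by positivity
  have hch : ∀ i : ℕ, ∃ N : ℕ, i < r → ∀ n ≥ N, ∀ G : SimpleGraph (Fin n),
      (SimpleGraph.cycleGraph (2 * r + 1)).Free G →
      (#(clos G (2 * i + 3)) : ℝ) / (n : ℝ) ^ (2 * i + 3) ≤ η := by
    intro i
    by_cases hi : i < r
    · obtain ⟨N, hN⟩ := raB_small r (r - 1 - i) i (by omega) η hη0
      exact ⟨N, fun _ => hN⟩
    · exact ⟨0, fun h => absurd h hi⟩
  choose f hf using hch
  refine ⟨(range r).sup f + 1, fun n hn G hG => ?_⟩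
  have hn1 : 1 ≤ n := by omega
  have hn0 : (0 : ℝ) < n := by exact_mod_cast hn1
  have : Nonempty (Fin n) := ⟨⟨0, by omega⟩⟩
  have h1 := sampling_gen r M B hB0 hB G q
  rw [Fintype.card_fin] at h1
  set d : ℝ := (#(clos G M) : ℝ) / (n : ℝ) ^ M with hd
  have hd0 : 0 ≤ d := by positivity
  have hd1 : d ≤ 1 := by
    rw [hd, div_le_one (by positivity)]
    have h2 : #(clos G M) ≤ Fintype.card (ZMod M → Fin n) :=
      Finset.card_le_univ _
    rw [Fintype.card_fun, Fintype.card_fin, ZMod.card] at h2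
    exact_mod_cast h2
  have hsum : ∑ i ∈ range r, (q : ℝ) ^ (2 * i + 3) *
      ((#(clos G (2 * i + 3)) : ℝ) / (n : ℝ) ^ (2 * i + 3)) ≤ ε / 2 := by
    calc ∑ i ∈ range r, (q : ℝ) ^ (2 * i + 3) *
          ((#(clos G (2 * i + 3)) : ℝ) / (n : ℝ) ^ (2 * i + 3))
        ≤ ∑ i ∈ range r, (q : ℝ) ^ (2 * r + 3) * η := by
          apply Finset.sum_le_sum
          intro i hi
          rw [Finset.mem_range] at hi
          have h3 : f i ≤ (range r).sup f := Finset.le_sup (Finset.mem_range.2 hi)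
          have h4 := hf i hi n (by omega) G hG
          have h5 : (q : ℝ) ^ (2 * i + 3) ≤ (q : ℝ) ^ (2 * r + 3) :=
            pow_le_pow_right₀ hq1' (by omega)
          exact mul_le_mul h5 h4 (by positivity) (by positivity)
      _ = r * ((q : ℝ) ^ (2 * r + 3) * η) := by
          rw [Finset.sum_const, Finset.card_range, nsmul_eq_mul]
      _ = ε / 2 := by
          rw [hη]
          field_simp
  have h2 : (q.descFactorial M : ℝ) / (q : ℝ) ^ M * d ≤ B + ε / 2 := by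
    have h3 : (q.descFactorial M : ℝ) * d ≤ (q : ℝ) ^ M * (B + ε / 2) := by
      refine h1.trans ?_
      gcongr
    rw [div_mul_eq_mul_div, div_le_iff₀ (by positivity)]
    linarith
  have h3 : d ≤ B + ε := by
    have h4 : (1 - ε / 2) * d ≤ (q.descFactorial M : ℝ) / (q : ℝ) ^ M * d := by
      gcongr
    nlinarith
  rw [hd, div_le_iff₀ (by positivity)] at h3
  exact h3

end Pool.Agent.CycFD
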