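import Pool.Agent.W_1bfdb5fd_h19.RbA
import Pool.Agent.W_1bfdb5fd_h19.Ra
import Pool.Agent.W_1bfdb5fd_h19.PtA
import Pool.Agent.W_1bfdb5_h19.Asym

/-!
# From closed walks to the generalized Turan number, general length

* `cKL_fix`: in the sum of `cKL` only `1` contributes, as `3 (l + 2) > l + 2 + 2 j`.
* `CG_clos`: `cls_clos` for the identity map `Fin m → ZMod m`.
* `asym_gen`: upper bound `upper_gen` and `copy_le` as in `asym` (`W_1bfdb5_h19/Asym.lean`); lower
  bound `lower_of` (`W_1bfdb5_h19/Neg0.lean`) with `H = CG (identity)` and `x < cKL`.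
* `exact_gen`: `oddFree_of_free`, `copy_le`.
-/

namespace Pool.Agent.CycFD

open Finset Filter Topology Pool.Agent.CycGT
open scoped Classical

theorem asym_gen (m j : ℕ) [NeZero m] (hm : 5 ≤ m) (ho : Odd m) (hj : j < m)
    (hB : ∀ (q : ℕ) (H : SimpleGraph (Fin q)), OddFree H m →
      (#(clos H (m + 2 * j)) : ℝ) * (m : ℝ) ^ (m + 2 * j) ≤
        2 * m * ((m + 2 * j).choose j : ℝ) * (q : ℝ) ^ (m + 2 * j)) :
    Tendsto (fun n : ℕ => (exC n (m + 2 * j) (m - 2) : ℝ) / (n : ℝ) ^ (m + 2 * j)) atTop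
      (𝓝 (cKL (m + 2 * j) (m - 2))) := by
  obtain ⟨r, hr⟩ : ∃ r, m = 2 * r + 3 := by
    obtain ⟨a, ha⟩ := ho
    exact ⟨a - 1, by omega⟩
  have hm0 : (0 : ℝ) < (m : ℝ) := by exact_mod_cast (by omega : 0 < m)
  have hM0 : (0 : ℝ) < (m : ℝ) + 2 * (j : ℝ) := by positivity
  set L : ℝ := cKL (m + 2 * j) (m - 2) with hL
  have hLe : 2 * ((m : ℝ) + 2 * (j : ℝ)) * L =
      2 * m * ((m + 2 * j).choose j : ℝ) / (m : ℝ) ^ (m + 2 * j) := by
    rw [hL, cKL_fix m j hm hj]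
    field_simp
  have hL0 : 0 ≤ L := by
    have h1 : 0 ≤ 2 * ((m : ℝ) + 2 * (j : ℝ)) * L := by
      rw [hLe]
      positivity
    by_contra h2
    push Not at h2
    have h3 : 2 * ((m : ℝ) + 2 * (j : ℝ)) * L < 0 := mul_neg_of_pos_of_neg (by positivity) h2
    linarith
  have hl : m - 2 = 2 * r + 1 := by omega
  have hB' : ∀ (q : ℕ) (H : SimpleGraph (Fin q)), OddFree H (2 * r + 3) →
      (#(clos H (m + 2 * j)) : ℝ) ≤ (2 * ((m : ℝ) + 2 * (j : ℝ)) * L) * (q : ℝ) ^ (m + 2 * j) := by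
    intro q H hH
    rw [← hr] at hH
    have h := hB q H hH
    rw [hLe]
    rw [← le_div_iff₀ (by positivity)] at h
    calc _ ≤ _ := h
      _ = _ := by ring
  have hodd : Odd (m - 2) := ⟨r, hl⟩
  have hfree0 : ∀ n : ℕ, (SimpleGraph.cycleGraph (m - 2)).Free
      (Bl n (CG (fun x : Fin m => ((x : ℕ) : ZMod m)))) := fun n =>
    free_of_oddFree (Bl_odd n (cls_odd ho _)) hodd (by omega) (by omega)
  rw [Metric.tendsto_atTop]
  intro ε hε
  -- upper bound
  obtain ⟨N1, hN1⟩ := upper_gen r (by omega) (m + 2 * j) (2 * ((m : ℝ) + 2 * (j : ℝ)) * L)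
    (by positivity) hB' (2 * ((m : ℝ) + 2 * (j : ℝ)) * (ε / 2)) (by positivity)
  -- lower bound
  have hx : (L - ε / 2) * (2 * ((m + 2 * j : ℕ) : ℝ) * (m : ℝ) ^ (m + 2 * j)) <
      (#(clos (CG (fun x : Fin m => ((x : ℕ) : ZMod m))) (m + 2 * j)) : ℝ) := by
    rw [CG_clos (by omega), pats_card (by omega) ho j hj]
    push_cast
    have h1 : L * (2 * ((m : ℝ) + 2 * (j : ℝ)) * (m : ℝ) ^ (m + 2 * j)) =
        2 * m * ((m + 2 * j).choose j : ℝ) := by
      calc L * (2 * ((m : ℝ) + 2 * (j : ℝ)) * (m : ℝ) ^ (m + 2 * j))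
          = (2 * ((m : ℝ) + 2 * (j : ℝ)) * L) * (m : ℝ) ^ (m + 2 * j) := by ring
        _ = _ := by
          rw [hLe]
          field_simp
    have h2 : 0 < ε / 2 * (2 * ((m : ℝ) + 2 * (j : ℝ)) * (m : ℝ) ^ (m + 2 * j)) := by positivity
    rw [sub_mul, h1]
    linarith
  obtain ⟨N2, hN2⟩ := lower_of (k := m + 2 * j) (by omega)
    (CG (fun x : Fin m => ((x : ℕ) : ZMod m))) (cls_odd ho _) hodd (by omega)
    (by omega : m - 2 < m) (L - ε / 2) hx
  refine ⟨max (max N1 N2) 1, fun n hn => ?_⟩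
  have hn1 : N1 ≤ n := le_trans (le_trans (le_max_left _ _) (le_max_left _ _)) hn
  have hn2 : N2 ≤ n := le_trans (le_trans (le_max_right _ _) (le_max_left _ _)) hn
  have hn3 : 1 ≤ n := le_trans (le_max_right _ _) hn
  have hnR : (0 : ℝ) < n := by exact_mod_cast (by omega : 0 < n)
  have hpow : (0 : ℝ) < (n : ℝ) ^ (m + 2 * j) := by positivity
  rw [Real.dist_eq, abs_lt]
  constructor
  · -- lower
    have h1 := hN2 n hn2
    have h2 : L - ε / 2 ≤ (exC n (m + 2 * j) (m - 2) : ℝ) / (n : ℝ) ^ (m + 2 * j) := by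
      rw [le_div_iff₀ hpow]
      exact h1
    linarith
  · -- upper
    have h1 : (exC n (m + 2 * j) (m - 2) : ℝ) ≤ (L + ε / 2) * (n : ℝ) ^ (m + 2 * j) := by
      have hne : ((univ : Finset (SimpleGraph (Fin n))).filter
          (fun G => (SimpleGraph.cycleGraph (m - 2)).Free G)).Nonempty :=
        ⟨_, mem_filter.2 ⟨mem_univ _, hfree0 n⟩⟩
      obtain ⟨G, hG, hGe⟩ := exists_mem_eq_sup _ hne
        (fun G : SimpleGraph (Fin n) => G.copyCount (SimpleGraph.cycleGraph (m + 2 * j)))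
      rw [mem_filter] at hG
      have e : exC n (m + 2 * j) (m - 2) =
          G.copyCount (SimpleGraph.cycleGraph (m + 2 * j)) := hGe
      rw [e]
      have hG2 := hG.2
      rw [hl] at hG2
      have h2 := hN1 n hn1 G hG2
      have h3 := copy_le G (m + 2 * j) (by omega)
      have h4 : 2 * ((m : ℝ) + 2 * (j : ℝ)) *
          (G.copyCount (SimpleGraph.cycleGraph (m + 2 * j)) : ℝ) ≤
          (#(clos G (m + 2 * j)) : ℝ) := by
        have : ((2 * (m + 2 * j) * G.copyCount (SimpleGraph.cycleGraph (m + 2 * j)) : ℕ) : ℝ) ≤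
          (#(clos G (m + 2 * j)) : ℝ) := by exact_mod_cast h3
        refine le_trans (le_of_eq ?_) this
        push_cast
        ring
      have h5 : 2 * ((m : ℝ) + 2 * (j : ℝ)) *
          (G.copyCount (SimpleGraph.cycleGraph (m + 2 * j)) : ℝ) ≤
          2 * ((m : ℝ) + 2 * (j : ℝ)) * ((L + ε / 2) * (n : ℝ) ^ (m + 2 * j)) := by
        refine (h4.trans h2).trans_eq ?_
        ring
      exact le_of_mul_le_mul_left h5 (by positivity)
    have h2 : (exC n (m + 2 * j) (m - 2) : ℝ) / (n : ℝ) ^ (m + 2 * j) ≤ L + ε / 2 := by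
      rw [div_le_iff₀ hpow]
      exact h1
    linarith

end Pool.Agent.CycFD
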