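import Pool.Agent.W_1bfdb5fd_h19.RbA
import Pool.Agent.W_1bfdb5_h19.Exact

/-!
# From closed walks to the generalized Turan number, general length

* `cKL_fix`: in the sum of `cKL` only `1` contributes, as `3 (l + 2) > l + 2 + 2 j`.
* `CG_clos`: `cls_clos` for the identity map `Fin m → ZMod m`.
* `asym_gen`: upper bound `upper_gen` and `copy_le` as in `asym` (`W_1bfdb5_h19/Asym.lean`); lower
  bound `lower_of` (`W_1bfdb5_h19/Neg0.lean`) with `H = CG (identity)` and `x < cKL`.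
* `exact_gen`: `oddFree_of_free`, `copy_le`.
-/

namespace Pool.Agent.CycFD

open Finset Filter Topology Pool.Agent.CycGT
open scoped Classical

theorem exact_gen (m j : ℕ) [NeZero m] (hm : 5 ≤ m) (ho : Odd m) (hj : j < m)
    {V : Type} [Fintype V] (G : SimpleGraph V)
    (hG : ∀ i, Odd i → 3 ≤ i → i ≤ m - 2 → (SimpleGraph.cycleGraph i).Free G)
    (hB : OddFree G m → (#(clos G (m + 2 * j)) : ℝ) * (m : ℝ) ^ (m + 2 * j) ≤
        2 * m * ((m + 2 * j).choose j : ℝ) * (Fintype.card V : ℝ) ^ (m + 2 * j)) :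
    (G.copyCount (SimpleGraph.cycleGraph (m + 2 * j)) : ℝ) ≤
      cKL (m + 2 * j) (m - 2) * (Fintype.card V : ℝ) ^ (m + 2 * j) := by
  obtain ⟨k, hk⟩ := ho
  obtain ⟨r, rfl⟩ : ∃ r, m = 2 * r + 3 := ⟨k - 1, by omega⟩
  have h1 := hB (oddFree_of_free G r fun i hi =>
    hG _ ⟨i + 1, by omega⟩ (by omega) (by omega))
  have h2 := copy_le G (2 * r + 3 + 2 * j) (by omega)
  rw [cKL_fix (2 * r + 3) j hm hj]
  obtain ⟨n, hn⟩ : ∃ n : ℝ, n = Fintype.card V := ⟨_, rfl⟩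
  obtain ⟨M, hM⟩ : ∃ M : ℕ, M = 2 * r + 3 + 2 * j := ⟨_, rfl⟩
  obtain ⟨m, hm'⟩ : ∃ m : ℝ, m = ((2 * r + 3 : ℕ) : ℝ) := ⟨_, rfl⟩
  have hm0 : 0 < m := by rw [hm']; positivity
  have h3 : (2 * ((2 * r + 3 + 2 * j : ℕ) : ℝ)) *
      (G.copyCount (SimpleGraph.cycleGraph (2 * r + 3 + 2 * j)) : ℝ) ≤
      (#(clos G (2 * r + 3 + 2 * j)) : ℝ) := by exact_mod_cast h2
  have e1 : ((2 * r + 3 : ℕ) : ℝ) + 2 * j = ((2 * r + 3 + 2 * j : ℕ) : ℝ) := by push_cast; ring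
  rw [e1]
  rw [← hn] at h1 ⊢
  rw [← hm'] at h1 ⊢
  have hM0 : (0 : ℝ) < ((2 * r + 3 + 2 * j : ℕ) : ℝ) := by positivity
  have hp : (0 : ℝ) < m ^ (2 * r + 3 + 2 * j) := by positivity
  have h4 : (2 * ((2 * r + 3 + 2 * j : ℕ) : ℝ)) *
      (G.copyCount (SimpleGraph.cycleGraph (2 * r + 3 + 2 * j)) : ℝ) *
      m ^ (2 * r + 3 + 2 * j) ≤ 2 * m * ((2 * r + 3 + 2 * j).choose j : ℝ) *
      n ^ (2 * r + 3 + 2 * j) := (mul_le_mul_of_nonneg_right h3 hp.le).trans h1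
  rw [show m / ((2 * r + 3 + 2 * j : ℕ) : ℝ) * (1 / m ^ (2 * r + 3 + 2 * j)) *
      ((2 * r + 3 + 2 * j).choose j : ℝ) * n ^ (2 * r + 3 + 2 * j) =
      (m * ((2 * r + 3 + 2 * j).choose j : ℝ) * n ^ (2 * r + 3 + 2 * j)) /
        (((2 * r + 3 + 2 * j : ℕ) : ℝ) * m ^ (2 * r + 3 + 2 * j)) by field_simp]
  rw [le_div_iff₀ (by positivity)]
  nlinarith [h4]

end Pool.Agent.CycFD
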