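import Pool.Agent.W_1bfdb5fd_h19.RbA
import Pool.Agent.W_1bfdb5fd_h19.RbB
import Pool.Agent.W_1bfdb5fd_h19.RbC
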