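import Pool.Agent.W_1bfdb5fd_h19.Fin
import Pool.Agent.W_1bfdb5fd_h19.Rb

/-!
# Q1 for a fixed difference
-/

namespace Pool.Agent.CycFD

open Finset Filter Topology Pool.Agent.CycGT
open scoped Classical

theorem fixed_difference (j : ℕ) : ∃ l0 : ℕ, ∀ l : ℕ, l0 ≤ l → Odd l →
    Tendsto (fun n : ℕ => (exC n (l + 2 + 2 * j) l : ℝ) / (n : ℝ) ^ (l + 2 + 2 * j)) atTop
      (𝓝 (cKL (l + 2 + 2 * j) l)) ∧
    cKL (l + 2 + 2 * j) l = ((l : ℝ) + 2) / ((l : ℝ) + 2 + 2 * j) *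
      (1 / ((l : ℝ) + 2) ^ (l + 2 + 2 * j)) * ((l + 2 + 2 * j).choose j : ℝ) ∧
    ∀ (V : Type) [Fintype V] (G : SimpleGraph V),
      (∀ i, Odd i → 3 ≤ i → i ≤ l → (SimpleGraph.cycleGraph i).Free G) →
        (G.copyCount (SimpleGraph.cycleGraph (l + 2 + 2 * j)) : ℝ) ≤
          cKL (l + 2 + 2 * j) l * (Fintype.card V : ℝ) ^ (l + 2 + 2 * j) := by
  obtain ⟨m0, h⟩ := main_closed j
  refine ⟨m0 + j + 3, fun l hl ho => ?_⟩
  haveI : NeZero (l + 2) := ⟨by omega⟩
  have ho' : Odd (l + 2) := by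
    obtain ⟨a, rfl⟩ := ho
    exact ⟨a + 1, by omega⟩
  have h1 := h (l + 2) (by omega) ho' inferInstance
  have e : l + 2 - 2 = l := by omega
  refine ⟨?_, ?_, ?_⟩
  · have := asym_gen (l + 2) j (by omega) ho' (by omega) fun q H hH => by
      have h2 := h1 (Fin q) inferInstance H hH
      rwa [Fintype.card_fin] at h2
    rwa [e] at this
  · have := cKL_fix (l + 2) j (by omega) (by omega)
    rw [e] at this
    rw [this]
    push_cast
    rfl
  · intro V _ G hG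
    have := exact_gen (l + 2) j (by omega) ho' (by omega) G (by rwa [e])
      (fun hO => h1 V inferInstance G hO)
    rwa [e] at this

end Pool.Agent.CycFD
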