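import Pool.Agent.W_1bfdb5fd_h19.CutA

/-!
# Cutting a chord

* `cut_cl`: cutting a chord gives a closed walk.
* `cut_sum`: a closed walk `W` with chord `W 0 ~ W (a + 1)` is determined by `cut a W` and by
  `W 1, ..., W a`; `W 1` is a neighbour of `W 0`, `W 2` of `W 1` and so on.
* `cut_fc_sum`: the same for `a = 2`, counted exactly: `x = W 1`, `y = W 2`, and
  `W' (-1) = W (-1)`.
* `rot_sum`: rotation is a bijection of `clos G r`.
-/

namespace Pool.Agent.CycFD

open Finset Pool.Agent.CycGT
open scoped Classical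

variable {V : Type} [Fintype V] {G : SimpleGraph V}

theorem cut_fc_sum {r : ℕ} [NeZero r] (hr : 2 ≤ r) (g : (ZMod r → V) → ℝ) (hg : ∀ W, 0 ≤ g W) :
    ∑ W ∈ (clos G (r + 2)).filter (fun W => FC G W 0), g (cut 2 W) ≤
      ∑ W ∈ clos G r, g W * ee G W 0 := by
  have hcl : ∀ W ∈ (clos G (r + 2)).filter (fun W => FC G W 0), cut 2 W ∈ clos G r := by
    intro W hW
    rw [mem_filter, mem_clos] at hW
    rw [mem_clos]
    refine cut_cl hr hW.1 ?_
    have h := hW.2.1
    have e : ((2 + 1 : ℕ) : ZMod (r + 2)) = 0 + 3 := by push_cast; ring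
    rw [e]
    exact h
  rw [← sum_fiberwise_of_maps_to hcl]
  refine sum_le_sum fun W' _ => ?_
  have h1 : ∑ W ∈ ((clos G (r + 2)).filter (fun W => FC G W 0)).filter (fun W => cut 2 W = W'),
      g (cut 2 W) = ∑ _W ∈ ((clos G (r + 2)).filter (fun W => FC G W 0)).filter
        (fun W => cut 2 W = W'), g W' :=
    sum_congr rfl fun W hW => by rw [(mem_filter.1 hW).2]
  rw [h1, sum_const, nsmul_eq_mul, mul_comm]
  refine mul_le_mul_of_nonneg_left ?_ (hg _)
  unfold ee
  have h0 : ∀ W : ZMod (r + 2) → V, cut 2 W (0 : ZMod r) = W 0 := by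
    intro W
    unfold cut
    rw [if_pos rfl]
  have hval1 : (1 : ZMod r).val = 1 := by
    have : Fact (1 < r) := ⟨by omega⟩
    exact ZMod.val_one r
  have hone : (0 + 1 : ZMod r) ≠ 0 := by
    rw [zero_add]
    intro h
    rw [h, ZMod.val_zero] at hval1
    exact absurd hval1 (by norm_num)
  have hcut1 : ∀ W : ZMod (r + 2) → V, cut 2 W (0 + 1 : ZMod r) = W 3 := by
    intro W
    unfold cut
    rw [if_neg hone, zero_add, hval1]
    norm_num
  have hcutm : ∀ W : ZMod (r + 2) → V, cut 2 W (0 - 1 : ZMod r) = W (0 - 1) := by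
    intro W
    unfold cut
    have hne : (0 - 1 : ZMod r) ≠ 0 := by
      intro h
      apply hone
      rw [sub_eq_zero] at h
      rw [← h]
      ring
    rw [if_neg hne]
    congr 1
    have hv : (0 - 1 : ZMod r).val = r - 1 := by
      obtain ⟨s, rfl⟩ : ∃ s, r = s + 1 := ⟨r - 1, by omega⟩
      rw [zero_sub]
      simpa using ZMod.val_neg_one s
    rw [hv]
    have e : ((r - 1 + 2 : ℕ) : ZMod (r + 2)) = ((r + 2 : ℕ) : ZMod (r + 2)) - 1 := by
      rw [show r - 1 + 2 = r + 1 by omega]
      push_cast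
      ring
    rw [e, ZMod.natCast_self]
  refine Nat.cast_le.2 (card_le_card_of_injOn (fun W => (W 1, W 2)) ?_ ?_)
  · intro W hW
    rw [mem_coe, mem_filter, mem_filter, mem_clos] at hW
    obtain ⟨⟨hc, hf1, hf2⟩, hW'⟩ := hW
    rw [mem_coe, mem_filter]
    refine ⟨mem_univ _, ?_, ?_, ?_, ?_⟩
    · rw [← hW', h0]
      have := hc 0
      rwa [zero_add] at this
    · have := hc 1
      rwa [show (1 + 1 : ZMod (r + 2)) = 2 by ring] at this
    · rw [← hW', hcut1]
      have := hc 2
      rwa [show (2 + 1 : ZMod (r + 2)) = 3 by ring] at this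
    · rw [← hW', hcutm]
      intro h
      apply hf2
      rw [zero_add]
      exact h.symm
  · intro W hW X hX h
    rw [mem_coe, mem_filter] at hW hX
    have h1 : W 1 = X 1 := congrArg Prod.fst h
    have h2 : W 2 = X 2 := congrArg Prod.snd h
    have hcut : cut 2 W = cut 2 X := hW.2.trans hX.2.symm
    funext p
    have hp : ((p.val : ℕ) : ZMod (r + 2)) = p := ZMod.natCast_zmod_val p
    have hpl : p.val < r + 2 := ZMod.val_lt p
    rcases Nat.lt_or_ge p.val 3 with h3 | h3
    · interval_cases hv : p.val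
      · have := congrFun hcut 0
        rw [h0, h0] at this
        rw [← hp]
        simpa using this
      · rw [← hp]
        simpa using h1
      · rw [← hp]
        simpa using h2
    · have := congrFun hcut ((p.val - 2 : ℕ) : ZMod r)
      have hv : ((p.val - 2 : ℕ) : ZMod r).val = p.val - 2 :=
        ZMod.val_cast_of_lt (by omega)
      have hne : ((p.val - 2 : ℕ) : ZMod r) ≠ 0 := by
        intro h
        rw [h, ZMod.val_zero] at hv
        omega
      unfold cut at this
      rw [if_neg hne, if_neg hne, hv, show p.val - 2 + 2 = p.val by omega, hp] at this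
      exact this

end Pool.Agent.CycFD
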