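import Pool.Agent.W_1bfdb5fd_h19.CutA

/-!
# Cutting a chord

* `cut_cl`: cutting a chord gives a closed walk.
* `cut_sum`: a closed walk `W` with chord `W 0 ~ W (a + 1)` is determined by `cut a W` and by
  `W 1, ..., W a`; `W 1` is a neighbour of `W 0`, `W 2` of `W 1` and so on.
* `cut_fc_sum`: the same for `a = 2`, counted exactly: `x = W 1`, `y = W 2`, and
  `W' (-1) = W (-1)`.
* `rot_sum`: rotation is a bijection of `clos G r`.
-/

namespace Pool.Agent.CycFD

open Finset Pool.Agent.CycGT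
open scoped Classical

variable {V : Type} [Fintype V] {G : SimpleGraph V}

theorem rot_mem {r : ℕ} [NeZero r] {W : ZMod r → V} (hW : W ∈ clos G r) (p : ZMod r) :
    rot W p ∈ clos G r := by
  rw [mem_clos] at hW ⊢
  intro i
  have h := hW (p + i)
  rw [add_assoc] at h
  exact h

theorem rot_sum {r : ℕ} [NeZero r] (f : (ZMod r → V) → ℝ) (p : ZMod r) :
    ∑ W ∈ clos G r, f (rot W p) = ∑ W ∈ clos G r, f W := by
  refine Finset.sum_nbij' (fun W => rot W p) (fun W => rot W (-p)) ?_ ?_ ?_ ?_ ?_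
  · intro W hW
    exact rot_mem hW p
  · intro W hW
    exact rot_mem hW (-p)
  · intro W _
    funext i
    show W (p + (-p + i)) = W i
    rw [add_neg_cancel_left]
  · intro W _
    funext i
    show W (-p + (p + i)) = W i
    rw [neg_add_cancel_left]
  · intro W _
    rfl

/-- Average over the rotations. -/
theorem rot_avg {r : ℕ} [NeZero r] (f : (ZMod r → V) → ℝ) :
    (r : ℝ) * ∑ W ∈ clos G r, f W = ∑ W ∈ clos G r, ∑ p, f (rot W p) := by
  rw [Finset.sum_comm, Finset.sum_congr rfl fun p _ => rot_sum (G := G) f p, Finset.sum_const,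
    Finset.card_univ, ZMod.card, nsmul_eq_mul]

/-- Sum over the pairs (closed walk, chord of length `a + 1`). -/
theorem chord_sum {a r : ℕ} [NeZero r] [NeZero (r + a)] (hr : 2 ≤ r) {D : ℝ} (hD : DegLe G D)
    (g : (ZMod r → V) → ℝ) (hg : ∀ W, 0 ≤ g W) :
    ∑ W ∈ clos G (r + a), ∑ p, (if G.Adj (W p) (W (p + ((a + 1 : ℕ) : ZMod (r + a)))) then
      g (cut a (rot W p)) else 0) ≤ ((r + a : ℕ) : ℝ) * (D ^ a * ∑ W ∈ clos G r, g W) := by
  have h1 : ∀ W ∈ clos G (r + a), ∑ p, (if G.Adj (W p) (W (p + ((a + 1 : ℕ) : ZMod (r + a)))) then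
      g (cut a (rot W p)) else 0) = ∑ p, (fun W' : ZMod (r + a) → V =>
        if G.Adj (W' 0) (W' ((a + 1 : ℕ) : ZMod (r + a))) then g (cut a W') else 0) (rot W p) := by
    intro W _
    refine Finset.sum_congr rfl fun p _ => ?_
    have e : rot W p 0 = W p := by
      show W (p + 0) = W p
      rw [add_zero]
    show _ = (if G.Adj (rot W p 0) (rot W p ((a + 1 : ℕ) : ZMod (r + a))) then
      g (cut a (rot W p)) else 0)
    rw [e]
    rfl
  rw [Finset.sum_congr rfl h1, ← rot_avg (G := G) (fun W' : ZMod (r + a) → V =>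
        if G.Adj (W' 0) (W' ((a + 1 : ℕ) : ZMod (r + a))) then g (cut a W') else 0),
    ← Finset.sum_filter]
  exact mul_le_mul_of_nonneg_left (cut_sum hr hD g hg) (Nat.cast_nonneg _)

end Pool.Agent.CycFD
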