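import Pool.Agent.W_1bfdb5fd_h19.Df

/-!
# Cutting a chord

* `cut_cl`: cutting a chord gives a closed walk.
* `cut_sum`: a closed walk `W` with chord `W 0 ~ W (a + 1)` is determined by `cut a W` and by
  `W 1, ..., W a`; `W 1` is a neighbour of `W 0`, `W 2` of `W 1` and so on.
* `cut_fc_sum`: the same for `a = 2`, counted exactly: `x = W 1`, `y = W 2`, and
  `W' (-1) = W (-1)`.
* `rot_sum`: rotation is a bijection of `clos G r`.
-/

namespace Pool.Agent.CycFD

open Finset Pool.Agent.CycGT
open scoped Classical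

variable {V : Type} [Fintype V] {G : SimpleGraph V}

theorem cut_cl {a r : ℕ} [NeZero r] (hr : 2 ≤ r) {W : ZMod (r + a) → V} (hW : IsCl G (r + a) W)
    (h : G.Adj (W 0) (W ((a + 1 : ℕ) : ZMod (r + a)))) : IsCl G r (cut a W) := by
  intro i
  have h1 : (1 : ZMod r).val = 1 := by
    haveI : Fact (1 < r) := ⟨by omega⟩
    exact ZMod.val_one r
  have h10 : (1 : ZMod r) ≠ 0 := by
    intro h0
    have := congrArg ZMod.val h0
    rw [h1, ZMod.val_zero] at this
    omega
  by_cases hi : i = 0
  · subst hi
    rw [zero_add]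
    unfold cut
    rw [if_pos rfl, if_neg h10, h1]
    rw [add_comm 1 a]
    exact h
  · have hlt : i.val < r := ZMod.val_lt i
    by_cases hi1 : i + 1 = 0
    · have hv : i.val + 1 = r := by
        by_contra hne
        have hlt2 : i.val + 1 < r := by omega
        have : (i + 1).val = i.val + 1 := by
          rw [ZMod.val_add, h1, Nat.mod_eq_of_lt hlt2]
        rw [hi1, ZMod.val_zero] at this
        omega
      have hc : ((i.val + a : ℕ) : ZMod (r + a)) + 1 = 0 := by
        have : ((r + a : ℕ) : ZMod (r + a)) = 0 := ZMod.natCast_self _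
        rw [← this]
        have h2 : r + a = i.val + a + 1 := by omega
        rw [congrArg (fun t : ℕ => (t : ZMod (r + a))) h2]
        push_cast
        ring
      have hw := hW ((i.val + a : ℕ) : ZMod (r + a))
      rw [hc] at hw
      rw [hi1]
      unfold cut
      rw [if_neg hi, if_pos rfl]
      exact hw
    · have hv : i.val + 1 < r := by
        by_contra hne
        have hv : i.val + 1 = r := by omega
        apply hi1
        have : ((i.val + 1 : ℕ) : ZMod r) = i + 1 := by
          push_cast
          rw [ZMod.natCast_zmod_val]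
        rw [← this, hv, ZMod.natCast_self]
      have hv1 : (i + 1).val = i.val + 1 := by
        rw [ZMod.val_add, h1, Nat.mod_eq_of_lt hv]
      have hw := hW ((i.val + a : ℕ) : ZMod (r + a))
      have hc : ((i.val + a : ℕ) : ZMod (r + a)) + 1 = ((i.val + 1 + a : ℕ) : ZMod (r + a)) := by
        push_cast
        ring
      rw [hc] at hw
      unfold cut
      rw [if_neg hi, if_neg hi1, hv1]
      exact hw

/-- Walks of length `a` starting at `x`, without the first vertex. -/
private noncomputable def cutSeq (G : SimpleGraph V) (a : ℕ) (x : V) : Finset (Fin a → V) :=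
  univ.filter (fun f => ∀ i : Fin a,
    G.Adj ((Fin.cons x f : Fin (a + 1) → V) i.castSucc) (f i))

private theorem cutSeq_card {D : ℝ} (hD : DegLe G D) (a : ℕ) :
    ∀ x : V, (#(cutSeq G a x) : ℝ) ≤ D ^ a := by
  induction a with
  | zero =>
    intro x
    have h : #(cutSeq G 0 x) ≤ 1 := by
      calc #(cutSeq G 0 x) ≤ #(univ : Finset (Fin 0 → V)) := card_le_card (filter_subset _ _)
        _ = 1 := by simp
    simpa using h
  | succ a ih =>
    intro x
    have hD0 : 0 ≤ D := le_trans (Nat.cast_nonneg _) (hD x)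
    have h : #(cutSeq G (a + 1) x) ≤ #((Nb G x).sigma (fun y => cutSeq G a y)) := by
      refine card_le_card_of_injOn (fun f => (⟨f 0, Fin.tail f⟩ : (_ : V) × (Fin a → V))) ?_ ?_
      · intro f hf
        have hf' : ∀ i : Fin (a + 1),
            G.Adj ((Fin.cons x f : Fin (a + 2) → V) i.castSucc) (f i) := by
          have := hf
          rw [mem_coe, cutSeq, mem_filter] at this
          exact this.2
        rw [mem_coe, mem_sigma]
        refine ⟨?_, ?_⟩
        · rw [mem_Nb]
          have := hf' 0
          rw [Fin.castSucc_zero, Fin.cons_zero] at this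
          exact this.symm
        · show Fin.tail f ∈ cutSeq G a (f 0)
          rw [cutSeq, mem_filter]
          refine ⟨mem_univ _, fun i => ?_⟩
          have := hf' i.succ
          rw [← Fin.succ_castSucc, Fin.cons_succ] at this
          rw [Fin.cons_self_tail]
          exact this
      · intro f _ g _ hfg
        have h0 : f 0 = g 0 := (Sigma.mk.inj hfg).1
        have h1 : Fin.tail f = Fin.tail g := eq_of_heq (Sigma.mk.inj hfg).2
        rw [← Fin.cons_self_tail f, ← Fin.cons_self_tail g, h0, h1]
    calc (#(cutSeq G (a + 1) x) : ℝ)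
        ≤ (#((Nb G x).sigma (fun y => cutSeq G a y)) : ℝ) := by exact_mod_cast h
      _ = ∑ y ∈ Nb G x, (#(cutSeq G a y) : ℝ) := by
          rw [card_sigma]
          push_cast
          rfl
      _ ≤ ∑ y ∈ Nb G x, D ^ a := sum_le_sum (fun y _ => ih y)
      _ = (#(Nb G x) : ℝ) * D ^ a := by rw [sum_const, nsmul_eq_mul]
      _ ≤ D * D ^ a := mul_le_mul_of_nonneg_right (hD x) (pow_nonneg hD0 a)
      _ = D ^ (a + 1) := by ring

theorem cut_sum {a r : ℕ} [NeZero r] [NeZero (r + a)] (hr : 2 ≤ r) {D : ℝ} (hD : DegLe G D)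
    (g : (ZMod r → V) → ℝ) (hg : ∀ W, 0 ≤ g W) :
    ∑ W ∈ (clos G (r + a)).filter (fun W => G.Adj (W 0) (W ((a + 1 : ℕ) : ZMod (r + a)))),
      g (cut a W) ≤ D ^ a * ∑ W ∈ clos G r, g W := by
  set F := (clos G (r + a)).filter (fun W => G.Adj (W 0) (W ((a + 1 : ℕ) : ZMod (r + a)))) with hF
  have hcast : ∀ j : ZMod (r + a), ((j.val : ℕ) : ZMod (r + a)) = j :=
    fun j => ZMod.natCast_zmod_val j
  -- the map
  let Φ : (ZMod (r + a) → V) → (_ : ZMod r → V) × (Fin a → V) :=
    fun W => ⟨cut a W, fun i => W ((i.val + 1 : ℕ) : ZMod (r + a))⟩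
  have hinj : Set.InjOn Φ F := by
    intro W _ W' _ h
    have h0 : cut a W = cut a W' := (Sigma.mk.inj h).1
    have h1 : (fun i : Fin a => W ((i.val + 1 : ℕ) : ZMod (r + a))) =
        fun i : Fin a => W' ((i.val + 1 : ℕ) : ZMod (r + a)) := eq_of_heq (Sigma.mk.inj h).2
    funext j
    have hj : j.val < r + a := ZMod.val_lt j
    by_cases hj0 : j.val = 0
    · have : j = 0 := by rw [← hcast j, hj0, Nat.cast_zero]
      rw [this]
      have := congrFun h0 0
      simpa [cut] using this
    · by_cases hja : j.val ≤ a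
      · have := congrFun h1 ⟨j.val - 1, by omega⟩
        simp only at this
        have e : j.val - 1 + 1 = j.val := by omega
        rw [e, hcast] at this
        exact this
      · have hlt : j.val - a < r := by omega
        have hv : (((j.val - a : ℕ) : ZMod r)).val = j.val - a := ZMod.val_cast_of_lt hlt
        have hne : ((j.val - a : ℕ) : ZMod r) ≠ 0 := by
          intro h2
          rw [h2, ZMod.val_zero] at hv
          omega
        have := congrFun h0 ((j.val - a : ℕ) : ZMod r)
        unfold cut at this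
        rw [if_neg hne, if_neg hne, hv] at this
        have e : j.val - a + a = j.val := by omega
        rw [e, hcast] at this
        exact this
  have hmap : ∀ W ∈ F, Φ W ∈ (clos G r).sigma (fun c => cutSeq G a (c 0)) := by
    intro W hW
    rw [hF, mem_filter, mem_clos] at hW
    rw [mem_sigma]
    refine ⟨mem_clos.2 (cut_cl hr hW.1 hW.2), ?_⟩
    show (fun i : Fin a => W ((i.val + 1 : ℕ) : ZMod (r + a))) ∈ cutSeq G a (cut a W 0)
    rw [cutSeq, mem_filter]
    refine ⟨mem_univ _, fun i => ?_⟩
    have hc0 : cut a W 0 = W 0 := by unfold cut; rw [if_pos rfl]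
    rw [hc0]
    have hw := hW.1 ((i.val : ℕ) : ZMod (r + a))
    have e : ((i.val : ℕ) : ZMod (r + a)) + 1 = ((i.val + 1 : ℕ) : ZMod (r + a)) := by
      push_cast
      ring
    rw [e] at hw
    have hcons : (Fin.cons (W 0) (fun i : Fin a => W ((i.val + 1 : ℕ) : ZMod (r + a))) :
        Fin (a + 1) → V) i.castSucc = W ((i.val : ℕ) : ZMod (r + a)) := by
      obtain ⟨i, hi⟩ := i
      cases i with
      | zero =>
        have : (Fin.castSucc ⟨0, hi⟩ : Fin (a + 1)) = 0 := rfl
        rw [this, Fin.cons_zero]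
        simp
      | succ i =>
        have : (Fin.castSucc ⟨i + 1, hi⟩ : Fin (a + 1)) = Fin.succ ⟨i, by omega⟩ := rfl
        rw [this, Fin.cons_succ]
    rw [hcons]
    exact hw
  calc ∑ W ∈ F, g (cut a W) = ∑ W ∈ F, g (Φ W).1 := rfl
    _ = ∑ z ∈ F.image Φ, g z.1 := by
        rw [sum_image hinj]
    _ ≤ ∑ z ∈ (clos G r).sigma (fun c => cutSeq G a (c 0)), g z.1 := by
        refine sum_le_sum_of_subset_of_nonneg ?_ (fun z _ _ => hg z.1)
        intro z hz
        rw [mem_image] at hz
        obtain ⟨W, hW, rfl⟩ := hz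
        exact hmap W hW
    _ = ∑ c ∈ clos G r, ∑ _f ∈ cutSeq G a (c 0), g c := by rw [sum_sigma]
    _ = ∑ c ∈ clos G r, (#(cutSeq G a (c 0)) : ℝ) * g c := by
        refine sum_congr rfl (fun c _ => ?_)
        rw [sum_const, nsmul_eq_mul]
    _ ≤ ∑ c ∈ clos G r, D ^ a * g c :=
        sum_le_sum (fun c _ => mul_le_mul_of_nonneg_right (cutSeq_card hD a (c 0)) (hg c))
    _ = D ^ a * ∑ W ∈ clos G r, g W := by rw [mul_sum]

end Pool.Agent.CycFD
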