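import Pool.Agent.W_1bfdb5_h19.NegA
import Pool.Agent.W_1bfdb5_h19.Neg0
import Pool.Agent.W_1bfdb5_h19.CB3
import Pool.Agent.W_1bfdb5_h19.CIneq

/-!
# Closed walks of length m + 2 j in graphs of odd girth at least m: definitions

`m` is odd and large, `j` is fixed, `M = m + 2 j`.  Closed walks of length `r` are functions
`ZMod r → V` (`clos G r`, `IsCl`), see `W_1bfdb5_h19/Defs.lean` for `Wk`, `OddFree`, `clos`, `Nb`,
`B3`, `B2`, `seqOf`, `rot`, `cA`, `cU`, `PS`, `QS`, and `W_1bfdb5_h19/Arc.lean` for the lemma `arc`.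
-/

namespace Pool.Agent.CycFD

open Finset Pool.Agent.CycGT
open scoped Classical

variable {V : Type} [Fintype V]

instance nz2 (m i : ℕ) [NeZero m] : NeZero (m + 2 * i) := ⟨by have := NeZero.ne m; omega⟩

/-- All degrees are at most `D`. -/
def DegLe (G : SimpleGraph V) (D : ℝ) : Prop := ∀ v, (#(Nb G v) : ℝ) ≤ D

/-- Closed walks of length `r` without chords. -/
noncomputable def AI (G : SimpleGraph V) (r : ℕ) [NeZero r] : Finset (ZMod r → V) :=
  (clos G r).filter (fun k => ∀ p q, G.Adj (k p) (k q) → q = p + 1 ∨ q = p - 1)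

/-- The vertices adjacent to `k t`, but not to `k (t - 2), ..., k (t - 2 i - 2)`. -/
noncomputable def FS (G : SimpleGraph V) (i : ℕ) {r : ℕ} (k : ZMod r → V) (t : ZMod r) :
    Finset V :=
  univ.filter (fun w => G.Adj w (k t) ∧ ∀ s ∈ Icc 1 (i + 1), ¬ G.Adj w (k (t - 2 * (s : ZMod r))))

/-- The deficit of a chordless closed walk. -/
noncomputable def XX (G : SimpleGraph V) (i : ℕ) {r : ℕ} [NeZero r] (k : ZMod r → V) : ℝ :=
  -∑ t, Real.log ((#(FS G i k t) : ℝ) * r / Fintype.card V)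

/-- Remove the `a` vertices after position `0`. -/
def cut (a : ℕ) {r : ℕ} (W : ZMod (r + a) → V) : ZMod r → V :=
  fun i => if i = 0 then W 0 else W ((i.val + a : ℕ) : ZMod (r + a))

/-- `p` is the first of a run of chords of length 3. -/
def FC (G : SimpleGraph V) {r : ℕ} (W : ZMod r → V) (p : ZMod r) : Prop :=
  G.Adj (W p) (W (p + 3)) ∧ ¬ G.Adj (W (p - 1)) (W (p + 2))

/-- Pairwise cyclic distance at least `K`. -/
def Sep (K : ℕ) {r : ℕ} (J : Finset (ZMod r)) : Prop :=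
  ∀ p ∈ J, ∀ q ∈ J, p ≠ q → K ≤ (q - p).val

/-- `W` has `i` chords of length 3 at pairwise distance at least 6. -/
def Far (G : SimpleGraph V) (i : ℕ) {r : ℕ} (W : ZMod r → V) : Prop :=
  ∃ J : Finset (ZMod r), #J = i ∧ Sep 6 J ∧ ∀ p ∈ J, G.Adj (W p) (W (p + 3))

/-- `W` has a chord of length 3 near position 0. -/
def Near (G : SimpleGraph V) {r : ℕ} (W : ZMod r → V) : Prop :=
  ∃ d ∈ Icc (-5 : ℤ) 3, G.Adj (W (d : ZMod r)) (W ((d : ZMod r) + 3))

/-- Number of ways to insert a pair after position `s` such that the new chord is a first one. -/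
noncomputable def ee (G : SimpleGraph V) {r : ℕ} (W : ZMod r → V) (s : ZMod r) : ℕ :=
  #((univ : Finset (V × V)).filter (fun z => G.Adj (W s) z.1 ∧ G.Adj z.1 z.2 ∧
    G.Adj z.2 (W (s + 1)) ∧ ¬ G.Adj z.2 (W (s - 1))))

/-- Number of all these insertions. -/
noncomputable def EE (G : SimpleGraph V) {r : ℕ} [NeZero r] (W : ZMod r → V) : ℝ :=
  ∑ s, (ee G W s : ℝ)

/-- Weighted number of ways to reduce `W` to a closed walk of length `m` by cutting first chords. -/
noncomputable def Psi (G : SimpleGraph V) (m : ℕ) [NeZero m] (F : (ZMod m → V) → ℝ) :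
    (i : ℕ) → (ZMod (m + 2 * i) → V) → ℝ
  | 0, W => F W
  | i + 1, W => ∑ p : ZMod (m + 2 * i + 2), if FC G W p then
      Psi G m F i (cut 2 (rot (M := m + 2 * i + 2) W p)) else 0

/-- The vertices adjacent to `c (t-1)` and `c (t+1)`. -/
noncomputable def AA (G : SimpleGraph V) {r : ℕ} (c : ZMod r → V) (t : ZMod r) : Finset V :=
  univ.filter (fun w => G.Adj w (c (t - 1)) ∧ G.Adj w (c (t + 1)))

/-- The bad vertices. -/
noncomputable def BB (G : SimpleGraph V) {r : ℕ} (c : ZMod r → V) : Finset V :=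
  univ.filter (fun w => ∀ t, w ∉ AA G c t)

/-- Candidates for `c t` in the process by pairs. -/
noncomputable def QT (G : SimpleGraph V) {r : ℕ} (c : ZMod r → V) (t : ZMod r) : Finset V :=
  univ.filter (fun w => Wk G 2 w (c (t - 2)) ∧ ¬ Wk G 2 w (c (t - 4)) ∧ ¬ Wk G 2 w (c (t - 6)))

/-- `∑ φ(x_t)`, `φ(x) = x - 1 - log x`, `x_t = |A_t| m / n`. -/
noncomputable def Phi (G : SimpleGraph V) {r : ℕ} [NeZero r] (c : ZMod r → V) : ℝ :=
  -((r : ℝ) * (#(BB G c) : ℝ) / Fintype.card V) -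
    ∑ t, Real.log ((#(AA G c t) : ℝ) * r / Fintype.card V)

/-- The deficit of a shortest odd closed walk. -/
noncomputable def Dp (G : SimpleGraph V) {r : ℕ} [NeZero r] (c : ZMod r → V) : ℝ :=
  ((r : ℝ) - 4) / 2 * ((#(BB G c) : ℝ) / Fintype.card V) + 2 / 5 * Phi G c

theorem mem_AA {G : SimpleGraph V} {r : ℕ} {c : ZMod r → V} {t : ZMod r} {w : V} :
    w ∈ AA G c t ↔ G.Adj w (c (t - 1)) ∧ G.Adj w (c (t + 1)) := by
  unfold AA
  rw [mem_filter]
  exact and_iff_right (mem_univ _)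

theorem mem_BB {G : SimpleGraph V} {r : ℕ} {c : ZMod r → V} {w : V} :
    w ∈ BB G c ↔ ∀ t, w ∉ AA G c t := by
  unfold BB
  rw [mem_filter]
  exact and_iff_right (mem_univ _)

theorem mem_QT {G : SimpleGraph V} {r : ℕ} {c : ZMod r → V} {t : ZMod r} {w : V} :
    w ∈ QT G c t ↔ Wk G 2 w (c (t - 2)) ∧ ¬ Wk G 2 w (c (t - 4)) ∧ ¬ Wk G 2 w (c (t - 6)) := by
  unfold QT
  rw [mem_filter]
  exact and_iff_right (mem_univ _)

theorem mem_FS {G : SimpleGraph V} {i r : ℕ} {k : ZMod r → V} {t : ZMod r} {w : V} :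
    w ∈ FS G i k t ↔ G.Adj w (k t) ∧ ∀ s ∈ Icc 1 (i + 1), ¬ G.Adj w (k (t - 2 * (s : ZMod r))) := by
  unfold FS
  rw [mem_filter]
  exact and_iff_right (mem_univ _)

theorem mem_AI {G : SimpleGraph V} {r : ℕ} [NeZero r] {k : ZMod r → V} :
    k ∈ AI G r ↔ IsCl G r k ∧ ∀ p q, G.Adj (k p) (k q) → q = p + 1 ∨ q = p - 1 := by
  simp only [AI, clos, mem_filter, mem_univ, true_and]

theorem mem_clos {G : SimpleGraph V} {r : ℕ} [NeZero r] {k : ZMod r → V} :
    k ∈ clos G r ↔ IsCl G r k := by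
  simp only [clos, mem_filter, mem_univ, true_and]

theorem mem_Nb {G : SimpleGraph V} {x w : V} : w ∈ Nb G x ↔ G.Adj w x := by
  simp only [Nb, mem_filter, mem_univ, true_and]

end Pool.Agent.CycFD
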