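import Pool.Agent.W_1bfdb5fd_h19.Cut

/-!
# Chords of length 3 at pairwise distance at least 3

`max_disj`: cut them all, one after the other (`cut_cl`); the remaining closed walk would have the
odd length `m - 2`.  Induction on the number of chords: rotate one of them to 0 and cut; a chord at
`q`, `3 ≤ q ≤ r - 3`, becomes a chord at `q - 2`, and the distances stay at least 3 (the distances
through the cut chord were at least 6).
`first_ex`: otherwise `p`, `p - 1`, `p - 2`, `p - 3` are all chords, and `insert (p - 3) J`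
contradicts `max_disj`.
-/

namespace Pool.Agent.CycFD

open Finset Pool.Agent.CycGT
open scoped Classical

variable {V : Type} [Fintype V] {G : SimpleGraph V}

/-- One step of the induction: positions after the cut of the chord at 0. -/
theorem cut_chord {r : ℕ} [NeZero r] {W : ZMod (r + 2) → V} {q : ZMod (r + 2)}
    (h1 : 3 ≤ q.val) (h2 : q.val + 3 ≤ r + 2) (h : G.Adj (W q) (W (q + 3))) :
    G.Adj (cut 2 W ((q.val - 2 : ℕ) : ZMod r)) (cut 2 W (((q.val - 2 : ℕ) : ZMod r) + 3)) := by
  obtain ⟨n, hn⟩ : ∃ n : ℕ, q.val = n + 2 := ⟨q.val - 2, by omega⟩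
  have hq : q = ((n + 2 : ℕ) : ZMod (r + 2)) := by
    rw [← hn]; exact (ZMod.natCast_zmod_val q).symm
  have hnr : n < r := by omega
  have hv : ((n : ℕ) : ZMod r).val = n := ZMod.val_cast_of_lt hnr
  have hn0 : ((n : ℕ) : ZMod r) ≠ 0 := by
    intro h0
    rw [h0, ZMod.val_zero] at hv
    omega
  have e1 : cut 2 W ((q.val - 2 : ℕ) : ZMod r) = W q := by
    have : q.val - 2 = n := by omega
    rw [this]
    simp only [cut]
    rw [if_neg hn0, hv, ← hq]
  have e2 : cut 2 W (((q.val - 2 : ℕ) : ZMod r) + 3) = W (q + 3) := by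
    have : q.val - 2 = n := by omega
    rw [this]
    have e3 : ((n : ℕ) : ZMod r) + 3 = ((n + 3 : ℕ) : ZMod r) := by push_cast; ring
    have e4 : q + 3 = ((n + 5 : ℕ) : ZMod (r + 2)) := by rw [hq]; push_cast; ring
    rw [e3, e4]
    simp only [cut]
    by_cases hr : n + 3 = r
    · have h0 : ((n + 3 : ℕ) : ZMod r) = 0 := by rw [hr]; exact ZMod.natCast_self r
      rw [if_pos h0]
      have h5 : ((n + 5 : ℕ) : ZMod (r + 2)) = 0 := by
        rw [show n + 5 = r + 2 by omega]; exact ZMod.natCast_self (r + 2)
      rw [h5]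
    · have hlt : n + 3 < r := by omega
      have hv3 : ((n + 3 : ℕ) : ZMod r).val = n + 3 := ZMod.val_cast_of_lt hlt
      have h0 : ((n + 3 : ℕ) : ZMod r) ≠ 0 := by
        intro h0
        rw [h0, ZMod.val_zero] at hv3
        omega
      rw [if_neg h0, hv3]
  rw [e1, e2]
  exact h

/-- Both distances of a pair. -/
theorem sep_two {K r : ℕ} [NeZero r] {J : Finset (ZMod r)} (hs : Sep K J) {p q : ZMod r}
    (hp : p ∈ J) (hq : q ∈ J) (h : p ≠ q) : K ≤ (q - p).val ∧ (q - p).val + K ≤ r := by
  have h1 := hs p hp q hq h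
  have h2 := hs q hq p hp h.symm
  refine ⟨h1, ?_⟩
  have h3 : (p - q).val = r - (q - p).val := by
    have e : p - q = -(q - p) := by ring
    rw [e, ZMod.neg_val, if_neg (sub_ne_zero.2 h.symm)]
  have h4 := ZMod.val_lt (q - p)
  omega

theorem max_disj {m : ℕ} (hm : 7 ≤ m) (ho : Odd m) (hG : OddFree G m) : ∀ (i r : ℕ) (_ : NeZero r),
    r = m + 2 * i → ∀ W ∈ clos G r, ∀ J : Finset (ZMod r), Sep 3 J →
    (∀ p ∈ J, G.Adj (W p) (W (p + 3))) → #J ≤ i := by
  intro i
  induction i with
  | zero =>
    intro r hr0 hr W hW J hs hc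
    by_contra hJ
    have hJ' : 0 < #J := by omega
    obtain ⟨p, hp⟩ := Finset.card_pos.1 hJ'
    obtain ⟨s, rfl⟩ : ∃ s : ℕ, r = s + 2 := ⟨r - 2, by omega⟩
    have hs0 : NeZero s := ⟨by omega⟩
    have hR := mem_clos.1 (rot_mem hW p)
    have hch : G.Adj (rot W p 0) (rot W p ((2 + 1 : ℕ) : ZMod (s + 2))) := by
      have := hc p hp
      simp only [rot]
      have e1 : p + 0 = p := by ring
      have e2 : p + ((2 + 1 : ℕ) : ZMod (s + 2)) = p + 3 := by norm_num
      rw [e1, e2]
      exact this
    have hcl := cut_cl (by omega) hR hch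
    have hw := hcl.along 0 s
    have e : (0 : ZMod s) + (s : ZMod s) = 0 := by rw [ZMod.natCast_self]; ring
    rw [e] at hw
    have hos : Odd s := by
      obtain ⟨q, hq⟩ := ho
      exact ⟨q - 1, by omega⟩
    exact hG s (by omega) hos _ hw
  | succ i ih =>
    intro r hr0 hr W hW J hs hc
    rcases J.eq_empty_or_nonempty with hJ | ⟨p, hp⟩
    · rw [hJ]; simp
    obtain ⟨s, rfl⟩ : ∃ s : ℕ, r = s + 2 := ⟨r - 2, by omega⟩
    have hs0 : NeZero s := ⟨by omega⟩
    have hsm : s = m + 2 * i := by omega
    have hR := mem_clos.1 (rot_mem hW p)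
    have hch : G.Adj (rot W p 0) (rot W p ((2 + 1 : ℕ) : ZMod (s + 2))) := by
      have := hc p hp
      simp only [rot]
      have e1 : p + 0 = p := by ring
      have e2 : p + ((2 + 1 : ℕ) : ZMod (s + 2)) = p + 3 := by norm_num
      rw [e1, e2]
      exact this
    have hcl := cut_cl (by omega) hR hch
    set f : ZMod (s + 2) → ZMod s := fun q => (((q - p).val - 2 : ℕ) : ZMod s) with hf
    -- the values
    have hval : ∀ q ∈ J.erase p, 3 ≤ (q - p).val ∧ (q - p).val + 3 ≤ s + 2 := by
      intro q hq
      exact sep_two hs hp (Finset.mem_of_mem_erase hq) (Finset.ne_of_mem_erase hq).symm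
    have hfv : ∀ q ∈ J.erase p, (f q).val = (q - p).val - 2 := by
      intro q hq
      have := hval q hq
      exact ZMod.val_cast_of_lt (by omega)
    have hinj : Set.InjOn f (J.erase p : Finset (ZMod (s + 2))) := by
      intro a ha b hb hab
      have h1 := hfv a ha
      have h2 := hfv b hb
      have h3 := hval a ha
      have h4 := hval b hb
      rw [hab] at h1
      have h5 : (a - p).val = (b - p).val := by omega
      have h6 := ZMod.val_injective (s + 2) h5
      exact sub_left_injective h6
    have hcard : #((J.erase p).image f) = #J - 1 := by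
      rw [Finset.card_image_of_injOn hinj, Finset.card_erase_of_mem hp]
    have key := ih s hs0 hsm (cut 2 (rot W p)) (mem_clos.2 hcl) ((J.erase p).image f) ?_ ?_
    · omega
    · intro a ha b hb hab
      obtain ⟨x, hx, rfl⟩ := Finset.mem_image.1 ha
      obtain ⟨y, hy, rfl⟩ := Finset.mem_image.1 hb
      have hxy : x ≠ y := by
        rintro rfl
        exact hab rfl
      have hx' := hfv x hx
      have hy' := hfv y hy
      have hx2 := hval x hx
      have hy2 := hval y hy
      have hd := sep_two hs (Finset.mem_of_mem_erase hx) (Finset.mem_of_mem_erase hy) hxy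
      have ed : y - x = (y - p) - (x - p) := by ring
      rcases le_total (x - p).val (y - p).val with hle | hle
      · have h1 : (y - x).val = (y - p).val - (x - p).val := by
          rw [ed, ZMod.val_sub hle]
        have h2 : (f y - f x).val = (f y).val - (f x).val := ZMod.val_sub (by omega)
        omega
      · have h2 : (f x - f y).val = (f x).val - (f y).val := ZMod.val_sub (by omega)
        have h3 : (f y - f x).val = s - (f x - f y).val := by
          have e : f y - f x = -(f x - f y) := by ring
          rw [e, ZMod.neg_val, if_neg (sub_ne_zero.2 hab)]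
        have h4 := ZMod.val_lt (f x - f y)
        omega
    · intro a ha
      obtain ⟨x, hx, rfl⟩ := Finset.mem_image.1 ha
      have hx2 := hval x hx
      apply cut_chord hx2.1 hx2.2
      have := hc x (Finset.mem_of_mem_erase hx)
      simp only [rot]
      have e1 : p + (x - p) = x := by ring
      have e2 : p + (x - p + 3) = x + 3 := by ring
      rw [e1, e2]
      exact this

theorem first_ex {m : ℕ} (hm : 19 ≤ m) (ho : Odd m) (hG : OddFree G m) {i r : ℕ} [NeZero r]
    (hr : r = m + 2 * i) {W : ZMod r → V} (hW : W ∈ clos G r) {J : Finset (ZMod r)} (hJ : #J = i)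
    (hs : Sep 6 J) (hc : ∀ p ∈ J, G.Adj (W p) (W (p + 3))) {p : ZMod r} (hp : p ∈ J) :
    ∃ d : ℕ, d ≤ 2 ∧ FC G W (p - d) := by
  by_contra hno
  push Not at hno
  have c0 := hc p hp
  have c1 : G.Adj (W (p - 1)) (W (p - 1 + 3)) := by
    have h := hno 0 (by omega)
    simp only [FC, not_and, not_not] at h
    have := h (by simpa using c0)
    have e1 : p - ((0 : ℕ) : ZMod r) - 1 = p - 1 := by push_cast; ring
    have e2 : p - ((0 : ℕ) : ZMod r) + 2 = p - 1 + 3 := by push_cast; ring
    rwa [e1, e2] at this
  have c2 : G.Adj (W (p - 2)) (W (p - 2 + 3)) := by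
    have h := hno 1 (by omega)
    simp only [FC, not_and, not_not] at h
    have := h (by simpa using c1)
    have e1 : p - ((1 : ℕ) : ZMod r) - 1 = p - 2 := by push_cast; ring
    have e2 : p - ((1 : ℕ) : ZMod r) + 2 = p - 2 + 3 := by push_cast; ring
    rwa [e1, e2] at this
  have c3 : G.Adj (W (p - 3)) (W (p - 3 + 3)) := by
    have h := hno 2 (by omega)
    simp only [FC, not_and, not_not] at h
    have := h (by simpa using c2)
    have e1 : p - ((2 : ℕ) : ZMod r) - 1 = p - 3 := by push_cast; ring
    have e2 : p - ((2 : ℕ) : ZMod r) + 2 = p - 3 + 3 := by push_cast; ring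
    rwa [e1, e2] at this
  have v3 : (3 : ZMod r).val = 3 := by
    have : ((3 : ℕ) : ZMod r).val = 3 := ZMod.val_cast_of_lt (by omega)
    simpa using this
  have n3 : (3 : ZMod r) ≠ 0 := by
    intro h
    rw [h, ZMod.val_zero] at v3
    omega
  have vm3 : (-3 : ZMod r).val = r - 3 := by
    rw [ZMod.neg_val, if_neg n3, v3]
  have hnot : p - 3 ∉ J := by
    intro hmem
    have hne : p - 3 ≠ p := by
      intro h
      exact n3 (by linear_combination -h)
    have := hs (p - 3) hmem p hp hne
    have e : p - (p - 3) = 3 := by ring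
    rw [e, v3] at this
    omega
  -- distances from `p - 3`
  have hdist : ∀ q ∈ J, 3 ≤ (q - (p - 3)).val ∧ 3 ≤ ((p - 3) - q).val := by
    intro q hq
    by_cases hqp : q = p
    · rw [hqp]
      have e1 : p - (p - 3) = 3 := by ring
      have e2 : p - 3 - p = -3 := by ring
      rw [e1, e2, v3, vm3]
      omega
    · have h2 := sep_two hs hp hq (Ne.symm hqp)
      have e1 : q - (p - 3) = (q - p) + 3 := by ring
      have h3 : (q - (p - 3)).val = (q - p).val + 3 := by
        rw [e1, ZMod.val_add_of_lt (by rw [v3]; omega), v3]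
      have hne : q - (p - 3) ≠ 0 := by
        intro h0
        rw [h0, ZMod.val_zero] at h3
        omega
      have h4 : ((p - 3) - q).val = r - (q - (p - 3)).val := by
        have e : p - 3 - q = -(q - (p - 3)) := by ring
        rw [e, ZMod.neg_val, if_neg hne]
      omega
  have hsep : Sep 3 (insert (p - 3) J) := by
    intro a ha b hb hab
    rcases Finset.mem_insert.1 ha with ha | ha
    · rcases Finset.mem_insert.1 hb with hb | hb
      · exact absurd (ha.trans hb.symm) hab
      · rw [ha]
        exact (hdist b hb).1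
    · rcases Finset.mem_insert.1 hb with hb | hb
      · rw [hb]
        exact (hdist a ha).2
      · have := hs a ha b hb hab
        omega
  have hch : ∀ q ∈ insert (p - 3) J, G.Adj (W q) (W (q + 3)) := by
    intro q hq
    rcases Finset.mem_insert.1 hq with hq | hq
    · rw [hq]; exact c3
    · exact hc q hq
  have hfin := max_disj (by omega) ho hG i r inferInstance hr W hW (insert (p - 3) J) hsep hch
  rw [Finset.card_insert_of_notMem hnot] at hfin
  omega

end Pool.Agent.CycFD
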