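import Pool.Agent.W_1bfdb5fd_h19.Df

/-!
# Deleting a vertex

`del_le`: a closed walk of `G` avoids `v` or passes through `v` at one of the `M` positions
(rotate this position to 0).
-/

namespace Pool.Agent.CycFD

open Finset Pool.Agent.CycGT
open scoped Classical

variable {V : Type} [Fintype V]

private lemma del_pos (G : SimpleGraph V) (M : ℕ) [NeZero M] (v : V) (i : ZMod M) :
    #((clos G M).filter (fun W => W i = v)) ≤ #((clos G M).filter (fun W => W 0 = v)) := by
  refine Finset.card_le_card_of_injOn (fun W => rot W i) ?_ ?_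
  · intro W hW
    have hW' := Finset.mem_filter.1 (Finset.mem_coe.1 hW)
    refine Finset.mem_coe.2 (Finset.mem_filter.2 ⟨mem_clos.2 ?_, ?_⟩)
    · intro j
      have h := mem_clos.1 hW'.1 (i + j)
      simp only [rot]
      rw [← add_assoc]
      exact h
    · simp only [rot, add_zero]
      exact hW'.2
  · intro W _ W' _ h
    funext j
    have := congrFun h (j - i)
    simpa [rot] using this

theorem del_le (G : SimpleGraph V) (M : ℕ) [NeZero M] (v : V) :
    #(clos G M) ≤ #(clos (G.comap (Subtype.val : {w : V // w ≠ v} → V)) M) +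
      M * #((clos G M).filter (fun W => W 0 = v)) := by
  have h0 := Finset.card_filter_add_card_filter_not (s := clos G M) (fun W => ∀ i, W i ≠ v)
  rw [← h0]
  refine Nat.add_le_add ?_ ?_
  · have hsub : (clos G M).filter (fun W => ∀ i, W i ≠ v) ⊆
        (clos (G.comap (Subtype.val : {w : V // w ≠ v} → V)) M).image
          (fun W i => (W i).val) := by
      intro W hW
      obtain ⟨h1, h2⟩ := Finset.mem_filter.1 hW
      refine Finset.mem_image.2 ⟨fun i => ⟨W i, h2 i⟩, mem_clos.2 ?_, rfl⟩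
      intro i
      exact mem_clos.1 h1 i
    exact (Finset.card_le_card hsub).trans Finset.card_image_le
  · have hsub : (clos G M).filter (fun W => ¬ ∀ i, W i ≠ v) ⊆
        (univ : Finset (ZMod M)).biUnion (fun i => (clos G M).filter (fun W => W i = v)) := by
      intro W hW
      obtain ⟨h1, h2⟩ := Finset.mem_filter.1 hW
      push Not at h2
      obtain ⟨i, hi⟩ := h2
      exact Finset.mem_biUnion.2 ⟨i, Finset.mem_univ _, Finset.mem_filter.2 ⟨h1, hi⟩⟩
    refine (Finset.card_le_card hsub).trans (Finset.card_biUnion_le.trans ?_)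
    refine (Finset.sum_le_sum fun i _ => del_pos G M v i).trans ?_
    rw [Finset.sum_const, smul_eq_mul, Finset.card_univ, ZMod.card]

theorem del_odd {G : SimpleGraph V} {m : ℕ} (hG : OddFree G m) (v : V) :
    OddFree (G.comap (Subtype.val : {w : V // w ≠ v} → V)) m := by
  intro r hr ho w hw
  obtain ⟨p, hp⟩ := hw
  refine hG r hr ho w.val ⟨p.map ⟨Subtype.val, fun {a b} h => h⟩, ?_⟩
  rw [SimpleGraph.Walk.length_map]
  exact hp

/-- `a^M - b^M ≥ M (a - b) b^(M-1)` with `a = n`, `b = n - 1`. -/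
theorem pow_diff {n M : ℕ} (hn : 1 ≤ n) (hM : 1 ≤ M) :
    (M : ℝ) * ((n : ℝ) - 1) ^ (M - 1) ≤ (n : ℝ) ^ M - ((n : ℝ) - 1) ^ M := by
  obtain ⟨k, rfl⟩ : ∃ k, M = k + 1 := ⟨M - 1, by omega⟩
  have hb : (0 : ℝ) ≤ (n : ℝ) - 1 := by
    have : (1 : ℝ) ≤ n := by exact_mod_cast hn
    linarith
  set b : ℝ := (n : ℝ) - 1 with hbd
  have hnb : (n : ℝ) = b + 1 := by rw [hbd]; ring
  rw [hnb]
  clear_value b
  clear hbd hnb hM
  simp only [Nat.add_sub_cancel]
  induction k with
  | zero => simp
  | succ k ih =>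
    have h1 : 0 ≤ b ^ k := pow_nonneg hb k
    have h3 : b * (((k + 1 : ℕ) : ℝ) * b ^ k) ≤ b * ((b + 1) ^ (k + 1) - b ^ (k + 1)) :=
      mul_le_mul_of_nonneg_left ih hb
    have h4 : 0 ≤ ((k + 1 : ℕ) : ℝ) * b ^ k := by positivity
    push_cast at ih h3 h4 ⊢
    have e1 : (b + 1) ^ (k + 1 + 1) = b * (b + 1) ^ (k + 1) + (b + 1) ^ (k + 1) := by ring
    have e2 : b ^ (k + 1 + 1) = b * b ^ (k + 1) := by ring
    have e3 : b * (((k : ℝ) + 1) * b ^ k) = ((k : ℝ) + 1) * b ^ (k + 1) := by ring
    rw [e1, e2]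
    rw [e3] at h3
    linarith

/-- Minimum degree of a minimal counterexample; `t` is `#pats / m^M`. -/
theorem min_deg {G : SimpleGraph V} {m M : ℕ} [NeZero M] {t : ℝ} (ht : 0 ≤ t)
    (hG : OddFree G m) (hbig : t * (Fintype.card V : ℝ) ^ M < #(clos G M))
    (hind : ∀ (W : Type) (_ : Fintype W) (H : SimpleGraph W), OddFree H m →
      Fintype.card W + 1 = Fintype.card V → (#(clos H M) : ℝ) ≤ t * (Fintype.card W : ℝ) ^ M)
    (v : V) : t * ((Fintype.card V : ℝ) - 1) ^ (M - 1) ≤
      #((clos G M).filter (fun W => W 0 = v)) := by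
  have hn : 1 ≤ Fintype.card V := Fintype.card_pos_iff.2 ⟨v⟩
  have hM : 1 ≤ M := Nat.one_le_iff_ne_zero.2 (NeZero.ne M)
  have hcard : Fintype.card {w : V // w ≠ v} + 1 = Fintype.card V := by
    have h1 := Fintype.card_subtype_compl (fun w : V => w = v)
    have h2 : Fintype.card {w : V // w = v} = 1 := Fintype.card_subtype_eq v
    have h3 : Fintype.card {w : V // w ≠ v} = Fintype.card {w : V // ¬ w = v} := by
      apply Fintype.card_congr
      exact Equiv.refl _
    omega
  have h1 := hind {w : V // w ≠ v} inferInstance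
    (G.comap (Subtype.val : {w : V // w ≠ v} → V)) (del_odd hG v) hcard
  have h2 : (#(clos G M) : ℝ) ≤ #(clos (G.comap (Subtype.val : {w : V // w ≠ v} → V)) M) +
      M * #((clos G M).filter (fun W => W 0 = v)) := by
    exact_mod_cast del_le G M v
  have h3 : (Fintype.card {w : V // w ≠ v} : ℝ) = (Fintype.card V : ℝ) - 1 := by
    rw [← hcard]; push_cast; ring
  rw [h3] at h1
  have h4 := pow_diff hn hM
  have h5 := mul_le_mul_of_nonneg_left h4 ht
  have hM0 : (0 : ℝ) < M := by exact_mod_cast hM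
  have h6 : (M : ℝ) * (t * ((Fintype.card V : ℝ) - 1) ^ (M - 1)) ≤
      M * (#((clos G M).filter (fun W => W 0 = v)) : ℝ) := by
    have e : t * ((M : ℝ) * ((Fintype.card V : ℝ) - 1) ^ (M - 1)) =
      (M : ℝ) * (t * ((Fintype.card V : ℝ) - 1) ^ (M - 1)) := by ring
    have e2 : t * ((Fintype.card V : ℝ) ^ M - ((Fintype.card V : ℝ) - 1) ^ M) =
      t * (Fintype.card V : ℝ) ^ M - t * ((Fintype.card V : ℝ) - 1) ^ M := by ring
    rw [e, e2] at h5
    linarith
  exact le_of_mul_le_mul_left h6 hM0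

/-- A shortest odd closed walk has different vertices. -/
theorem card_ge {G : SimpleGraph V} {m : ℕ} [NeZero m] (ho : Odd m) (hG : OddFree G m)
    {c : ZMod m → V} (hc : c ∈ clos G m) : m ≤ Fintype.card V := by
  have hinj : Function.Injective c := by
    intro i j hij
    obtain ⟨e, he, -, h⟩ := arc (M := m) (h := 0) (by omega) ho hG (mem_clos.1 hc)
      (wk_zero.2 hij)
    have he0 : e = 0 := by omega
    subst he0
    rcases h with h | h <;> simpa using h.symm
  have := Fintype.card_le_of_injective c hinj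
  rwa [ZMod.card] at this

end Pool.Agent.CycFD
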