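import Pool.Agent.W_1bfdb5fd_h19.As

/-!
# The sharp bound for closed walks of length m

Average `pair_proc` over the rotations `s`.  `x1 s = #(Nb G (c s))`,
`x2 s = #(B3 G (c s) (c (s + 1)))`, `x3 = 1`, `y s` the product over the classes: `jensen3` gives
`m ((avg x1) (avg x2) exp (avg (log y)))⁻¹ ≤ ∑ s (x1 x2 y)⁻¹`.
With `n = card V`, `u = n / m`, `ρ = #BB / n`: `avg x1 ≤ (2 - ρ) u` (`nb_sum`),
`avg x2 ≤ (1 + 2 ρ) u` (`b3_sum`), and
`avg (log y) = (m - 1) / (2 m) ∑ log #AA + (m - 5) / (2 m) ∑ log #QT`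
`≤ (m - 1) / 2 log u - (m - 1) / (2 m) (m ρ + Phi) + (m - 5) / 2 log u`
(`∑ log #QT ≤ m log u` by `jen_log` and `qt_sum`).  Moreover
`(1 - ρ / 2) (1 + 2 ρ) ≤ exp (3 ρ / 2)`, `Phi ≥ 0`, `(m - 1) / (2 m) ≥ 2 / 5`, so every `c`
contributes at least `exp (Dp G c) / (2 m u^m)`.
-/

namespace Pool.Agent.CycFD

open Finset Pool.Agent.CycGT
open scoped Classical

variable {V : Type} [Fintype V] {G : SimpleGraph V} {m : ℕ} [NeZero m]

/-- `Phi` is a sum of the nonnegative numbers `x - 1 - log x`, `x = #(AA G c t) m / n`. -/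
theorem Phi_eq (hm : 13 ≤ m) (ho : Odd m) (hG : OddFree G m) {c : ZMod m → V}
    (hc : IsCl G m c) :
    Phi G c = ∑ t, ((#(AA G c t) : ℝ) * m / Fintype.card V - 1 -
      Real.log ((#(AA G c t) : ℝ) * m / Fintype.card V)) := by
  have hn : (0 : ℝ) < Fintype.card V := by
    have : Nonempty V := ⟨c 0⟩
    exact_mod_cast Fintype.card_pos
  have h := AA_sum hm ho hG hc
  have h' : ∑ t, (#(AA G c t) : ℝ) + #(BB G c) = Fintype.card V := by
    exact_mod_cast h
  rw [sum_sub_distrib, sum_sub_distrib]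
  have e1 : ∑ t, (#(AA G c t) : ℝ) * m / Fintype.card V =
      (∑ t, (#(AA G c t) : ℝ)) * m / Fintype.card V := by
    rw [sum_mul, sum_div]
  have e2 : ∑ _t : ZMod m, (1 : ℝ) = m := by
    rw [sum_const, card_univ, ZMod.card, nsmul_eq_mul, mul_one]
  have e3 : ∑ t, (#(AA G c t) : ℝ) = Fintype.card V - #(BB G c) := by linarith
  rw [e1, e2, e3]
  unfold Phi
  have e4 : ((Fintype.card V : ℝ) - #(BB G c)) * m / Fintype.card V - m =
      -((m : ℝ) * (#(BB G c) : ℝ) / Fintype.card V) := by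
    field_simp
    ring
  rw [e4]

theorem Phi_nonneg (hm : 13 ≤ m) (ho : Odd m) (hG : OddFree G m) {c : ZMod m → V}
    (hc : IsCl G m c) : 0 ≤ Phi G c := by
  rw [Phi_eq hm ho hG hc]
  have hn : (0 : ℝ) < Fintype.card V := by
    have : Nonempty V := ⟨c 0⟩
    exact_mod_cast Fintype.card_pos
  have hm0 : (0 : ℝ) < m := by
    have : 0 < m := by omega
    exact_mod_cast this
  refine sum_nonneg fun t _ => ?_
  have ha : (0 : ℝ) < #(AA G c t) := by
    exact_mod_cast card_pos.2 ⟨c t, AA_self hc t⟩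
  have := Real.log_le_sub_one_of_pos (div_pos (mul_pos ha hm0) hn)
  linarith

end Pool.Agent.CycFD
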