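import Pool.Agent.W_1bfdb5fd_h19.EbA
import Pool.Agent.W_1bfdb5fd_h19.JpA
import Pool.Agent.W_1bfdb5fd_h19.AsB

/-!
# The number of insertions against the deficit

`x t = #(AA G c t) m / n ≤ K` (`AA G c t` is contained in a neighbourhood), `∑ x = m - m ρ ≤ m`,
`∑ x t x (t+1) ≤ ∑ (x t)^2 = m + 2 ∑ (x - 1) + ∑ (x - 1)^2 ≤ m + ∑ (x - 1)^2`, and
`(x - 1)^2 ≤ 2 (1 + K) (x - 1 - log x)` for `0 < x ≤ K`, `K ≥ 1`.  `m ρ ≤ 2 m / (m - 4) Dp`.
-/

namespace Pool.Agent.CycFD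

open Finset Pool.Agent.CycGT
open scoped Classical

variable {V : Type} [Fintype V] {G : SimpleGraph V} {m : ℕ} [NeZero m]

theorem Dp_nonneg (hm : 13 ≤ m) (ho : Odd m) (hG : OddFree G m) {c : ZMod m → V}
    (hc : IsCl G m c) : 0 ≤ Dp G c := by
  have h := Phi_nonneg hm ho hG hc
  have hm' : (13 : ℝ) ≤ m := by exact_mod_cast hm
  unfold Dp
  have h1 : 0 ≤ ((m : ℝ) - 4) / 2 * ((#(BB G c) : ℝ) / Fintype.card V) :=
    mul_nonneg (by linarith) (by positivity)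
  linarith

private lemma ebb1 {a m n : ℝ} (hm : 0 < m) (hn : 0 < n) : a = a * m / n * (n / m) := by
  field_simp

private lemma ebb2 {m n : ℝ} (hm : 0 < m) : n = m * (n / m) := by
  field_simp

private lemma ebb3 {b m n : ℝ} (hm : 0 < m) (hn : 0 < n) : b = b / n * m * (n / m) := by
  field_simp

private lemma ebb4 {m u K D : ℝ} (hm : 0 < m) :
    u ^ 2 * m + u ^ 2 * ((13 * K + 5) * D) = m * u ^ 2 * (1 + (13 * K + 5) * D / m) := by
  field_simp

theorem EE_Dp (hm : 13 ≤ m) (ho : Odd m) (hG : OddFree G m) {c : ZMod m → V}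
    (hc : IsCl G m c) {K : ℝ} (hK : 1 ≤ K) (hD : DegLe G (K * (Fintype.card V / m))) :
    EE G c ≤ m * ((Fintype.card V : ℝ) / m) ^ 2 * (1 + (13 * K + 5) * Dp G c / m) := by
  have hV : Nonempty V := ⟨c 0⟩
  have hn : (0 : ℝ) < Fintype.card V := by exact_mod_cast Fintype.card_pos
  have hm' : (13 : ℝ) ≤ m := by exact_mod_cast hm
  have hm0 : (0 : ℝ) < m := by linarith
  have hE := E_le hm ho hG hc hD
  have hPhi := Phi_nonneg hm ho hG hc
  have hPe := Phi_eq hm ho hG hc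
  have hS := AA_sum hm ho hG hc
  set n : ℝ := (Fintype.card V : ℝ) with hndef
  set u : ℝ := n / m with hu
  have hu0 : 0 < u := div_pos hn hm0
  have hnu : n = m * u := ebb2 hm0
  set x : ZMod m → ℝ := fun t => (#(AA G c t) : ℝ) * m / n with hx
  have hax : ∀ t, (#(AA G c t) : ℝ) = x t * u := by
    intro t
    exact ebb1 hm0 hn
  have hx0 : ∀ t, 0 < x t := fun t => by
    have : (0 : ℝ) < #(AA G c t) := by exact_mod_cast card_pos.2 ⟨c t, AA_self hc t⟩
    exact div_pos (mul_pos this hm0) hn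
  have hxK : ∀ t, x t ≤ K := by
    intro t
    have h1 : (#(AA G c t) : ℝ) ≤ #(Nb G (c (t + 1))) := by
      exact_mod_cast card_le_card fun w hw => mem_Nb.2 (mem_AA.1 hw).2
    have h2 := h1.trans (hD (c (t + 1)))
    rw [hax] at h2
    exact le_of_mul_le_mul_right h2 hu0
  set b : ℝ := (#(BB G c) : ℝ) with hb
  have hb0 : 0 ≤ b := Nat.cast_nonneg _
  have hsum : ∑ t, x t * u = n - b := by
    have : ∑ t, (#(AA G c t) : ℝ) + b = n := by
      rw [hb, hndef]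
      exact_mod_cast hS
    rw [← sum_congr rfl fun t _ => hax t]
    linarith
  have hPsi : ∑ t, (x t - 1 - Real.log (x t)) = Phi G c := hPe.symm
  have hsq : ∑ t, (x t - 1) ^ 2 ≤ 2 * (1 + K) * Phi G c := by
    rw [← hPsi, mul_sum]
    exact sum_le_sum fun t _ => sq_le_phi hK (hx0 t) (hxK t)
  have hxs : ∑ t, x t ≤ m := by
    rw [← sum_mul] at hsum
    have : (∑ t, x t) * u ≤ m * u := by rw [hsum, ← hnu]; linarith
    exact le_of_mul_le_mul_right this hu0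
  have hcard : ∑ _t : ZMod m, (1 : ℝ) = m := by
    rw [sum_const, card_univ, ZMod.card, nsmul_eq_mul, mul_one]
  have hsq2 : ∑ t, x t ^ 2 ≤ m + 2 * (1 + K) * Phi G c := by
    have e : ∑ t, x t ^ 2 = ∑ t, (x t - 1) ^ 2 + 2 * ∑ t, x t - m := by
      rw [mul_sum, ← hcard, ← sum_add_distrib, ← sum_sub_distrib]
      exact sum_congr rfl fun t _ => by ring
    linarith
  have hprod : ∑ t, x t * x (t + 1) ≤ ∑ t, x t ^ 2 := by
    have e : ∑ t, x (t + 1) ^ 2 = ∑ t, x t ^ 2 :=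
      Fintype.sum_equiv (Equiv.addRight 1) _ _ fun _ => rfl
    have h1 : ∑ t, x t * x (t + 1) ≤ ∑ t, (x t ^ 2 + x (t + 1) ^ 2) / 2 :=
      sum_le_sum fun t _ => by nlinarith [sq_nonneg (x t - x (t + 1))]
    rw [← sum_div, sum_add_distrib, e] at h1
    linarith
  have e1 : ∑ t, (#(AA G c t) : ℝ) * #(AA G c (t + 1)) = u ^ 2 * ∑ t, x t * x (t + 1) := by
    rw [mul_sum]
    exact sum_congr rfl fun t _ => by rw [hax, hax]; ring
  have hmain : EE G c ≤ u ^ 2 * (m + 2 * (1 + K) * Phi G c) + 2 * b * (K * u) := by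
    refine hE.trans ?_
    rw [e1]
    have := mul_le_mul_of_nonneg_left (hprod.trans hsq2) (sq_nonneg u)
    linarith
  have hDp : Dp G c = ((m : ℝ) - 4) / 2 * (b / n) + 2 / 5 * Phi G c := rfl
  have hbn : b = (b / n) * m * u := ebb3 hm0 hn
  set ρ : ℝ := b / n with hρ
  have hρ0 : 0 ≤ ρ := div_nonneg hb0 hn.le
  have hfin : 2 * (1 + K) * Phi G c + 2 * ρ * m * K ≤ (13 * K + 5) * Dp G c := by
    rw [hDp]
    have a1 : 2 * (1 + K) * Phi G c ≤ (13 * K + 5) * (2 / 5 * Phi G c) := by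
      nlinarith
    have a2 : 2 * ρ * m * K ≤ (13 * K + 5) * (((m : ℝ) - 4) / 2 * ρ) := by
      have a3 : 2 * m * K ≤ (13 * K + 5) * (((m : ℝ) - 4) / 2) := by nlinarith
      nlinarith
    linarith
  calc EE G c ≤ u ^ 2 * (m + 2 * (1 + K) * Phi G c) + 2 * b * (K * u) := hmain
    _ = u ^ 2 * m + u ^ 2 * (2 * (1 + K) * Phi G c + 2 * ρ * m * K) := by
        conv_lhs => rw [hbn]
        ring
    _ ≤ u ^ 2 * m + u ^ 2 * ((13 * K + 5) * Dp G c) := by
        have := mul_le_mul_of_nonneg_left hfin (sq_nonneg u)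
        linarith
    _ = m * u ^ 2 * (1 + (13 * K + 5) * Dp G c / m) := ebb4 hm0

end Pool.Agent.CycFD
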