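import Pool.Agent.W_1bfdb5fd_h19.Df

/-!
# The number of insertions against the deficit

`x t = #(AA G c t) m / n ≤ K` (`AA G c t` is contained in a neighbourhood), `∑ x = m - m ρ ≤ m`,
`∑ x t x (t+1) ≤ ∑ (x t)^2 = m + 2 ∑ (x - 1) + ∑ (x - 1)^2 ≤ m + ∑ (x - 1)^2`, and
`(x - 1)^2 ≤ 2 (1 + K) (x - 1 - log x)` for `0 < x ≤ K`, `K ≥ 1`.  `m ρ ≤ 2 m / (m - 4) Dp`.
-/

namespace Pool.Agent.CycFD

open Finset Pool.Agent.CycGT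
open scoped Classical

variable {V : Type} [Fintype V] {G : SimpleGraph V} {m : ℕ} [NeZero m]

theorem sq_le_phi {K x : ℝ} (hK : 1 ≤ K) (hx : 0 < x) (hxK : x ≤ K) :
    (x - 1) ^ 2 ≤ 2 * (1 + K) * (x - 1 - Real.log x) := by
  obtain ⟨y, hy, rfl⟩ : ∃ y : ℝ, 0 < y ∧ y ^ 2 = x :=
    ⟨√x, Real.sqrt_pos.2 hx, Real.sq_sqrt hx.le⟩
  have h1 : Real.log (y ^ 2) = 2 * Real.log y := by
    rw [Real.log_pow]
    norm_num
  have h2 := Real.log_le_sub_one_of_pos hy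
  rw [h1]
  have h3 : (y - 1) ^ 2 ≤ y ^ 2 - 1 - 2 * Real.log y := by nlinarith
  have h4 : (y ^ 2 - 1) ^ 2 ≤ 2 * (1 + K) * (y - 1) ^ 2 := by
    have h5 : (y + 1) ^ 2 ≤ 2 * (1 + K) := by nlinarith [sq_nonneg (y - 1)]
    calc (y ^ 2 - 1) ^ 2 = (y + 1) ^ 2 * (y - 1) ^ 2 := by ring
      _ ≤ 2 * (1 + K) * (y - 1) ^ 2 := mul_le_mul_of_nonneg_right h5 (sq_nonneg _)
  exact h4.trans (mul_le_mul_of_nonneg_left h3 (by linarith))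

end Pool.Agent.CycFD
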