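import Pool.Agent.W_1bfdb5fd_h19.Df

/-!
# The homomorphism to the cycle

If every vertex `v` has good neighbours in two different classes `t`, `t'`, then `t' = t + 2` or
`t' = t - 2` by `gap` with `r = 2`, so the classes are `h v - 1` and `h v + 1`.  For an edge `v w`
take neighbours of `v` in the classes `h v - 1`, `h v + 1` and of `w` in `h w - 1`, `h w + 1`; `gap`
with `r = 3` for `h v - 1`, `h w + 1` and for `h v + 1`, `h w - 1` gives `h w = h v + e`,
`e ∈ [-5, 1]` and `h w = h v + e'`, `e' ∈ [-1, 5]`, both odd, so `e = e' = 1` or `-1`.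
A vertex of `AA G c t` is adjacent to `c (t - 1) ∈ AA G c (t - 1)` and `c (t + 1) ∈ AA G c (t + 1)`.
-/

namespace Pool.Agent.CycFD

open Finset Pool.Agent.CycGT
open scoped Classical

variable {V : Type} [Fintype V] {G : SimpleGraph V} {m : ℕ} [NeZero m] {c : ZMod m → V}

/-- Closed walks of a graph with a homomorphism to the cycle. -/
theorem hom_clos {r : ℕ} [NeZero r] (h : V → ZMod m)
    (hh : ∀ v w, G.Adj v w → h w = h v + 1 ∨ h v = h w + 1) :
    #(clos G r) ≤ ∑ p ∈ pats r m, ∏ i, #((univ : Finset V).filter (fun x => h x = p i)) := by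
  have hmaps : Set.MapsTo (fun w : ZMod r → V => fun i => h (w i)) (clos G r : Set (ZMod r → V))
      (pats r m : Set (ZMod r → ZMod m)) := by
    intro w hw
    have hw' : IsCl G r w := mem_clos.1 hw
    simp only [pats, coe_filter, mem_univ, true_and, Set.mem_setOf_eq]
    intro i
    exact hh _ _ (hw' i)
  rw [card_eq_sum_card_fiberwise hmaps]
  refine sum_le_sum fun p _ => ?_
  rw [← Fintype.card_piFinset]
  refine card_le_card fun w hw => ?_
  rw [mem_filter] at hw
  rw [Fintype.mem_piFinset]
  intro i
  rw [mem_filter]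
  exact ⟨mem_univ _, congrFun hw.2 i⟩

end Pool.Agent.CycFD
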