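import Pool.Agent.W_1bfdb5fd_h19.Df

/-!
# Two elementary estimates

* `one_eighth`: `n / (n - 1) ≤ 1 + 1 / (m - 1) ≤ exp (1 / (m - 1))`, and
  `(m + 2 j - 1) / (m - 1) ≤ 2` for large `m`; `exp 2 < 8`.
* `pow_le_choose`: `j! choose (m + 2 j) j = (m + 2 j) (m + 2 j - 1) ... (m + j + 1)`.
-/

namespace Pool.Agent.CycFD

/-- `(1 - 1/n)^(m + 2 j - 1) ≥ 1/8` for `n ≥ m` large. -/
theorem one_eighth (j : ℕ) : ∃ m0 : ℕ, ∀ m : ℕ, m0 ≤ m → ∀ n : ℝ, (m : ℝ) ≤ n →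
    n ^ (m + 2 * j - 1) ≤ 8 * (n - 1) ^ (m + 2 * j - 1) := by
  refine ⟨2 * j + 2, fun m hm n hn => ?_⟩
  have hm2 : (2 * j + 2 : ℝ) ≤ (m : ℝ) := by exact_mod_cast hm
  have hj : (0 : ℝ) ≤ (j : ℝ) := Nat.cast_nonneg j
  have hm1 : (0 : ℝ) < (m : ℝ) - 1 := by linarith
  have hn1 : (0 : ℝ) < n - 1 := by linarith
  have h1 : n ≤ (n - 1) * Real.exp (1 / ((m : ℝ) - 1)) := by
    have h2 : 1 / ((m : ℝ) - 1) + 1 ≤ Real.exp (1 / ((m : ℝ) - 1)) := Real.add_one_le_exp _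
    have h3 : 1 / (n - 1) ≤ 1 / ((m : ℝ) - 1) := one_div_le_one_div_of_le hm1 (by linarith)
    have h4 : (n - 1) * (1 / (n - 1) + 1) ≤ (n - 1) * Real.exp (1 / ((m : ℝ) - 1)) :=
      mul_le_mul_of_nonneg_left (by linarith) hn1.le
    have h5 : (n - 1) * (1 / (n - 1) + 1) = n := by
      field_simp
      ring
    linarith
  have hn0 : 0 ≤ n := by linarith
  have h6 : n ^ (m + 2 * j - 1) ≤ ((n - 1) * Real.exp (1 / ((m : ℝ) - 1))) ^ (m + 2 * j - 1) :=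
    pow_le_pow_left₀ hn0 h1 _
  have h7 : Real.exp (1 / ((m : ℝ) - 1)) ^ (m + 2 * j - 1) ≤ 8 := by
    rw [← Real.exp_nat_mul]
    have h8 : ((m + 2 * j - 1 : ℕ) : ℝ) = (m : ℝ) + 2 * j - 1 := by
      have : 1 ≤ m + 2 * j := by omega
      push_cast [Nat.cast_sub this]
      ring
    rw [h8]
    have h9 : ((m : ℝ) + 2 * j - 1) * (1 / ((m : ℝ) - 1)) ≤ 1 + 1 := by
      rw [mul_one_div, div_le_iff₀ hm1]
      linarith
    refine (Real.exp_le_exp.2 h9).trans ?_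
    rw [Real.exp_add]
    have h10 := Real.exp_one_lt_d9
    have h11 := Real.exp_pos 1
    nlinarith
  rw [mul_pow] at h6
  have h12 : 0 ≤ (n - 1) ^ (m + 2 * j - 1) := pow_nonneg hn1.le _
  nlinarith [mul_le_mul_of_nonneg_left h7 h12]

theorem pow_le_choose (m j : ℕ) : m ^ j ≤ j.factorial * (m + 2 * j).choose j := by
  rw [← Nat.descFactorial_eq_factorial_mul_choose]
  refine le_trans (Nat.pow_le_pow_left ?_ j) (Nat.pow_sub_le_descFactorial (m + 2 * j) j)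
  omega

end Pool.Agent.CycFD
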