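import Pool.Agent.W_1bfdb5fd_h19.Pt

/-!
# Step 4: the balanced weights are optimal among nearly balanced ones

`y t = 1 + δ t`, `∑ δ = 0`, `|δ t| ≤ ε`, `2 i ε ≤ 1`, `ε ≤ 1 / 2`.  `vis_prod`: the sum is
`∏ y * ∑_h ∏ y^(vis h)`.  `log (1 + δ) ≤ δ - δ^2 / 3` for `-1 < δ ≤ 1 / 2`, so
`∏ y ≤ exp (- ∑ δ^2 / 3)`.  `∏ y^(vis h) ≤ exp z`, `z = ∑ vis h t δ t`, `|z| ≤ 1`,
`exp z ≤ 1 + z + z^2`, `z^2 ≤ 2 i ∑ vis h t (δ t)^2` (Cauchy-Schwarz, `vis_sum`).  Sum over `h`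
with `vis_rot`: `∑_h z = 0`, `∑_h z^2 ≤ (4 i^2 / m) #pats ∑ δ^2`.
-/

namespace Pool.Agent.CycFD

open Finset Pool.Agent.CycGT
open scoped Classical

theorem opt_aux1 {x : ℝ} (hx : |x| ≤ 1 / 2) : 1 + x ≤ Real.exp (x - x ^ 2 / 3) := by
  obtain ⟨h1, h2⟩ := abs_le.1 hx
  rcases le_total 0 x with h | h
  · have hs : 0 ≤ x - x ^ 2 / 3 := by nlinarith
    have h3 := Real.quadratic_le_exp_of_nonneg hs
    have h4 : x ^ 2 / 3 ≤ (x - x ^ 2 / 3) ^ 2 / 2 := by
      have e : (x - x ^ 2 / 3) ^ 2 / 2 - x ^ 2 / 3 = x ^ 2 * ((1 - x / 3) ^ 2 / 2 - 1 / 3) := by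
        ring
      have : 0 ≤ (1 - x / 3) ^ 2 / 2 - 1 / 3 := by nlinarith
      nlinarith [mul_nonneg (sq_nonneg x) this]
    linarith
  · set s := x - x ^ 2 / 3 with hs
    have hs0 : s ≤ 0 := by nlinarith [sq_nonneg x]
    have hs1 : |s| ≤ 1 := by
      rw [abs_of_nonpos hs0]
      nlinarith
    have h3 := Real.exp_bound hs1 (n := 3) (by norm_num)
    simp only [Finset.sum_range_succ, Finset.sum_range_zero, Nat.factorial] at h3
    norm_num at h3
    have h4 := (abs_le.1 h3).1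
    rw [abs_of_nonpos hs0] at h4
    have h5 : 0 ≤ -(x ^ 2 / 3) + s ^ 2 / 2 + s ^ 3 * (2 / 9) := by
      have e : -(x ^ 2 / 3) + s ^ 2 / 2 + s ^ 3 * (2 / 9) =
          x ^ 2 * (-1 / 3 + (1 - x / 3) ^ 2 / 2 + x * (1 - x / 3) ^ 3 * (2 / 9)) := by
        rw [hs]; ring
      rw [e]
      apply mul_nonneg (sq_nonneg x)
      have hy : 0 ≤ 1 - x / 3 := by linarith
      have hy2 : 1 - x / 3 ≤ 7 / 6 := by linarith
      have h6 : (1 - x / 3) ^ 3 ≤ (7 / 6) ^ 3 := pow_le_pow_left₀ hy hy2 3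
      have h7 : x * (7 / 6) ^ 3 ≤ x * (1 - x / 3) ^ 3 := by
        exact mul_le_mul_of_nonpos_left h6 h
      nlinarith [sq_nonneg x]
    have e2 : x = s + x ^ 2 / 3 := by rw [hs]; ring
    have h8 : (-s) ^ 3 = - s ^ 3 := by ring
    rw [h8] at h4
    linarith

theorem opt_abs {m : ℕ} [NeZero m] {ι : Type*} (P : Finset ι) (v : ι → ZMod m → ℕ) (i : ℕ)
    (hi : 12 * i ^ 2 ≤ m) (h1 : ∀ h ∈ P, ∑ t, v h t = 2 * i)
    (h2 : ∀ t, (m : ℝ) * ∑ h ∈ P, (v h t : ℝ) = 2 * i * #P)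
    (y : ZMod m → ℝ) (hs : ∑ t, y t = m) {ε : ℝ} (he : ε ≤ 1 / 2) (hie : 2 * i * ε ≤ 1)
    (hy : ∀ t, |y t - 1| ≤ ε) :
    ∑ h ∈ P, (∏ t, y t) * ∏ t, y t ^ v h t ≤ #P := by
  have hm0 : (0 : ℝ) < m := by exact_mod_cast Nat.pos_of_ne_zero (NeZero.ne m)
  set δ : ZMod m → ℝ := fun t => y t - 1 with hδ
  have hyδ : ∀ t, y t = 1 + δ t := fun t => by simp [hδ]
  have hδε : ∀ t, |δ t| ≤ ε := hy
  have hy0 : ∀ t, 0 ≤ y t := fun t => by
    have := (abs_le.1 (hδε t)).1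
    rw [hyδ]; linarith
  have hδs : ∑ t, δ t = 0 := by
    simp only [hδ, sum_sub_distrib, hs, sum_const, card_univ, ZMod.card, nsmul_eq_mul, mul_one,
      sub_self]
  set D : ℝ := ∑ t, δ t ^ 2 with hD
  have hD0 : 0 ≤ D := sum_nonneg fun t _ => sq_nonneg _
  have hprod : ∏ t, y t ≤ Real.exp (-(D / 3)) := by
    calc ∏ t, y t ≤ ∏ t, Real.exp (δ t - δ t ^ 2 / 3) := by
          apply prod_le_prod (fun t _ => hy0 t)
          intro t _
          rw [hyδ]
          exact opt_aux1 ((hδε t).trans he)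
      _ = Real.exp (-(D / 3)) := by
          rw [← Real.exp_sum, sum_sub_distrib, hδs, ← sum_div]
          congr 1
          ring
  have hprod0 : 0 ≤ ∏ t, y t := prod_nonneg fun t _ => hy0 t
  -- bound of the second product
  have hz : ∀ h ∈ P, ∏ t, y t ^ v h t ≤
      1 + ∑ t, (v h t : ℝ) * δ t + 2 * i * ∑ t, (v h t : ℝ) * δ t ^ 2 := by
    intro h hh
    set z : ℝ := ∑ t, (v h t : ℝ) * δ t with hz
    have hv : ∑ t, (v h t : ℝ) = 2 * i := by exact_mod_cast h1 h hh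
    have hz1 : |z| ≤ 1 := by
      calc |z| ≤ ∑ t, |(v h t : ℝ) * δ t| := abs_sum_le_sum_abs _ _
        _ ≤ ∑ t, (v h t : ℝ) * ε := by
            apply sum_le_sum
            intro t _
            rw [abs_mul, abs_of_nonneg (Nat.cast_nonneg _)]
            exact mul_le_mul_of_nonneg_left (hδε t) (Nat.cast_nonneg _)
        _ = 2 * i * ε := by rw [← sum_mul, hv]
        _ ≤ 1 := hie
    have hz2 : z ^ 2 ≤ 2 * i * ∑ t, (v h t : ℝ) * δ t ^ 2 := by
      have hcs := Finset.sum_mul_sq_le_sq_mul_sq univ (fun t => Real.sqrt (v h t))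
        (fun t => Real.sqrt (v h t) * δ t)
      have e1 : ∑ t, Real.sqrt (v h t) * (Real.sqrt (v h t) * δ t) = z := by
        rw [hz]
        apply sum_congr rfl
        intro t _
        rw [← mul_assoc, Real.mul_self_sqrt (Nat.cast_nonneg _)]
      have e2 : ∑ t, Real.sqrt (v h t) ^ 2 = 2 * i := by
        rw [← hv]
        apply sum_congr rfl
        intro t _
        rw [Real.sq_sqrt (Nat.cast_nonneg _)]
      have e3 : ∑ t, (Real.sqrt (v h t) * δ t) ^ 2 = ∑ t, (v h t : ℝ) * δ t ^ 2 := by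
        apply sum_congr rfl
        intro t _
        rw [mul_pow, Real.sq_sqrt (Nat.cast_nonneg _)]
      rw [e1, e2, e3] at hcs
      exact hcs
    have h3 : ∏ t, y t ^ v h t ≤ Real.exp z := by
      calc ∏ t, y t ^ v h t ≤ ∏ t, Real.exp ((v h t : ℝ) * δ t) := by
            apply prod_le_prod (fun t _ => pow_nonneg (hy0 t) _)
            intro t _
            rw [Real.exp_nat_mul]
            apply pow_le_pow_left₀ (hy0 t)
            rw [hyδ, add_comm]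
            exact Real.add_one_le_exp _
        _ = Real.exp z := by rw [← Real.exp_sum]
    have h4 := (abs_le.1 (Real.abs_exp_sub_one_sub_id_le hz1)).2
    linarith
  have hS : ∑ h ∈ P, ∏ t, y t ^ v h t ≤ #P * (1 + D / 3) := by
    calc ∑ h ∈ P, ∏ t, y t ^ v h t
        ≤ ∑ h ∈ P, (1 + ∑ t, (v h t : ℝ) * δ t + 2 * i * ∑ t, (v h t : ℝ) * δ t ^ 2) :=
          sum_le_sum hz
      _ = #P + ∑ t, (∑ h ∈ P, (v h t : ℝ)) * δ t +
          2 * i * ∑ t, (∑ h ∈ P, (v h t : ℝ)) * δ t ^ 2 := by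
          rw [sum_add_distrib, sum_add_distrib, sum_const, nsmul_eq_mul, mul_one, ← mul_sum,
            sum_comm, sum_comm (s := P)]
          simp only [sum_mul]
      _ = #P + ∑ t, (2 * i * #P / m) * δ t + 2 * i * ∑ t, (2 * i * #P / m) * δ t ^ 2 := by
          have e : ∀ t, ∑ h ∈ P, (v h t : ℝ) = 2 * i * #P / m := fun t => by
            rw [eq_div_iff hm0.ne', mul_comm]
            exact h2 t
          simp only [e]
      _ = #P * (1 + (4 * i ^ 2 / m) * D) := by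
          rw [← mul_sum, ← mul_sum, hδs, ← hD]
          ring
      _ ≤ #P * (1 + D / 3) := by
          apply mul_le_mul_of_nonneg_left _ (Nat.cast_nonneg _)
          have : (4 * i ^ 2 / m : ℝ) ≤ 1 / 3 := by
            rw [div_le_div_iff₀ hm0 (by norm_num)]
            have : (12 * i ^ 2 : ℝ) ≤ m := by exact_mod_cast hi
            linarith
          nlinarith
  calc ∑ h ∈ P, (∏ t, y t) * ∏ t, y t ^ v h t
      = (∏ t, y t) * ∑ h ∈ P, ∏ t, y t ^ v h t := by rw [mul_sum]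
    _ ≤ Real.exp (-(D / 3)) * (#P * (1 + D / 3)) := by
        apply mul_le_mul hprod hS _ (Real.exp_pos _).le
        exact sum_nonneg fun h _ => prod_nonneg fun t _ => pow_nonneg (hy0 t) _
    _ ≤ Real.exp (-(D / 3)) * (#P * Real.exp (D / 3)) := by
        apply mul_le_mul_of_nonneg_left _ (Real.exp_pos _).le
        apply mul_le_mul_of_nonneg_left _ (Nat.cast_nonneg _)
        rw [add_comm]
        exact Real.add_one_le_exp _
    _ = #P := by
        rw [mul_comm, mul_assoc, ← Real.exp_add]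
        simp

theorem opt {m : ℕ} [NeZero m] (hm : 3 ≤ m) (ho : Odd m) (i : ℕ) (hi : 12 * i ^ 2 ≤ m)
    (y : ZMod m → ℝ) (hs : ∑ t, y t = m) {ε : ℝ} (he : ε ≤ 1 / 2) (hie : 2 * i * ε ≤ 1)
    (hy : ∀ t, |y t - 1| ≤ ε) :
    ∑ h ∈ pats (m + 2 * i) m, ∏ p, y (h p) ≤ #(pats (m + 2 * i) m) := by
  have hr : Odd (m + 2 * i) := ho.add_even (even_two_mul i)
  rw [sum_congr rfl (fun h hh => vis_prod hm ho hr hh y)]
  exact opt_abs (pats (m + 2 * i) m) (fun h t => vis h t) i hi (fun h hh => vis_sum hm ho i hh)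
    (vis_rot hm ho i) y hs he hie hy

end Pool.Agent.CycFD
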