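import Pool.Agent.W_1bfdb5fd_h19.GenP
import Pool.Agent.W_1bfdb5fd_h19.As

/-!
# The process by pairs

Fix a rotation `s`, `v t = c (s + t)`.  Order of the choices:
`v 0, v 1, v 3, v 2, v 5, v 4, v 7, v 6, ..., v (m-2), v (m-3), v (m-1)`.
* `v 0`: all vertices; `v 1 ∈ Nb G (v 0)`; `v 3 ∈ B3 G (v 0) (v 1)`; `v 2 ∈ B2 G (v 1) (v 3)`
  (this is `AA G c (s + 2)`);
* `v 5 ∈ {w | Wk 2 w (v 3), not Wk 2 w (v 1), not Wk 3 w (v 0)}`, a subset of `QT G c (s + 5)`,
  because `c (s - 1)` is adjacent to `v 0`;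
* `v t`, `t = 7, 9, ..., m - 2`: `{w | Wk 2 w (v (t-2)), not Wk 2 w (v (t-4)), not Wk 2 w (v (t-6))}`,
  this is `QT G c (s + t)`; then `v (t-1) ∈ B2 G (v (t-2)) (v t)` (this is `AA G c (s + t - 1)`);
* `v (m-1) ∈ B2 G (v (m-2)) (v 0)` (this is `AA G c (s + m - 1)`).
`gen_proc` for the sequences in this order.  By `arc` the vertex `c (s + t)` is in these sets.
`m = 2 h + 5`: the positions `2, 4, ..., m - 1` are `2 i + 2`, `i < h + 2`, the positions
`5, 7, ..., m - 2` are `2 i + 5`, `i < h`.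
-/

namespace Pool.Agent.CycFD

open Finset Pool.Agent.CycGT
open scoped Classical

variable {V : Type} [Fintype V] {G : SimpleGraph V}

private lemma pp_nwk {m : ℕ} (ho : Odd m) (hG : OddFree G m) {c : ZMod m → V} (hc : IsCl G m c)
    {p q : ZMod m} {r d : ℕ} (h1 : r < d) (h2 : d + r < m) (e : p = q + (d : ZMod m)) :
    ¬ Wk G r (c p) (c q) := by
  intro hw
  obtain ⟨e1, he1, _, he3⟩ := arc (M := m) (h := 0) (by omega) ho hG hc hw
  have hz : ∀ n : ℕ, 0 < n → n < m → (n : ZMod m) ≠ 0 := by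
    intro n h0 h1 h2
    rw [ZMod.natCast_eq_zero_iff] at h2
    exact absurd (Nat.le_of_dvd h0 h2) (by omega)
  rcases he3 with he | he
  · refine hz (d + e1) (by omega) (by omega) ?_
    rw [e] at he
    push_cast
    linear_combination -he
  · refine hz (d - e1) (by omega) (by omega) ?_
    rw [e] at he
    rw [Nat.cast_sub (by omega)]
    linear_combination -he

/-- The order of the process (an involution). -/
private def pσ (h t : ℕ) : ℕ :=
  if t = 0 then 0 else if t = 1 then 1 else if t = 2 * h + 4 then 2 * h + 4 else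
    if t % 2 = 0 then t + 1 else t - 1

private lemma pσ_lt {h t : ℕ} (ht : t < 2 * h + 5) : pσ h t < 2 * h + 5 := by
  unfold pσ
  split_ifs <;> omega

private lemma pσ_even {h t : ℕ} (h1 : 2 ≤ t) (h2 : t < 2 * h + 4) (h3 : t % 2 = 0) :
    pσ h t = t + 1 := by
  unfold pσ
  rw [if_neg (by omega), if_neg (by omega), if_neg (by omega), if_pos h3]

private lemma pσ_odd {h t : ℕ} (h1 : 2 ≤ t) (h3 : t % 2 = 1) :
    pσ h t = t - 1 := by
  unfold pσ
  rw [if_neg (by omega), if_neg (by omega), if_neg (by omega), if_neg (by omega)]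

private lemma pσ_last {h : ℕ} : pσ h (2 * h + 4) = 2 * h + 4 := by
  unfold pσ
  rw [if_neg (by omega), if_neg (by omega), if_pos rfl]

private lemma pσ_pσ {h t : ℕ} (ht : t < 2 * h + 5) : pσ h (pσ h t) = t := by
  rcases Nat.lt_or_ge t 2 with h1 | h1
  · have : t = 0 ∨ t = 1 := by omega
    rcases this with rfl | rfl <;> rfl
  rcases Nat.mod_two_eq_zero_or_one t with h2 | h2
  · rcases Nat.lt_or_ge t (2 * h + 4) with h3 | h3
    · rw [pσ_even h1 h3 h2, pσ_odd (by omega) (by omega)]
      omega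
    · obtain rfl : t = 2 * h + 4 := by omega
      rw [pσ_last, pσ_last]
  · rw [pσ_odd h1 h2, pσ_even (by omega) (by omega) (by omega)]
    omega

/-- The index of the position `2 a + 1`. -/
private def pod (a : ℕ) : ℕ := if a = 0 then 1 else 2 * a

private lemma pσ_pod {h a : ℕ} (ha : a ≤ h + 1) : pσ h (pod a) = 2 * a + 1 := by
  unfold pσ pod
  split_ifs <;> omega

/-- The sets of the process. -/
private noncomputable def pS (G : SimpleGraph V) (h t : ℕ) (v : ℕ → V) : Finset V :=
  if t = 0 then univ else if t = 1 then Nb G (v 0) else if t = 2 then B3 G (v 0) (v 1) else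
  if t % 2 = 1 then B2 G (v (pod (t / 2 - 1))) (v (pod (t / 2))) else
  if t = 2 * h + 4 then B2 G (v (pod (t / 2 - 1))) (v 0) else
  if t = 4 then univ.filter (fun w => Wk G 2 w (v (pod 1)) ∧ ¬ Wk G 2 w (v (pod 0)) ∧
    ¬ Wk G 3 w (v 0)) else
  univ.filter (fun w => Wk G 2 w (v (pod (t / 2 - 1))) ∧ ¬ Wk G 2 w (v (pod (t / 2 - 2))) ∧
    ¬ Wk G 2 w (v (pod (t / 2 - 3))))

private lemma pod_lt {a b : ℕ} (h : a < b) (hb : 2 ≤ b) : pod a < 2 * b := by
  unfold pod
  split_ifs <;> omega

private lemma pod_lt' {a t : ℕ} (h : a ≤ t / 2) (ht : 3 ≤ t) (ho : t % 2 = 1) : pod a < t := by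
  unfold pod
  split_ifs <;> omega

private lemma pod_lt2 {a t : ℕ} (h : a < t / 2) (ht : 3 ≤ t) : pod a < t := by
  unfold pod
  split_ifs <;> omega

private lemma pS_dep (G : SimpleGraph V) (h t : ℕ) (v v' : ℕ → V) (hv : ∀ i < t, v i = v' i) :
    pS G h t v = pS G h t v' := by
  unfold pS
  split_ifs with h0 h1 h2 h3 h4 h5
  · rfl
  · rw [hv 0 (by omega)]
  · rw [hv 0 (by omega), hv 1 (by omega)]
  · rw [hv _ (pod_lt' (by omega) (by omega) h3), hv _ (pod_lt' (by omega) (by omega) h3)]
  · rw [hv _ (pod_lt2 (by omega) (by omega)), hv 0 (by omega)]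
  · rw [hv _ (by subst h5; decide), hv (pod 0) (by subst h5; decide), hv 0 (by omega)]
  · rw [hv _ (pod_lt2 (by omega) (by omega)), hv (pod (t / 2 - 2)) (pod_lt2 (by omega) (by omega)),
      hv (pod (t / 2 - 3)) (pod_lt2 (by omega) (by omega))]

private lemma pp_pairs (g : ℕ → ℝ) (n : ℕ) :
    ∏ t ∈ range (2 * n), g t = ∏ a ∈ range n, (g (2 * a) * g (2 * a + 1)) := by
  induction n with
  | zero => simp
  | succ n ih =>
    rw [prod_range_succ _ n, ← ih, show 2 * (n + 1) = 2 * n + 1 + 1 from rfl, prod_range_succ,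
      prod_range_succ, mul_assoc]

theorem pair_proc {m h : ℕ} [NeZero m] (hm : 13 ≤ m) (hh : m = 2 * h + 5) (hG : OddFree G m)
    (s : ZMod m) :
    ∑ c ∈ clos G m, ((Fintype.card V : ℝ) * #(Nb G (c s)) * #(B3 G (c s) (c (s + 1))) *
      ((∏ i ∈ range (h + 2), (#(AA G c (s + 2 * i + 2)) : ℝ)) *
        ∏ i ∈ range h, (#(QT G c (s + 2 * i + 5)) : ℝ)))⁻¹ ≤ 1 := by
  have ho : Odd m := ⟨h + 2, by omega⟩
  set f : (ZMod m → V) → ℕ → V := fun c t => c (s + ((pσ h t : ℕ) : ZMod m)) with hf
  have fpod : ∀ (c : ZMod m → V) (a : ℕ), a ≤ h + 1 → f c (pod a) = c (s + ((2 * a + 1 : ℕ) : ZMod m)) := by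
    intro c a ha
    rw [hf]
    beta_reduce
    rw [pσ_pod ha]
  have f0 : ∀ c : ZMod m → V, f c 0 = c s := by
    intro c
    rw [hf]
    beta_reduce
    have : pσ h 0 = 0 := rfl
    rw [this, Nat.cast_zero, add_zero]
  have f1 : ∀ c : ZMod m → V, f c 1 = c (s + 1) := by
    intro c
    rw [hf]
    beta_reduce
    have : pσ h 1 = 1 := rfl
    rw [this, Nat.cast_one]
  have hmz : ((2 * h + 5 : ℕ) : ZMod m) = 0 := by
    rw [← hh]
    exact ZMod.natCast_self m
  -- the sets for a closed walk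
  have S3 : ∀ c ∈ clos G m, ∀ t, 3 ≤ t → t < m → t % 2 = 1 →
      pS G h t (f c) = AA G c (s + ((2 * (t / 2) : ℕ) : ZMod m)) := by
    intro c hc t h3 htm hto
    unfold pS
    rw [if_neg (by omega), if_neg (by omega), if_neg (by omega), if_pos hto,
      fpod c _ (by omega), fpod c _ (by omega)]
    ext w
    rw [mem_AA]
    unfold B2
    rw [mem_filter]
    have e1 : s + ((2 * (t / 2 - 1) + 1 : ℕ) : ZMod m) = s + ((2 * (t / 2) : ℕ) : ZMod m) - 1 := by
      have : 2 * (t / 2 - 1) + 1 + 1 = 2 * (t / 2) := by omega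
      rw [← this]
      push_cast
      ring
    have e2 : s + ((2 * (t / 2) + 1 : ℕ) : ZMod m) = s + ((2 * (t / 2) : ℕ) : ZMod m) + 1 := by
      push_cast
      ring
    rw [e1, e2]
    exact and_iff_right (mem_univ _)
  have Slast : ∀ c ∈ clos G m, pS G h (2 * h + 4) (f c) =
      AA G c (s + ((2 * h + 4 : ℕ) : ZMod m)) := by
    intro c hc
    unfold pS
    rw [if_neg (by omega), if_neg (by omega), if_neg (by omega), if_neg (by omega), if_pos rfl,
      fpod c _ (by omega), f0 c]
    ext w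
    rw [mem_AA]
    unfold B2
    rw [mem_filter]
    have e1 : s + ((2 * ((2 * h + 4) / 2 - 1) + 1 : ℕ) : ZMod m) =
        s + ((2 * h + 4 : ℕ) : ZMod m) - 1 := by
      have d : 2 * ((2 * h + 4) / 2 - 1) + 1 = 2 * h + 3 := by omega
      rw [d]
      push_cast
      ring
    have e2 : s + ((2 * h + 4 : ℕ) : ZMod m) + 1 = s := by
      push_cast at hmz ⊢
      linear_combination hmz
    rw [e1, e2]
    exact and_iff_right (mem_univ _)
  have Sev : ∀ c ∈ clos G m, ∀ i < h, pS G h (2 * i + 4) (f c) ⊆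
      QT G c (s + 2 * i + 5) := by
    intro c hc i hi
    have hcl := mem_clos.1 hc
    rcases Nat.eq_zero_or_pos i with h0 | h0
    · subst h0
      unfold pS
      rw [if_neg (by omega), if_neg (by omega), if_neg (by omega), if_neg (by omega),
        if_neg (by omega), if_pos (by omega), fpod c _ (by omega), fpod c _ (by omega), f0 c]
      intro w hw
      rw [mem_filter] at hw
      rw [mem_QT]
      have e1 : s + 2 * ((0 : ℕ) : ZMod m) + 5 - 2 = s + ((2 * 1 + 1 : ℕ) : ZMod m) := by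
        push_cast; ring
      have e2 : s + 2 * ((0 : ℕ) : ZMod m) + 5 - 4 = s + ((2 * 0 + 1 : ℕ) : ZMod m) := by
        push_cast; ring
      have e3 : s + 2 * ((0 : ℕ) : ZMod m) + 5 - 6 = s - 1 := by push_cast; ring
      rw [e1, e2, e3]
      refine ⟨hw.2.1, hw.2.2.1, fun hcon => hw.2.2.2 ?_⟩
      have h4 := hcl (s - 1)
      rw [sub_add_cancel] at h4
      exact hcon.trans (wk_one.2 h4)
    · unfold pS
      rw [if_neg (by omega), if_neg (by omega), if_neg (by omega), if_neg (by omega),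
        if_neg (by omega), if_neg (by omega), fpod c _ (by omega), fpod c _ (by omega),
        fpod c _ (by omega)]
      intro w hw
      rw [mem_filter] at hw
      rw [mem_QT]
      obtain ⟨k, rfl⟩ : ∃ k, i = k + 1 := ⟨i - 1, by omega⟩
      have d1 : 2 * ((2 * (k + 1) + 4) / 2 - 1) + 1 = 2 * k + 5 := by omega
      have d2 : 2 * ((2 * (k + 1) + 4) / 2 - 2) + 1 = 2 * k + 3 := by omega
      have d3 : 2 * ((2 * (k + 1) + 4) / 2 - 3) + 1 = 2 * k + 1 := by omega
      rw [d1, d2, d3] at hw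
      have e1 : s + 2 * ((k + 1 : ℕ) : ZMod m) + 5 - 2 = s + ((2 * k + 5 : ℕ) : ZMod m) := by
        push_cast; ring
      have e2 : s + 2 * ((k + 1 : ℕ) : ZMod m) + 5 - 4 = s + ((2 * k + 3 : ℕ) : ZMod m) := by
        push_cast; ring
      have e3 : s + 2 * ((k + 1 : ℕ) : ZMod m) + 5 - 6 = s + ((2 * k + 1 : ℕ) : ZMod m) := by
        push_cast; ring
      rw [e1, e2, e3]
      exact hw.2
  -- membership
  have hmem : ∀ c ∈ clos G m, ∀ t < m, f c t ∈ pS G h t (f c) := by
    intro c hc t ht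
    have hcl := mem_clos.1 hc
    rcases Nat.eq_zero_or_pos t with h0 | h0
    · subst h0
      unfold pS
      rw [if_pos rfl]
      exact mem_univ _
    rcases Nat.lt_or_ge 1 t with h1 | h1
    swap
    · obtain rfl : t = 1 := by omega
      unfold pS
      rw [if_neg (by omega), if_pos rfl, mem_Nb, f0, f1]
      exact (hcl s).symm
    rcases Nat.lt_or_ge 2 t with h2 | h2
    swap
    · obtain rfl : t = 2 := by omega
      unfold pS
      rw [if_neg (by omega), if_neg (by omega), if_pos rfl, f0, f1]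
      have e : f c 2 = c (s + 3) := by
        have := fpod c 1 (by omega)
        have e2 : pod 1 = 2 := rfl
        rw [e2] at this
        rw [this]
        congr 1
      rw [e]
      unfold B3
      rw [mem_filter]
      refine ⟨mem_univ _, ?_, ?_⟩
      · have h3 := hcl.along (s + 1) 2
        have e3 : s + 1 + ((2 : ℕ) : ZMod m) = s + 3 := by push_cast; ring
        rw [e3] at h3
        exact h3.symm
      · intro hcon
        refine pp_nwk ho hG hcl (r := 1) (d := 3) (by omega) (by omega) ?_ (wk_one.2 hcon)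
        push_cast
        ring
    rcases Nat.mod_two_eq_zero_or_one t with hto | hto
    swap
    · rw [S3 c hc t (by omega) ht hto, mem_AA]
      have e : f c t = c (s + ((2 * (t / 2) : ℕ) : ZMod m)) := by
        rw [hf]
        beta_reduce
        congr 3
        unfold pσ
        rw [if_neg (by omega), if_neg (by omega), if_neg (by omega), if_neg (by omega)]
        omega
      rw [e]
      refine ⟨?_, hcl _⟩
      have h4 := hcl (s + ((2 * (t / 2) : ℕ) : ZMod m) - 1)
      rw [sub_add_cancel] at h4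
      exact h4.symm
    rcases Nat.lt_or_ge t (2 * h + 4) with h5 | h5
    swap
    · obtain rfl : t = 2 * h + 4 := by omega
      rw [Slast c hc, mem_AA]
      have e : f c (2 * h + 4) = c (s + ((2 * h + 4 : ℕ) : ZMod m)) := by
        rw [hf]
        beta_reduce
        congr 3
        unfold pσ
        rw [if_neg (by omega), if_neg (by omega), if_pos rfl]
      rw [e]
      refine ⟨?_, hcl _⟩
      have h4 := hcl (s + ((2 * h + 4 : ℕ) : ZMod m) - 1)
      rw [sub_add_cancel] at h4
      exact h4.symm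
    · have e : f c t = c (s + ((t + 1 : ℕ) : ZMod m)) := by
        rw [hf]
        beta_reduce
        congr 3
        unfold pσ
        rw [if_neg (by omega), if_neg (by omega), if_neg (by omega), if_pos hto]
      have hal : ∀ a : ℕ, Wk G 2 (c (s + ((a + 2 : ℕ) : ZMod m))) (c (s + (a : ZMod m))) := by
        intro a
        have h3 := hcl.along (s + (a : ZMod m)) 2
        have e3 : s + (a : ZMod m) + ((2 : ℕ) : ZMod m) = s + ((a + 2 : ℕ) : ZMod m) := by
          push_cast; ring
        rw [e3] at h3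
        exact h3.symm
      unfold pS
      rw [if_neg (by omega), if_neg (by omega), if_neg (by omega), if_neg (by omega),
        if_neg (by omega)]
      split_ifs with h6
      · subst h6
        rw [fpod c _ (by omega), fpod c _ (by omega), f0 c, mem_filter, e]
        refine ⟨mem_univ _, hal 3, ?_, ?_⟩
        · refine pp_nwk ho hG hcl (d := 4) (by omega) (by omega) ?_
          push_cast
          ring
        · refine pp_nwk ho hG hcl (d := 5) (by omega) (by omega) ?_
          push_cast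
          ring
      · rw [fpod c _ (by omega), fpod c _ (by omega), fpod c _ (by omega), mem_filter, e]
        refine ⟨mem_univ _, ?_, ?_, ?_⟩
        · have h7 := hal (t - 1)
          have e4 : t - 1 + 2 = t + 1 := by omega
          have e5 : 2 * (t / 2 - 1) + 1 = t - 1 := by omega
          rw [e4] at h7
          rw [e5]
          exact h7
        · refine pp_nwk ho hG hcl (d := 4) (by omega) (by omega) ?_
          have e5 : 2 * (t / 2 - 2) + 1 + 4 = t + 1 := by omega
          rw [← e5]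
          push_cast
          ring
        · refine pp_nwk ho hG hcl (d := 6) (by omega) (by omega) ?_
          have e5 : 2 * (t / 2 - 3) + 1 + 6 = t + 1 := by omega
          rw [← e5]
          push_cast
          ring
  have key := gen_proc m (pS G h) (pS_dep G h) (clos G m) f (by
    intro c _ c' _ hcc
    funext x
    have hx := ZMod.val_lt (x - s)
    have h1 := hcc (pσ h (x - s).val) (lt_of_lt_of_eq (pσ_lt (by omega)) hh.symm)
    rw [hf] at h1
    beta_reduce at h1
    rw [pσ_pσ (by omega), ZMod.natCast_zmod_val] at h1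
    have e : s + (x - s) = x := by ring
    rwa [e] at h1) hmem
  refine le_trans (sum_le_sum fun c hc => ?_) key
  have hcl := mem_clos.1 hc
  rw [prod_inv_distrib]
  have hpos : ∀ t < m, (0 : ℝ) < #(pS G h t (f c)) := fun t ht => by
    exact_mod_cast card_pos.2 ⟨_, hmem c hc t ht⟩
  refine inv_anti₀ (prod_pos fun t ht => hpos t (mem_range.1 ht)) ?_
  have hr : range m = range (2 * (h + 2) + 1) := congrArg range (by omega)
  rw [hr, prod_range_succ, pp_pairs, prod_range_succ', prod_range_succ']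
  have a0 : (#(pS G h (2 * 0) (f c)) : ℝ) = Fintype.card V := by
    unfold pS
    rw [if_pos rfl, Finset.card_univ]
  have a1 : (#(pS G h (2 * 0 + 1) (f c)) : ℝ) = #(Nb G (c s)) := by
    unfold pS
    rw [if_neg (by omega), if_pos rfl, f0]
  have a2 : (#(pS G h (2 * (0 + 1)) (f c)) : ℝ) = #(B3 G (c s) (c (s + 1))) := by
    unfold pS
    rw [if_neg (by omega), if_neg (by omega), if_pos rfl, f0, f1]
  have a3 : (#(pS G h (2 * (0 + 1) + 1) (f c)) : ℝ) = #(AA G c (s + 2 * ((0 : ℕ) : ZMod m) + 2)) := by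
    rw [S3 c hc _ (by omega) (by omega) (by omega)]
    congr 3
    push_cast
    ring
  have a4 : (#(pS G h (2 * (h + 2)) (f c)) : ℝ) = #(AA G c (s + 2 * ((h + 1 : ℕ) : ZMod m) + 2)) := by
    rw [show 2 * (h + 2) = 2 * h + 4 from by ring, Slast c hc]
    congr 3
    push_cast
    ring
  rw [a0, a1, a2, a3, a4]
  rw [prod_range_succ (fun i : ℕ => (#(AA G c (s + 2 * (i : ZMod m) + 2)) : ℝ)) (h + 1),
    prod_range_succ' (fun i : ℕ => (#(AA G c (s + 2 * (i : ZMod m) + 2)) : ℝ)) h]
  have hpr : ∏ k ∈ range h, ((#(pS G h (2 * (k + 1 + 1)) (f c)) : ℝ) *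
      #(pS G h (2 * (k + 1 + 1) + 1) (f c))) ≤
      (∏ k ∈ range h, (#(QT G c (s + 2 * (k : ZMod m) + 5)) : ℝ)) *
        ∏ k ∈ range h, (#(AA G c (s + 2 * ((k + 1 : ℕ) : ZMod m) + 2)) : ℝ) := by
    rw [← prod_mul_distrib]
    refine prod_le_prod (fun k _ => by positivity) fun k hk => ?_
    have hk' := mem_range.1 hk
    have b1 : (#(pS G h (2 * (k + 1 + 1)) (f c)) : ℝ) ≤ #(QT G c (s + 2 * (k : ZMod m) + 5)) := by
      have := card_le_card (Sev c hc k hk')
      rw [show 2 * (k + 1 + 1) = 2 * k + 4 from by ring]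
      exact_mod_cast this
    have b2 : (#(pS G h (2 * (k + 1 + 1) + 1) (f c)) : ℝ) =
        #(AA G c (s + 2 * ((k + 1 : ℕ) : ZMod m) + 2)) := by
      rw [S3 c hc _ (by omega) (by omega) (by omega)]
      congr 3
      have : 2 * ((2 * (k + 1 + 1) + 1) / 2) = 2 * (k + 1) + 2 := by omega
      rw [this]
      push_cast
      ring
    rw [b2]
    exact mul_le_mul_of_nonneg_right b1 (by positivity)
  set P1 := ∏ k ∈ range h, (#(QT G c (s + 2 * (k : ZMod m) + 5)) : ℝ)
  set P2 := ∏ k ∈ range h, (#(AA G c (s + 2 * ((k + 1 : ℕ) : ZMod m) + 2)) : ℝ)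
  set P3 := ∏ k ∈ range h, ((#(pS G h (2 * (k + 1 + 1)) (f c)) : ℝ) *
      #(pS G h (2 * (k + 1 + 1) + 1) (f c)))
  calc _ = P3 * ((#(B3 G (c s) (c (s + 1))) : ℝ) * #(AA G c (s + 2 * ((0 : ℕ) : ZMod m) + 2)) *
        ((Fintype.card V : ℝ) * #(Nb G (c s))) *
        #(AA G c (s + 2 * ((h + 1 : ℕ) : ZMod m) + 2))) := by ring
    _ ≤ (P1 * P2) * ((#(B3 G (c s) (c (s + 1))) : ℝ) * #(AA G c (s + 2 * ((0 : ℕ) : ZMod m) + 2)) *
        ((Fintype.card V : ℝ) * #(Nb G (c s))) *
        #(AA G c (s + 2 * ((h + 1 : ℕ) : ZMod m) + 2))) :=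
        mul_le_mul_of_nonneg_right hpr (by positivity)
    _ = _ := by ring

end Pool.Agent.CycFD
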