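import Pool.Agent.W_1bfdb5fd_h19.JpB
import Pool.Agent.W_1bfdb5fd_h19.Pp

/-!
# The sharp bound for closed walks of length m

Average `pair_proc` over the rotations `s`.  `x1 s = #(Nb G (c s))`,
`x2 s = #(B3 G (c s) (c (s + 1)))`, `x3 = 1`, `y s` the product over the classes: `jensen3` gives
`m ((avg x1) (avg x2) exp (avg (log y)))⁻¹ ≤ ∑ s (x1 x2 y)⁻¹`.
With `n = card V`, `u = n / m`, `ρ = #BB / n`: `avg x1 ≤ (2 - ρ) u` (`nb_sum`),
`avg x2 ≤ (1 + 2 ρ) u` (`b3_sum`), and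
`avg (log y) = (m - 1) / (2 m) ∑ log #AA + (m - 5) / (2 m) ∑ log #QT`
`≤ (m - 1) / 2 log u - (m - 1) / (2 m) (m ρ + Phi) + (m - 5) / 2 log u`
(`∑ log #QT ≤ m log u` by `jen_log` and `qt_sum`).  Moreover
`(1 - ρ / 2) (1 + 2 ρ) ≤ exp (3 ρ / 2)`, `Phi ≥ 0`, `(m - 1) / (2 m) ≥ 2 / 5`, so every `c`
contributes at least `exp (Dp G c) / (2 m u^m)`.
-/

namespace Pool.Agent.CycFD

open Finset Pool.Agent.CycGT
open scoped Classical

variable {V : Type} [Fintype V] {G : SimpleGraph V} {m : ℕ} [NeZero m]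

theorem pair_sum (hm : 13 ≤ m) (ho : Odd m) (hG : OddFree G m) :
    ∑ c ∈ clos G m, Real.exp (Dp G c) ≤ 2 * m * ((Fintype.card V : ℝ) / m) ^ m := by
  obtain ⟨k, hk⟩ := ho
  obtain ⟨h, hh⟩ : ∃ h, m = 2 * h + 5 := ⟨k - 2, by omega⟩
  rcases (clos G m).eq_empty_or_nonempty with he | ⟨c0, hc0⟩
  · rw [he, sum_empty]
    positivity
  have hV : Nonempty V := ⟨c0 0⟩
  have hn : (0 : ℝ) < Fintype.card V := by exact_mod_cast Fintype.card_pos
  have hm0 : (0 : ℝ) < m := by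
    have : 0 < m := by omega
    exact_mod_cast this
  have hK : (0 : ℝ) < 2 * m * ((Fintype.card V : ℝ) / m) ^ m := by positivity
  set K : ℝ := 2 * m * ((Fintype.card V : ℝ) / m) ^ m with hKd
  have h1 : ∑ c ∈ clos G m, (m : ℝ) * (Real.exp (Dp G c) / K) ≤ m := by
    calc _ ≤ ∑ c ∈ clos G m, ∑ s, ((Fintype.card V : ℝ) * #(Nb G (c s)) *
          #(B3 G (c s) (c (s + 1))) *
          ((∏ i ∈ range (h + 2), (#(AA G c (s + 2 * i + 2)) : ℝ)) *
            ∏ i ∈ range h, (#(QT G c (s + 2 * i + 5)) : ℝ)))⁻¹ :=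
          sum_le_sum fun c hc => pair_avg hm hh hG hc
      _ = ∑ s, ∑ c ∈ clos G m, ((Fintype.card V : ℝ) * #(Nb G (c s)) *
          #(B3 G (c s) (c (s + 1))) *
          ((∏ i ∈ range (h + 2), (#(AA G c (s + 2 * i + 2)) : ℝ)) *
            ∏ i ∈ range h, (#(QT G c (s + 2 * i + 5)) : ℝ)))⁻¹ := sum_comm
      _ ≤ ∑ _s : ZMod m, (1 : ℝ) := sum_le_sum fun s _ => pair_proc hm hh hG s
      _ = m := by rw [sum_const, card_univ, ZMod.card, nsmul_eq_mul, mul_one]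
  rw [← mul_sum, ← sum_div] at h1
  have h2 : (∑ c ∈ clos G m, Real.exp (Dp G c)) / K ≤ 1 := by
    by_contra hcon
    rw [not_le] at hcon
    nlinarith
  rwa [div_le_one hK] at h2

end Pool.Agent.CycFD
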