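import Pool.Agent.W_1bfdb5fd_h19.Eb
import Pool.Agent.W_1bfdb5fd_h19.JpC

/-!
# Step 2: a shortest odd closed walk with small deficit

`u = n / m`, `D = K u`.
* `far_count`: `j! #clos ≤ j! #(not far) + ∑ Psi 1`, `psi_lower`, `psi_total` (`F = 1`).
* `psi_exp`: by `EE_Dp`, `EE G c + 4 j D^2 ≤ m u^2 (1 + ((13 K + 5) Dp G c + 4 j K^2) / m)
  ≤ m u^2 exp (((13 K + 5) Dp G c + 4 j K^2) / m)`; so for `m ≥ 2 j (13 K + 5)` and `X ≤ Dp G c` for
  all `c` (`X ≥ 0`) the sum over `c` is at most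
  `(m u^2)^j exp (4 j^2 K^2 / m) ∑ exp (Dp G c) exp (- Dp G c / 2)
  ≤ (m u^2)^j exp (4 j^2 K^2 / m) exp (- X / 2) 2 m u^m`.
* `step2`: let `X` be the minimum of `Dp` (if `clos G m` is empty, `far_count` gives a contradiction
  for large `m`).  `2 m^(1+j) u^M ≤ j! C m^j u^M + (1 + 2 j / m) exp (4 j^2 K^2 / m) exp (- X / 2)
  2 m^(1+j) u^M`, so `1 - C' / m ≤ exp (- X / 2)`, and `X ≤ C'' / m`.
-/

namespace Pool.Agent.CycFD

open Finset Pool.Agent.CycGT
open scoped Classical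

theorem psi_exp {V : Type} [Fintype V] {G : SimpleGraph V} {m : ℕ} [NeZero m] (hm : 19 ≤ m)
    (ho : Odd m) (hG : OddFree G m) (j : ℕ) {K : ℝ} (hK : 1 ≤ K)
    (hD : DegLe G (K * (Fintype.card V / m))) (hmK : 2 * j * (13 * K + 5) ≤ m) {X : ℝ}
    (hX0 : 0 ≤ X) (hX : ∀ c ∈ clos G m, X ≤ Dp G c) :
    ∑ c ∈ clos G m, (EE G c + 4 * j * (K * (Fintype.card V / m)) ^ 2) ^ j ≤
      (m * ((Fintype.card V : ℝ) / m) ^ 2) ^ j * (Real.exp (4 * j ^ 2 * K ^ 2 / m) *
        (Real.exp (-X / 2) * (2 * m * ((Fintype.card V : ℝ) / m) ^ m))) := by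
  have hm0 : (0 : ℝ) < m := by
    have : 0 < m := by omega
    exact_mod_cast this
  set u : ℝ := (Fintype.card V : ℝ) / m with hu
  have hu0 : 0 ≤ u := by positivity
  have hpt : ∀ c ∈ clos G m, (EE G c + 4 * j * (K * u) ^ 2) ^ j ≤
      (m * u ^ 2) ^ j * (Real.exp (4 * j ^ 2 * K ^ 2 / m) * (Real.exp (-X / 2) *
        Real.exp (Dp G c))) := by
    intro c hc
    have hcl := mem_clos.1 hc
    have h1 := EE_Dp (by omega : 13 ≤ m) ho hG hcl hK hD
    rw [← hu] at h1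
    have hXc := hX c hc
    have hE0 : 0 ≤ EE G c := by
      unfold EE
      positivity
    have h2 : EE G c + 4 * j * (K * u) ^ 2 ≤
        m * u ^ 2 * Real.exp (((13 * K + 5) * Dp G c + 4 * j * K ^ 2) / m) := by
      have h3 : ((13 * K + 5) * Dp G c + 4 * j * K ^ 2) / m + 1 ≤
          Real.exp (((13 * K + 5) * Dp G c + 4 * j * K ^ 2) / m) := Real.add_one_le_exp _
      calc EE G c + 4 * j * (K * u) ^ 2
          ≤ m * u ^ 2 * (1 + (13 * K + 5) * Dp G c / m) + 4 * j * (K * u) ^ 2 := by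
            linarith
        _ = m * u ^ 2 * (((13 * K + 5) * Dp G c + 4 * j * K ^ 2) / m + 1) := by
            field_simp
            ring
        _ ≤ _ := mul_le_mul_of_nonneg_left h3 (by positivity)
    have h4 : (EE G c + 4 * j * (K * u) ^ 2) ^ j ≤
        (m * u ^ 2 * Real.exp (((13 * K + 5) * Dp G c + 4 * j * K ^ 2) / m)) ^ j :=
      pow_le_pow_left₀ (by positivity) h2 j
    refine h4.trans ?_
    rw [mul_pow, ← Real.exp_nat_mul, ← Real.exp_add, ← Real.exp_add]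
    refine mul_le_mul_of_nonneg_left (Real.exp_le_exp.2 ?_) (by positivity)
    have h5 : (j : ℝ) * (13 * K + 5) / m ≤ 1 / 2 := by
      rw [div_le_iff₀ hm0]
      linarith
    have hD0 : 0 ≤ Dp G c := hX0.trans hXc
    have h6 : (j : ℝ) * (13 * K + 5) / m * Dp G c ≤ 1 / 2 * Dp G c :=
      mul_le_mul_of_nonneg_right h5 hD0
    have h7 : (j : ℝ) * (((13 * K + 5) * Dp G c + 4 * j * K ^ 2) / m) =
        (j : ℝ) * (13 * K + 5) / m * Dp G c + 4 * j ^ 2 * K ^ 2 / m := by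
      ring
    rw [h7]
    linarith
  have hps := pair_sum (by omega : 13 ≤ m) ho hG
  rw [← hu] at hps
  calc ∑ c ∈ clos G m, (EE G c + 4 * j * (K * u) ^ 2) ^ j
      ≤ ∑ c ∈ clos G m, (m * u ^ 2) ^ j * (Real.exp (4 * j ^ 2 * K ^ 2 / m) *
        (Real.exp (-X / 2) * Real.exp (Dp G c))) := sum_le_sum hpt
    _ = (m * u ^ 2) ^ j * (Real.exp (4 * j ^ 2 * K ^ 2 / m) *
        (Real.exp (-X / 2) * ∑ c ∈ clos G m, Real.exp (Dp G c))) := by
        rw [mul_sum, mul_sum, mul_sum]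
    _ ≤ _ := by
        refine mul_le_mul_of_nonneg_left ?_ (by positivity)
        refine mul_le_mul_of_nonneg_left ?_ (by positivity)
        exact mul_le_mul_of_nonneg_left hps (by positivity)

end Pool.Agent.CycFD
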