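import Pool.Agent.W_1bfdb5fd_h19.Df

/-!
# Step 2: a shortest odd closed walk with small deficit

`u = n / m`, `D = K u`.
* `far_count`: `j! #clos ≤ j! #(not far) + ∑ Psi 1`, `psi_lower`, `psi_total` (`F = 1`).
* `psi_exp`: by `EE_Dp`, `EE G c + 4 j D^2 ≤ m u^2 (1 + ((13 K + 5) Dp G c + 4 j K^2) / m)
  ≤ m u^2 exp (((13 K + 5) Dp G c + 4 j K^2) / m)`; so for `m ≥ 2 j (13 K + 5)` and `X ≤ Dp G c` for
  all `c` (`X ≥ 0`) the sum over `c` is at most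
  `(m u^2)^j exp (4 j^2 K^2 / m) ∑ exp (Dp G c) exp (- Dp G c / 2)
  ≤ (m u^2)^j exp (4 j^2 K^2 / m) exp (- X / 2) 2 m u^m`.
* `step2`: let `X` be the minimum of `Dp` (if `clos G m` is empty, `far_count` gives a contradiction
  for large `m`).  `2 m^(1+j) u^M ≤ j! C m^j u^M + (1 + 2 j / m) exp (4 j^2 K^2 / m) exp (- X / 2)
  2 m^(1+j) u^M`, so `1 - C' / m ≤ exp (- X / 2)`, and `X ≤ C'' / m`.
-/

namespace Pool.Agent.CycFD

open Finset Pool.Agent.CycGT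
open scoped Classical

/-- The numerical conclusion. -/
theorem st2_num (j : ℕ) (K C : ℝ) (hK : 1 ≤ K) (hC : 0 ≤ C) : ∃ B : ℝ, 0 ≤ B ∧ ∃ m0 : ℕ,
    ∀ m : ℕ, m0 ≤ m → ∀ X : ℝ, 0 ≤ X →
    2 * (m : ℝ) ≤ C + (((m : ℝ) + 2 * j) / m) * (Real.exp (4 * j ^ 2 * K ^ 2 / m) *
      (Real.exp (-X / 2) * (2 * m))) → X ≤ B / m := by
  refine ⟨2 * (2 * j + 4 * j ^ 2 * K ^ 2 + C), by positivity, ⌈C⌉₊ + 1, fun m hm X hX h => ?_⟩
  have hmC : C + 1 ≤ (m : ℝ) := by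
    have h1 : C ≤ (⌈C⌉₊ : ℝ) := Nat.le_ceil C
    have h2 : ((⌈C⌉₊ + 1 : ℕ) : ℝ) ≤ (m : ℝ) := by exact_mod_cast hm
    push_cast at h2
    linarith
  have hm0 : (0 : ℝ) < (m : ℝ) := by linarith
  have h1 : ((m : ℝ) + 2 * j) / m ≤ Real.exp (2 * j / m) := by
    have := Real.add_one_le_exp ((2 * j : ℝ) / m)
    have h2 : ((m : ℝ) + 2 * j) / m = 2 * j / m + 1 := by
      field_simp
      ring
    linarith
  have h3 : (((m : ℝ) + 2 * j) / m) * (Real.exp (4 * j ^ 2 * K ^ 2 / m) *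
      (Real.exp (-X / 2) * (2 * m))) ≤ Real.exp (2 * j / m) *
      (Real.exp (4 * j ^ 2 * K ^ 2 / m) * (Real.exp (-X / 2) * (2 * m))) :=
    mul_le_mul_of_nonneg_right h1 (by positivity)
  have h4 : Real.exp (2 * j / m) *
      (Real.exp (4 * j ^ 2 * K ^ 2 / m) * (Real.exp (-X / 2) * (2 * m))) =
      Real.exp (2 * j / m + 4 * j ^ 2 * K ^ 2 / m + -X / 2) * (2 * m) := by
    rw [Real.exp_add, Real.exp_add]
    ring
  have h5 : 2 * (m : ℝ) - C ≤ Real.exp (2 * j / m + 4 * j ^ 2 * K ^ 2 / m + -X / 2) * (2 * m) := by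
    linarith
  have h6 : 1 - C / (2 * m) ≤ Real.exp (2 * j / m + 4 * j ^ 2 * K ^ 2 / m + -X / 2) := by
    have h7 : (1 - C / (2 * m)) * (2 * m) = 2 * (m : ℝ) - C := by
      field_simp
    rw [← h7] at h5
    exact le_of_mul_le_mul_right h5 (by positivity)
  have h8 : Real.exp (-(C / m)) ≤ 1 - C / (2 * m) := by
    have h9 : C / (m : ℝ) + 1 ≤ Real.exp (C / m) := Real.add_one_le_exp _
    have h10 : C / (m : ℝ) ≤ 1 := by
      rw [div_le_one hm0]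
      linarith
    have h11 : 0 ≤ C / (m : ℝ) := by positivity
    have h12 : C / (2 * m : ℝ) = (C / m) / 2 := by
      field_simp
    rw [h12, Real.exp_neg, inv_le_iff_one_le_mul₀ (Real.exp_pos _)]
    nlinarith
  have h13 := Real.exp_le_exp.1 (h8.trans h6)
  rw [le_div_iff₀ hm0]
  have h14 : (2 * j / m + 4 * j ^ 2 * K ^ 2 / m + -X / 2 : ℝ) * m =
      2 * j + 4 * j ^ 2 * K ^ 2 - X * m / 2 := by
    field_simp
    ring
  have h15 : -(C / m) * (m : ℝ) = -C := by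
    field_simp
  have h16 := mul_le_mul_of_nonneg_right h13 hm0.le
  rw [h14, h15] at h16
  linarith

end Pool.Agent.CycFD
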