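import Pool.Agent.W_1bfdb5fd_h19.Cut

/-!
# Few closed walks are not far

* `nf_rec`: a walk `W` of length `m + 2 (i + 1)` that is not far has no chord of length 3, or a chord
  at `p` with `W' = cut 2 (rot W p)` not far, or `W'` far and near (`far_ins`, `far_rot`).  Use
  `chord_sum` with `a = 2` and `g` an indicator function.
* `near_count`: nine positions `d`, rotate `d` to 0; `cut_sum` with `a = 2`, `g = 1`.
  For `i = 0` there are no chords of length 3 (`OddFree`).
* `nf_bound`: induction on `i`.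
-/

namespace Pool.Agent.CycFD

open Finset Pool.Agent.CycGT
open scoped Classical

variable {V : Type} [Fintype V] {G : SimpleGraph V} {m : ℕ} [NeZero m]

theorem near_zero (hm : 13 ≤ m) (ho : Odd m) (hG : OddFree G m) {W : ZMod m → V}
    (hW : W ∈ clos G m) : ¬ Near G W := by
  rintro ⟨d, _, hd⟩
  have hcl : IsCl G m W := mem_clos.1 hW
  obtain ⟨e, he1, he2, he3⟩ := arc (M := m) (m := m) (h := 0) (by omega) ho hG hcl (wk_one.2 hd)
  have h1 : e = 1 := by omega
  subst h1
  rcases he3 with h | h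
  · have h2 : ((2 : ℕ) : ZMod m) = 0 := by
      push_cast
      push_cast at h
      linear_combination h
    exact nz (by omega) ho (Or.inr (Or.inl rfl)) h2
  · have h2 : ((4 : ℕ) : ZMod m) = 0 := by
      push_cast
      push_cast at h
      linear_combination h
    exact nz (by omega) ho (Or.inr (Or.inr (Or.inr (Or.inl rfl)))) h2

private theorem nfB_chord {R : ℕ} [NeZero R] [NeZero (R + 2)] (hR : 2 ≤ R) {D : ℝ}
    (hD : DegLe G D) (d : ZMod (R + 2)) :
    (#((clos G (R + 2)).filter (fun W => G.Adj (W d) (W (d + 3)))) : ℝ) ≤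
      D ^ 2 * #(clos G R) := by
  have h1 := cut_sum (a := 2) (r := R) hR hD (fun _ => (1 : ℝ)) (fun _ => zero_le_one)
  have h2 : #((clos G (R + 2)).filter (fun W => G.Adj (W d) (W (d + 3)))) ≤
      #((clos G (R + 2)).filter
        (fun W => G.Adj (W 0) (W ((2 + 1 : ℕ) : ZMod (R + 2))))) := by
    apply Finset.card_le_card_of_injOn (fun W => rot W d)
    · intro W hW
      have hW' := mem_filter.1 (mem_coe.1 hW)
      have hcl : IsCl G (R + 2) W := mem_clos.1 hW'.1
      refine mem_coe.2 (mem_filter.2 ⟨mem_clos.2 ?_, ?_⟩)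
      · intro i
        have := hcl (d + i)
        simpa only [rot, add_assoc] using this
      · have h3 := hW'.2
        have e1 : d + 0 = d := add_zero d
        have e2 : (((2 + 1 : ℕ) : ℕ) : ZMod (R + 2)) = 3 := by norm_num
        simp only [rot]
        rw [e1, e2]
        exact h3
    · intro W _ W' _ h
      funext i
      have := congrFun h (i - d)
      simpa only [rot, add_sub_cancel] using this
  have h3 : (#((clos G (R + 2)).filter (fun W => G.Adj (W d) (W (d + 3)))) : ℝ) ≤
      #((clos G (R + 2)).filter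
        (fun W => G.Adj (W 0) (W ((2 + 1 : ℕ) : ZMod (R + 2))))) := by
    exact_mod_cast h2
  refine h3.trans ?_
  simpa using h1

theorem near_count (hm : 13 ≤ m) (ho : Odd m) (hG : OddFree G m) (i : ℕ) {D : ℝ}
    (hD : DegLe G D) :
    (#((clos G (m + 2 * (i + 1))).filter (fun W => Near G W)) : ℝ) ≤
      9 * (D ^ 2 * #(clos G (m + 2 * i))) := by
  have key : ∀ d : ℤ, (#((clos G (m + 2 * (i + 1))).filter
      (fun W => G.Adj (W (d : ZMod (m + 2 * (i + 1))))
        (W ((d : ZMod (m + 2 * (i + 1))) + 3)))) : ℝ) ≤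
      D ^ 2 * #(clos G (m + 2 * i)) := by
    intro d
    exact nfB_chord (R := m + 2 * i) (by omega) hD _
  have hsub : (clos G (m + 2 * (i + 1))).filter (fun W => Near G W) ⊆
      (Icc (-5 : ℤ) 3).biUnion (fun d => (clos G (m + 2 * (i + 1))).filter
        (fun W => G.Adj (W (d : ZMod (m + 2 * (i + 1))))
          (W ((d : ZMod (m + 2 * (i + 1))) + 3)))) := by
    intro W hW
    obtain ⟨hW1, d, hd, hd2⟩ := mem_filter.1 hW
    exact mem_biUnion.2 ⟨d, hd, mem_filter.2 ⟨hW1, hd2⟩⟩
  have hcard := (Finset.card_le_card hsub).trans Finset.card_biUnion_le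
  have h9 : #(Icc (-5 : ℤ) 3) = 9 := by decide
  calc (#((clos G (m + 2 * (i + 1))).filter (fun W => Near G W)) : ℝ)
      ≤ ((∑ d ∈ Icc (-5 : ℤ) 3, #((clos G (m + 2 * (i + 1))).filter
        (fun W => G.Adj (W (d : ZMod (m + 2 * (i + 1))))
          (W ((d : ZMod (m + 2 * (i + 1))) + 3)))) : ℕ) : ℝ) := by exact_mod_cast hcard
    _ = ∑ d ∈ Icc (-5 : ℤ) 3, (#((clos G (m + 2 * (i + 1))).filter
        (fun W => G.Adj (W (d : ZMod (m + 2 * (i + 1))))
          (W ((d : ZMod (m + 2 * (i + 1))) + 3)))) : ℝ) := by push_cast; rfl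
    _ ≤ ∑ _d ∈ Icc (-5 : ℤ) 3, D ^ 2 * (#(clos G (m + 2 * i)) : ℝ) :=
        Finset.sum_le_sum (fun d _ => key d)
    _ = 9 * (D ^ 2 * #(clos G (m + 2 * i))) := by
        rw [Finset.sum_const, h9, nsmul_eq_mul]
        norm_num

end Pool.Agent.CycFD
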