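import Pool.Agent.W_1bfdb5fd_h19.NfA
import Pool.Agent.W_1bfdb5fd_h19.NfB

/-!
# Few closed walks are not far

* `nf_rec`: a walk `W` of length `m + 2 (i + 1)` that is not far has no chord of length 3, or a chord
  at `p` with `W' = cut 2 (rot W p)` not far, or `W'` far and near (`far_ins`, `far_rot`).  Use
  `chord_sum` with `a = 2` and `g` an indicator function.
* `near_count`: nine positions `d`, rotate `d` to 0; `cut_sum` with `a = 2`, `g = 1`.
  For `i = 0` there are no chords of length 3 (`OddFree`).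
* `nf_bound`: induction on `i`.
-/

namespace Pool.Agent.CycFD

open Finset Pool.Agent.CycGT
open scoped Classical

variable {V : Type} [Fintype V] {G : SimpleGraph V} {m : ℕ} [NeZero m]

private theorem nfc_alg {m i : ℕ} {K u A S N R Cc : ℝ} (hK : 1 ≤ K) (hu : 0 ≤ u) (hm : 1 ≤ m)
    (hC : 0 ≤ Cc) (hA : A ≤ K * m * u ^ (m + 2 * (i + 1)))
    (hS : S ≤ i * (K ^ (2 * i + 3) * m ^ i * u ^ (m + 2 * (i + 1))))
    (hN : N ≤ Cc * m ^ i * u ^ (m + 2 * i)) (hR : R ≤ 9 * K ^ 3 * m ^ i * u ^ (m + 2 * i)) :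
    A + ((m : ℝ) + 2 * ((i + 1 : ℕ) : ℝ)) * S +
      ((m : ℝ) + 2 * i + 2) * ((K * u) ^ 2 * N + (K * u) ^ 2 * R) ≤
    (K + (2 * i + 3) * (i * K ^ (2 * i + 3)) + (2 * i + 3) * K ^ 2 * Cc +
      (2 * i + 3) * (9 * K ^ 5)) * m ^ (i + 1) * u ^ (m + 2 * (i + 1)) := by
  have hm1 : (1 : ℝ) ≤ m := by exact_mod_cast hm
  have hK0 : (0 : ℝ) ≤ K := by linarith
  have hU : 0 ≤ u ^ (m + 2 * (i + 1)) := pow_nonneg hu _
  have hmi : (1 : ℝ) ≤ (m : ℝ) ^ i := one_le_pow₀ hm1
  have hi0 : (0 : ℝ) ≤ i := Nat.cast_nonneg _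
  have e1 : (m : ℝ) + 2 * ((i + 1 : ℕ) : ℝ) = (m : ℝ) + 2 * i + 2 := by push_cast; ring
  have e2 : u ^ (m + 2 * (i + 1)) = u ^ 2 * u ^ (m + 2 * i) := by
    rw [← pow_add]; congr 1; ring
  have hc : (m : ℝ) + 2 * i + 2 ≤ (2 * i + 3) * m := by nlinarith
  have hc0 : (0 : ℝ) ≤ (m : ℝ) + 2 * i + 2 := by positivity
  have t1 : A ≤ K * m ^ (i + 1) * u ^ (m + 2 * (i + 1)) := by
    refine hA.trans ?_
    refine mul_le_mul_of_nonneg_right ?_ hU
    refine mul_le_mul_of_nonneg_left ?_ hK0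
    rw [pow_succ]
    nlinarith
  have t2 : ((m : ℝ) + 2 * i + 2) * S ≤
      ((2 * i + 3) * m) * (i * (K ^ (2 * i + 3) * m ^ i * u ^ (m + 2 * (i + 1)))) := by
    calc ((m : ℝ) + 2 * i + 2) * S
        ≤ ((m : ℝ) + 2 * i + 2) * (i * (K ^ (2 * i + 3) * m ^ i * u ^ (m + 2 * (i + 1)))) :=
          mul_le_mul_of_nonneg_left hS hc0
      _ ≤ _ := mul_le_mul_of_nonneg_right hc (by positivity)
  have t3 : (K * u) ^ 2 * N ≤ (K * u) ^ 2 * (Cc * m ^ i * u ^ (m + 2 * i)) :=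
    mul_le_mul_of_nonneg_left hN (by positivity)
  have t4 : (K * u) ^ 2 * R ≤ (K * u) ^ 2 * (9 * K ^ 3 * m ^ i * u ^ (m + 2 * i)) :=
    mul_le_mul_of_nonneg_left hR (by positivity)
  have t5 : ((m : ℝ) + 2 * i + 2) * ((K * u) ^ 2 * N + (K * u) ^ 2 * R) ≤
      ((2 * i + 3) * m) * ((K * u) ^ 2 * (Cc * m ^ i * u ^ (m + 2 * i)) +
        (K * u) ^ 2 * (9 * K ^ 3 * m ^ i * u ^ (m + 2 * i))) := by
    calc ((m : ℝ) + 2 * i + 2) * ((K * u) ^ 2 * N + (K * u) ^ 2 * R)
        ≤ ((m : ℝ) + 2 * i + 2) * ((K * u) ^ 2 * (Cc * m ^ i * u ^ (m + 2 * i)) +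
        (K * u) ^ 2 * (9 * K ^ 3 * m ^ i * u ^ (m + 2 * i))) :=
          mul_le_mul_of_nonneg_left (add_le_add t3 t4) hc0
      _ ≤ _ := mul_le_mul_of_nonneg_right hc (by positivity)
  rw [e1]
  refine (add_le_add (add_le_add t1 t2) t5).trans (le_of_eq ?_)
  rw [e2]
  ring

private theorem nfc_one (j : ℕ) (K : ℝ) (hK : 1 ≤ K) (i : ℕ) : i ≤ j → ∃ C : ℝ, 0 ≤ C ∧
    ∀ m : ℕ, 6 * j + 13 ≤ m → Odd m →
    ∀ (_ : NeZero m) (V : Type) (_ : Fintype V) (G : SimpleGraph V), OddFree G m →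
    DegLe G (K * (Fintype.card V / m)) →
    (∀ i ≤ j, (#(AI G (m + 2 * i)) : ℝ) ≤ K * m * ((Fintype.card V : ℝ) / m) ^ (m + 2 * i) ∧
      (#(clos G (m + 2 * i)) : ℝ) ≤
        K * m ^ (1 + i) * ((Fintype.card V : ℝ) / m) ^ (m + 2 * i)) →
    (#((clos G (m + 2 * i)).filter (fun W => ¬ Far G i W)) : ℝ) ≤
      C * m ^ i * ((Fintype.card V : ℝ) / m) ^ (m + 2 * i) := by
  induction i with
  | zero =>
    intro _
    refine ⟨0, le_rfl, ?_⟩
    intro m hm ho iN V iV G hG hD h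
    have : (clos G (m + 2 * 0)).filter (fun W => ¬ Far G 0 W) = ∅ := by
      apply filter_eq_empty_iff.2
      intro W _
      rw [not_not]
      exact ⟨∅, card_empty, fun p hp => absurd hp (notMem_empty _),
        fun p hp => absurd hp (notMem_empty _)⟩
    rw [this]
    simp
  | succ i ih =>
    intro hi
    obtain ⟨Cc, hC, hCc⟩ := ih (by omega)
    have hK0 : (0 : ℝ) ≤ K := by linarith
    refine ⟨K + (2 * i + 3) * (i * K ^ (2 * i + 3)) + (2 * i + 3) * K ^ 2 * Cc +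
      (2 * i + 3) * (9 * K ^ 5), by positivity, ?_⟩
    intro m hm ho iN V iV G hG hD h
    set u : ℝ := (Fintype.card V : ℝ) / m with hu
    have hu0 : 0 ≤ u := by positivity
    have hm1 : (1 : ℝ) ≤ m := by
      have : 1 ≤ m := by omega
      exact_mod_cast this
    have hN := hCc m hm ho iN V iV G hG hD h
    have hrec := nf_rec (G := G) (m := m) (by omega) ho hG i hD
    have h3 := no3_count (G := G) (m := m) (by omega) ho hG (i + 1) hD
    have hA := (h (i + 1) hi).1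
    have hS : ∑ s ∈ range (i + 1 - 1), (K * u) ^ (2 * (i + 1 - s)) * (#(clos G (m + 2 * s)) : ℝ) ≤
        i * (K ^ (2 * i + 3) * m ^ i * u ^ (m + 2 * (i + 1))) := by
      have : ∀ s ∈ range (i + 1 - 1), (K * u) ^ (2 * (i + 1 - s)) * (#(clos G (m + 2 * s)) : ℝ) ≤
          K ^ (2 * i + 3) * m ^ i * u ^ (m + 2 * (i + 1)) := by
        intro s hs
        rw [mem_range] at hs
        have hs' : s < i := by omega
        have hc := (h s (by omega)).2
        calc (K * u) ^ (2 * (i + 1 - s)) * (#(clos G (m + 2 * s)) : ℝ)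
            ≤ (K * u) ^ (2 * (i + 1 - s)) * (K * m ^ (1 + s) * u ^ (m + 2 * s)) :=
              mul_le_mul_of_nonneg_left hc (by positivity)
          _ = (K ^ (2 * (i + 1 - s) + 1) * m ^ (1 + s)) * u ^ (m + 2 * (i + 1)) := by
              rw [mul_pow]
              have e : u ^ (m + 2 * (i + 1)) = u ^ (2 * (i + 1 - s)) * u ^ (m + 2 * s) := by
                rw [← pow_add]; congr 1; omega
              rw [e, pow_succ]
              ring
          _ ≤ (K ^ (2 * i + 3) * m ^ i) * u ^ (m + 2 * (i + 1)) := by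
              refine mul_le_mul_of_nonneg_right ?_ (by positivity)
              exact mul_le_mul (pow_le_pow_right₀ hK (by omega))
                (pow_le_pow_right₀ hm1 (by omega)) (by positivity) (by positivity)
      refine (sum_le_card_nsmul _ _ _ this).trans (le_of_eq ?_)
      rw [card_range, nsmul_eq_mul, Nat.add_sub_cancel]
    have hR : (#((clos G (m + 2 * i)).filter (fun W => Near G W)) : ℝ) ≤
        9 * K ^ 3 * m ^ i * u ^ (m + 2 * i) := by
      rcases Nat.eq_zero_or_pos i with h0 | h0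
      · subst h0
        have : (clos G (m + 2 * 0)).filter (fun W => Near G W) = ∅ := by
          apply filter_eq_empty_iff.2
          intro W hW
          exact near_zero (by omega) ho hG hW
        rw [this]
        have : (0 : ℝ) ≤ 9 * K ^ 3 * m ^ 0 * u ^ (m + 2 * 0) := by positivity
        simpa using this
      · obtain ⟨i', rfl⟩ : ∃ i', i = i' + 1 := ⟨i - 1, by omega⟩
        refine (near_count (by omega) ho hG i' hD).trans ?_
        have hc := (h i' (by omega)).2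
        calc 9 * ((K * u) ^ 2 * (#(clos G (m + 2 * i')) : ℝ))
            ≤ 9 * ((K * u) ^ 2 * (K * m ^ (1 + i') * u ^ (m + 2 * i'))) := by
              refine mul_le_mul_of_nonneg_left ?_ (by norm_num)
              exact mul_le_mul_of_nonneg_left hc (by positivity)
          _ = 9 * K ^ 3 * m ^ (i' + 1) * u ^ (m + 2 * (i' + 1)) := by
              have e : u ^ (m + 2 * (i' + 1)) = u ^ 2 * u ^ (m + 2 * i') := by
                rw [← pow_add]; congr 1; omega
              rw [e, add_comm 1 i']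
              ring
    have hal := nfc_alg (m := m) (i := i) hK hu0 (by omega) hC hA hS hN hR
    refine (hrec.trans ?_).trans hal
    exact add_le_add_left h3 _

/-- `u = n / m`. -/
theorem nf_bound (j : ℕ) (K : ℝ) (hK : 1 ≤ K) : ∃ C : ℝ, 0 ≤ C ∧ ∀ m : ℕ, 6 * j + 13 ≤ m → Odd m →
    ∀ (_ : NeZero m) (V : Type) (_ : Fintype V) (G : SimpleGraph V), OddFree G m →
    DegLe G (K * (Fintype.card V / m)) →
    (∀ i ≤ j, (#(AI G (m + 2 * i)) : ℝ) ≤ K * m * ((Fintype.card V : ℝ) / m) ^ (m + 2 * i) ∧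
      (#(clos G (m + 2 * i)) : ℝ) ≤
        K * m ^ (1 + i) * ((Fintype.card V : ℝ) / m) ^ (m + 2 * i)) →
    ∀ i ≤ j, (#((clos G (m + 2 * i)).filter (fun W => ¬ Far G i W)) : ℝ) ≤
      C * m ^ i * ((Fintype.card V : ℝ) / m) ^ (m + 2 * i) := by
  have hex : ∀ i, ∃ C : ℝ, 0 ≤ C ∧ (i ≤ j → ∀ m : ℕ, 6 * j + 13 ≤ m → Odd m →
      ∀ (_ : NeZero m) (V : Type) (_ : Fintype V) (G : SimpleGraph V), OddFree G m →
      DegLe G (K * (Fintype.card V / m)) →
      (∀ i ≤ j, (#(AI G (m + 2 * i)) : ℝ) ≤ K * m * ((Fintype.card V : ℝ) / m) ^ (m + 2 * i) ∧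
        (#(clos G (m + 2 * i)) : ℝ) ≤
          K * m ^ (1 + i) * ((Fintype.card V : ℝ) / m) ^ (m + 2 * i)) →
      (#((clos G (m + 2 * i)).filter (fun W => ¬ Far G i W)) : ℝ) ≤
        C * m ^ i * ((Fintype.card V : ℝ) / m) ^ (m + 2 * i)) := by
    intro i
    by_cases hi : i ≤ j
    · obtain ⟨C, hC, h⟩ := nfc_one j K hK i hi
      exact ⟨C, hC, fun _ => h⟩
    · exact ⟨0, le_rfl, fun h => absurd h hi⟩
  choose C hC hCb using hex
  refine ⟨∑ i ∈ range (j + 1), C i, sum_nonneg fun i _ => hC i, ?_⟩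
  intro m hm ho iN V iV G hG hD h i hi
  refine (hCb i hi m hm ho iN V iV G hG hD h).trans ?_
  have h1 : C i ≤ ∑ i ∈ range (j + 1), C i :=
    single_le_sum (f := C) (fun i _ => hC i) (mem_range.2 (by omega))
  have h2 : (0 : ℝ) ≤ (m : ℝ) ^ i := by positivity
  have h3 : (0 : ℝ) ≤ ((Fintype.card V : ℝ) / m) ^ (m + 2 * i) := by positivity
  exact mul_le_mul_of_nonneg_right (mul_le_mul_of_nonneg_right h1 h2) h3

end Pool.Agent.CycFD
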