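import Pool.Agent.W_1bfdb5fd_h19.St2A
import Pool.Agent.W_1bfdb5fd_h19.St2B
import Pool.Agent.W_1bfdb5fd_h19.St2C
import Pool.Agent.W_1bfdb5fd_h19.Nf

/-!
# Step 2: a shortest odd closed walk with small deficit

`u = n / m`, `D = K u`.
* `far_count`: `j! #clos ≤ j! #(not far) + ∑ Psi 1`, `psi_lower`, `psi_total` (`F = 1`).
* `psi_exp`: by `EE_Dp`, `EE G c + 4 j D^2 ≤ m u^2 (1 + ((13 K + 5) Dp G c + 4 j K^2) / m)
  ≤ m u^2 exp (((13 K + 5) Dp G c + 4 j K^2) / m)`; so for `m ≥ 2 j (13 K + 5)` and `X ≤ Dp G c` for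
  all `c` (`X ≥ 0`) the sum over `c` is at most
  `(m u^2)^j exp (4 j^2 K^2 / m) ∑ exp (Dp G c) exp (- Dp G c / 2)
  ≤ (m u^2)^j exp (4 j^2 K^2 / m) exp (- X / 2) 2 m u^m`.
* `step2`: let `X` be the minimum of `Dp` (if `clos G m` is empty, `far_count` gives a contradiction
  for large `m`).  `2 m^(1+j) u^M ≤ j! C m^j u^M + (1 + 2 j / m) exp (4 j^2 K^2 / m) exp (- X / 2)
  2 m^(1+j) u^M`, so `1 - C' / m ≤ exp (- X / 2)`, and `X ≤ C'' / m`.
-/

namespace Pool.Agent.CycFD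

open Finset Pool.Agent.CycGT
open scoped Classical

theorem step2 (j : ℕ) (K : ℝ) (hK : 1 ≤ K) : ∃ B : ℝ, 0 ≤ B ∧ ∃ m0 : ℕ, ∀ m : ℕ, m0 ≤ m →
    Odd m → ∀ (_ : NeZero m) (V : Type) (_ : Fintype V) (G : SimpleGraph V), OddFree G m →
    DegLe G (K * (Fintype.card V / m)) →
    (∀ i ≤ j, (#(AI G (m + 2 * i)) : ℝ) ≤ K * m * ((Fintype.card V : ℝ) / m) ^ (m + 2 * i) ∧
      (#(clos G (m + 2 * i)) : ℝ) ≤
        K * m ^ (1 + i) * ((Fintype.card V : ℝ) / m) ^ (m + 2 * i)) →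
    2 * (m : ℝ) ^ (1 + j) * ((Fintype.card V : ℝ) / m) ^ (m + 2 * j) ≤
      (j.factorial : ℝ) * #(clos G (m + 2 * j)) → 0 < #(clos G (m + 2 * j)) →
    ∃ c ∈ clos G m, Dp G c ≤ B / m := by
  obtain ⟨C, hC, h1⟩ := nf_bound j K hK
  obtain ⟨B, hB, m1, h2⟩ := st2_num j K (j.factorial * C) hK (by positivity)
  obtain ⟨m2, hm2⟩ := exists_nat_gt (2 * j * (13 * K + 5))
  refine ⟨B, hB, m1 + m2 + (6 * j + 19), ?_⟩
  intro m hm ho hz V hV G hG hD hN hyp hpos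
  by_contra hcon
  push Not at hcon
  have hm0 : (0 : ℝ) < m := by exact_mod_cast (by omega : 0 < m)
  have hne : Nonempty V := by
    obtain ⟨W, _⟩ := card_pos.1 hpos
    exact ⟨W 0⟩
  have hn : (0 : ℝ) < Fintype.card V := by exact_mod_cast Fintype.card_pos
  obtain ⟨u, hu⟩ : ∃ u : ℝ, u = (Fintype.card V : ℝ) / m := ⟨_, rfl⟩
  have hu0 : 0 < u := by rw [hu]; positivity
  have hBm : 0 ≤ B / m := by positivity
  obtain ⟨X, hX1, hX2⟩ : ∃ X : ℝ, B / m < X ∧ ∀ c ∈ clos G m, X ≤ Dp G c := by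
    rcases (clos G m).eq_empty_or_nonempty with h0 | h0
    · refine ⟨B / m + 1, by linarith, fun c hc => ?_⟩
      rw [h0] at hc
      exact absurd hc (notMem_empty _)
    · obtain ⟨c, hc, hmin⟩ := exists_min_image (clos G m) (fun c => Dp G c) h0
      exact ⟨Dp G c, hcon c hc, hmin⟩
  have hX0 : 0 ≤ X := by linarith
  have hmK : 2 * j * (13 * K + 5) ≤ (m : ℝ) := by
    have : (m2 : ℝ) ≤ m := by exact_mod_cast (by omega : m2 ≤ m)
    linarith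
  have h3 := psi_exp (by omega) ho hG j hK hD hmK hX0 hX2
  have h4 := far_count (by omega) ho hG j hD
  have h5 := h1 m (by omega) ho hz V hV G hG hD hN j le_rfl
  rw [← hu] at h3 h4 h5 hyp
  have hf : (0 : ℝ) < j.factorial := by exact_mod_cast j.factorial_pos
  have h6 : (j.factorial : ℝ) * #((clos G (m + 2 * j)).filter (fun W => ¬ Far G j W)) ≤
      j.factorial * (C * m ^ j * u ^ (m + 2 * j)) := mul_le_mul_of_nonneg_left h5 hf.le
  have hq : (0 : ℝ) ≤ ((m : ℝ) + 2 * j) / m := by positivity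
  have h7 := mul_le_mul_of_nonneg_left h3 hq
  have h8 : 2 * (m : ℝ) ^ (1 + j) * u ^ (m + 2 * j) ≤
      j.factorial * (C * m ^ j * u ^ (m + 2 * j)) + (((m : ℝ) + 2 * j) / m) *
      ((m * u ^ 2) ^ j * (Real.exp (4 * j ^ 2 * K ^ 2 / m) *
        (Real.exp (-X / 2) * (2 * m * u ^ m)))) := by
    linarith
  have hpw : (0 : ℝ) < (m : ℝ) ^ j * u ^ (m + 2 * j) := by positivity
  have h9 : 2 * (m : ℝ) ≤ j.factorial * C + (((m : ℝ) + 2 * j) / m) *
      (Real.exp (4 * j ^ 2 * K ^ 2 / m) * (Real.exp (-X / 2) * (2 * m))) := by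
    refine le_of_mul_le_mul_right ?_ hpw
    have e1 : u ^ (m + 2 * j) = u ^ m * (u ^ 2) ^ j := by rw [pow_add, pow_mul]
    calc 2 * (m : ℝ) * ((m : ℝ) ^ j * u ^ (m + 2 * j)) =
          2 * (m : ℝ) ^ (1 + j) * u ^ (m + 2 * j) := by rw [pow_add (m : ℝ) 1 j, pow_one]; ring
      _ ≤ _ := h8
      _ = _ := by
          rw [mul_pow, e1]
          ring
  exact absurd (h2 m (by omega) X hX0 h9) (not_le.2 hX1)

end Pool.Agent.CycFD
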