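import Pool.Agent.W_1bfdb5fd_h19.Df

/-!
# Step 3: structure

`u = n / m`.
* `bal`: `Dp G c ≤ B / m` gives `#BB ≤ 2 B u / (m - 4) ≤ 3 B u / m` and `Phi ≤ (5 / 2) B / m`, so every
  `x - 1 - log x`, `x = #(AA G c t) m / n`, is at most `(5 / 2) B / m` (`Phi_eq`), and
  `|x - 1| ≤ ε` for large `m` (for `|x - 1| > ε`, `x - 1 - log x ≥ ε^2 / 6` if `ε ≤ 1`).
* `st3_num`: `b ≤ β u / m`, `a ≤ 2 u`, `P = 8 (2 + β)^(2 j) exp β u^(m + 2 j - 3)`, `n = m u`: the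
  bound of `small_deg` is smaller than `m^j u^(m + 2 j - 1) / (4 j!)` for large `m`; the first term is
  `2^(m + 2 j) β^(m - 6) m^(2 j + 5 - (m - 6)) u^(m + 2 j - 1)`.
* `step3`: `small_deg`, `prod_h` with `g t = #(AA G c t) + #(BB G c)`, `L = 2 + β`, `hom_ex`.
-/

namespace Pool.Agent.CycFD

open Finset Pool.Agent.CycGT
open scoped Classical

/-- The first term. -/
private theorem st3_first (j : ℕ) (β M u b : ℝ) (hβ : 0 ≤ β) (hM : 0 < M) (hM4 : 4 * β ≤ M)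
    (hu : 0 < u) (hb : 0 ≤ b) (hbu : b ≤ β * u / M) (k : ℕ) :
    2 ^ (k + 6 + 2 * j) * b ^ k * (M * u) ^ (2 * j + 5) ≤
      ((2 : ℝ) ^ (2 * j + 12) * (M ^ (2 * j + 5) * (1 / 2) ^ (k + 6))) * u ^ (k + 2 * j + 5) := by
  have h1 : b ^ k ≤ (β * u / M) ^ k := pow_le_pow_left₀ hb hbu k
  have h2 : (2 * β / M) ^ k ≤ (1 / 2 : ℝ) ^ k := by
    apply pow_le_pow_left₀ (by positivity)
    rw [div_le_div_iff₀ hM (by norm_num)]
    linarith
  have h3 : (2 : ℝ) ^ (k + 6 + 2 * j) * (β * u / M) ^ k * (M * u) ^ (2 * j + 5) =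
      (2 * β / M) ^ k * ((2 : ℝ) ^ (2 * j + 6) * M ^ (2 * j + 5) * u ^ (k + 2 * j + 5)) := by
    have e1 : (β * u / M) ^ k = (β / M) ^ k * u ^ k := by
      rw [← mul_pow]; congr 1; ring
    have e2 : (2 * β / M) ^ k = 2 ^ k * (β / M) ^ k := by
      rw [← mul_pow]; congr 1; ring
    have e3 : (2 : ℝ) ^ (k + 6 + 2 * j) = 2 ^ k * 2 ^ (2 * j + 6) := by
      rw [← pow_add]; congr 1; ring
    have e4 : u ^ (k + 2 * j + 5) = u ^ k * u ^ (2 * j + 5) := by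
      rw [← pow_add]; congr 1
    rw [e1, e2, e3, e4, mul_pow]
    ring
  have h4 : (2 : ℝ) ^ (2 * j + 12) * (M ^ (2 * j + 5) * (1 / 2) ^ (k + 6)) * u ^ (k + 2 * j + 5) =
      (1 / 2 : ℝ) ^ k * ((2 : ℝ) ^ (2 * j + 6) * M ^ (2 * j + 5) * u ^ (k + 2 * j + 5)) := by
    have e1 : (2 : ℝ) ^ (2 * j + 12) = 2 ^ (2 * j + 6) * 2 ^ 6 := by
      rw [← pow_add]
    have e2 : (1 / 2 : ℝ) ^ (k + 6) = (1 / 2) ^ k * (1 / 2) ^ 6 := pow_add _ _ _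
    rw [e1, e2]
    ring
  rw [h4]
  calc (2 : ℝ) ^ (k + 6 + 2 * j) * b ^ k * (M * u) ^ (2 * j + 5)
      ≤ (2 : ℝ) ^ (k + 6 + 2 * j) * (β * u / M) ^ k * (M * u) ^ (2 * j + 5) := by gcongr
    _ = (2 * β / M) ^ k * ((2 : ℝ) ^ (2 * j + 6) * M ^ (2 * j + 5) * u ^ (k + 2 * j + 5)) := h3
    _ ≤ (1 / 2 : ℝ) ^ k * ((2 : ℝ) ^ (2 * j + 6) * M ^ (2 * j + 5) * u ^ (k + 2 * j + 5)) := by
        gcongr

/-- The bracket of the second term. -/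
private theorem st3_second (j : ℕ) (β M u b : ℝ) (hβ : 0 ≤ β) (hM : 0 < M) (hMj : 2 * (j : ℝ) ≤ M)
    (hu : 0 < u) (hb : 0 ≤ b) (hbu : b ≤ β * u / M) :
    2 * M * (M + 2 * j) ^ j * b ^ 2 + 4 * (M + 2 * j) ^ j * b * (2 * u) +
        4 * j * (M + 2 * j) ^ (j - 1) * (2 * u) ^ 2 ≤
      (2 ^ j * (2 * β ^ 2 + 8 * β + 16 * j)) / M * M ^ j * u ^ 2 := by
  have hp : (M + 2 * j) ^ j ≤ 2 ^ j * M ^ j := by
    rw [← mul_pow]
    apply pow_le_pow_left₀ (by positivity)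
    linarith
  have hb2 : b ^ 2 ≤ (β * u / M) ^ 2 := pow_le_pow_left₀ hb hbu 2
  have t1 : 2 * M * (M + 2 * j) ^ j * b ^ 2 ≤ 2 * M * (2 ^ j * M ^ j) * (β * u / M) ^ 2 := by
    gcongr
  have t2 : 4 * (M + 2 * j) ^ j * b * (2 * u) ≤ 4 * (2 ^ j * M ^ j) * (β * u / M) * (2 * u) := by
    gcongr
  have t3 : 4 * j * (M + 2 * j) ^ (j - 1) * (2 * u) ^ 2 ≤
      16 * j * (2 ^ j * M ^ j / M) * u ^ 2 := by
    rcases Nat.eq_zero_or_pos j with h0 | h0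
    · subst h0; simp
    · obtain ⟨i, rfl⟩ : ∃ i, j = i + 1 := ⟨j - 1, by omega⟩
      have hi : (M + 2 * ((i + 1 : ℕ) : ℝ)) ^ (i + 1 - 1) ≤ 2 ^ (i + 1) * M ^ (i + 1) / M := by
        have e1 : (2 : ℝ) ^ (i + 1) * M ^ (i + 1) / M = 2 * (2 ^ i * M ^ i) := by
          field_simp
          ring
        rw [e1, Nat.add_sub_cancel, ← mul_pow]
        have e2 : (M + 2 * ((i + 1 : ℕ) : ℝ)) ^ i ≤ (2 * M) ^ i := by
          apply pow_le_pow_left₀ (by positivity)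
          linarith
        have e3 : 0 ≤ (2 * M) ^ i := by positivity
        linarith
      calc 4 * ((i + 1 : ℕ) : ℝ) * (M + 2 * ((i + 1 : ℕ) : ℝ)) ^ (i + 1 - 1) * (2 * u) ^ 2
          ≤ 4 * ((i + 1 : ℕ) : ℝ) * (2 ^ (i + 1) * M ^ (i + 1) / M) * (2 * u) ^ 2 := by gcongr
        _ = 16 * ((i + 1 : ℕ) : ℝ) * (2 ^ (i + 1) * M ^ (i + 1) / M) * u ^ 2 := by ring
  have e : (2 ^ j * (2 * β ^ 2 + 8 * β + 16 * j)) / M * M ^ j * u ^ 2 =
      2 * M * (2 ^ j * M ^ j) * (β * u / M) ^ 2 + 4 * (2 ^ j * M ^ j) * (β * u / M) * (2 * u) +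
        16 * j * (2 ^ j * M ^ j / M) * u ^ 2 := by
    field_simp
    ring
  rw [e]
  linarith

theorem st3_num (j : ℕ) (β : ℝ) (hβ : 0 ≤ β) : ∃ m0 : ℕ, ∀ m : ℕ, m0 ≤ m → ∀ u b n : ℝ, 0 < u →
    0 ≤ b → b ≤ β * u / m → n = m * u →
    2 ^ (m + 2 * j) * b ^ (m - 6) * n ^ (2 * j + 5) +
      (8 * (2 + β) ^ (2 * j) * Real.exp β * u ^ (m + 2 * j - 3)) *
      (2 * m * ((m : ℝ) + 2 * j) ^ j * b ^ 2 + 4 * ((m : ℝ) + 2 * j) ^ j * b * (2 * u) +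
        4 * j * ((m : ℝ) + 2 * j) ^ (j - 1) * (2 * u) ^ 2) <
      m ^ j * u ^ (m + 2 * j - 1) / (4 * j.factorial) := by
  have hF : (0 : ℝ) < 1 / (8 * j.factorial) := by positivity
  have h1 : Filter.Tendsto (fun m : ℕ => (2 : ℝ) ^ (2 * j + 12) *
      ((m : ℝ) ^ (2 * j + 5) * (1 / 2) ^ m)) Filter.atTop (nhds 0) := by
    have := (tendsto_pow_const_mul_const_pow_of_abs_lt_one (2 * j + 5)
      (r := (1 / 2 : ℝ)) (by rw [abs_of_pos] <;> norm_num)).const_mul ((2 : ℝ) ^ (2 * j + 12))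
    simpa using this
  have h2 : Filter.Tendsto (fun m : ℕ => (8 * (2 + β) ^ (2 * j) * Real.exp β *
      (2 ^ j * (2 * β ^ 2 + 8 * β + 16 * j))) / (m : ℝ)) Filter.atTop (nhds 0) :=
    tendsto_const_div_atTop_nhds_zero_nat _
  have h3 := ((h1.eventually (gt_mem_nhds hF)).and (h2.eventually (gt_mem_nhds hF))).and
    (((Filter.eventually_ge_atTop 6).and (Filter.eventually_ge_atTop (2 * j))).and
      (tendsto_natCast_atTop_atTop.eventually (Filter.eventually_ge_atTop (4 * β))))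
  obtain ⟨m0, hm0⟩ := Filter.eventually_atTop.1 h3
  refine ⟨m0, fun m hm u b n hu hb hbu hn => ?_⟩
  obtain ⟨⟨a1, a2⟩, ⟨a3, a4⟩, a5⟩ := hm0 m hm
  obtain ⟨k, rfl⟩ : ∃ k, m = k + 6 := ⟨m - 6, by omega⟩
  set M : ℝ := ((k + 6 : ℕ) : ℝ) with hMdef
  have hM : 0 < M := by rw [hMdef]; positivity
  have hM1 : 1 ≤ M := by rw [hMdef]; push_cast; linarith [(Nat.cast_nonneg k : (0 : ℝ) ≤ (k : ℝ))]
  have hMj : 2 * (j : ℝ) ≤ M := by rw [hMdef]; exact_mod_cast a4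
  have q1 := st3_first j β M u b hβ hM a5 hu hb hbu k
  have q2 := st3_second j β M u b hβ hM hMj hu hb hbu
  have i1 : k + 6 - 6 = k := by omega
  have i2 : k + 6 + 2 * j - 3 = k + 2 * j + 3 := by omega
  have i3 : k + 6 + 2 * j - 1 = k + 2 * j + 5 := by omega
  rw [i1, i2, i3, hn]
  set E : ℝ := u ^ (k + 2 * j + 5) with hE
  have hE0 : 0 < E := by positivity
  have hE2 : u ^ (k + 2 * j + 3) * u ^ 2 = E := by rw [hE, ← pow_add]
  have hMp : 1 ≤ M ^ j := one_le_pow₀ hM1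
  have q3 : (8 * (2 + β) ^ (2 * j) * Real.exp β * u ^ (k + 2 * j + 3)) *
      (2 * M * (M + 2 * j) ^ j * b ^ 2 + 4 * (M + 2 * j) ^ j * b * (2 * u) +
        4 * j * (M + 2 * j) ^ (j - 1) * (2 * u) ^ 2) ≤
      (8 * (2 + β) ^ (2 * j) * Real.exp β * (2 ^ j * (2 * β ^ 2 + 8 * β + 16 * j))) / M *
        (M ^ j * E) := by
    calc _ ≤ (8 * (2 + β) ^ (2 * j) * Real.exp β * u ^ (k + 2 * j + 3)) *
          ((2 ^ j * (2 * β ^ 2 + 8 * β + 16 * j)) / M * M ^ j * u ^ 2) := by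
          apply mul_le_mul_of_nonneg_left q2
          positivity
      _ = _ := by rw [← hE2]; ring
  have r1 : (2 : ℝ) ^ (2 * j + 12) * (M ^ (2 * j + 5) * (1 / 2) ^ (k + 6)) * E <
      1 / (8 * j.factorial) * (M ^ j * E) := by
    calc (2 : ℝ) ^ (2 * j + 12) * (M ^ (2 * j + 5) * (1 / 2) ^ (k + 6)) * E
        < 1 / (8 * j.factorial) * E := by
          apply mul_lt_mul_of_pos_right a1 hE0
      _ ≤ 1 / (8 * j.factorial) * (M ^ j * E) := by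
          apply mul_le_mul_of_nonneg_left _ hF.le
          nlinarith
  have r2 : (8 * (2 + β) ^ (2 * j) * Real.exp β * (2 ^ j * (2 * β ^ 2 + 8 * β + 16 * j))) / M *
      (M ^ j * E) < 1 / (8 * j.factorial) * (M ^ j * E) := by
    apply mul_lt_mul_of_pos_right a2
    positivity
  have r3 : M ^ j * E / (4 * j.factorial) =
      1 / (8 * j.factorial) * (M ^ j * E) + 1 / (8 * j.factorial) * (M ^ j * E) := by
    field_simp
    ring
  rw [r3]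
  linarith

end Pool.Agent.CycFD
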