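import Pool.Agent.W_1bfdb5fd_h19.GpA

/-!
# The homomorphism to the cycle

If every vertex `v` has good neighbours in two different classes `t`, `t'`, then `t' = t + 2` or
`t' = t - 2` by `gap` with `r = 2`, so the classes are `h v - 1` and `h v + 1`.  For an edge `v w`
take neighbours of `v` in the classes `h v - 1`, `h v + 1` and of `w` in `h w - 1`, `h w + 1`; `gap`
with `r = 3` for `h v - 1`, `h w + 1` and for `h v + 1`, `h w - 1` gives `h w = h v + e`,
`e ∈ [-5, 1]` and `h w = h v + e'`, `e' ∈ [-1, 5]`, both odd, so `e = e' = 1` or `-1`.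
A vertex of `AA G c t` is adjacent to `c (t - 1) ∈ AA G c (t - 1)` and `c (t + 1) ∈ AA G c (t + 1)`.
-/

namespace Pool.Agent.CycFD

open Finset Pool.Agent.CycGT
open scoped Classical

variable {V : Type} [Fintype V] {G : SimpleGraph V} {m : ℕ} [NeZero m] {c : ZMod m → V}

/-- An integer divisible by `m` (odd) and by 2, smaller than `2 m`, is zero. -/
private lemma hm_zero {m : ℕ} (ho : Odd m) {x : ℤ} (h1 : ((x : ℤ) : ZMod m) = 0)
    (h2 : ∃ q : ℤ, x = 2 * q) (h3 : |x| < 2 * m) : x = 0 := by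
  have h4 : (m : ℤ) ∣ x := (ZMod.intCast_zmod_eq_zero_iff_dvd x m).1 h1
  have h5 : (2 : ℤ) ∣ x := h2
  have h6 : IsCoprime (2 : ℤ) (m : ℤ) := by
    have : Nat.Coprime 2 m := by
      rw [Nat.coprime_two_left]
      exact ho
    exact_mod_cast Nat.isCoprime_iff_coprime.2 this
  exact Int.eq_zero_of_abs_lt_dvd (h6.mul_dvd h5 h4) h3

theorem hom_ex (hm : 13 ≤ m) (ho : Odd m) (hG : OddFree G m) (hc : IsCl G m c)
    (hv : ∀ v, ∃ t t', (∃ w ∈ AA G c t, G.Adj v w) ∧ (∃ w ∈ AA G c t', G.Adj v w) ∧ t ≠ t') :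
    ∃ h : V → ZMod m, (∀ v w, G.Adj v w → h w = h v + 1 ∨ h v = h w + 1) ∧
      ∀ t, ∀ w ∈ AA G c t, h w = t := by
  have key : ∀ v, ∃ s : ZMod m, (∃ w ∈ AA G c (s - 1), G.Adj v w) ∧
      (∃ w ∈ AA G c (s + 1), G.Adj v w) := by
    intro v
    obtain ⟨t, t', ⟨w, hw, hvw⟩, ⟨w', hw', hvw'⟩, hne⟩ := hv v
    obtain ⟨e, e1, e2, ⟨q, e3⟩, e4⟩ := gap hm ho hG hc (r := 2) (by omega) hw hw'
      (wk_two.2 ⟨v, hvw.symm, hvw'⟩)
    push_cast at e1 e2 e3
    have h3 : e = -2 ∨ e = 0 ∨ e = 2 := by omega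
    rcases h3 with h3 | h3 | h3
    · subst h3
      refine ⟨t' + 1, ⟨w', by rw [add_sub_cancel_right]; exact hw', hvw'⟩, w, ?_, hvw⟩
      have : t' + 1 + 1 = t := by rw [e4]; push_cast; ring
      rw [this]; exact hw
    · subst h3
      exact absurd (by rw [e4]; push_cast; ring) hne
    · subst h3
      refine ⟨t + 1, ⟨w, by rw [add_sub_cancel_right]; exact hw, hvw⟩, w', ?_, hvw'⟩
      have : t + 1 + 1 = t' := by rw [e4]; push_cast; ring
      rw [this]; exact hw'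
  choose h hA hB using key
  refine ⟨h, ?_, ?_⟩
  · intro v w hvw
    obtain ⟨a, ha, hva⟩ := hA v
    obtain ⟨b, hb, hvb⟩ := hB v
    obtain ⟨a', ha', hwa'⟩ := hA w
    obtain ⟨b', hb', hwb'⟩ := hB w
    have w1 : Wk G (1 + 1 + 1) a b' :=
      ((wk_one.2 hva.symm).trans (wk_one.2 hvw)).trans (wk_one.2 hwb')
    have w2 : Wk G (1 + 1 + 1) b a' :=
      ((wk_one.2 hvb.symm).trans (wk_one.2 hvw)).trans (wk_one.2 hwa')
    obtain ⟨e, e1, e2, ⟨q, e3⟩, e4⟩ := gap hm ho hG hc (by omega) ha hb' w1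
    obtain ⟨f, f1, f2, ⟨p, f3⟩, f4⟩ := gap hm ho hG hc (by omega) hb ha' w2
    push_cast at e1 e2 e3 f1 f2 f3
    have hz : e - f - 4 = 0 := by
      refine hm_zero ho ?_ ⟨p - q - 2, by omega⟩ ?_
      · push_cast
        linear_combination f4 - e4
      · rw [abs_lt]
        constructor <;> omega
    have h3 : e = 1 ∨ e = 3 := by omega
    rcases h3 with h3 | h3
    · right
      subst h3
      push_cast at e4
      linear_combination -e4
    · left
      subst h3
      push_cast at e4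
      linear_combination e4
  · intro t w hw
    rw [mem_AA] at hw
    obtain ⟨a, ha, hwa⟩ := hA w
    obtain ⟨b, hb, hwb⟩ := hB w
    have hs : ∀ s, c s ∈ AA G c s := fun s => AA_self hc s
    obtain ⟨e, e1, e2, ⟨q, e3⟩, e4⟩ := gap hm ho hG hc (r := 2) (by omega) (hs (t - 1)) ha
      (wk_two.2 ⟨w, hw.1.symm, hwa⟩)
    obtain ⟨e', e1', e2', ⟨q', e3'⟩, e4'⟩ := gap hm ho hG hc (r := 2) (by omega) (hs (t - 1)) hb
      (wk_two.2 ⟨w, hw.1.symm, hwb⟩)
    obtain ⟨f, f1, f2, ⟨p, f3⟩, f4⟩ := gap hm ho hG hc (r := 2) (by omega) (hs (t + 1)) ha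
      (wk_two.2 ⟨w, hw.2.symm, hwa⟩)
    push_cast at e1 e2 e3 e1' e2' e3' f1 f2 f3
    have hz : e - e' + 2 = 0 := by
      refine hm_zero ho ?_ ⟨q' - q + 1, by omega⟩ ?_
      · push_cast
        linear_combination e4' - e4
      · rw [abs_lt]
        constructor <;> omega
    have hz' : e - f - 2 = 0 := by
      refine hm_zero ho ?_ ⟨p - q - 1, by omega⟩ ?_
      · push_cast
        linear_combination f4 - e4
      · rw [abs_lt]
        constructor <;> omega
    have h3 : e = 0 := by omega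
    subst h3
    push_cast at e4
    linear_combination e4

end Pool.Agent.CycFD
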