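import Pool.Agent.W_1bfdb5fd_h19.PtB

/-!
# Vertices with good neighbours in at most one class are in few closed walks

`M = m + 2 j`, `b = #BB`.
* `many_bad`: choose a set of `m - 6` bad positions different from `0` (at most `2^M` choices); the
  bad positions have `b` choices each, the other `M - 1 - (m - 6) = 2 j + 5` positions `n` each.
* `prod_h`: `vis_prod`, AM-GM `∏ g ≤ (∑ g / m)^m ≤ (u + β u / m)^m ≤ u^m exp β`, the other `2 j`
  factors are at most `L u`, and the three missing factors are at least `u / 2`.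
* `small_deg`: `W 0 = v`; if at most `m - 6` positions are bad, choose `h` by `heights`.  `W 1` and
  `W (-1)` are adjacent to `v`, so they are bad or in the only class `s` where `v` has neighbours.
  (If both are bad: any `h`; if `W 1` is bad and `W (-1) ∈ AA s` then `h (-1) = s`; if both are in
  `AA s`, `h 1 = h (-1) = s`.)  `pats_card`, `pats_at`, `pats_two` and
  `choose (m + 2 j) j ≤ (m + 2 j)^j`.
-/

namespace Pool.Agent.CycFD

open Finset Pool.Agent.CycGT
open scoped Classical

variable {V : Type} [Fintype V] {G : SimpleGraph V} {m : ℕ} [NeZero m] {c : ZMod m → V}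

theorem prod_h (hm : 13 ≤ m) (ho : Odd m) (j : ℕ) (g : ZMod m → ℝ) {u L β : ℝ} (hu : 0 < u)
    (hL : 1 ≤ L) (hβ : 0 ≤ β) (h1 : ∀ t, u / 2 ≤ g t) (h2 : ∀ t, g t ≤ L * u)
    (hs : ∑ t, g t ≤ m * u + β * u) {h : ZMod (m + 2 * j) → ZMod m} (hh : h ∈ pats (m + 2 * j) m) :
    ∏ p ∈ univ \ {0, 1, -1}, g (h p) ≤
      8 * L ^ (2 * j) * Real.exp β * u ^ (m + 2 * j - 3) := by
  have h10 : (1 : ZMod (m + 2 * j)) ≠ 0 := by
    intro h1
    have h2 : ((1 : ℕ) : ZMod (m + 2 * j)) = 0 := by
      rw [Nat.cast_one]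
      exact h1
    rw [ZMod.natCast_eq_zero_iff] at h2
    have := Nat.le_of_dvd one_pos h2
    omega
  have h20 : (1 : ZMod (m + 2 * j)) ≠ -1 := by
    intro h1
    have h2 : ((2 : ℕ) : ZMod (m + 2 * j)) = 0 := by
      push_cast
      linear_combination h1
    rw [ZMod.natCast_eq_zero_iff] at h2
    have := Nat.le_of_dvd two_pos h2
    omega
  have h30 : (-1 : ZMod (m + 2 * j)) ≠ 0 := by
    intro h1
    exact h10 (neg_eq_zero.1 h1)
  have hg0 : ∀ t, 0 < g t := fun t => lt_of_lt_of_le (by positivity) (h1 t)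
  have hr : Odd (m + 2 * j) := by
    obtain ⟨a, ha⟩ := ho
    exact ⟨a + j, by omega⟩
  -- the product over all vertices of the cycle
  have p1 : ∏ t, g t ≤ u ^ m * Real.exp β := by
    have q1 : ∀ t, g t ≤ u * Real.exp (g t / u - 1) := by
      intro t
      have := Real.add_one_le_exp (g t / u - 1)
      calc g t = u * (g t / u - 1 + 1) := by field_simp; ring
        _ ≤ _ := mul_le_mul_of_nonneg_left this hu.le
    calc ∏ t, g t ≤ ∏ t : ZMod m, (u * Real.exp (g t / u - 1)) :=
          prod_le_prod (fun t _ => (hg0 t).le) fun t _ => q1 t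
      _ = u ^ m * Real.exp (∑ t : ZMod m, (g t / u - 1)) := by
          rw [prod_mul_distrib, prod_const, card_univ, ZMod.card, Real.exp_sum]
      _ ≤ _ := by
          refine mul_le_mul_of_nonneg_left (Real.exp_le_exp.2 ?_) (by positivity)
          rw [sum_sub_distrib, ← sum_div, sum_const, card_univ, ZMod.card, nsmul_eq_mul, mul_one,
            sub_le_iff_le_add, div_le_iff₀ hu]
          linarith
  have p2 : ∏ t, g t ^ vis h t ≤ (L * u) ^ (2 * j) := by
    calc ∏ t, g t ^ vis h t ≤ ∏ t : ZMod m, (L * u) ^ vis h t :=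
          prod_le_prod (fun t _ => pow_nonneg (hg0 t).le _)
            fun t _ => pow_le_pow_left₀ (hg0 t).le (h2 t) _
      _ = _ := by
          rw [prod_pow_eq_pow_sum, vis_sum (by omega) ho j hh]
  have p3 : ∏ p, g (h p) ≤ u ^ m * Real.exp β * (L * u) ^ (2 * j) := by
    rw [vis_prod (by omega) ho hr hh g]
    exact mul_le_mul p1 p2 (prod_nonneg fun t _ => pow_nonneg (hg0 t).le _) (by positivity)
  rw [← prod_sdiff (subset_univ ({0, 1, -1} : Finset (ZMod (m + 2 * j))))] at p3
  have e1 : ∏ p ∈ ({0, 1, -1} : Finset (ZMod (m + 2 * j))), g (h p) =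
      g (h 0) * (g (h 1) * g (h (-1))) := by
    rw [prod_insert, prod_insert, prod_singleton]
    · rw [mem_singleton]
      exact h20
    · rw [mem_insert, mem_singleton]
      rintro (h1 | h1)
      · exact h10 h1.symm
      · exact h30 h1.symm
  have e2 : (u / 2) * ((u / 2) * (u / 2)) ≤ g (h 0) * (g (h 1) * g (h (-1))) :=
    mul_le_mul (h1 _) (mul_le_mul (h1 _) (h1 _) (by positivity) (hg0 _).le) (by positivity)
      (hg0 _).le
  rw [e1] at p3
  have hP : 0 ≤ ∏ p ∈ univ \ {0, 1, -1}, g (h p) := prod_nonneg fun p _ => (hg0 _).le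
  have p4 : (∏ p ∈ univ \ {0, 1, -1}, g (h p)) * ((u / 2) * ((u / 2) * (u / 2))) ≤
      u ^ m * Real.exp β * (L * u) ^ (2 * j) :=
    (mul_le_mul_of_nonneg_left e2 hP).trans p3
  have e3 : u ^ (m + 2 * j) = u ^ (m + 2 * j - 3) * u ^ 3 := by
    rw [← pow_add]
    congr 1
    omega
  have e4 : u ^ m * Real.exp β * (L * u) ^ (2 * j) =
      8 * L ^ (2 * j) * Real.exp β * u ^ (m + 2 * j - 3) * ((u / 2) * ((u / 2) * (u / 2))) := by
    have : u ^ m * Real.exp β * (L * u) ^ (2 * j) = L ^ (2 * j) * Real.exp β * u ^ (m + 2 * j) := by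
      rw [mul_pow, pow_add]
      ring
    rw [this, e3]
    ring
  rw [e4] at p4
  exact le_of_mul_le_mul_right p4 (by positivity)

end Pool.Agent.CycFD
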