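import Pool.Agent.W_1bfdb5fd_h19.Df

/-!
# Vertices with good neighbours in at most one class are in few closed walks

`M = m + 2 j`, `b = #BB`.
* `many_bad`: choose a set of `m - 6` bad positions different from `0` (at most `2^M` choices); the
  bad positions have `b` choices each, the other `M - 1 - (m - 6) = 2 j + 5` positions `n` each.
* `prod_h`: `vis_prod`, AM-GM `∏ g ≤ (∑ g / m)^m ≤ (u + β u / m)^m ≤ u^m exp β`, the other `2 j`
  factors are at most `L u`, and the three missing factors are at least `u / 2`.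
* `small_deg`: `W 0 = v`; if at most `m - 6` positions are bad, choose `h` by `heights`.  `W 1` and
  `W (-1)` are adjacent to `v`, so they are bad or in the only class `s` where `v` has neighbours.
  (If both are bad: any `h`; if `W 1` is bad and `W (-1) ∈ AA s` then `h (-1) = s`; if both are in
  `AA s`, `h 1 = h (-1) = s`.)  `pats_card`, `pats_at`, `pats_two` and
  `choose (m + 2 j) j ≤ (m + 2 j)^j`.
-/

namespace Pool.Agent.CycFD

open Finset Pool.Agent.CycGT
open scoped Classical

variable {V : Type} [Fintype V] {G : SimpleGraph V} {m : ℕ} [NeZero m] {c : ZMod m → V}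

/-- The closed walks through `v` with heights `h`, with the neighbours of `v` in given sets. -/
theorem with_h (j : ℕ) (hm : 13 ≤ m) (c : ZMod m → V) (v : V) (h : ZMod (m + 2 * j) → ZMod m)
    (S T : Finset V) :
    (#((univ : Finset (ZMod (m + 2 * j) → V)).filter (fun W => W 0 = v ∧ W 1 ∈ S ∧ W (-1) ∈ T ∧
      ∀ p, W p ∈ AA G c (h p) ∪ BB G c)) : ℝ) ≤
      #S * #T * ∏ p ∈ univ \ {0, 1, -1}, ((#(AA G c (h p)) : ℝ) + #(BB G c)) := by
  have h10 : (1 : ZMod (m + 2 * j)) ≠ 0 := by
    intro h1
    have h2 : ((1 : ℕ) : ZMod (m + 2 * j)) = 0 := by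
      rw [Nat.cast_one]
      exact h1
    rw [ZMod.natCast_eq_zero_iff] at h2
    have := Nat.le_of_dvd one_pos h2
    omega
  have h20 : (1 : ZMod (m + 2 * j)) ≠ -1 := by
    intro h1
    have h2 : ((2 : ℕ) : ZMod (m + 2 * j)) = 0 := by
      push_cast
      linear_combination h1
    rw [ZMod.natCast_eq_zero_iff] at h2
    have := Nat.le_of_dvd two_pos h2
    omega
  have h30 : (-1 : ZMod (m + 2 * j)) ≠ 0 := by
    intro h1
    exact h10 (neg_eq_zero.1 h1)
  set F : ZMod (m + 2 * j) → Finset V := fun p =>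
    if p = 0 then {v} else if p = 1 then S else if p = -1 then T else AA G c (h p) ∪ BB G c with hF
  have hsub : ((univ : Finset (ZMod (m + 2 * j) → V)).filter (fun W => W 0 = v ∧ W 1 ∈ S ∧
      W (-1) ∈ T ∧ ∀ p, W p ∈ AA G c (h p) ∪ BB G c)) ⊆ Fintype.piFinset F := by
    intro W hW
    rw [mem_filter] at hW
    obtain ⟨-, hW0, hW1, hW2, hW3⟩ := hW
    rw [Fintype.mem_piFinset]
    intro p
    simp only [hF]
    split_ifs with a1 a2 a3
    · rw [a1, hW0, mem_singleton]
    · rw [a2]
      exact hW1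
    · rw [a3]
      exact hW2
    · exact hW3 p
  have hc := card_le_card hsub
  rw [Fintype.card_piFinset] at hc
  have hc2 : (#((univ : Finset (ZMod (m + 2 * j) → V)).filter (fun W => W 0 = v ∧ W 1 ∈ S ∧
      W (-1) ∈ T ∧ ∀ p, W p ∈ AA G c (h p) ∪ BB G c)) : ℝ) ≤ ∏ p, (#(F p) : ℝ) := by
    have := (Nat.cast_le (α := ℝ)).2 hc
    rwa [Nat.cast_prod] at this
  refine hc2.trans ?_
  rw [← prod_sdiff (subset_univ ({0, 1, -1} : Finset (ZMod (m + 2 * j))))]
  have e1 : ∏ p ∈ ({0, 1, -1} : Finset (ZMod (m + 2 * j))), (#(F p) : ℝ) = #S * #T := by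
    rw [prod_insert, prod_insert, prod_singleton]
    · have f1 : F 0 = {v} := if_pos rfl
      have f2 : F 1 = S := (if_neg h10).trans (if_pos rfl)
      have f3 : F (-1) = T := (if_neg h30).trans ((if_neg (Ne.symm h20)).trans (if_pos rfl))
      rw [f1, f2, f3, card_singleton]
      push_cast
      ring
    · rw [mem_singleton]
      exact h20
    · rw [mem_insert, mem_singleton]
      rintro (h1 | h1)
      · exact h10 h1.symm
      · exact h30 h1.symm
  rw [e1, mul_comm]
  refine mul_le_mul_of_nonneg_left ?_ (by positivity)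
  refine prod_le_prod (fun p _ => Nat.cast_nonneg _) fun p hp => ?_
  rw [mem_sdiff, mem_insert, mem_insert, mem_singleton, not_or, not_or] at hp
  have f4 : F p = AA G c (h p) ∪ BB G c :=
    (if_neg hp.2.1).trans ((if_neg hp.2.2.1).trans (if_neg hp.2.2.2))
  rw [f4]
  have := card_union_le (AA G c (h p)) (BB G c)
  exact_mod_cast this

end Pool.Agent.CycFD
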