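import Pool.Agent.W_1bfdb5fd_h19.GpA

/-!
# Heights of a closed walk with few bad vertices

Rotate such that `w 0` is good.  Let `g` be the last good position at most `p`.  By induction on
`p`: for every `x` which differs from the class of `w g` by an integer `e`, `|e| ≤ p - g`,
`e = p - g` mod 2, there is a sequence of heights `h 0, ..., h p` with steps `1` or `-1`, with
`h p = x`, and right at all good positions up to `p`.  At a good position `p + 1` use `gap`:
`p + 1 - g ≤ m - 5` as there are at most `m - 6` bad positions.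
-/

namespace Pool.Agent.CycFD

open Finset Pool.Agent.CycGT
open scoped Classical

variable {V : Type} [Fintype V] {G : SimpleGraph V} {m : ℕ} [NeZero m] {c : ZMod m → V}

/-- `b` can be reached from `a` in `d` steps `1`, `-1`. -/
private def hPath {m : ℕ} (d : ℕ) (a b : ZMod m) : Prop :=
  ∃ e : ℤ, -(d : ℤ) ≤ e ∧ e ≤ d ∧ (∃ q : ℤ, e = d - 2 * q) ∧ b = a + (e : ZMod m)

private lemma hPath_zero {m : ℕ} {a b : ZMod m} (h : hPath 0 a b) : b = a := by
  obtain ⟨e, h1, h2, _, h4⟩ := h
  have : e = 0 := by omega
  rw [h4, this, Int.cast_zero, add_zero]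

private lemma hPath_succ {m : ℕ} {a b : ZMod m} {d : ℕ} (h : hPath (d + 1) a b) :
    ∃ b', hPath d a b' ∧ (b = b' + 1 ∨ b' = b + 1) := by
  obtain ⟨e, h1, h2, ⟨q, h3⟩, h4⟩ := h
  rcases lt_or_ge e 0 with h0 | h0
  · refine ⟨b + 1, ⟨e + 1, by omega, by omega, ⟨q - 1, by omega⟩, ?_⟩, Or.inr rfl⟩
    rw [h4]
    push_cast
    ring
  · refine ⟨b - 1, ⟨e - 1, by omega, by omega, ⟨q, by omega⟩, ?_⟩, Or.inl (by ring)⟩
    rw [h4]
    push_cast
    ring

theorem heights {r : ℕ} [NeZero r] (hm : 13 ≤ m) (ho : Odd m) (hG : OddFree G m)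
    (hc : IsCl G m c) (hr : m ≤ r) {W : ZMod r → V} (hW : IsCl G r W)
    (hb : #(univ.filter (fun p => W p ∈ BB G c)) + 6 ≤ m) :
    ∃ h ∈ pats r m, ∀ p, W p ∈ AA G c (h p) ∪ BB G c := by
  -- a good position
  obtain ⟨p0, hp0⟩ : ∃ p0, W p0 ∉ BB G c := by
    by_contra hcon
    push Not at hcon
    have : (univ.filter (fun p => W p ∈ BB G c)) = univ :=
      filter_true_of_mem fun p _ => hcon p
    rw [this, Finset.card_univ, ZMod.card] at hb
    omega
  obtain ⟨κ, hκ⟩ : ∃ κ : V → ZMod m, ∀ v, v ∉ BB G c → v ∈ AA G c (κ v) := by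
    have : ∀ v, ∃ t, v ∉ BB G c → v ∈ AA G c t := by
      intro v
      by_cases hv : v ∈ BB G c
      · exact ⟨0, fun h => absurd hv h⟩
      · rw [mem_BB] at hv
        push Not at hv
        obtain ⟨t, ht⟩ := hv
        exact ⟨t, fun _ => ht⟩
    choose κ hκ using this
    exact ⟨κ, hκ⟩
  set w : ℕ → V := fun t => W (p0 + (t : ZMod r)) with hw
  have w0 : w 0 = W p0 := by
    rw [hw]
    beta_reduce
    rw [Nat.cast_zero, add_zero]
  have wr : w r = W p0 := by
    rw [hw]
    beta_reduce
    rw [ZMod.natCast_self, add_zero]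
  -- the main induction
  have key : ∀ t, t ≤ r → ∀ (x : ZMod m) (g : ℕ), g ≤ t → w g ∉ BB G c →
      (∀ s, g < s → s ≤ t → w s ∈ BB G c) → hPath (t - g) (κ (w g)) x →
      ∃ h : ℕ → ZMod m, h 0 = κ (w 0) ∧ h t = x ∧
        (∀ s < t, h (s + 1) = h s + 1 ∨ h s = h (s + 1) + 1) ∧
        ∀ s ≤ t, w s ∉ BB G c → h s = κ (w s) := by
    intro t
    induction t with
    | zero =>
      intro _ x g hg hgood hbad hpath
      obtain rfl : g = 0 := by omega
      have hx := hPath_zero hpath
      refine ⟨fun _ => x, hx, rfl, fun s hs => absurd hs (by omega), fun s hs _ => ?_⟩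
      obtain rfl : s = 0 := by omega
      exact hx
    | succ t ih =>
      intro htr x g hg hgood hbad hpath
      -- the last good position at most `t`
      have hlast : ∃ g' ≤ t, w g' ∉ BB G c ∧ ∀ s, g' < s → s ≤ t → w s ∈ BB G c := by
        have hex : ∃ g', g' ≤ t ∧ w g' ∉ BB G c := ⟨0, by omega, by rw [w0]; exact hp0⟩
        obtain ⟨g1, hg1, hg2⟩ := hex
        set A : Finset ℕ := (range (t + 1)).filter (fun g => w g ∉ BB G c) with hA
        have hne : A.Nonempty := ⟨g1, mem_filter.2 ⟨mem_range.2 (by omega), hg2⟩⟩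
        have hmax0 := A.max'_mem hne
        have hmax := mem_filter.1 hmax0
        rw [mem_range] at hmax
        refine ⟨A.max' hne, by omega, hmax.2, fun s hs1 hs2 => ?_⟩
        by_contra hcon
        have : s ∈ A := mem_filter.2 ⟨mem_range.2 (by omega), hcon⟩
        have := A.le_max' s this
        omega
      -- a previous height
      have hprev : ∃ (x' : ZMod m) (g' : ℕ), g' ≤ t ∧ w g' ∉ BB G c ∧
          (∀ s, g' < s → s ≤ t → w s ∈ BB G c) ∧ hPath (t - g') (κ (w g')) x' ∧
          (x = x' + 1 ∨ x' = x + 1) := by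
        rcases Nat.lt_or_ge t g with hgt | hgt
        · obtain rfl : g = t + 1 := by omega
          obtain ⟨g', h1, h2, h3⟩ := hlast
          have hx := hPath_zero (by simpa using hpath)
          -- the gap is short
          have hshort : t - g' + 6 ≤ m := by
            refine le_trans (Nat.add_le_add_right ?_ 6) hb
            have h4 : t - g' = #(Ioc g' t) := by rw [Nat.card_Ioc]
            rw [h4]
            refine card_le_card_of_injOn (fun s => p0 + ((s : ℕ) : ZMod r)) ?_ ?_
            · intro s hs
              have hs' := mem_Ioc.1 (mem_coe.1 hs)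
              exact mem_coe.2 (mem_filter.2 ⟨mem_univ _, h3 s hs'.1 hs'.2⟩)
            · intro s hs s' hs' hss
              have hs1 := mem_Ioc.1 (mem_coe.1 hs)
              have hs2 := mem_Ioc.1 (mem_coe.1 hs')
              have h5 := add_left_cancel hss
              have h6 := congrArg ZMod.val h5
              rwa [ZMod.val_natCast_of_lt (by omega), ZMod.val_natCast_of_lt (by omega)] at h6
          have hwk : Wk G (t + 1 - g') (w g') (w (t + 1)) := by
            have h7 := hW.along (p0 + (g' : ZMod r)) (t + 1 - g')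
            have e : p0 + (g' : ZMod r) + ((t + 1 - g' : ℕ) : ZMod r) =
                p0 + ((t + 1 : ℕ) : ZMod r) := by
              rw [Nat.cast_sub (by omega)]
              ring
            rw [e] at h7
            exact h7
          have hgap := gap hm ho hG hc (r := t + 1 - g') (by omega) (hκ _ h2) (hκ _ hgood) hwk
          have hp : hPath (t - g' + 1) (κ (w g')) x := by
            rw [hx]
            have e : t + 1 - g' = t - g' + 1 := by omega
            rw [e] at hgap
            exact hgap
          obtain ⟨x', hx1, hx2⟩ := hPath_succ hp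
          exact ⟨x', g', h1, h2, h3, hx1, hx2⟩
        · have e : t + 1 - g = t - g + 1 := by omega
          rw [e] at hpath
          obtain ⟨x', hx1, hx2⟩ := hPath_succ hpath
          exact ⟨x', g, hgt, hgood, fun s hs1 hs2 => hbad s hs1 (by omega), hx1, hx2⟩
      obtain ⟨x', g', h1, h2, h3, h4, h5⟩ := hprev
      obtain ⟨h, k1, k2, k3, k4⟩ := ih (by omega) x' g' h1 h2 h3 h4
      have hxgood : w (t + 1) ∉ BB G c → x = κ (w (t + 1)) := by
        intro hgd
        rcases Nat.lt_or_ge t g with hgt | hgt
        · obtain rfl : g = t + 1 := by omega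
          exact hPath_zero (by simpa using hpath)
        · exact absurd (hbad (t + 1) (by omega) le_rfl) hgd
      refine ⟨fun s => if s = t + 1 then x else h s, ?_, ?_, ?_, ?_⟩
      · beta_reduce
        rw [if_neg (by omega)]
        exact k1
      · beta_reduce
        rw [if_pos rfl]
      · intro s hs
        beta_reduce
        rw [if_neg (by omega : s ≠ t + 1)]
        rcases Nat.lt_or_ge s t with hst | hst
        · rw [if_neg (by omega)]
          exact k3 s hst
        · obtain rfl : s = t := by omega
          rw [if_pos rfl, k2]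
          exact h5
      · intro s hs hgd
        beta_reduce
        split_ifs with h6
        · subst h6
          exact hxgood hgd
        · exact k4 s (by omega) hgd
  -- apply it at `r`
  obtain ⟨h, k1, k2, k3, k4⟩ := key r le_rfl (κ (w r)) r le_rfl (by rw [wr]; exact hp0)
    (fun s h1 h2 => absurd h1 (by omega)) ⟨0, by omega, by omega, ⟨0, by simp⟩, by simp⟩
  have hper : h r = h 0 := by rw [k2, k1, wr, w0]
  have hWw : ∀ p : ZMod r, W p = w (p - p0).val := by
    intro p
    rw [hw]
    beta_reduce
    rw [ZMod.natCast_zmod_val]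
    congr 1
    ring
  refine ⟨fun p => h (p - p0).val, ?_, ?_⟩
  · rw [pats, mem_filter]
    refine ⟨mem_univ _, fun p => ?_⟩
    beta_reduce
    have hlt := ZMod.val_lt (p - p0)
    have e1 : p + 1 - p0 = (p - p0) + 1 := by ring
    have e2 : (p + 1 - p0).val = ((p - p0).val + 1) % r := by
      rw [e1, ZMod.val_add, ZMod.val_one_eq_one_mod, Nat.add_mod_mod]
    rw [e2]
    rcases Nat.lt_or_ge ((p - p0).val + 1) r with h1 | h1
    · rw [Nat.mod_eq_of_lt h1]
      exact k3 _ hlt
    · have h2 : (p - p0).val + 1 = r := by omega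
      rw [h2, Nat.mod_self, ← hper]
      have h3 := k3 _ hlt
      rw [h2] at h3
      exact h3
  · intro p
    rw [mem_union, hWw p]
    by_cases hgd : w (p - p0).val ∈ BB G c
    · exact Or.inr hgd
    · left
      beta_reduce
      rw [k4 _ (ZMod.val_lt _).le hgd]
      exact hκ _ hgd

end Pool.Agent.CycFD
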