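import Pool.Agent.W_1bfdb5fd_h19.SdA
import Pool.Agent.W_1bfdb5fd_h19.SdC
import Pool.Agent.W_1bfdb5fd_h19.Gp
import Pool.Agent.W_1bfdb5fd_h19.PtA

/-!
# Vertices with good neighbours in at most one class are in few closed walks

`M = m + 2 j`, `b = #BB`.
* `many_bad`: choose a set of `m - 6` bad positions different from `0` (at most `2^M` choices); the
  bad positions have `b` choices each, the other `M - 1 - (m - 6) = 2 j + 5` positions `n` each.
* `prod_h`: `vis_prod`, AM-GM `∏ g ≤ (∑ g / m)^m ≤ (u + β u / m)^m ≤ u^m exp β`, the other `2 j`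
  factors are at most `L u`, and the three missing factors are at least `u / 2`.
* `small_deg`: `W 0 = v`; if at most `m - 6` positions are bad, choose `h` by `heights`.  `W 1` and
  `W (-1)` are adjacent to `v`, so they are bad or in the only class `s` where `v` has neighbours.
  (If both are bad: any `h`; if `W 1` is bad and `W (-1) ∈ AA s` then `h (-1) = s`; if both are in
  `AA s`, `h 1 = h (-1) = s`.)  `pats_card`, `pats_at`, `pats_two` and
  `choose (m + 2 j) j ≤ (m + 2 j)^j`.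
-/

namespace Pool.Agent.CycFD

open Finset Pool.Agent.CycGT
open scoped Classical

variable {V : Type} [Fintype V] {G : SimpleGraph V} {m : ℕ} [NeZero m] {c : ZMod m → V}

/-- Closed walks with given heights. -/
private noncomputable def sdX (G : SimpleGraph V) {r : ℕ} [NeZero r] (c : ZMod m → V) (v : V)
    (h : ZMod r → ZMod m) (S T : Finset V) : Finset (ZMod r → V) :=
  univ.filter (fun W => W 0 = v ∧ W 1 ∈ S ∧ W (-1) ∈ T ∧ ∀ p, W p ∈ AA G c (h p) ∪ BB G c)

private lemma sd_union {r : ℕ} [NeZero r] (c : ZMod m → V) (v : V)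
    (H : Finset (ZMod r → ZMod m)) (S T : Finset V) {P N : ℝ}
    (hP : ∀ h ∈ H, (#(sdX G c v h S T) : ℝ) ≤ #S * #T * P) (hP0 : 0 ≤ P) (hN : (#H : ℝ) ≤ N) :
    (#(H.biUnion fun h => sdX G c v h S T) : ℝ) ≤ N * (#S * #T * P) := by
  have h1 : (#(H.biUnion fun h => sdX G c v h S T) : ℝ) ≤ ∑ h ∈ H, (#(sdX G c v h S T) : ℝ) := by
    exact_mod_cast card_biUnion_le
  refine h1.trans ((sum_le_sum hP).trans ?_)
  rw [sum_const, nsmul_eq_mul]
  exact mul_le_mul_of_nonneg_right hN (by positivity)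

theorem small_deg (hm : 13 ≤ m) (ho : Odd m) (hG : OddFree G m) (hc : IsCl G m c) (j : ℕ)
    (hj : j < m) {v : V}
    (hv : ∀ t t', (∃ w ∈ AA G c t, G.Adj v w) → (∃ w ∈ AA G c t', G.Adj v w) → t = t')
    {P a : ℝ} (ha : ∀ t, (#(AA G c t) : ℝ) ≤ a)
    (hP : ∀ h ∈ pats (m + 2 * j) m,
      ∏ p ∈ univ \ {0, 1, -1}, ((#(AA G c (h p)) : ℝ) + #(BB G c)) ≤ P) :
    (#((clos G (m + 2 * j)).filter (fun W => W 0 = v)) : ℝ) ≤
      2 ^ (m + 2 * j) * (#(BB G c) : ℝ) ^ (m - 6) * (Fintype.card V : ℝ) ^ (2 * j + 5) +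
      P * (2 * m * ((m : ℝ) + 2 * j) ^ j * (#(BB G c) : ℝ) ^ 2 +
        4 * ((m : ℝ) + 2 * j) ^ j * #(BB G c) * a +
        4 * j * ((m : ℝ) + 2 * j) ^ (j - 1) * a ^ 2) := by
  set M := m + 2 * j with hM
  have hchoose : ((M.choose j : ℕ) : ℝ) ≤ ((m : ℝ) + 2 * j) ^ j := by
    have h1 : M.choose j ≤ M ^ j := Nat.choose_le_pow _ _
    have h2 : ((M.choose j : ℕ) : ℝ) ≤ ((M : ℕ) : ℝ) ^ j := by exact_mod_cast h1
    rw [hM] at h2
    push_cast at h2
    exact h2
  have hcard := pats_card (by omega : 3 ≤ m) ho j hj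
  have hpne : (pats M m).Nonempty := by
    rw [← card_pos, hcard]
    have : 0 < M.choose j := Nat.choose_pos (by omega)
    have : 0 < m := by omega
    positivity
  have hP0 : 0 ≤ P := by
    obtain ⟨h, hh⟩ := hpne
    exact le_trans (prod_nonneg fun p _ => by positivity) (hP h hh)
  have ha0 : 0 ≤ a := le_trans (Nat.cast_nonneg _) (ha 0)
  -- the class of the good neighbours
  obtain ⟨s, hs⟩ : ∃ s, ∀ t, (∃ w ∈ AA G c t, G.Adj v w) → t = s := by
    by_cases hex : ∃ t, ∃ w ∈ AA G c t, G.Adj v w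
    · obtain ⟨s, hs⟩ := hex
      exact ⟨s, fun t ht => hv t s ht hs⟩
    · exact ⟨0, fun t ht => absurd ⟨t, ht⟩ hex⟩
  set F1 := (clos G M).filter (fun W => W 0 = v ∧
      ¬ #(univ.filter (fun p => W p ∈ BB G c)) + 6 ≤ m) with hF1
  set U1 := (pats M m).biUnion fun h => sdX G c v h (BB G c) (BB G c) with hU1
  set U2 := ((pats M m).filter (fun h => h (-1) = s)).biUnion fun h =>
    sdX G c v h (BB G c) (AA G c s) with hU2
  set U3 := ((pats M m).filter (fun h => h 1 = s)).biUnion fun h =>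
    sdX G c v h (AA G c s) (BB G c) with hU3
  set U4 := ((pats M m).filter (fun h => h 1 = s ∧ h (-1) = s)).biUnion fun h =>
    sdX G c v h (AA G c s) (AA G c s) with hU4
  have hcov : (clos G M).filter (fun W => W 0 = v) ⊆ F1 ∪ (U1 ∪ U2 ∪ (U3 ∪ U4)) := by
    intro W hW
    rw [mem_filter] at hW
    by_cases hfew : #(univ.filter (fun p => W p ∈ BB G c)) + 6 ≤ m
    swap
    · exact mem_union_left _ (mem_filter.2 ⟨hW.1, hW.2, hfew⟩)
    refine mem_union_right _ ?_
    have hcl := mem_clos.1 hW.1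
    obtain ⟨h, hh, hhW⟩ := heights hm ho hG hc (r := M) (by omega) hcl hfew
    have ad1 : G.Adj v (W 1) := by
      have := hcl 0
      rw [zero_add, hW.2] at this
      exact this
    have ad2 : G.Adj v (W (-1)) := by
      have := hcl (-1)
      rw [neg_add_cancel, hW.2] at this
      exact this.symm
    have c1 : W 1 ∈ BB G c ∨ (W 1 ∈ AA G c s ∧ h 1 = s) := by
      rcases mem_union.1 (hhW 1) with h1 | h1
      · have := hs (h 1) ⟨W 1, h1, ad1⟩
        right
        exact ⟨by rw [← this]; exact h1, this⟩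
      · exact Or.inl h1
    have c2 : W (-1) ∈ BB G c ∨ (W (-1) ∈ AA G c s ∧ h (-1) = s) := by
      rcases mem_union.1 (hhW (-1)) with h1 | h1
      · have := hs (h (-1)) ⟨W (-1), h1, ad2⟩
        right
        exact ⟨by rw [← this]; exact h1, this⟩
      · exact Or.inl h1
    rcases c1 with c1 | ⟨c1, d1⟩ <;> rcases c2 with c2 | ⟨c2, d2⟩
    · refine mem_union_left _ (mem_union_left _ (mem_biUnion.2 ⟨h, hh, ?_⟩))
      exact mem_filter.2 ⟨mem_univ _, hW.2, c1, c2, hhW⟩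
    · refine mem_union_left _ (mem_union_right _ (mem_biUnion.2 ⟨h, mem_filter.2 ⟨hh, d2⟩, ?_⟩))
      exact mem_filter.2 ⟨mem_univ _, hW.2, c1, c2, hhW⟩
    · refine mem_union_right _ (mem_union_left _ (mem_biUnion.2 ⟨h, mem_filter.2 ⟨hh, d1⟩, ?_⟩))
      exact mem_filter.2 ⟨mem_univ _, hW.2, c1, c2, hhW⟩
    · refine mem_union_right _ (mem_union_right _
        (mem_biUnion.2 ⟨h, mem_filter.2 ⟨hh, d1, d2⟩, ?_⟩))
      exact mem_filter.2 ⟨mem_univ _, hW.2, c1, c2, hhW⟩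
  have hX : ∀ (h : ZMod M → ZMod m), h ∈ pats M m → ∀ S T : Finset V,
      (#(sdX G c v h S T) : ℝ) ≤ #S * #T * P := by
    intro h hh S T
    refine (with_h j hm c v h S T).trans ?_
    exact mul_le_mul_of_nonneg_left (hP h hh) (by positivity)
  have b1 : (#F1 : ℝ) ≤ 2 ^ (m + 2 * j) * (#(BB G c) : ℝ) ^ (m - 6) *
      (Fintype.card V : ℝ) ^ (2 * j + 5) := by
    have := many_bad (G := G) hm j c v
    exact_mod_cast this
  have b2 : (#U1 : ℝ) ≤ (2 * m * ((m : ℝ) + 2 * j) ^ j) * (#(BB G c) * #(BB G c) * P) := by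
    refine sd_union c v _ _ _ (fun h hh => hX h hh _ _) hP0 ?_
    rw [hcard]
    push_cast
    exact mul_le_mul_of_nonneg_left hchoose (by positivity)
  have hat : ∀ p : ZMod M, (#((pats M m).filter (fun h => h p = s)) : ℝ) ≤
      2 * ((m : ℝ) + 2 * j) ^ j := by
    intro p
    rw [pats_at (by omega) ho j hj p s]
    push_cast
    exact mul_le_mul_of_nonneg_left hchoose (by positivity)
  have b3 : (#U2 : ℝ) ≤ (2 * ((m : ℝ) + 2 * j) ^ j) * (#(BB G c) * #(AA G c s) * P) :=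
    sd_union c v _ _ _ (fun h hh => hX h (mem_filter.1 hh).1 _ _) hP0 (hat _)
  have b4 : (#U3 : ℝ) ≤ (2 * ((m : ℝ) + 2 * j) ^ j) * (#(AA G c s) * #(BB G c) * P) :=
    sd_union c v _ _ _ (fun h hh => hX h (mem_filter.1 hh).1 _ _) hP0 (hat _)
  have b5 : (#U4 : ℝ) ≤ (4 * j * ((m : ℝ) + 2 * j) ^ (j - 1)) *
      (#(AA G c s) * #(AA G c s) * P) := by
    refine sd_union c v _ _ _ (fun h hh => hX h (mem_filter.1 hh).1 _ _) hP0 ?_
    have := pats_two (by omega : 3 ≤ m) ho j hj s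
    exact_mod_cast this
  have hu : (#((clos G M).filter (fun W => W 0 = v)) : ℝ) ≤
      #F1 + (#U1 + #U2 + (#U3 + #U4)) := by
    have h1 := (card_le_card hcov).trans (card_union_le _ _)
    have h2 := card_union_le (U1 ∪ U2) (U3 ∪ U4)
    have h3 := card_union_le U1 U2
    have h4 := card_union_le U3 U4
    have : #((clos G M).filter (fun W => W 0 = v)) ≤ #F1 + (#U1 + #U2 + (#U3 + #U4)) := by omega
    exact_mod_cast this
  have e1 : (2 * ((m : ℝ) + 2 * j) ^ j) * (#(BB G c) * #(AA G c s) * P) ≤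
      (2 * ((m : ℝ) + 2 * j) ^ j) * (#(BB G c) * a * P) := by
    have := ha s
    gcongr
  have e2 : (2 * ((m : ℝ) + 2 * j) ^ j) * (#(AA G c s) * #(BB G c) * P) ≤
      (2 * ((m : ℝ) + 2 * j) ^ j) * (a * #(BB G c) * P) := by
    have := ha s
    gcongr
  have e3 : (4 * j * ((m : ℝ) + 2 * j) ^ (j - 1)) * (#(AA G c s) * #(AA G c s) * P) ≤
      (4 * j * ((m : ℝ) + 2 * j) ^ (j - 1)) * (a * a * P) := by
    have := ha s
    gcongr
  calc _ ≤ _ := hu
    _ ≤ 2 ^ (m + 2 * j) * (#(BB G c) : ℝ) ^ (m - 6) * (Fintype.card V : ℝ) ^ (2 * j + 5) +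
        ((2 * m * ((m : ℝ) + 2 * j) ^ j) * (#(BB G c) * #(BB G c) * P) +
          (2 * ((m : ℝ) + 2 * j) ^ j) * (#(BB G c) * a * P) +
          ((2 * ((m : ℝ) + 2 * j) ^ j) * (a * #(BB G c) * P) +
          (4 * j * ((m : ℝ) + 2 * j) ^ (j - 1)) * (a * a * P))) := by linarith
    _ = _ := by ring

end Pool.Agent.CycFD
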