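import Pool.Agent.W_1bfdb5fd_h19.St3A
import Pool.Agent.W_1bfdb5fd_h19.St3B
import Pool.Agent.W_1bfdb5fd_h19.Sd
import Pool.Agent.W_1bfdb5fd_h19.HmA

/-!
# Step 3: structure

`u = n / m`.
* `bal`: `Dp G c ≤ B / m` gives `#BB ≤ 2 B u / (m - 4) ≤ 3 B u / m` and `Phi ≤ (5 / 2) B / m`, so every
  `x - 1 - log x`, `x = #(AA G c t) m / n`, is at most `(5 / 2) B / m` (`Phi_eq`), and
  `|x - 1| ≤ ε` for large `m` (for `|x - 1| > ε`, `x - 1 - log x ≥ ε^2 / 6` if `ε ≤ 1`).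
* `st3_num`: `b ≤ β u / m`, `a ≤ 2 u`, `P = 8 (2 + β)^(2 j) exp β u^(m + 2 j - 3)`, `n = m u`: the
  bound of `small_deg` is smaller than `m^j u^(m + 2 j - 1) / (4 j!)` for large `m`; the first term is
  `2^(m + 2 j) β^(m - 6) m^(2 j + 5 - (m - 6)) u^(m + 2 j - 1)`.
* `step3`: `small_deg`, `prod_h` with `g t = #(AA G c t) + #(BB G c)`, `L = 2 + β`, `hom_ex`.
-/

namespace Pool.Agent.CycFD

open Finset Pool.Agent.CycGT
open scoped Classical

theorem step3 (j : ℕ) (B : ℝ) (hB : 0 ≤ B) : ∃ m0 : ℕ, ∀ m : ℕ, m0 ≤ m → Odd m →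
    ∀ (_ : NeZero m) (V : Type) (_ : Fintype V) (G : SimpleGraph V), OddFree G m →
    ∀ c ∈ clos G m, Dp G c ≤ B / m →
    (∀ v, (m : ℝ) ^ j * ((Fintype.card V : ℝ) / m) ^ (m + 2 * j - 1) / (4 * j.factorial) ≤
      #((clos G (m + 2 * j)).filter (fun W => W 0 = v))) →
    ∃ h : V → ZMod m, (∀ v w, G.Adj v w → h w = h v + 1 ∨ h v = h w + 1) ∧
      ∀ t, ∀ w ∈ AA G c t, h w = t := by
  obtain ⟨m1, h1⟩ := bal B (1 / 2) hB (by norm_num)
  obtain ⟨m2, h2⟩ := st3_num j (3 * B) (by positivity)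
  refine ⟨m1 + m2 + (j + 13), ?_⟩
  intro m hm ho hz V hV G hG c hc hDp hdeg
  have hcl := mem_clos.1 hc
  obtain ⟨hb, ha⟩ := h1 m (by omega) ho hz V hV G hG c hc hDp
  have hne : Nonempty V := ⟨c 0⟩
  have hn : (0 : ℝ) < Fintype.card V := by exact_mod_cast Fintype.card_pos
  have hm0 : (0 : ℝ) < m := by exact_mod_cast (by omega : 0 < m)
  have hm1 : (1 : ℝ) ≤ m := by exact_mod_cast (by omega : 1 ≤ m)
  obtain ⟨u, hu⟩ : ∃ u : ℝ, u = (Fintype.card V : ℝ) / m := ⟨_, rfl⟩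
  have hu0 : 0 < u := by rw [hu]; positivity
  have hnu : (Fintype.card V : ℝ) = m * u := by rw [hu]; field_simp
  rw [← hu] at hb
  have hbu : (#(BB G c) : ℝ) ≤ 3 * B * u := by
    refine hb.trans ?_
    rw [div_le_iff₀ hm0]
    have : 0 ≤ 3 * B * u := by positivity
    nlinarith
  have haa : ∀ t, u / 2 ≤ (#(AA G c t) : ℝ) ∧ (#(AA G c t) : ℝ) ≤ 3 / 2 * u := by
    intro t
    have h3 := abs_le.1 (ha t)
    have e : (#(AA G c t) : ℝ) * m / Fintype.card V = #(AA G c t) / u := by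
      rw [hnu, mul_comm (#(AA G c t) : ℝ) (m : ℝ), mul_div_mul_left _ _ hm0.ne']
    rw [e] at h3
    have h4 : (1 : ℝ) / 2 ≤ #(AA G c t) / u := by linarith [h3.1]
    have h5 : (#(AA G c t) : ℝ) / u ≤ 3 / 2 := by linarith [h3.2]
    rw [le_div_iff₀ hu0] at h4
    rw [div_le_iff₀ hu0] at h5
    exact ⟨by linarith, h5⟩
  refine hom_ex (by omega) ho hG hcl ?_
  by_contra hcon
  push Not at hcon
  obtain ⟨v, hv⟩ := hcon
  have hv' : ∀ t t', (∃ w ∈ AA G c t, G.Adj v w) → (∃ w ∈ AA G c t', G.Adj v w) → t = t' := by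
    intro t t' ht ht'
    exact hv t t' ht ht'
  have h3 := small_deg (G := G) (c := c) (by omega) ho hG hcl j (by omega) hv'
    (P := 8 * (2 + 3 * B) ^ (2 * j) * Real.exp (3 * B) * u ^ (m + 2 * j - 3)) (a := 2 * u)
    (fun t => by linarith [(haa t).2]) (by
      intro h hh
      refine prod_h (by omega) ho j (fun t => (#(AA G c t) : ℝ) + #(BB G c)) hu0 (by linarith)
        (by positivity) ?_ ?_ ?_ hh
      · intro t
        have : (0 : ℝ) ≤ #(BB G c) := Nat.cast_nonneg _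
        linarith [(haa t).1]
      · intro t
        have := (haa t).2
        nlinarith
      · rw [sum_add_distrib, sum_const, Finset.card_univ, ZMod.card, nsmul_eq_mul]
        have h4 := AA_sum (by omega) ho hG hcl
        have h5 : ∑ t, (#(AA G c t) : ℝ) ≤ Fintype.card V := by
          have : ∑ t, #(AA G c t) ≤ Fintype.card V := by omega
          exact_mod_cast this
        have h6 : (m : ℝ) * #(BB G c) ≤ 3 * B * u := by
          rw [le_div_iff₀ hm0] at hb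
          linarith
        rw [hnu] at h5
        linarith)
  have h4 := h2 m (by omega) u (#(BB G c) : ℝ) (Fintype.card V : ℝ) hu0 (Nat.cast_nonneg _) hb hnu
  have h5 := hdeg v
  rw [← hu] at h5
  exact absurd (h5.trans h3) (not_le.2 h4)

end Pool.Agent.CycFD
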