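import Pool.Agent.W_1bfdb5fd_h19.St1
import Pool.Agent.W_1bfdb5fd_h19.St2
import Pool.Agent.W_1bfdb5fd_h19.St3
import Pool.Agent.W_1bfdb5fd_h19.Op
import Pool.Agent.W_1bfdb5fd_h19.Dl
import Pool.Agent.W_1bfdb5fd_h19.Nu
import Pool.Agent.W_1bfdb5fd_h19.Hm

/-!
# The bound for closed walks
-/

namespace Pool.Agent.CycFD

open Finset Filter Topology Pool.Agent.CycGT
open scoped Classical

/-- Step 4 for a graph with a homomorphism to the cycle, nearly balanced. -/
theorem step4 {V : Type} [Fintype V] {G : SimpleGraph V} {m : ℕ} [NeZero m] (hm : 13 ≤ m)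
    (ho : Odd m) (hG : OddFree G m) (j : ℕ) (hj : 12 * j ^ 2 ≤ m) {c : ZMod m → V}
    (hc : IsCl G m c) {ε : ℝ} (he : ε ≤ 1 / 2) (hje : 2 * j * ε ≤ 1)
    (hb : (#(BB G c) : ℝ) * m / Fintype.card V ≤ ε / 2)
    (ha : ∀ t, |(#(AA G c t) : ℝ) * m / Fintype.card V - 1| ≤ ε / 2)
    (h : V → ZMod m) (hh : ∀ v w, G.Adj v w → h w = h v + 1 ∨ h v = h w + 1)
    (hA : ∀ t, ∀ w ∈ AA G c t, h w = t) :
    (#(clos G (m + 2 * j)) : ℝ) ≤
      #(pats (m + 2 * j) m) * ((Fintype.card V : ℝ) / m) ^ (m + 2 * j) := by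
  have hn : (0 : ℝ) < Fintype.card V := by
    have : Nonempty V := ⟨c 0⟩
    exact_mod_cast Fintype.card_pos
  have hm0 : (0 : ℝ) < m := by exact_mod_cast (by omega : 0 < m)
  set n : ℝ := (Fintype.card V : ℝ) with hnd
  set F : ZMod m → Finset V := fun t => (univ : Finset V).filter (fun x => h x = t) with hF
  have hsub1 : ∀ t, #(AA G c t) ≤ #(F t) := fun t =>
    card_le_card fun w hw => mem_filter.2 ⟨mem_univ _, hA t w hw⟩
  have hsub2 : ∀ t, #(F t) ≤ #(AA G c t) + #(BB G c) := by
    intro t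
    refine le_trans (card_le_card ?_) (card_union_le _ _)
    intro w hw
    have hw' := (mem_filter.1 hw).2
    rw [mem_union]
    by_cases hwB : w ∈ BB G c
    · exact Or.inr hwB
    · left
      have : ∃ t', w ∈ AA G c t' := by
        by_contra hcon
        push Not at hcon
        exact hwB (mem_BB.2 hcon)
      obtain ⟨t', ht'⟩ := this
      have e := hA t' w ht'
      rw [hw'] at e
      rw [e]
      exact ht'
  have hsum : ∑ t, (#(F t) : ℝ) = n := by
    have : ∑ t, #(F t) = Fintype.card V := by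
      have h1 := Finset.card_eq_sum_card_fiberwise (f := h) (s := (univ : Finset V))
        (t := (univ : Finset (ZMod m))) (fun _ _ => mem_coe.2 (mem_univ _))
      rw [← Finset.card_univ, h1]
    rw [hnd]
    exact_mod_cast this
  set y : ZMod m → ℝ := fun t => (#(F t) : ℝ) * m / n with hy
  have hys : ∑ t, y t = m := by
    have : ∑ t, y t = (∑ t, (#(F t) : ℝ)) * m / n := by
      rw [Finset.sum_mul, Finset.sum_div]
    rw [this, hsum]
    field_simp
  have hyb : ∀ t, |y t - 1| ≤ ε := by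
    intro t
    have h1 := abs_le.1 (ha t)
    have h2 : (#(AA G c t) : ℝ) * m / n ≤ y t := by
      have : (#(AA G c t) : ℝ) ≤ #(F t) := by exact_mod_cast hsub1 t
      rw [hy]
      beta_reduce
      gcongr
    have h3 : y t ≤ (#(AA G c t) : ℝ) * m / n + (#(BB G c) : ℝ) * m / n := by
      have : (#(F t) : ℝ) ≤ #(AA G c t) + #(BB G c) := by exact_mod_cast hsub2 t
      rw [← add_div, ← add_mul, hy]
      beta_reduce
      gcongr
    rw [abs_le]
    constructor <;> linarith [h1.1, h1.2]
  have h1 := opt (by omega) ho j hj y hys he hje hyb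
  have h2 := hom_clos (G := G) (r := m + 2 * j) h hh
  have h3 : (#(clos G (m + 2 * j)) : ℝ) ≤
      ∑ p ∈ pats (m + 2 * j) m, ∏ i, (#(F (p i)) : ℝ) := by exact_mod_cast h2
  have h4 : ∑ p ∈ pats (m + 2 * j) m, ∏ i, (#(F (p i)) : ℝ) =
      (n / m) ^ (m + 2 * j) * ∑ p ∈ pats (m + 2 * j) m, ∏ i, y (p i) := by
    rw [Finset.mul_sum]
    refine sum_congr rfl fun p _ => ?_
    have e : ∀ i, (#(F (p i)) : ℝ) = (n / m) * y (p i) := by
      intro i
      rw [hy]
      field_simp
    rw [Finset.prod_congr rfl fun i _ => e i, Finset.prod_mul_distrib, Finset.prod_const,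
      Finset.card_univ, ZMod.card]
  rw [h4] at h3
  refine h3.trans ?_
  rw [mul_comm]
  exact mul_le_mul_of_nonneg_right h1 (by positivity)

theorem main_closed (j : ℕ) : ∃ m0 : ℕ, ∀ m : ℕ, m0 ≤ m → Odd m → ∀ (_ : NeZero m)
    (V : Type) (_ : Fintype V) (G : SimpleGraph V), OddFree G m →
    (#(clos G (m + 2 * j)) : ℝ) * (m : ℝ) ^ (m + 2 * j) ≤
      2 * m * ((m + 2 * j).choose j : ℝ) * (Fintype.card V : ℝ) ^ (m + 2 * j) := by
  obtain ⟨K, hK, h1⟩ := step1 j
  obtain ⟨B, hB, m2, h2⟩ := step2 j K hK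
  obtain ⟨m3, h3⟩ := step3 j B hB
  set ε : ℝ := 1 / (2 * (j + 1)) with hε
  have hε0 : 0 < ε := by positivity
  obtain ⟨m4, h4⟩ := bal B (ε / 2) hB (by positivity)
  obtain ⟨m5, h5⟩ := one_eighth j
  obtain ⟨m6, hm6⟩ := exists_nat_gt (6 * B / ε)
  refine ⟨m2 + m3 + m4 + m5 + m6 + (12 * j ^ 2 + 6 * j + 19), ?_⟩
  intro m hm ho hz
  have hmR : (0 : ℝ) < m := by exact_mod_cast (by omega : 0 < m)
  have hjm : j < m := by omega
  set M := m + 2 * j with hM
  set t : ℝ := 2 * m * (M.choose j : ℝ) / (m : ℝ) ^ M with ht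
  have ht0 : 0 ≤ t := by positivity
  have key : ∀ (n : ℕ) (V : Type) (_ : Fintype V) (G : SimpleGraph V), Fintype.card V = n →
      OddFree G m → (#(clos G M) : ℝ) ≤ t * (Fintype.card V : ℝ) ^ M := by
    intro n
    induction n using Nat.strong_induction_on with
    | _ n ih =>
    intro V hV G hn hG
    by_contra hcon
    push Not at hcon
    have hn0 : 0 < Fintype.card V := by
      rcases Nat.eq_zero_or_pos (Fintype.card V) with h0 | h0
      · exfalso
        have hE : IsEmpty V := Fintype.card_eq_zero_iff.1 h0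
        have hc0 : #(clos G M) = 0 := by
          rw [card_eq_zero, eq_empty_iff_forall_notMem]
          intro W _
          exact hE.false (W 0)
        rw [hc0] at hcon
        simp only [Nat.cast_zero] at hcon
        have : 0 ≤ t * (Fintype.card V : ℝ) ^ M := by positivity
        linarith
      · exact h0
    have hnR : (0 : ℝ) < Fintype.card V := by exact_mod_cast hn0
    set u : ℝ := (Fintype.card V : ℝ) / m with hu
    have hu0 : 0 < u := by positivity
    have hpos : 0 < #(clos G M) := by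
      have : (0 : ℝ) < #(clos G M) := lt_of_le_of_lt (by positivity) hcon
      exact_mod_cast this
    have hch : (m : ℝ) ^ j ≤ j.factorial * (M.choose j : ℝ) := by
      exact_mod_cast pow_le_choose m j
    have htu : t * (Fintype.card V : ℝ) ^ M = 2 * m * (M.choose j : ℝ) * u ^ M := by
      rw [ht, hu, div_pow]
      field_simp
    have hyp1 : 2 * (m : ℝ) ^ (1 + j) * u ^ M ≤ (j.factorial : ℝ) * #(clos G M) := by
      have hf : (0 : ℝ) < j.factorial := by exact_mod_cast j.factorial_pos
      calc 2 * (m : ℝ) ^ (1 + j) * u ^ M = 2 * m * u ^ M * (m : ℝ) ^ j := by rw [pow_add]; ring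
        _ ≤ 2 * m * u ^ M * (j.factorial * (M.choose j : ℝ)) := by gcongr
        _ = j.factorial * (t * (Fintype.card V : ℝ) ^ M) := by rw [htu]; ring
        _ ≤ j.factorial * #(clos G M) := by gcongr
    obtain ⟨hD, hN⟩ := h1 m (by omega) ho hz V hV G hG hyp1 hpos
    obtain ⟨c, hc, hDp⟩ := h2 m (by omega) ho hz V hV G hG hD hN hyp1 hpos
    have hcl : IsCl G m c := (mem_filter.1 hc).2
    have hnm : m ≤ Fintype.card V := card_ge ho hG hc
    have hmin : ∀ v, t * ((Fintype.card V : ℝ) - 1) ^ (M - 1) ≤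
        #((clos G M).filter (fun W => W 0 = v)) := by
      refine min_deg ht0 hG hcon ?_
      intro W hW H hH hcard
      exact ih (Fintype.card W) (by omega) W hW H rfl hH
    have hdeg : ∀ v, (m : ℝ) ^ j * u ^ (M - 1) / (4 * j.factorial) ≤
        #((clos G M).filter (fun W => W 0 = v)) := by
      intro v
      refine le_trans ?_ (hmin v)
      have hf : (0 : ℝ) < j.factorial := by exact_mod_cast j.factorial_pos
      have h6 := h5 m (by omega) (Fintype.card V : ℝ) (by exact_mod_cast hnm)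
      rw [← hM] at h6
      have h7 : t * (Fintype.card V : ℝ) ^ (M - 1) = 2 * (M.choose j : ℝ) * u ^ (M - 1) := by
        rw [ht, hu, div_pow]
        have e : (m : ℝ) ^ M = (m : ℝ) ^ (M - 1) * m := by
          rw [← pow_succ]; congr 1; omega
        rw [e]
        field_simp
      rw [div_le_iff₀ (by positivity)]
      calc (m : ℝ) ^ j * u ^ (M - 1) ≤ (j.factorial * (M.choose j : ℝ)) * u ^ (M - 1) := by
            gcongr
        _ = j.factorial * (t * (Fintype.card V : ℝ) ^ (M - 1)) / 2 := by rw [h7]; ring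
        _ ≤ j.factorial * (t * (8 * ((Fintype.card V : ℝ) - 1) ^ (M - 1))) / 2 := by gcongr
        _ = t * ((Fintype.card V : ℝ) - 1) ^ (M - 1) * (4 * j.factorial) := by ring
    obtain ⟨h, hh, hA⟩ := h3 m (by omega) ho hz V hV G hG c hc hDp hdeg
    obtain ⟨hb, ha⟩ := h4 m (by omega) ho hz V hV G hG c hc hDp
    have hb' : (#(BB G c) : ℝ) * m / Fintype.card V ≤ ε / 2 := by
      have h8 : (6 * B / ε : ℝ) < m := lt_of_lt_of_le hm6 (by exact_mod_cast (by omega : m6 ≤ m))
      rw [div_lt_iff₀ hε0] at h8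
      rw [div_le_iff₀ hnR]
      have h9 : (#(BB G c) : ℝ) * m ≤ 3 * B * u := by
        calc (#(BB G c) : ℝ) * m ≤ (3 * B * u / m) * m := by gcongr
          _ = 3 * B * u := by field_simp
      refine h9.trans ?_
      rw [hu]
      rw [mul_div_assoc', div_le_iff₀ hmR]
      nlinarith
    have h10 := step4 (by omega) ho hG j (by omega) hcl (ε := ε)
      (by
        rw [hε, div_le_div_iff₀ (by positivity) (by norm_num)]
        have : (0 : ℝ) ≤ j := Nat.cast_nonneg j
        linarith)
      (by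
        rw [hε, mul_one_div, div_le_one (by positivity)]
        linarith) hb' ha h hh hA
    rw [pats_card (by omega) ho j hjm] at h10
    have h11 : (#(clos G M) : ℝ) ≤ t * (Fintype.card V : ℝ) ^ M := by
      rw [htu]
      refine h10.trans (le_of_eq ?_)
      push_cast
      ring
    exact absurd h11 (not_le.2 hcon)
  intro V hV G hG
  have h6 := key _ V hV G rfl hG
  rw [ht, div_mul_eq_mul_div, le_div_iff₀ (by positivity)] at h6
  exact h6

end Pool.Agent.CycFD
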