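import Pool.Agent.W_1bfdb5fd_h19.Dj

/-!
# Far walks stay far when a chord is cut, and when a pair is inserted far from the other chords

* `far_cut`: `W` has the set `J` of `i + 1` chords at pairwise distance at least 6; cut the chord at
  `p - d`, `d ≤ 2`, `p ∈ J`.  The other elements `q` have `(q - p).val ∈ [6, r + 2 - 6]`, so in the
  rotated walk they are at positions between `6` and `r - 2`, and after the cut between `4` and
  `r - 4`; distances not through 0 are unchanged, those through 0 are at least `8`.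
* `far_ins`: if `W' = cut 2 W` is `Far i` and not `Near`, all its chords are at positions
  `4 ≤ q ≤ r - 6`; in `W` they are at positions `q + 2`, and `0` is a further chord.
-/

namespace Pool.Agent.CycFD

open Finset Pool.Agent.CycGT
open scoped Classical

variable {V : Type} [Fintype V] {G : SimpleGraph V}

private theorem fr_val_sub {n : ℕ} [NeZero n] {a b : ℕ} (ha : a < n) (hb : b < n) :
    (((a : ℕ) : ZMod n) - ((b : ℕ) : ZMod n)).val = if b ≤ a then a - b else n + a - b := by
  split_ifs with h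
  · have e : ((a : ℕ) : ZMod n) - ((b : ℕ) : ZMod n) = ((a - b : ℕ) : ZMod n) := by
      rw [Nat.cast_sub h]
    rw [e, ZMod.val_natCast, Nat.mod_eq_of_lt (by omega)]
  · have e : ((a : ℕ) : ZMod n) - ((b : ℕ) : ZMod n) = ((n + a - b : ℕ) : ZMod n) := by
      rw [Nat.cast_sub (by omega), Nat.cast_add, ZMod.natCast_self, zero_add]
    rw [e, ZMod.val_natCast, Nat.mod_eq_of_lt (by omega)]

private theorem fr_cut_val {r : ℕ} [NeZero r] (W : ZMod (r + 2) → V) {v : ℕ} (h0 : 0 < v)
    (hv : v < r) : cut 2 W ((v : ℕ) : ZMod r) = W ((v + 2 : ℕ) : ZMod (r + 2)) := by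
  have e : (((v : ℕ) : ZMod r)).val = v := by
    rw [ZMod.val_natCast, Nat.mod_eq_of_lt hv]
  have hne : ((v : ℕ) : ZMod r) ≠ 0 := by
    intro h
    rw [h, ZMod.val_zero] at e
    omega
  unfold cut
  rw [if_neg hne, e]

theorem far_cut {i r : ℕ} [NeZero r] (hr : 13 ≤ r) {W : ZMod (r + 2) → V}
    {J : Finset (ZMod (r + 2))} (hJ : #J = i + 1) (hs : Sep 6 J)
    (hc : ∀ p ∈ J, G.Adj (W p) (W (p + 3))) {p : ZMod (r + 2)} (hp : p ∈ J) {d : ℕ} (hd : d ≤ 2) :
    Far G i (cut 2 (rot (M := r + 2) W (p - d))) := by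
  have hf : ∀ q ∈ J.erase p, 6 ≤ (q - p).val ∧ (q - p).val + 6 ≤ r + 2 := by
    intro q hq
    rw [mem_erase] at hq
    refine ⟨hs p hp q hq.2 (Ne.symm hq.1), ?_⟩
    have h1 := hs q hq.2 p hp hq.1
    have h2 : p - q = -(q - p) := by ring
    rw [h2, ZMod.neg_val, if_neg (sub_ne_zero.mpr hq.1)] at h1
    have h3 := ZMod.val_lt (q - p)
    omega
  have hcast : ∀ q : ZMod (r + 2), (((q - p).val : ℕ) : ZMod (r + 2)) = q - p := fun q =>
    ZMod.natCast_zmod_val _
  have hinj : ∀ q ∈ J.erase p, ∀ q' ∈ J.erase p,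
      (((q - p).val + d - 2 : ℕ) : ZMod r) = (((q' - p).val + d - 2 : ℕ) : ZMod r) → q = q' := by
    intro q hq q' hq' h
    have h1 := hf q hq
    have h2 := hf q' hq'
    have h3 := congrArg ZMod.val h
    rw [ZMod.val_natCast, ZMod.val_natCast, Nat.mod_eq_of_lt (by omega),
      Nat.mod_eq_of_lt (by omega)] at h3
    have h4 : (q - p).val = (q' - p).val := by omega
    have h5 := hcast q
    rw [h4, hcast q'] at h5
    exact (sub_left_injective h5).symm
  refine ⟨(J.erase p).image (fun q => (((q - p).val + d - 2 : ℕ) : ZMod r)), ?_, ?_, ?_⟩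
  · rw [card_image_of_injOn (fun q hq q' hq' h => hinj q hq q' hq' h), card_erase_of_mem hp, hJ]
    omega
  · intro a ha b hb hab
    rw [mem_image] at ha hb
    obtain ⟨q, hq, rfl⟩ := ha
    obtain ⟨q', hq', rfl⟩ := hb
    have h1 := hf q hq
    have h2 := hf q' hq'
    have hne : q ≠ q' := by
      rintro rfl
      exact hab rfl
    have h3 := hs q (mem_of_mem_erase hq) q' (mem_of_mem_erase hq') hne
    have h4 : q' - q = (((q' - p).val : ℕ) : ZMod (r + 2)) - (((q - p).val : ℕ) : ZMod (r + 2)) := by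
      rw [hcast, hcast]
      ring
    rw [h4, fr_val_sub (ZMod.val_lt _) (ZMod.val_lt _)] at h3
    rw [fr_val_sub (by omega) (by omega)]
    split_ifs at h3 ⊢ <;> omega
  · intro a ha
    rw [mem_image] at ha
    obtain ⟨q, hq, rfl⟩ := ha
    have h1 := hf q hq
    have e3 : (((q - p).val + d - 2 : ℕ) : ZMod r) + 3 = (((q - p).val + d - 2 + 3 : ℕ) : ZMod r) := by
      push_cast
      ring
    rw [e3, fr_cut_val _ (by omega) (by omega), fr_cut_val _ (by omega) (by omega)]
    have e1 : (p - (d : ZMod (r + 2))) + (((q - p).val + d - 2 + 2 : ℕ) : ZMod (r + 2)) = q := by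
      have : (q - p).val + d - 2 + 2 = (q - p).val + d := by omega
      rw [this, Nat.cast_add, hcast]
      ring
    have e2 : (p - (d : ZMod (r + 2))) + (((q - p).val + d - 2 + 3 + 2 : ℕ) : ZMod (r + 2)) =
        q + 3 := by
      have : (q - p).val + d - 2 + 3 + 2 = (q - p).val + d + 3 := by omega
      rw [this, Nat.cast_add, Nat.cast_add, hcast]
      push_cast
      ring
    unfold rot
    rw [e1, e2]
    exact hc q (mem_of_mem_erase hq)

theorem far_ins {i r : ℕ} [NeZero r] (hr : 13 ≤ r) {W : ZMod (r + 2) → V}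
    (h0 : G.Adj (W 0) (W 3)) (hF : Far G i (cut 2 W)) (hN : ¬ Near G (cut 2 W)) :
    Far G (i + 1) W := by
  obtain ⟨J, hJ, hs, hc⟩ := hF
  have hnear : ∀ q ∈ J, ∀ d ∈ Icc (-5 : ℤ) 3, q ≠ (d : ZMod r) := by
    intro q hq d hd h
    apply hN
    refine ⟨d, hd, ?_⟩
    rw [← h]
    exact hc q hq
  have hf : ∀ q ∈ J, 4 ≤ q.val ∧ q.val + 6 ≤ r := by
    intro q hq
    have hlt := ZMod.val_lt q
    constructor
    · by_contra hcon
      have h1 := hnear q hq (q.val : ℤ) (by rw [mem_Icc]; omega)
      apply h1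
      rw [Int.cast_natCast, ZMod.natCast_zmod_val]
    · by_contra hcon
      have h1 := hnear q hq ((q.val : ℤ) - r) (by rw [mem_Icc]; omega)
      apply h1
      rw [Int.cast_sub, Int.cast_natCast, Int.cast_natCast, ZMod.natCast_zmod_val,
        ZMod.natCast_self, sub_zero]
  have hinj : ∀ q ∈ J, ∀ q' ∈ J,
      ((q.val + 2 : ℕ) : ZMod (r + 2)) = ((q'.val + 2 : ℕ) : ZMod (r + 2)) → q = q' := by
    intro q hq q' hq' h
    have h1 := hf q hq
    have h2 := hf q' hq'
    have h3 := congrArg ZMod.val h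
    rw [ZMod.val_natCast, ZMod.val_natCast, Nat.mod_eq_of_lt (by omega),
      Nat.mod_eq_of_lt (by omega)] at h3
    exact ZMod.val_injective r (by omega)
  have hz : (0 : ZMod (r + 2)) ∉ J.image (fun q => ((q.val + 2 : ℕ) : ZMod (r + 2))) := by
    intro h
    rw [mem_image] at h
    obtain ⟨q, hq, h1⟩ := h
    have h2 := hf q hq
    have h3 := congrArg ZMod.val h1
    rw [ZMod.val_natCast, Nat.mod_eq_of_lt (by omega), ZMod.val_zero] at h3
    omega
  refine ⟨insert 0 (J.image (fun q => ((q.val + 2 : ℕ) : ZMod (r + 2)))), ?_, ?_, ?_⟩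
  · rw [card_insert_of_notMem hz,
      card_image_of_injOn (fun q hq q' hq' h => hinj q hq q' hq' h), hJ]
  · intro a ha b hb hab
    rw [mem_insert, mem_image] at ha hb
    rcases ha with rfl | ⟨q, hq, rfl⟩
    · rcases hb with rfl | ⟨q', hq', rfl⟩
      · exact absurd rfl hab
      · have h2 := hf q' hq'
        rw [sub_zero, ZMod.val_natCast, Nat.mod_eq_of_lt (by omega)]
        omega
    · have h1 := hf q hq
      rcases hb with rfl | ⟨q', hq', rfl⟩
      · have e0 : (0 : ZMod (r + 2)) = ((0 : ℕ) : ZMod (r + 2)) := by simp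
        rw [e0, fr_val_sub (by omega) (by omega)]
        split_ifs <;> omega
      · have h2 := hf q' hq'
        have hne : q ≠ q' := by
          rintro rfl
          exact hab rfl
        have h3 := hs q hq q' hq' hne
        have h4 : q' - q = ((q'.val : ℕ) : ZMod r) - ((q.val : ℕ) : ZMod r) := by
          rw [ZMod.natCast_zmod_val, ZMod.natCast_zmod_val]
        rw [h4, fr_val_sub (ZMod.val_lt _) (ZMod.val_lt _)] at h3
        rw [fr_val_sub (by omega) (by omega)]
        split_ifs at h3 ⊢ <;> omega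
  · intro a ha
    rw [mem_insert, mem_image] at ha
    rcases ha with rfl | ⟨q, hq, rfl⟩
    · rw [zero_add]
      exact h0
    · have h1 := hf q hq
      have h2 := hc q hq
      have e1 : q = ((q.val : ℕ) : ZMod r) := (ZMod.natCast_zmod_val q).symm
      have e2 : q + 3 = ((q.val + 3 : ℕ) : ZMod r) := by
        rw [Nat.cast_add, ZMod.natCast_zmod_val]
        push_cast
        ring
      have e3 : cut 2 W q = W ((q.val + 2 : ℕ) : ZMod (r + 2)) := by
        conv_lhs => rw [e1]
        exact fr_cut_val _ (by omega) (by omega)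
      have e4 : cut 2 W (q + 3) = W (((q.val + 2 : ℕ) : ZMod (r + 2)) + 3) := by
        rw [e2, fr_cut_val _ (by omega) (by omega)]
        congr 1
        push_cast
        ring
      rw [e3, e4] at h2
      exact h2

theorem far_rot {i r : ℕ} [NeZero r] {W : ZMod r → V} (p : ZMod r) (h : Far G i (rot W p)) :
    Far G i W := by
  obtain ⟨J, hJ, hs, hc⟩ := h
  refine ⟨J.image (fun q => p + q), ?_, ?_, ?_⟩
  · rw [card_image_of_injective _ (add_right_injective p), hJ]
  · intro a ha b hb hab
    rw [mem_image] at ha hb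
    obtain ⟨q, hq, rfl⟩ := ha
    obtain ⟨q', hq', rfl⟩ := hb
    have hne : q ≠ q' := by
      rintro rfl
      exact hab rfl
    have e : p + q' - (p + q) = q' - q := by ring
    rw [e]
    exact hs q hq q' hq' hne
  · intro a ha
    rw [mem_image] at ha
    obtain ⟨q, hq, rfl⟩ := ha
    have h1 := hc q hq
    unfold rot at h1
    rw [add_assoc]
    exact h1

end Pool.Agent.CycFD
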