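import Pool.Agent.W_1bfdb5fd_h19.Df

/-!
# Neighbourhoods of chordless closed walks

`r = m + 2 i`, `k` a closed walk of length `r`.  By `arc` (with a walk of length 2) two positions
adjacent to the same vertex `w` differ by an even number at most `2 i + 2`.  So `w` is in at most one
`FS G i k t`, in none if `w` is adjacent to no `k t` (these vertices are counted by `cU`), and in
exactly one otherwise (go down from an adjacent position as long as possible in steps of
`2, ..., 2 i + 2`; if the total descent exceeds `2 i + 2`, look at the first time this happens: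
it is at most `4 i + 4`, and it is also plus or minus an even number at most `2 i + 2` modulo `r`,
impossible as `6 i + 6 < r`).
`fs_deg`: `T = {t | Wk G 2 v (k t)}`; by `arc` (walk of length 4) two elements of `T` differ by an
even number at most `2 i + 4`, so `T` has at most `2 i + 5` elements.
-/

namespace Pool.Agent.CycFD

open Finset Pool.Agent.CycGT
open scoped Classical

variable {V : Type} [Fintype V] {G : SimpleGraph V} {m i r : ℕ} [NeZero r] {k : ZMod r → V}

omit [Fintype V] [NeZero r] in
/-- Two positions adjacent to the same vertex differ by an even number at most `2 i + 2`. -/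
private lemma fs_two (hr : r = m + 2 * i) (ho : Odd m) (hG : OddFree G m) (hk : IsCl G r k)
    {w : V} {t t' : ZMod r} (h : G.Adj w (k t)) (h' : G.Adj w (k t')) :
    ∃ s : ℕ, s ≤ i + 1 ∧ (t' = t + 2 * (s : ZMod r) ∨ t' = t - 2 * (s : ZMod r)) := by
  have hw : Wk G 2 (k t) (k t') := wk_two.2 ⟨w, h.symm, h'⟩
  obtain ⟨e, he, hp, hor⟩ := arc hr ho hG hk hw
  obtain ⟨s, rfl⟩ : ∃ s, e = 2 * s := ⟨e / 2, by omega⟩
  refine ⟨s, by omega, ?_⟩
  push_cast at hor
  exact hor

omit [NeZero r] in
private lemma fs_uniq (hr : r = m + 2 * i) (ho : Odd m) (hG : OddFree G m) (hk : IsCl G r k)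
    {w : V} {t t' : ZMod r} (h : w ∈ FS G i k t) (h' : w ∈ FS G i k t') : t = t' := by
  rw [mem_FS] at h h'
  obtain ⟨s, hs, hor⟩ := fs_two hr ho hG hk h.1 h'.1
  rcases Nat.eq_zero_or_pos s with h0 | h0
  · subst h0
    rcases hor with e | e
    · rw [e]; simp
    · rw [e]; simp
  · exfalso
    have hmem : s ∈ Icc 1 (i + 1) := mem_Icc.2 ⟨h0, hs⟩
    rcases hor with e | e
    · have h1 := h'.2 s hmem
      have e2 : t' - 2 * (s : ZMod r) = t := by rw [e]; ring
      rw [e2] at h1
      exact h1 h.1
    · have h1 := h.2 s hmem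
      rw [← e] at h1
      exact h1 h'.1

private lemma cU_eq : cU G k = #(univ.filter (fun w => ∀ t, ¬ G.Adj w (k t))) := by
  unfold cU
  congr

theorem fs_sum (hr : r = m + 2 * i) (ho : Odd m) (hG : OddFree G m) (hk : IsCl G r k)
    (h6 : 6 * i + 6 < r) : ∑ t, #(FS G i k t) + cU G k ≤ Fintype.card V := by
  have _ := h6
  have hd : ∑ t, #(FS G i k t) = #((univ : Finset (ZMod r)).biUnion (fun t => FS G i k t)) := by
    symm
    apply Finset.card_biUnion
    intro x _ y _ hxy
    refine Finset.disjoint_left.2 ?_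
    intro w hx hy
    exact hxy (fs_uniq hr ho hG hk hx hy)
  rw [hd, cU_eq, ← Finset.card_union_of_disjoint]
  · exact Finset.card_le_univ _
  · rw [Finset.disjoint_left]
    intro w hw hw'
    rw [mem_biUnion] at hw
    obtain ⟨t, _, ht⟩ := hw
    rw [mem_filter] at hw'
    exact hw'.2 t (mem_FS.1 ht).1

/-- A vertex adjacent to some `k t` is in some `FS G i k t'`. -/
private lemma fs_exists (hr : r = m + 2 * i) (ho : Odd m) (hG : OddFree G m) (hk : IsCl G r k)
    (h6 : 6 * i + 6 < r) {w : V} {t : ZMod r} (h : G.Adj w (k t)) :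
    ∃ t', w ∈ FS G i k t' := by
  by_contra hno
  push Not at hno
  obtain ⟨x, hx, hmax⟩ := Finset.exists_max_image
    ((range (i + 2)).filter (fun x : ℕ => G.Adj w (k (t - 2 * (x : ZMod r))))) id
    ⟨0, by rw [mem_filter, mem_range]; exact ⟨by omega, by simpa using h⟩⟩
  rw [mem_filter, mem_range] at hx
  obtain ⟨hxi, hxa⟩ := hx
  have h1 := hno (t - 2 * (x : ZMod r))
  rw [mem_FS] at h1
  push Not at h1
  obtain ⟨s, hs, hsa⟩ := h1 hxa
  rw [mem_Icc] at hs
  have e1 : t - 2 * (x : ZMod r) - 2 * (s : ZMod r) = t - 2 * ((x + s : ℕ) : ZMod r) := by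
    push_cast; ring
  rw [e1] at hsa
  have hbig : i + 2 ≤ x + s := by
    by_contra hlt
    push Not at hlt
    have := hmax (x + s) (by rw [mem_filter, mem_range]; exact ⟨hlt, hsa⟩)
    simp only [id] at this
    omega
  obtain ⟨y, hy, hor⟩ := fs_two hr ho hG hk h hsa
  have key : ∀ n : ℕ, 0 < n → n < r → ((n : ℕ) : ZMod r) ≠ 0 := by
    intro n hn0 hnr hz
    rw [ZMod.natCast_eq_zero_iff] at hz
    exact absurd (Nat.le_of_dvd hn0 hz) (by omega)
  rcases hor with e | e
  · apply key (2 * (x + s + y)) (by omega) (by omega)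
    have : (2 : ZMod r) * ((x + s : ℕ) : ZMod r) + 2 * (y : ZMod r) = 0 := by
      have e' := congrArg (fun z => t - z) e
      simp only [sub_sub_cancel] at e'
      rw [e']; ring
    push_cast at this ⊢
    rw [← this]; ring
  · apply key (2 * (x + s - y)) (by omega) (by omega)
    have : (2 : ZMod r) * ((x + s : ℕ) : ZMod r) - 2 * (y : ZMod r) = 0 := by
      have e' := congrArg (fun z => t - z) e
      simp only [sub_sub_cancel] at e'
      rw [e']; ring
    have hle : y ≤ x + s := by omega
    push_cast [Nat.cast_sub hle] at this ⊢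
    rw [← this]; ring

theorem fs_deg (hr : r = m + 2 * i) (ho : Odd m) (hG : OddFree G m) (hk : IsCl G r k)
    (h6 : 6 * i + 6 < r) (v : V) :
    ∃ T : Finset (ZMod r), #T ≤ 2 * i + 5 ∧ #(Nb G v) ≤ cU G k + ∑ t ∈ T, #(FS G i k t) := by
  refine ⟨univ.filter (fun t => Wk G 2 v (k t)), ?_, ?_⟩
  · by_cases hne : (univ.filter (fun t => Wk G 2 v (k t)) : Finset (ZMod r)).Nonempty
    · obtain ⟨t0, ht0⟩ := hne
      rw [mem_filter] at ht0
      have hsub : (univ.filter (fun t => Wk G 2 v (k t)) : Finset (ZMod r)) ⊆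
          ((range (2 * i + 5)).image
            (fun x : ℕ => t0 + 2 * (x : ZMod r) - 2 * ((i + 2 : ℕ) : ZMod r))) := by
        intro t ht
        rw [mem_filter] at ht
        have hw : Wk G 4 (k t0) (k t) := ht0.2.symm.trans ht.2
        obtain ⟨e, he, hp, hor⟩ := arc hr ho hG hk hw
        obtain ⟨s, rfl⟩ : ∃ s, e = 2 * s := ⟨e / 2, by omega⟩
        rw [mem_image]
        rcases hor with e | e
        · refine ⟨i + 2 + s, mem_range.2 (by omega), ?_⟩
          rw [e]; push_cast; ring
        · refine ⟨i + 2 - s, mem_range.2 (by omega), ?_⟩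
          rw [e, Nat.cast_sub (by omega : s ≤ i + 2)]; push_cast; ring
      calc _ ≤ _ := card_le_card hsub
        _ ≤ #(range (2 * i + 5)) := card_image_le
        _ = 2 * i + 5 := card_range _
    · rw [not_nonempty_iff_eq_empty] at hne
      rw [hne]; simp
  · have hsub : Nb G v ⊆ univ.filter (fun w => ∀ t, ¬ G.Adj w (k t)) ∪
        (univ.filter (fun t => Wk G 2 v (k t))).biUnion (fun t => FS G i k t) := by
      intro w hw
      rw [mem_Nb] at hw
      rw [mem_union]
      by_cases hU : ∀ t, ¬ G.Adj w (k t)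
      · left
        rw [mem_filter]
        exact ⟨mem_univ _, hU⟩
      · right
        push Not at hU
        obtain ⟨t, ht⟩ := hU
        obtain ⟨t', ht'⟩ := fs_exists hr ho hG hk h6 ht
        rw [mem_biUnion]
        refine ⟨t', ?_, ht'⟩
        rw [mem_filter]
        exact ⟨mem_univ _, wk_two.2 ⟨w, hw.symm, (mem_FS.1 ht').1⟩⟩
    calc #(Nb G v) ≤ _ := card_le_card hsub
      _ ≤ _ := card_union_le _ _
      _ ≤ cU G k + ∑ t ∈ univ.filter (fun t => Wk G 2 v (k t)), #(FS G i k t) := by
          apply Nat.add_le_add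
          · exact le_of_eq cU_eq.symm
          · exact card_biUnion_le

end Pool.Agent.CycFD
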