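import Pool.Agent.W_1bfdb5fd_h19.Df

/-!
# The general random process

`v 0, v 1, ...` are chosen one after the other, `v t` uniformly in the set `S t v`, which depends
only on `v 0, ..., v (t-1)`.  The probability of a sequence is the product of the `1 / #(S t v)`, so
for pairwise different sequences the sum of the products is at most 1.  Induction on `L`: the
sequences with the same first `L` values have different values at `L`, all in the same set.
-/

namespace Pool.Agent.CycFD

open Finset Pool.Agent.CycGT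
open scoped Classical

variable {V : Type} [Fintype V]

private lemma gen_aux (S : ℕ → (ℕ → V) → Finset V)
    (hS : ∀ t v v', (∀ i < t, v i = v' i) → S t v = S t v') : ∀ (L : ℕ) (ι : Type)
    (T : Finset ι) (f : ι → ℕ → V)
    (_ : ∀ a ∈ T, ∀ b ∈ T, (∀ t < L, f a t = f b t) → a = b)
    (_ : ∀ a ∈ T, ∀ t < L, f a t ∈ S t (f a)),
    ∑ a ∈ T, ∏ t ∈ range L, ((#(S t (f a)) : ℝ))⁻¹ ≤ 1 := by
  intro L
  induction L with
  | zero =>
    intro ι T f hf _
    have h : #T ≤ 1 := card_le_one.2 fun a ha b hb => hf a ha b hb (by simp)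
    simp only [range_zero, prod_empty, sum_const, nsmul_eq_mul, mul_one]
    exact_mod_cast h
  | succ L ih =>
    intro ι T f hf hv
    set φ : ι → (Fin L → V) := fun a t => f a t with hφ
    have hex : ∀ z ∈ T.image φ, ∃ a ∈ T, φ a = z := fun z hz => mem_image.1 hz
    rcases T.eq_empty_or_nonempty with hT | ⟨a0, ha0⟩
    · subst hT
      simp
    set rep : (Fin L → V) → ι := fun z => if h : ∃ a ∈ T, φ a = z then h.choose else a0 with hrep
    have hr : ∀ z ∈ T.image φ, rep z ∈ T ∧ φ (rep z) = z := by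
      intro z hz
      have h := hex z hz
      have e : rep z = h.choose := by
        rw [hrep]
        exact dif_pos h
      rw [e]
      exact ⟨h.choose_spec.1, h.choose_spec.2⟩
    have hval : ∀ a b, φ a = φ b → ∀ t < L, f a t = f b t := by
      intro a b h t ht
      exact congrFun h ⟨t, ht⟩
    have h1 := ih (Fin L → V) (T.image φ) (fun z => f (rep z)) (by
      intro z hz z' hz' h
      rw [← (hr z hz).2, ← (hr z' hz').2]
      funext t
      exact h t t.2) (by
      intro z hz t ht
      exact hv _ (hr z hz).1 t (by omega))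
    refine le_trans ?_ h1
    rw [← sum_fiberwise_of_maps_to (g := φ) (t := T.image φ)
      (fun a ha => mem_image_of_mem φ ha)]
    refine sum_le_sum fun z hz => ?_
    obtain ⟨hz1, hz2⟩ := hr z hz
    have hsame : ∀ a ∈ T.filter (fun a => φ a = z), ∀ t ≤ L, S t (f a) = S t (f (rep z)) := by
      intro a ha t ht
      refine hS t _ _ fun i hi => ?_
      exact hval a (rep z) ((mem_filter.1 ha).2.trans hz2.symm) i (by omega)
    have h2 : ∑ a ∈ T.filter (fun a => φ a = z), ∏ t ∈ range (L + 1), ((#(S t (f a)) : ℝ))⁻¹ =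
        ∑ a ∈ T.filter (fun a => φ a = z), (∏ t ∈ range L, ((#(S t (f (rep z))) : ℝ))⁻¹) *
          ((#(S L (f (rep z))) : ℝ))⁻¹ := by
      refine sum_congr rfl fun a ha => ?_
      rw [prod_range_succ, hsame a ha L le_rfl]
      congr 1
      refine prod_congr rfl fun t ht => ?_
      rw [hsame a ha t (mem_range.1 ht).le]
    rw [h2, sum_const, nsmul_eq_mul]
    have h3 : #(T.filter (fun a => φ a = z)) ≤ #(S L (f (rep z))) := by
      refine card_le_card_of_injOn (fun a => f a L) ?_ ?_
      · intro a ha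
        have ha' := mem_coe.1 ha
        have h4 := hv a (mem_filter.1 ha').1 L (by omega)
        rw [hsame a ha' L le_rfl] at h4
        exact mem_coe.2 h4
      · intro a ha b hb hab
        have ha' := mem_filter.1 (mem_coe.1 ha)
        have hb' := mem_filter.1 (mem_coe.1 hb)
        refine hf a ha'.1 b hb'.1 fun t ht => ?_
        rcases Nat.lt_or_ge t L with h | h
        · exact hval a b (by rw [ha'.2, hb'.2]) t h
        · obtain rfl : t = L := by omega
          exact hab
    have hP : 0 ≤ ∏ t ∈ range L, ((#(S t (f (rep z))) : ℝ))⁻¹ :=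
      prod_nonneg fun t _ => inv_nonneg.2 (Nat.cast_nonneg _)
    have h5 : (#(T.filter (fun a => φ a = z)) : ℝ) * ((#(S L (f (rep z))) : ℝ))⁻¹ ≤ 1 := by
      rcases Nat.eq_zero_or_pos #(S L (f (rep z))) with h0 | h0
      · rw [h0, Nat.cast_zero, inv_zero, mul_zero]
        exact zero_le_one
      · rw [← div_eq_mul_inv, div_le_one (by exact_mod_cast h0)]
        exact_mod_cast h3
    calc _ = (∏ t ∈ range L, ((#(S t (f (rep z))) : ℝ))⁻¹) *
          ((#(T.filter (fun a => φ a = z)) : ℝ) * ((#(S L (f (rep z))) : ℝ))⁻¹) := by ring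
      _ ≤ (∏ t ∈ range L, ((#(S t (f (rep z))) : ℝ))⁻¹) * 1 :=
          mul_le_mul_of_nonneg_left h5 hP
      _ = _ := mul_one _

theorem gen_proc (L : ℕ) (S : ℕ → (ℕ → V) → Finset V)
    (hS : ∀ t v v', (∀ i < t, v i = v' i) → S t v = S t v')
    {ι : Type} (T : Finset ι) (f : ι → ℕ → V)
    (hf : ∀ a ∈ T, ∀ b ∈ T, (∀ t < L, f a t = f b t) → a = b)
    (hv : ∀ a ∈ T, ∀ t < L, f a t ∈ S t (f a)) :
    ∑ a ∈ T, ∏ t ∈ range L, ((#(S t (f a)) : ℝ))⁻¹ ≤ 1 :=
  gen_aux S hS L ι T f hf hv

end Pool.Agent.CycFD
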