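import Pool.Agent.W_1bfdb5fd_h19.As

/-!
# Distances between classes

`gap`: `w` is adjacent to `c (t-1)`, `c (t+1)`, and `w'` to `c (t'-1)`, `c (t'+1)`.  `arc` for
`c (t+1)`, `c (t'-1)` gives `t' = t + α`, `α ∈ [-r, r+4]`, `α = r` mod 2; for `c (t-1)`, `c (t'+1)`
it gives `t' = t + β`, `β ∈ [-r-4, r]`.  `α - β` is divisible by `m` and even, and
`0 ≤ α - β ≤ 2 r + 8 < 2 m` or negative with `|α - β| ≤ 2 r < 2 m`: so `α = β ∈ [-r, r]`.
-/

namespace Pool.Agent.CycFD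

open Finset Pool.Agent.CycGT
open scoped Classical

variable {V : Type} [Fintype V] {G : SimpleGraph V} {m : ℕ} [NeZero m] {c : ZMod m → V}

/-- An integer divisible by `m` (odd) and by 2, smaller than `2 m`, is zero. -/
private lemma gp_zero {m : ℕ} (ho : Odd m) {x : ℤ} (h1 : ((x : ℤ) : ZMod m) = 0)
    (h2 : ∃ q : ℤ, x = 2 * q) (h3 : |x| < 2 * m) : x = 0 := by
  have h4 : (m : ℤ) ∣ x := (ZMod.intCast_zmod_eq_zero_iff_dvd x m).1 h1
  have h5 : (2 : ℤ) ∣ x := h2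
  have h6 : IsCoprime (2 : ℤ) (m : ℤ) := by
    have : Nat.Coprime 2 m := by
      rw [Nat.coprime_two_left]
      exact ho
    exact_mod_cast Nat.isCoprime_iff_coprime.2 this
  exact Int.eq_zero_of_abs_lt_dvd (h6.mul_dvd h5 h4) h3

theorem gap (hm : 13 ≤ m) (ho : Odd m) (hG : OddFree G m) (hc : IsCl G m c) {r : ℕ}
    (hr : r + 5 ≤ m) {t t' : ZMod m} {w w' : V} (h : w ∈ AA G c t) (h' : w' ∈ AA G c t')
    (hw : Wk G r w w') :
    ∃ e : ℤ, -(r : ℤ) ≤ e ∧ e ≤ r ∧ (∃ q : ℤ, e = r - 2 * q) ∧ t' = t + (e : ZMod m) := by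
  rw [mem_AA] at h h'
  have w1 : Wk G (1 + r + 1) (c (t + 1)) (c (t' - 1)) :=
    ((wk_one.2 h.2.symm).trans hw).trans (wk_one.2 h'.1)
  have w2 : Wk G (1 + r + 1) (c (t - 1)) (c (t' + 1)) :=
    ((wk_one.2 h.1.symm).trans hw).trans (wk_one.2 h'.2)
  obtain ⟨e1, a1, a2, a3⟩ := arc (M := m) (h := 0) (by omega) ho hG hc w1
  obtain ⟨e2, b1, b2, b3⟩ := arc (M := m) (h := 0) (by omega) ho hG hc w2
  have ha : ∃ x : ℤ, -(r : ℤ) ≤ x ∧ x ≤ r + 4 ∧ (∃ q : ℤ, x = r - 2 * q) ∧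
      t' = t + (x : ZMod m) := by
    rcases a3 with a3 | a3
    · refine ⟨2 + e1, by omega, by omega, ⟨((r : ℤ) - 2 - e1) / 2, by omega⟩, ?_⟩
      push_cast
      linear_combination a3
    · refine ⟨2 - e1, by omega, by omega, ⟨((r : ℤ) - 2 + e1) / 2, by omega⟩, ?_⟩
      push_cast
      linear_combination a3
  have hb : ∃ x : ℤ, -(r : ℤ) - 4 ≤ x ∧ x ≤ r ∧ (∃ q : ℤ, x = r - 2 * q) ∧
      t' = t + (x : ZMod m) := by
    rcases b3 with b3 | b3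
    · refine ⟨-2 + e2, by omega, by omega, ⟨((r : ℤ) + 2 - e2) / 2, by omega⟩, ?_⟩
      push_cast
      linear_combination b3
    · refine ⟨-2 - e2, by omega, by omega, ⟨((r : ℤ) + 2 + e2) / 2, by omega⟩, ?_⟩
      push_cast
      linear_combination b3
  obtain ⟨x, x1, x2, ⟨q, x3⟩, x4⟩ := ha
  obtain ⟨y, y1, y2, ⟨q', y3⟩, y4⟩ := hb
  have hxy : x - y = 0 := by
    refine gp_zero ho ?_ ⟨q' - q, by omega⟩ ?_
    · rw [x4] at y4
      push_cast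
      linear_combination y4
    · rw [abs_lt]
      constructor <;> omega
  exact ⟨x, x1, by omega, ⟨q, x3⟩, x4⟩

end Pool.Agent.CycFD
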