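import Pool.Agent.W_1bfdb5fd_h19.JpA
import Pool.Agent.W_1bfdb5_h19.Jensen

/-!
# The sharp bound for closed walks of length m

Average `pair_proc` over the rotations `s`.  `x1 s = #(Nb G (c s))`,
`x2 s = #(B3 G (c s) (c (s + 1)))`, `x3 = 1`, `y s` the product over the classes: `jensen3` gives
`m ((avg x1) (avg x2) exp (avg (log y)))⁻¹ ≤ ∑ s (x1 x2 y)⁻¹`.
With `n = card V`, `u = n / m`, `ρ = #BB / n`: `avg x1 ≤ (2 - ρ) u` (`nb_sum`),
`avg x2 ≤ (1 + 2 ρ) u` (`b3_sum`), and
`avg (log y) = (m - 1) / (2 m) ∑ log #AA + (m - 5) / (2 m) ∑ log #QT`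
`≤ (m - 1) / 2 log u - (m - 1) / (2 m) (m ρ + Phi) + (m - 5) / 2 log u`
(`∑ log #QT ≤ m log u` by `jen_log` and `qt_sum`).  Moreover
`(1 - ρ / 2) (1 + 2 ρ) ≤ exp (3 ρ / 2)`, `Phi ≥ 0`, `(m - 1) / (2 m) ≥ 2 / 5`, so every `c`
contributes at least `exp (Dp G c) / (2 m u^m)`.
-/

namespace Pool.Agent.CycFD

open Finset Pool.Agent.CycGT
open scoped Classical

variable {V : Type} [Fintype V] {G : SimpleGraph V} {m : ℕ} [NeZero m]

private lemma jpb_nwk {m : ℕ} (ho : Odd m) (hG : OddFree G m) {c : ZMod m → V} (hc : IsCl G m c)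
    {p q : ZMod m} {r d : ℕ} (h1 : r < d) (h2 : d + r < m) (e : p = q + (d : ZMod m)) :
    ¬ Wk G r (c p) (c q) := by
  intro hw
  obtain ⟨e1, he1, _, he3⟩ := arc (M := m) (h := 0) (by omega) ho hG hc hw
  have hz : ∀ n : ℕ, 0 < n → n < m → (n : ZMod m) ≠ 0 := by
    intro n h0 h1 h2
    rw [ZMod.natCast_eq_zero_iff] at h2
    exact absurd (Nat.le_of_dvd h0 h2) (by omega)
  rcases he3 with he | he
  · refine hz (d + e1) (by omega) (by omega) ?_
    rw [e] at he
    push_cast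
    linear_combination -he
  · refine hz (d - e1) (by omega) (by omega) ?_
    rw [e] at he
    rw [Nat.cast_sub (by omega)]
    linear_combination -he

private lemma jpb_two {m : ℕ} {c : ZMod m → V} (hc : IsCl G m c) (p : ZMod m) :
    Wk G 2 (c (p + 2)) (c p) := by
  have h3 := hc.along p 2
  have e3 : p + ((2 : ℕ) : ZMod m) = p + 2 := by push_cast; ring
  rw [e3] at h3
  exact h3.symm

private lemma jpb_b3 (hm : 13 ≤ m) (ho : Odd m) (hG : OddFree G m) {c : ZMod m → V}
    (hc : IsCl G m c) (s : ZMod m) : c (s + 3) ∈ B3 G (c s) (c (s + 1)) := by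
  unfold B3
  rw [mem_filter]
  refine ⟨mem_univ _, ?_, ?_⟩
  · have := jpb_two hc (s + 1)
    have e : s + 1 + 2 = s + 3 := by ring
    rwa [e] at this
  · intro hcon
    refine jpb_nwk ho hG hc (r := 1) (d := 3) (by omega) (by omega) ?_ (wk_one.2 hcon)
    push_cast
    ring

private lemma jpb_qt (hm : 13 ≤ m) (ho : Odd m) (hG : OddFree G m) {c : ZMod m → V}
    (hc : IsCl G m c) (t : ZMod m) : c t ∈ QT G c t := by
  rw [mem_QT]
  refine ⟨?_, ?_, ?_⟩
  · have := jpb_two hc (t - 2)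
    have e : t - 2 + 2 = t := by ring
    rwa [e] at this
  · refine jpb_nwk ho hG hc (d := 4) (by omega) (by omega) ?_
    push_cast
    ring
  · refine jpb_nwk ho hG hc (d := 6) (by omega) (by omega) ?_
    push_cast
    ring

/-- A sum over translates. -/
private lemma jpb_shift (g : ZMod m → ℝ) (a : ZMod m) : ∑ s, g (s + a) = ∑ t, g t :=
  Fintype.sum_equiv (Equiv.addRight a) _ _ fun _ => rfl

/-- The average over the rotations for a single closed walk. -/
theorem pair_avg {h : ℕ} (hm : 13 ≤ m) (hh : m = 2 * h + 5) (hG : OddFree G m) {c : ZMod m → V}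
    (hc : c ∈ clos G m) :
    m * (Real.exp (Dp G c) / (2 * m * ((Fintype.card V : ℝ) / m) ^ m)) ≤
    ∑ s, ((Fintype.card V : ℝ) * #(Nb G (c s)) * #(B3 G (c s) (c (s + 1))) *
      ((∏ i ∈ range (h + 2), (#(AA G c (s + 2 * i + 2)) : ℝ)) *
        ∏ i ∈ range h, (#(QT G c (s + 2 * i + 5)) : ℝ)))⁻¹ := by
  have ho : Odd m := ⟨h + 2, by omega⟩
  have hcl := mem_clos.1 hc
  have hV : Nonempty V := ⟨c 0⟩
  have hn : (0 : ℝ) < Fintype.card V := by exact_mod_cast Fintype.card_pos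
  have hm0 : (0 : ℝ) < m := by
    have : 0 < m := by omega
    exact_mod_cast this
  set n : ℝ := (Fintype.card V : ℝ) with hndef
  set u : ℝ := n / m with hu
  have hu0 : 0 < u := div_pos hn hm0
  set ρ : ℝ := (#(BB G c) : ℝ) / n with hρ
  have hρ0 : 0 ≤ ρ := by positivity
  have hA : ∀ t, (0 : ℝ) < #(AA G c t) := fun t => by
    exact_mod_cast card_pos.2 ⟨c t, AA_self hcl t⟩
  have hQ : ∀ t, (0 : ℝ) < #(QT G c t) := fun t => by
    exact_mod_cast card_pos.2 ⟨c t, jpb_qt hm ho hG hcl t⟩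
  have hB3 : ∀ s, (0 : ℝ) < #(B3 G (c s) (c (s + 1))) := fun s => by
    exact_mod_cast card_pos.2 ⟨_, jpb_b3 hm ho hG hcl s⟩
  have hNb : ∀ s, (0 : ℝ) < #(Nb G (c s)) := fun s => by
    exact_mod_cast card_pos.2 ⟨c (s + 1), mem_Nb.2 (hcl s).symm⟩
  set y : ZMod m → ℝ := fun s => (∏ i ∈ range (h + 2), (#(AA G c (s + 2 * i + 2)) : ℝ)) *
        ∏ i ∈ range h, (#(QT G c (s + 2 * i + 5)) : ℝ) with hy
  have hy0 : ∀ s, 0 < y s := fun s =>
    mul_pos (prod_pos fun _ _ => hA _) (prod_pos fun _ _ => hQ _)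
  have hcard : (#(univ : Finset (ZMod m)) : ℝ) = m := by
    rw [card_univ, ZMod.card]
  have key := jensen3 (univ : Finset (ZMod m)) univ_nonempty (fun s => (#(Nb G (c s)) : ℝ))
    (fun s => (#(B3 G (c s) (c (s + 1))) : ℝ)) (fun _ => n) y
    (fun s _ => hNb s) (fun s _ => hB3 s) (fun _ _ => hn) (fun s _ => hy0 s)
  rw [hcard] at key
  have hx3 : (∑ _s : ZMod m, n) / m = n := by
    rw [sum_const, nsmul_eq_mul, hcard]
    field_simp
  rw [hx3] at key
  have h1 : (∑ s, (#(Nb G (c s)) : ℝ)) / m ≤ (2 - ρ) * u := by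
    have h := nb_sum hm ho hG hcl
    have h' : ∑ t, (#(Nb G (c t)) : ℝ) + #(BB G c) ≤ 2 * n := by
      rw [hndef]
      exact_mod_cast h
    have e : (2 - ρ) * u = (2 * n - #(BB G c)) / m := by
      rw [hρ, hu]
      field_simp
    rw [e]
    exact div_le_div_of_nonneg_right (by linarith) hm0.le
  have h2 : (∑ s, (#(B3 G (c s) (c (s + 1))) : ℝ)) / m ≤ (1 + 2 * ρ) * u := by
    have h := b3_sum hm ho hG hcl
    have h' : ∑ t, (#(B3 G (c t) (c (t + 1))) : ℝ) ≤ n + 2 * #(BB G c) := by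
      rw [hndef]
      exact_mod_cast h
    have e : (1 + 2 * ρ) * u = (n + 2 * #(BB G c)) / m := by
      rw [hρ, hu]
      field_simp
    rw [e]
    exact div_le_div_of_nonneg_right (by linarith) hm0.le
  have h1p : 0 < (∑ s, (#(Nb G (c s)) : ℝ)) / m :=
    div_pos (sum_pos (fun s _ => hNb s) univ_nonempty) hm0
  have h2p : 0 < (∑ s, (#(B3 G (c s) (c (s + 1))) : ℝ)) / m :=
    div_pos (sum_pos (fun s _ => hB3 s) univ_nonempty) hm0
  -- the logarithms
  have hlog : ∑ s, Real.log (y s) = (h + 2) * ∑ t, Real.log (#(AA G c t) : ℝ) +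
      h * ∑ t, Real.log (#(QT G c t) : ℝ) := by
    have e : ∀ s, Real.log (y s) =
        ∑ i ∈ range (h + 2), Real.log (#(AA G c (s + (2 * i + 2))) : ℝ) +
        ∑ i ∈ range h, Real.log (#(QT G c (s + (2 * i + 5))) : ℝ) := by
      intro s
      rw [hy]
      beta_reduce
      rw [Real.log_mul (prod_pos fun _ _ => hA _).ne' (prod_pos fun _ _ => hQ _).ne',
        Real.log_prod fun i _ => (hA _).ne', Real.log_prod fun i _ => (hQ _).ne']
      simp only [add_assoc]
    rw [sum_congr rfl fun s _ => e s, sum_add_distrib, sum_comm, sum_comm (s := univ) (t := range h)]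
    have f1 : ∀ i : ℕ, ∑ s, Real.log (#(AA G c (s + (2 * (i : ZMod m) + 2))) : ℝ) =
        ∑ t, Real.log (#(AA G c t) : ℝ) := fun i =>
      jpb_shift (fun t => Real.log (#(AA G c t) : ℝ)) (2 * (i : ZMod m) + 2)
    have f2 : ∀ i : ℕ, ∑ s, Real.log (#(QT G c (s + (2 * (i : ZMod m) + 5))) : ℝ) =
        ∑ t, Real.log (#(QT G c t) : ℝ) := fun i =>
      jpb_shift (fun t => Real.log (#(QT G c t) : ℝ)) (2 * (i : ZMod m) + 5)
    rw [sum_congr rfl fun i _ => f1 i, sum_congr rfl fun i _ => f2 i]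
    rw [sum_const, sum_const, card_range, card_range, nsmul_eq_mul, nsmul_eq_mul]
    push_cast
    ring
  have hlA : ∑ t, Real.log (#(AA G c t) : ℝ) = m * Real.log u - m * ρ - Phi G c := by
    have e : ∀ t, Real.log ((#(AA G c t) : ℝ) * m / n) =
        Real.log (#(AA G c t) : ℝ) - Real.log u := by
      intro t
      have : (#(AA G c t) : ℝ) * m / n = #(AA G c t) / u := by
        rw [hu]
        field_simp
      rw [this, Real.log_div (hA t).ne' hu0.ne']
    have h3 : Phi G c = -(m * ρ) - ∑ t, Real.log ((#(AA G c t) : ℝ) * m / n) := by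
      unfold Phi
      rw [hρ, mul_div_assoc]
    rw [sum_congr rfl fun t _ => e t, sum_sub_distrib, sum_const, nsmul_eq_mul, hcard] at h3
    linarith
  have hlQ : ∑ t, Real.log (#(QT G c t) : ℝ) ≤ m * Real.log u := by
    have h3 := jen_log (univ : Finset (ZMod m)) univ_nonempty (fun t => (#(QT G c t) : ℝ))
      (fun t _ => hQ t)
    rw [hcard] at h3
    have h4 : (∑ t, (#(QT G c t) : ℝ)) / m ≤ u := by
      have h := qt_sum hm ho hG hcl
      have h' : ∑ t, (#(QT G c t) : ℝ) ≤ n := by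
        rw [hndef]
        exact_mod_cast h
      exact div_le_div_of_nonneg_right h' hm0.le
    have h5 := Real.log_le_log (div_pos (sum_pos (fun s _ => hQ s) univ_nonempty) hm0) h4
    have h6 := h3.trans h5
    rwa [div_le_iff₀ hm0, mul_comm] at h6
  have hPhi := Phi_nonneg hm ho hG hcl
  have hmh : (m : ℝ) = 2 * h + 5 := by exact_mod_cast hh
  have hE : (∑ s, Real.log (y s)) / m ≤
      (2 * h + 2 : ℕ) * Real.log u - (h + 2) * ρ - 2 / 5 * Phi G c := by
    rw [hlog, hlA, div_le_iff₀ hm0]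
    have h3 : (h : ℝ) * ∑ t, Real.log (#(QT G c t) : ℝ) ≤ h * (m * Real.log u) :=
      mul_le_mul_of_nonneg_left hlQ (Nat.cast_nonneg h)
    have h4 : 2 / 5 * Phi G c * m ≤ (h + 2) * Phi G c := by
      rw [hmh]
      nlinarith
    push_cast
    nlinarith
  have hexp : Real.exp ((∑ s, Real.log (y s)) / m) ≤
      u ^ (2 * h + 2) * Real.exp (-((h + 2) * ρ) - 2 / 5 * Phi G c) := by
    have e : u ^ (2 * h + 2) = Real.exp ((2 * h + 2 : ℕ) * Real.log u) := by
      rw [Real.exp_nat_mul, Real.exp_log hu0]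
    rw [e, ← Real.exp_add]
    refine Real.exp_le_exp.2 (hE.trans (le_of_eq ?_))
    ring
  have hfin : ((∑ s, (#(Nb G (c s)) : ℝ)) / m) * ((∑ s, (#(B3 G (c s) (c (s + 1))) : ℝ)) / m) * n *
      Real.exp ((∑ s, Real.log (y s)) / m) ≤
      2 * m * u ^ m * Real.exp (-Dp G c) := by
    have a1 : (2 - ρ) * (1 + 2 * ρ) ≤ 2 * Real.exp (3 / 2 * ρ) := by
      have b1 := Real.add_one_le_exp (-(ρ / 2))
      have b2 := Real.add_one_le_exp (2 * ρ)
      have b3 : Real.exp (3 / 2 * ρ) = Real.exp (-(ρ / 2)) * Real.exp (2 * ρ) := by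
        rw [← Real.exp_add]
        congr 1
        ring
      have b4 : (1 - ρ / 2) * (1 + 2 * ρ) ≤ Real.exp (-(ρ / 2)) * Real.exp (2 * ρ) := by
        have c1 : (1 - ρ / 2) * (1 + 2 * ρ) ≤ Real.exp (-(ρ / 2)) * (1 + 2 * ρ) :=
          mul_le_mul_of_nonneg_right (by linarith) (by linarith)
        refine c1.trans (mul_le_mul_of_nonneg_left (by linarith) (Real.exp_pos _).le)
      rw [b3]
      linarith
    have hnu : n = m * u := by
      rw [hu]
      field_simp
    have h1' : 0 ≤ (2 - ρ) * u := h1p.le.trans h1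
    calc _ ≤ ((2 - ρ) * u) * ((1 + 2 * ρ) * u) * n *
          (u ^ (2 * h + 2) * Real.exp (-((h + 2) * ρ) - 2 / 5 * Phi G c)) := by
          refine mul_le_mul ?_ hexp (Real.exp_pos _).le ?_
          · refine mul_le_mul_of_nonneg_right (mul_le_mul h1 h2 h2p.le h1') hn.le
          · exact mul_nonneg (mul_nonneg h1' (mul_nonneg (by linarith) hu0.le)) hn.le
      _ = ((2 - ρ) * (1 + 2 * ρ)) * (m * u ^ m *
          Real.exp (-((h + 2) * ρ) - 2 / 5 * Phi G c)) := by
          have hum : u ^ m = u ^ (2 * h + 2) * (u * u * u) := by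
            have e : m = 2 * h + 2 + 3 := by omega
            calc u ^ m = u ^ (2 * h + 2 + 3) := by rw [← e]
              _ = _ := by ring
          rw [hum]
          calc _ = ((2 - ρ) * u) * ((1 + 2 * ρ) * u) * (m * u) *
              (u ^ (2 * h + 2) * Real.exp (-((h + 2) * ρ) - 2 / 5 * Phi G c)) := by rw [← hnu]
            _ = _ := by ring
      _ ≤ (2 * Real.exp (3 / 2 * ρ)) * (m * u ^ m *
          Real.exp (-((h + 2) * ρ) - 2 / 5 * Phi G c)) :=
          mul_le_mul_of_nonneg_right a1 (by positivity)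
      _ = 2 * m * u ^ m * (Real.exp (3 / 2 * ρ) *
          Real.exp (-((h + 2) * ρ) - 2 / 5 * Phi G c)) := by ring
      _ = _ := by
          rw [← Real.exp_add]
          congr 2
          unfold Dp
          rw [← hndef, ← hρ, hmh]
          ring
  have hpos : 0 < ((∑ s, (#(Nb G (c s)) : ℝ)) / m) *
      ((∑ s, (#(B3 G (c s) (c (s + 1))) : ℝ)) / m) * n *
      Real.exp ((∑ s, Real.log (y s)) / m) :=
    mul_pos (mul_pos (mul_pos h1p h2p) hn) (Real.exp_pos _)
  have hinv := inv_anti₀ hpos hfin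
  have e1 : Real.exp (Dp G c) / (2 * m * u ^ m) = (2 * m * u ^ m * Real.exp (-Dp G c))⁻¹ := by
    rw [Real.exp_neg]
    field_simp
  rw [e1]
  refine le_trans (mul_le_mul_of_nonneg_left hinv hm0.le) (le_trans key (le_of_eq ?_))
  refine sum_congr rfl fun s _ => ?_
  congr 1
  rw [hy]
  ring

end Pool.Agent.CycFD
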