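import Pool.Agent.W_1bfdb5fd_h19.Cut

/-!
# The recursion for the numbers of closed walks

* `chord_exists`: a closed walk of length `m + 2 i` with a chord has a chord
  `W p ~ W (p + 2 b + 1)`, `1 ≤ b ≤ i` (the two closed walks cut off by a chord have total length
  `m + 2 i + 2`, so one of them is odd, and its length `m + 2 i - 2 b` is at least `m`).
* `count_rec`, `no3_count`: sum over the chords, `chord_sum` with `g = 1`, `a = 2 b`.
  (`clos G (m + 2 * (s + b))` against `clos G ((m + 2 * s) + 2 * b)`: generalise the length and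
  substitute.)
-/

namespace Pool.Agent.CycFD

open Finset Pool.Agent.CycGT
open scoped Classical

variable {V : Type} [Fintype V] {G : SimpleGraph V} {m : ℕ} [NeZero m]

theorem chord_exists (hm : 3 ≤ m) (ho : Odd m) (hG : OddFree G m) {i r : ℕ} [NeZero r]
    (hr : r = m + 2 * i) {W : ZMod r → V} (hW : W ∈ clos G r) (h : W ∉ AI G r) :
    ∃ b, 1 ≤ b ∧ b ≤ i ∧ ∃ p, G.Adj (W p) (W (p + ((2 * b + 1 : ℕ) : ZMod r))) := by
  have hc : IsCl G r W := mem_clos.1 hW
  rw [mem_AI] at h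
  have h2 : ¬ ∀ p q, G.Adj (W p) (W q) → q = p + 1 ∨ q = p - 1 := fun h' => h ⟨hc, h'⟩
  push Not at h2
  obtain ⟨p, q, hpq, h1, h3⟩ := h2
  obtain ⟨e, he, hpar, hq⟩ := arc hr ho hG hc (wk_one.2 hpq)
  have he1 : e ≠ 1 := by
    rintro rfl
    rcases hq with hq | hq
    · exact h1 (by rw [hq, Nat.cast_one])
    · exact h3 (by rw [hq, Nat.cast_one])
  obtain ⟨b, rfl⟩ : ∃ b, e = 2 * b + 1 := ⟨e / 2, by omega⟩
  refine ⟨b, by omega, by omega, ?_⟩
  rcases hq with hq | hq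
  · exact ⟨p, by rw [← hq]; exact hpq⟩
  · refine ⟨q, ?_⟩
    have e1 : q + ((2 * b + 1 : ℕ) : ZMod r) = p := by rw [hq]; ring
    rw [e1]
    exact hpq.symm

private theorem Rec_chord_count {r R a : ℕ} [NeZero r] [NeZero R] (hR : R = r + a) (hr : 2 ≤ r)
    {D : ℝ} (hD : DegLe G D) :
    ∑ W ∈ clos G R, ∑ p, (if G.Adj (W p) (W (p + ((a + 1 : ℕ) : ZMod R))) then (1 : ℝ) else 0) ≤
      (R : ℝ) * (D ^ a * #(clos G r)) := by
  subst hR
  have h := chord_sum (G := G) (a := a) (r := r) hr hD (fun _ => (1 : ℝ)) (fun _ => zero_le_one)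
  refine h.trans (le_of_eq ?_)
  rw [sum_const, nsmul_eq_mul, mul_one]

private theorem Rec_gen (hm : 3 ≤ m) (i b₀ : ℕ) (hb₀ : 1 ≤ b₀) {D : ℝ} (hD : DegLe G D)
    (S : Finset (ZMod (m + 2 * i) → V)) (hS : S ⊆ clos G (m + 2 * i))
    (hch : ∀ W ∈ S, W ∉ AI G (m + 2 * i) → ∃ b, b₀ ≤ b ∧ b ≤ i ∧
      ∃ p, G.Adj (W p) (W (p + ((2 * b + 1 : ℕ) : ZMod (m + 2 * i))))) :
    (#S : ℝ) ≤ #(AI G (m + 2 * i)) +
      ((m : ℝ) + 2 * i) * ∑ s ∈ range (i + 1 - b₀), D ^ (2 * (i - s)) * #(clos G (m + 2 * s)) := by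
  have h1 : (#S : ℝ) ≤ #(AI G (m + 2 * i)) + #(S \ AI G (m + 2 * i)) := by
    have h2 : S ⊆ AI G (m + 2 * i) ∪ (S \ AI G (m + 2 * i)) := by
      intro W hW
      by_cases hA : W ∈ AI G (m + 2 * i)
      · exact mem_union_left _ hA
      · exact mem_union_right _ (mem_sdiff.2 ⟨hW, hA⟩)
    exact_mod_cast (card_le_card h2).trans (card_union_le _ _)
  refine h1.trans (add_le_add le_rfl ?_)
  have h3 : (#(S \ AI G (m + 2 * i)) : ℝ) ≤ ∑ s ∈ range (i + 1 - b₀), ∑ W ∈ clos G (m + 2 * i),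
      ∑ p, (if G.Adj (W p) (W (p + ((2 * (i - s) + 1 : ℕ) : ZMod (m + 2 * i)))) then (1 : ℝ)
        else 0) := by
    rw [sum_comm]
    have h4 : (#(S \ AI G (m + 2 * i)) : ℝ) = ∑ W ∈ S \ AI G (m + 2 * i), (1 : ℝ) := by
      rw [sum_const, nsmul_eq_mul, mul_one]
    rw [h4]
    have hnn : ∀ W : ZMod (m + 2 * i) → V, ∀ s : ℕ, (0 : ℝ) ≤
        ∑ p, (if G.Adj (W p) (W (p + ((2 * (i - s) + 1 : ℕ) : ZMod (m + 2 * i)))) then (1 : ℝ)
          else 0) := by
      intro W s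
      refine sum_nonneg fun p _ => ?_
      split_ifs
      · exact zero_le_one
      · exact le_rfl
    have h5 : ∑ W ∈ S \ AI G (m + 2 * i), (1 : ℝ) ≤ ∑ W ∈ S \ AI G (m + 2 * i),
        ∑ s ∈ range (i + 1 - b₀),
      ∑ p, (if G.Adj (W p) (W (p + ((2 * (i - s) + 1 : ℕ) : ZMod (m + 2 * i)))) then (1 : ℝ)
        else 0) := by
      refine sum_le_sum fun W hW => ?_
      rw [mem_sdiff] at hW
      obtain ⟨b, hb1, hb2, p, hp⟩ := hch W hW.1 hW.2
      have hs : i - b ∈ range (i + 1 - b₀) := by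
        rw [mem_range]
        omega
      refine le_trans ?_ (single_le_sum (f := fun s =>
        ∑ p, (if G.Adj (W p) (W (p + ((2 * (i - s) + 1 : ℕ) : ZMod (m + 2 * i)))) then (1 : ℝ)
          else 0)) (fun s _ => hnn W s) hs)
      have hib : i - (i - b) = b := by omega
      have h6 : (1 : ℝ) = (if G.Adj (W p) (W (p + ((2 * (i - (i - b)) + 1 : ℕ) :
          ZMod (m + 2 * i)))) then (1 : ℝ) else 0) := by
        rw [hib, if_pos hp]
      refine (le_of_eq h6).trans ?_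
      refine single_le_sum (f := fun p => (if G.Adj (W p) (W (p + ((2 * (i - (i - b)) + 1 : ℕ) :
          ZMod (m + 2 * i)))) then (1 : ℝ) else 0)) (fun p _ => ?_) (mem_univ p)
      split_ifs
      · exact zero_le_one
      · exact le_rfl
    exact h5.trans (sum_le_sum_of_subset_of_nonneg (sdiff_subset.trans hS)
      (fun W _ _ => sum_nonneg fun s _ => hnn W s))
  refine h3.trans ?_
  rw [mul_sum]
  refine sum_le_sum fun s hs => ?_
  rw [mem_range] at hs
  have h7 := Rec_chord_count (G := G) (r := m + 2 * s) (R := m + 2 * i) (a := 2 * (i - s))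
    (by omega) (by omega) hD
  refine h7.trans (le_of_eq ?_)
  push_cast
  ring

theorem count_rec (hm : 3 ≤ m) (ho : Odd m) (hG : OddFree G m) (i : ℕ) {D : ℝ}
    (hD : DegLe G D) :
    (#(clos G (m + 2 * i)) : ℝ) ≤ #(AI G (m + 2 * i)) +
      ((m : ℝ) + 2 * i) * ∑ s ∈ range i, D ^ (2 * (i - s)) * #(clos G (m + 2 * s)) := by
  have h := Rec_gen (G := G) hm i 1 le_rfl hD (clos G (m + 2 * i)) (Subset.refl _)
    (fun W hW hA => chord_exists hm ho hG rfl hW hA)
  exact h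

theorem no3_count (hm : 3 ≤ m) (ho : Odd m) (hG : OddFree G m) (i : ℕ) {D : ℝ}
    (hD : DegLe G D) :
    (#((clos G (m + 2 * i)).filter (fun W => ∀ p, ¬ G.Adj (W p) (W (p + 3)))) : ℝ) ≤
      #(AI G (m + 2 * i)) +
      ((m : ℝ) + 2 * i) * ∑ s ∈ range (i - 1), D ^ (2 * (i - s)) * #(clos G (m + 2 * s)) := by
  have h := Rec_gen (G := G) hm i 2 (by norm_num) hD
    ((clos G (m + 2 * i)).filter (fun W => ∀ p, ¬ G.Adj (W p) (W (p + 3))))
    (filter_subset _ _) (by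
      intro W hW hA
      rw [mem_filter] at hW
      obtain ⟨b, hb1, hb2, p, hp⟩ := chord_exists hm ho hG rfl hW.1 hA
      refine ⟨b, ?_, hb2, p, hp⟩
      by_contra hlt
      have hb : b = 1 := by omega
      subst hb
      apply hW.2 p
      have e : ((2 * 1 + 1 : ℕ) : ZMod (m + 2 * i)) = 3 := by norm_num
      rw [e] at hp
      exact hp)
  have e : i + 1 - 2 = i - 1 := by omega
  rw [e] at h
  exact h

end Pool.Agent.CycFD
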