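import Pool.Agent.W_1bfdb5fd_h19.Fr
import Pool.Agent.W_1bfdb5fd_h19.Rec

/-!
# Few closed walks are not far

* `nf_rec`: a walk `W` of length `m + 2 (i + 1)` that is not far has no chord of length 3, or a chord
  at `p` with `W' = cut 2 (rot W p)` not far, or `W'` far and near (`far_ins`, `far_rot`).  Use
  `chord_sum` with `a = 2` and `g` an indicator function.
* `near_count`: nine positions `d`, rotate `d` to 0; `cut_sum` with `a = 2`, `g = 1`.
  For `i = 0` there are no chords of length 3 (`OddFree`).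
* `nf_bound`: induction on `i`.
-/

namespace Pool.Agent.CycFD

open Finset Pool.Agent.CycGT
open scoped Classical

variable {V : Type} [Fintype V] {G : SimpleGraph V} {m : ℕ} [NeZero m]

private theorem nf_aux {i r : ℕ} [NeZero r] [NeZero (r + 2)] (hr : 13 ≤ r) {D : ℝ}
    (hD : DegLe G D) :
    (#((clos G (r + 2)).filter (fun W => ¬ Far G (i + 1) W)) : ℝ) ≤
      #((clos G (r + 2)).filter (fun W => ∀ p, ¬ G.Adj (W p) (W (p + 3)))) +
      ((r + 2 : ℕ) : ℝ) * (D ^ 2 * ((#((clos G r).filter (fun W => ¬ Far G i W)) : ℝ) +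
        #((clos G r).filter (fun W => Near G W)))) := by
  set g : (ZMod r → V) → ℝ := fun W => (if ¬ Far G i W then 1 else 0) + (if Near G W then 1 else 0)
    with hg
  have hg0 : ∀ W, 0 ≤ g W := by
    intro W
    simp only [hg]
    positivity
  have hsum : ∑ W ∈ clos G r, g W = (#((clos G r).filter (fun W => ¬ Far G i W)) : ℝ) +
      #((clos G r).filter (fun W => Near G W)) := by
    simp only [hg, Finset.sum_add_distrib, Finset.card_filter, Nat.cast_sum, Nat.cast_ite,
      Nat.cast_one, Nat.cast_zero]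
  rw [← hsum]
  refine le_trans ?_ (add_le_add_right (chord_sum (G := G) (a := 2) (r := r) (by omega) hD g hg0) _)
  rw [Finset.card_filter, Finset.card_filter, Nat.cast_sum, Nat.cast_sum, ← Finset.sum_add_distrib]
  apply Finset.sum_le_sum
  intro W hW
  have hnn : ∀ p : ZMod (r + 2), (0 : ℝ) ≤
      (if G.Adj (W p) (W (p + ((2 + 1 : ℕ) : ZMod (r + 2)))) then
        g (cut 2 (rot W p)) else 0) := by
    intro p
    split_ifs
    · exact hg0 _
    · exact le_rfl
  have hsn : (0 : ℝ) ≤ ∑ p : ZMod (r + 2),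
      (if G.Adj (W p) (W (p + ((2 + 1 : ℕ) : ZMod (r + 2)))) then
        g (cut 2 (rot W p)) else 0) := Finset.sum_nonneg fun p _ => hnn p
  by_cases hF : Far G (i + 1) W
  · rw [if_neg (not_not.2 hF)]
    have h2 : (0 : ℝ) ≤ ((if ∀ p, ¬ G.Adj (W p) (W (p + 3)) then 1 else 0 : ℕ) : ℝ) :=
      Nat.cast_nonneg _
    simpa using add_nonneg h2 hsn
  · rw [if_pos hF]
    by_cases hc : ∀ p, ¬ G.Adj (W p) (W (p + 3))
    · rw [if_pos hc]
      simpa using hsn
    · rw [if_neg hc]
      push_neg at hc
      obtain ⟨p, hp⟩ := hc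
      have e3 : ((2 + 1 : ℕ) : ZMod (r + 2)) = 3 := by norm_num
      have h1 : (1 : ℝ) ≤ g (cut 2 (rot W p)) := by
        simp only [hg]
        by_cases hf : Far G i (cut 2 (rot W p))
        · have hN : Near G (cut 2 (rot W p)) := by
            by_contra hN
            refine hF (far_rot p (far_ins hr ?_ hf hN))
            simpa [rot] using hp
          rw [if_pos hN, if_neg (not_not.2 hf)]
          norm_num
        · rw [if_pos hf]
          have : (0 : ℝ) ≤ (if Near G (cut 2 (rot W p)) then 1 else 0) := by positivity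
          linarith
      have h2 := Finset.single_le_sum (f := fun p : ZMod (r + 2) =>
        (if G.Adj (W p) (W (p + ((2 + 1 : ℕ) : ZMod (r + 2)))) then
          g (cut 2 (rot W p)) else 0)) (fun p _ => hnn p) (Finset.mem_univ p)
      simp only [e3] at h2 ⊢
      rw [if_pos hp] at h2
      push_cast
      linarith

theorem nf_rec (hm : 13 ≤ m) (ho : Odd m) (hG : OddFree G m) (i : ℕ) {D : ℝ} (hD : DegLe G D) :
    (#((clos G (m + 2 * (i + 1))).filter (fun W => ¬ Far G (i + 1) W)) : ℝ) ≤
      #((clos G (m + 2 * (i + 1))).filter (fun W => ∀ p, ¬ G.Adj (W p) (W (p + 3)))) +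
      ((m : ℝ) + 2 * i + 2) * (D ^ 2 * #((clos G (m + 2 * i)).filter (fun W => ¬ Far G i W)) +
        D ^ 2 * #((clos G (m + 2 * i)).filter (fun W => Near G W))) := by
  have h := nf_aux (G := G) (i := i) (r := m + 2 * i) (by omega) hD
  refine le_trans h (le_of_eq ?_)
  have e : ((m + 2 * i + 2 : ℕ) : ℝ) = (m : ℝ) + 2 * i + 2 := by push_cast; ring
  rw [e, mul_add (D ^ 2)]
  rfl

end Pool.Agent.CycFD
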