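import Pool.Agent.W_1bfdb5fd_h19.Df

/-!
# Numerical lemma: sizes from the deficit

`∑ f ≤ card - U`.  `log f ≤ f - 1` gives `X := - ∑ log f ≥ card - ∑ f ≥ U`, and for a single `t`
`X ≥ f t - 1 - log (f t) ≥ f t / 2 - log 2`.
-/

namespace Pool.Agent.CycFD

open Finset

theorem num_X {ι : Type} [Fintype ι] (f : ι → ℝ) (U : ℝ) (hf : ∀ t, 0 < f t) (hU : 0 ≤ U)
    (hs : ∑ t, f t + U ≤ Fintype.card ι) :
    U ≤ -∑ t, Real.log (f t) ∧ ∀ t, f t ≤ 2 * (-∑ t, Real.log (f t)) + 2 := by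
  have hnn : ∀ t, 0 ≤ f t - 1 - Real.log (f t) := fun t => by
    have := Real.log_le_sub_one_of_pos (hf t)
    linarith
  have hid : ∑ t, (f t - 1 - Real.log (f t)) =
      ∑ t, f t - Fintype.card ι - ∑ t, Real.log (f t) := by
    rw [sum_sub_distrib, sum_sub_distrib]
    simp
  refine ⟨?_, fun t => ?_⟩
  · have h0 : 0 ≤ ∑ t, (f t - 1 - Real.log (f t)) := sum_nonneg fun t _ => hnn t
    linarith
  · have h1 : f t - 1 - Real.log (f t) ≤ ∑ t, (f t - 1 - Real.log (f t)) :=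
      single_le_sum (f := fun t => f t - 1 - Real.log (f t)) (fun t _ => hnn t) (mem_univ t)
    have h2 := Real.log_le_sub_one_of_pos (show (0 : ℝ) < f t / 2 from half_pos (hf t))
    rw [Real.log_div (hf t).ne' two_ne_zero] at h2
    have h3 : Real.log 2 ≤ 1 := by
      have := Real.log_le_sub_one_of_pos (show (0 : ℝ) < 2 by norm_num)
      linarith
    linarith

end Pool.Agent.CycFD
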