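import Pool.Agent.W_1bfdb5fd_h19.PsA
import Pool.Agent.W_1bfdb5fd_h19.Cut

/-!
# Counting reductions to closed walks of length m

* `ee_cut`: for `4 ≤ s.val` the vertices `W (s - 1), W s, W (s + 1)` are
  `cut 2 W (s - 3), cut 2 W (s - 2), cut 2 W (s - 1)`; the positions `0, 1, 2, 3` contribute at
  most `D ^ 2` each.
* `psi_mul`: induction on `i` with `ee_cut`.
* `psi_sum`: `FC G W p` iff `FC G (rot W p) 0`; `rot_sum`, `cut_fc_sum`, `rot_avg`.
* `psi_lower`: `first_ex`, `far_cut`; the positions `p - d` are pairwise different.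
-/

namespace Pool.Agent.CycFD

open Finset Pool.Agent.CycGT
open scoped Classical

variable {V : Type} [Fintype V] {G : SimpleGraph V}

omit [Fintype V] in
lemma psb_rot_rot {r : ℕ} (W : ZMod r → V) (p q : ZMod r) : rot (rot W p) q = rot W (p + q) := by
  funext i
  unfold rot
  rw [add_assoc]

omit [Fintype V] in
lemma psb_FC_rot {r : ℕ} (W : ZMod r → V) (p q : ZMod r) :
    FC G (rot W p) q ↔ FC G W (p + q) := by
  unfold FC rot
  have e1 : p + (q + 3) = p + q + 3 := by ring
  have e2 : p + (q - 1) = p + q - 1 := by ring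
  have e3 : p + (q + 2) = p + q + 2 := by ring
  rw [e1, e2, e3]

lemma psb_ee_rot {r : ℕ} (W : ZMod r → V) (p : ZMod r) : ee G (rot W p) 0 = ee G W p := by
  unfold ee rot
  have e1 : p + (0 : ZMod r) = p := by ring
  have e2 : p + ((0 : ZMod r) + 1) = p + 1 := by ring
  have e3 : p + ((0 : ZMod r) - 1) = p - 1 := by ring
  rw [e1, e2, e3]

variable {m : ℕ} [NeZero m]

lemma psi_succ_def (F : (ZMod m → V) → ℝ) (i : ℕ) (W : ZMod (m + 2 * i + 2) → V) :
    Psi G m F (i + 1) W = ∑ p : ZMod (m + 2 * i + 2), if FC G W p then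
      Psi G m F i (cut 2 (rot W p)) else 0 := rfl

theorem psi_nonneg (F : (ZMod m → V) → ℝ) (hF : ∀ c, 0 ≤ F c) (i : ℕ)
    (W : ZMod (m + 2 * i) → V) : 0 ≤ Psi G m F i W := by
  induction i with
  | zero => exact hF W
  | succ i ih =>
    show 0 ≤ ∑ p : ZMod (m + 2 * i + 2), if FC G W p then
      Psi G m F i (cut 2 (rot (M := m + 2 * i + 2) W p)) else 0
    refine sum_nonneg fun p _ => ?_
    split_ifs
    · exact ih _
    · exact le_rfl

theorem psi_rot (F : (ZMod m → V) → ℝ) (hF : ∀ c p, F (rot c p) = F c) (i : ℕ)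
    (W : ZMod (m + 2 * i) → V) (p : ZMod (m + 2 * i)) : Psi G m F i (rot W p) = Psi G m F i W := by
  cases i with
  | zero => exact hF W p
  | succ i =>
    have key : ∀ (W : ZMod (m + 2 * i + 2) → V) (p : ZMod (m + 2 * i + 2)),
        Psi G m F (i + 1) (rot W p) = Psi G m F (i + 1) W := by
      intro W p
      rw [psi_succ_def, psi_succ_def]
      have h1 := Equiv.sum_comp (Equiv.addLeft p) (fun q : ZMod (m + 2 * i + 2) =>
        if FC G W q then Psi G m F i (cut 2 (rot W q)) else 0)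
      rw [← h1]
      refine sum_congr rfl fun q _ => ?_
      rw [Equiv.coe_addLeft, psb_rot_rot]
      simp only [psb_FC_rot]
    exact key W p

lemma psi_add (F F' : (ZMod m → V) → ℝ) (i : ℕ) (W : ZMod (m + 2 * i) → V) :
    Psi G m (fun c => F c + F' c) i W = Psi G m F i W + Psi G m F' i W := by
  induction i with
  | zero => rfl
  | succ i ih =>
    show (∑ p : ZMod (m + 2 * i + 2), if FC G W p then
      Psi G m (fun c => F c + F' c) i (cut 2 (rot (M := m + 2 * i + 2) W p)) else 0) =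
      (∑ p : ZMod (m + 2 * i + 2), if FC G W p then
      Psi G m F i (cut 2 (rot (M := m + 2 * i + 2) W p)) else 0) +
      ∑ p : ZMod (m + 2 * i + 2), if FC G W p then
      Psi G m F' i (cut 2 (rot (M := m + 2 * i + 2) W p)) else 0
    rw [← sum_add_distrib]
    refine sum_congr rfl fun p _ => ?_
    split_ifs
    · exact ih _
    · rw [add_zero]

lemma psi_smul (F : (ZMod m → V) → ℝ) (x : ℝ) (i : ℕ) (W : ZMod (m + 2 * i) → V) :
    Psi G m (fun c => F c * x) i W = Psi G m F i W * x := by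
  induction i with
  | zero => rfl
  | succ i ih =>
    show (∑ p : ZMod (m + 2 * i + 2), if FC G W p then
      Psi G m (fun c => F c * x) i (cut 2 (rot (M := m + 2 * i + 2) W p)) else 0) =
      (∑ p : ZMod (m + 2 * i + 2), if FC G W p then
      Psi G m F i (cut 2 (rot (M := m + 2 * i + 2) W p)) else 0) * x
    rw [sum_mul]
    refine sum_congr rfl fun p _ => ?_
    split_ifs
    · exact ih _
    · rw [zero_mul]

theorem psi_mul (hm : 5 ≤ m) {D : ℝ} (hD : DegLe G D) (F : (ZMod m → V) → ℝ)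
    (hF : ∀ c, 0 ≤ F c) (i : ℕ) (W : ZMod (m + 2 * i) → V) :
    EE G W * Psi G m F i W ≤ Psi G m (fun c => F c * (EE G c + 4 * i * D ^ 2)) i W := by
  induction i with
  | zero =>
    show EE G W * F W ≤ F W * (EE G W + 4 * ((0 : ℕ) : ℝ) * D ^ 2)
    refine le_of_eq ?_
    push_cast
    ring
  | succ i ih =>
    have key : ∀ (W : ZMod (m + 2 * i + 2) → V), EE G W * Psi G m F (i + 1) W ≤
        Psi G m (fun c => F c * (EE G c + 4 * ((i + 1 : ℕ) : ℝ) * D ^ 2)) (i + 1) W := by
      intro W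
      rw [psi_succ_def, psi_succ_def, mul_sum]
      refine sum_le_sum fun p _ => ?_
      split_ifs
      swap
      · rw [mul_zero]
      have h1 : EE G W ≤ EE G (cut 2 (rot W p)) + 4 * D ^ 2 := by
        have := ee_cut (r := m + 2 * i) (by omega) hD (rot W p)
        rwa [ee_rot] at this
      have h2 := psi_nonneg (G := G) F hF i (cut 2 (rot W p))
      have h3 : Psi G m (fun c => F c * (EE G c + 4 * ((i + 1 : ℕ) : ℝ) * D ^ 2)) i
          (cut 2 (rot W p)) =
          Psi G m (fun c => F c * (EE G c + 4 * i * D ^ 2)) i (cut 2 (rot W p)) +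
          Psi G m F i (cut 2 (rot W p)) * (4 * D ^ 2) := by
        rw [← psi_smul, ← psi_add]
        congr 1
        funext c
        push_cast
        ring
      rw [h3]
      calc _ ≤ (EE G (cut 2 (rot W p)) + 4 * D ^ 2) * Psi G m F i (cut 2 (rot W p)) :=
            mul_le_mul_of_nonneg_right h1 h2
        _ = EE G (cut 2 (rot W p)) * Psi G m F i (cut 2 (rot W p)) +
            Psi G m F i (cut 2 (rot W p)) * (4 * D ^ 2) := by ring
        _ ≤ _ := by
            have := ih (cut 2 (rot W p))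
            linarith
    exact key W

theorem psi_succ (hm : 5 ≤ m) (F : (ZMod m → V) → ℝ) (hF : ∀ c, 0 ≤ F c)
    (hR : ∀ c p, F (rot c p) = F c) (i : ℕ) :
    ∑ W ∈ clos G (m + 2 * (i + 1)), Psi G m F (i + 1) W ≤
      (((m : ℝ) + 2 * i + 2) / (m + 2 * i)) *
        ∑ W ∈ clos G (m + 2 * i), EE G W * Psi G m F i W := by
  have hr0 : (0 : ℝ) < (m : ℝ) + 2 * i := by
    have : (0 : ℝ) < m := by exact_mod_cast (by omega : 0 < m)
    positivity
  show ∑ W ∈ clos G (m + 2 * i + 2), Psi G m F (i + 1) W ≤ _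
  have h1 : ∑ W ∈ clos G (m + 2 * i + 2), Psi G m F (i + 1) W =
      ∑ p : ZMod (m + 2 * i + 2), ∑ W ∈ clos G (m + 2 * i + 2),
        (fun W : ZMod (m + 2 * i + 2) → V => if FC G W 0 then Psi G m F i (cut 2 W) else 0)
          (rot W p) := by
    rw [sum_comm]
    refine sum_congr rfl fun W _ => ?_
    rw [psi_succ_def]
    refine sum_congr rfl fun p _ => ?_
    beta_reduce
    simp only [psb_FC_rot, add_zero]
  have h2 : ∑ p : ZMod (m + 2 * i + 2), ∑ W ∈ clos G (m + 2 * i + 2),
        (fun W : ZMod (m + 2 * i + 2) → V => if FC G W 0 then Psi G m F i (cut 2 W) else 0)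
          (rot W p) =
      ((m : ℝ) + 2 * i + 2) * ∑ W ∈ (clos G (m + 2 * i + 2)).filter (fun W => FC G W 0),
        Psi G m F i (cut 2 W) := by
    rw [sum_congr rfl fun p _ => rot_sum (G := G) (fun W : ZMod (m + 2 * i + 2) → V =>
      if FC G W 0 then Psi G m F i (cut 2 W) else 0) p, sum_const, Finset.card_univ, ZMod.card,
      nsmul_eq_mul, sum_filter]
    push_cast
    ring
  rw [h1, h2]
  have h3 := cut_fc_sum (G := G) (r := m + 2 * i) (by omega) (Psi G m F i)
    (psi_nonneg (G := G) F hF i)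
  have h4 := rot_avg (G := G) (r := m + 2 * i) (fun W => Psi G m F i W * ee G W 0)
  have h5 : ∑ W ∈ clos G (m + 2 * i), ∑ p, (fun W => Psi G m F i W * (ee G W 0 : ℝ)) (rot W p) =
      ∑ W ∈ clos G (m + 2 * i), EE G W * Psi G m F i W := by
    refine sum_congr rfl fun W _ => ?_
    unfold EE
    rw [sum_mul]
    refine sum_congr rfl fun p _ => ?_
    beta_reduce
    rw [psi_rot F hR, psb_ee_rot, mul_comm]
  rw [h5] at h4
  have h6 : ∑ W ∈ clos G (m + 2 * i), Psi G m F i W * (ee G W 0 : ℝ) =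
      (∑ W ∈ clos G (m + 2 * i), EE G W * Psi G m F i W) / ((m : ℝ) + 2 * i) := by
    rw [eq_div_iff hr0.ne', ← h4]
    push_cast
    ring
  calc _ ≤ ((m : ℝ) + 2 * i + 2) * ∑ W ∈ clos G (m + 2 * i), Psi G m F i W * (ee G W 0 : ℝ) :=
        mul_le_mul_of_nonneg_left h3 (by positivity)
    _ = _ := by
        rw [h6]
        ring

theorem psi_total (hm : 5 ≤ m) {D : ℝ} (hD : DegLe G D) (i : ℕ) :
    ∀ (F : (ZMod m → V) → ℝ), (∀ c, 0 ≤ F c) → (∀ c p, F (rot c p) = F c) →
    ∑ W ∈ clos G (m + 2 * i), Psi G m F i W ≤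
      (((m : ℝ) + 2 * i) / m) * ∑ c ∈ clos G m, F c * (EE G c + 4 * i * D ^ 2) ^ i := by
  have hm0 : (0 : ℝ) < m := by exact_mod_cast (by omega : 0 < m)
  have hE0 : ∀ c : ZMod m → V, 0 ≤ EE G c := fun c => sum_nonneg fun _ _ => Nat.cast_nonneg _
  induction i with
  | zero =>
    intro F _ _
    refine le_of_eq ?_
    show ∑ W ∈ clos G m, F W = _
    rw [Nat.cast_zero, mul_zero, add_zero, div_self hm0.ne', one_mul]
    refine sum_congr rfl fun c _ => ?_
    rw [pow_zero, mul_one]
  | succ i ih =>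
    intro F hF hR
    have h1 := psi_succ (G := G) hm F hF hR i
    have h2 : ∑ W ∈ clos G (m + 2 * i), EE G W * Psi G m F i W ≤
        ∑ W ∈ clos G (m + 2 * i), Psi G m (fun c => F c * (EE G c + 4 * i * D ^ 2)) i W :=
      sum_le_sum fun W _ => psi_mul hm hD F hF i W
    have h3 := ih (fun c => F c * (EE G c + 4 * i * D ^ 2))
      (fun c => mul_nonneg (hF c) (add_nonneg (hE0 c) (by positivity)))
      (fun c p => by rw [hR, ee_rot])
    have hr0 : (0 : ℝ) < (m : ℝ) + 2 * i := by positivity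
    have h4 : ∑ c ∈ clos G m, (F c * (EE G c + 4 * i * D ^ 2)) * (EE G c + 4 * i * D ^ 2) ^ i ≤
        ∑ c ∈ clos G m, F c * (EE G c + 4 * ((i + 1 : ℕ) : ℝ) * D ^ 2) ^ (i + 1) := by
      refine sum_le_sum fun c _ => ?_
      rw [mul_assoc, ← pow_succ']
      refine mul_le_mul_of_nonneg_left ?_ (hF c)
      refine pow_le_pow_left₀ (add_nonneg (hE0 c) (by positivity)) ?_ _
      have : (0 : ℝ) ≤ D ^ 2 := by positivity
      push_cast
      linarith
    calc _ ≤ _ := h1
      _ ≤ (((m : ℝ) + 2 * i + 2) / (m + 2 * i)) * ((((m : ℝ) + 2 * i) / m) *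
          ∑ c ∈ clos G m, F c * (EE G c + 4 * ((i + 1 : ℕ) : ℝ) * D ^ 2) ^ (i + 1)) := by
          refine mul_le_mul_of_nonneg_left ?_ (by positivity)
          refine h2.trans (h3.trans ?_)
          exact mul_le_mul_of_nonneg_left h4 (by positivity)
      _ = _ := by
          push_cast
          field_simp
          ring

end Pool.Agent.CycFD
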