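import Pool.Agent.W_1bfdb5fd_h19.PsB
import Pool.Agent.W_1bfdb5fd_h19.Fr

/-!
# Counting reductions to closed walks of length m

* `ee_cut`: for `4 ≤ s.val` the vertices `W (s - 1), W s, W (s + 1)` are
  `cut 2 W (s - 3), cut 2 W (s - 2), cut 2 W (s - 1)`; the positions `0, 1, 2, 3` contribute at
  most `D ^ 2` each.
* `psi_mul`: induction on `i` with `ee_cut`.
* `psi_sum`: `FC G W p` iff `FC G (rot W p) 0`; `rot_sum`, `cut_fc_sum`, `rot_avg`.
* `psi_lower`: `first_ex`, `far_cut`; the positions `p - d` are pairwise different.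
-/

namespace Pool.Agent.CycFD

open Finset Pool.Agent.CycGT
open scoped Classical

variable {V : Type} [Fintype V] {G : SimpleGraph V}

variable {m : ℕ} [NeZero m]

theorem psi_lower (hm : 19 ≤ m) (ho : Odd m) (hG : OddFree G m) (i : ℕ)
    (W : ZMod (m + 2 * i) → V) (hW : W ∈ clos G (m + 2 * i)) (hF : Far G i W) :
    (i.factorial : ℝ) ≤ Psi G m (fun _ => 1) i W := by
  induction i with
  | zero =>
    unfold Psi
    simp
  | succ i ih =>
    obtain ⟨J, hJ, hs, hc⟩ := hF
    have hex : ∀ p ∈ J, ∃ d : ℕ, d ≤ 2 ∧ FC G W (p - d) := fun p hp =>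
      first_ex hm ho hG (i := i + 1) (r := m + 2 * (i + 1)) rfl hW hJ hs hc hp
    choose! d hd1 hd2 using hex
    have hinj : Set.InjOn (fun p : ZMod (m + 2 * (i + 1)) => p - (d p : ZMod (m + 2 * (i + 1)))) J := by
      have aux : ∀ p ∈ J, ∀ q ∈ J, p ≠ q → d p ≤ d q →
          p - (d p : ZMod (m + 2 * (i + 1))) = q - (d q : ZMod (m + 2 * (i + 1))) → False := by
        intro p hp q hq hpq hle h
        have h1 := hs p hp q hq hpq
        have e : q - p = ((d q - d p : ℕ) : ZMod (m + 2 * (i + 1))) := by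
          rw [Nat.cast_sub hle]
          linear_combination -h
        rw [e, ZMod.val_natCast_of_lt (by have := hd1 q hq; omega)] at h1
        have := hd1 q hq
        omega
      intro p hp q hq h
      by_contra hne
      rcases le_total (d p) (d q) with hle | hle
      · exact aux p hp q hq hne hle h
      · exact aux q hq p hp (Ne.symm hne) hle h.symm
    have key : ∀ p ∈ J, (i.factorial : ℝ) ≤ Psi G m (fun _ => 1) i
        (cut 2 (rot (M := m + 2 * i + 2) W (p - (d p : ZMod (m + 2 * i + 2))))) := by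
      intro p hp
      have hfc := hd2 p hp
      refine ih _ (mem_clos.2 (cut_cl (by omega) (mem_clos.1 (rot_mem hW _)) ?_)) ?_
      · have h3 := hfc.1
        have e : ((2 + 1 : ℕ) : ZMod (m + 2 * i + 2)) = 3 := by norm_num
        rw [e]
        show G.Adj (W (p - (d p : ZMod (m + 2 * i + 2)) + 0)) (W (p - (d p : ZMod (m + 2 * i + 2)) + 3))
        rw [add_zero]
        exact h3
      · exact far_cut (r := m + 2 * i) (by omega) hJ hs hc hp (hd1 p hp)
    have e1 : ((i + 1).factorial : ℝ) = ∑ p ∈ J, (i.factorial : ℝ) := by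
      rw [sum_const, hJ, nsmul_eq_mul, Nat.factorial_succ]
      push_cast
      ring
    have hP : Psi G m (fun _ => 1) (i + 1) W = ∑ p : ZMod (m + 2 * i + 2), if FC G W p then
      Psi G m (fun _ => 1) i (cut 2 (rot (M := m + 2 * i + 2) W p)) else 0 := rfl
    rw [e1, hP]
    calc ∑ p ∈ J, (i.factorial : ℝ)
        ≤ ∑ p ∈ J, (if FC G W (p - (d p : ZMod (m + 2 * i + 2))) then Psi G m (fun _ => 1) i
          (cut 2 (rot (M := m + 2 * i + 2) W (p - (d p : ZMod (m + 2 * i + 2))))) else 0) := by
          refine sum_le_sum fun p hp => ?_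
          rw [if_pos (hd2 p hp)]
          exact key p hp
      _ = ∑ q ∈ J.image (fun p : ZMod (m + 2 * (i + 1)) => p - (d p : ZMod (m + 2 * (i + 1)))),
          (if FC G W q then Psi G m (fun _ => 1) i
            (cut 2 (rot (M := m + 2 * i + 2) W q)) else 0) := by
          rw [sum_image hinj]
      _ ≤ _ := by
          refine sum_le_sum_of_subset_of_nonneg (subset_univ _) fun q _ _ => ?_
          split_ifs
          · exact psi_nonneg _ (fun _ => zero_le_one) i _
          · exact le_refl _

end Pool.Agent.CycFD
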