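import Pool.Agent.W_1bfdb5fd_h19.PsA
import Pool.Agent.W_1bfdb5fd_h19.PsB
import Pool.Agent.W_1bfdb5fd_h19.PsC
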