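import Pool.Agent.W_1bfdb5fd_h19.Cut

/-!
# Counting reductions to closed walks of length m

* `ee_cut`: for `4 ≤ s.val` the vertices `W (s - 1), W s, W (s + 1)` are
  `cut 2 W (s - 3), cut 2 W (s - 2), cut 2 W (s - 1)`; the positions `0, 1, 2, 3` contribute at
  most `D ^ 2` each.
* `psi_mul`: induction on `i` with `ee_cut`.
* `psi_sum`: `FC G W p` iff `FC G (rot W p) 0`; `rot_sum`, `cut_fc_sum`, `rot_avg`.
* `psi_lower`: `first_ex`, `far_cut`; the positions `p - d` are pairwise different.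
-/

namespace Pool.Agent.CycFD

open Finset Pool.Agent.CycGT
open scoped Classical

variable {V : Type} [Fintype V] {G : SimpleGraph V}

variable {m : ℕ} [NeZero m]

theorem ee_le {r : ℕ} {D : ℝ} (hD : DegLe G D) (W : ZMod r → V) (s : ZMod r) :
    (ee G W s : ℝ) ≤ D ^ 2 := by
  have h1 : ee G W s ≤ #(Nb G (W s) ×ˢ Nb G (W (s + 1))) := by
    unfold ee
    refine card_le_card ?_
    intro z hz
    rw [mem_filter] at hz
    rw [mem_product, mem_Nb, mem_Nb]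
    exact ⟨hz.2.1.symm, hz.2.2.2.1⟩
  rw [card_product] at h1
  have h2 : (ee G W s : ℝ) ≤ (#(Nb G (W s)) : ℝ) * (#(Nb G (W (s + 1))) : ℝ) := by
    exact_mod_cast h1
  have h3 := hD (W s)
  have h4 := hD (W (s + 1))
  have h5 : (0 : ℝ) ≤ (#(Nb G (W s)) : ℝ) := Nat.cast_nonneg _
  have h6 : (0 : ℝ) ≤ (#(Nb G (W (s + 1))) : ℝ) := Nat.cast_nonneg _
  calc (ee G W s : ℝ) ≤ (#(Nb G (W s)) : ℝ) * (#(Nb G (W (s + 1))) : ℝ) := h2
    _ ≤ D * D := mul_le_mul h3 h4 h6 (h5.trans h3)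
    _ = D ^ 2 := by ring

private lemma ps_range {n : ℕ} [NeZero n] (f : ZMod n → ℝ) :
    ∑ s, f s = ∑ i ∈ range n, f (i : ZMod n) := by
  refine Finset.sum_nbij' (fun s : ZMod n => s.val) (fun i : ℕ => (i : ZMod n)) ?_ ?_ ?_ ?_ ?_
  · intro s _
    exact mem_range.2 (ZMod.val_lt s)
  · intro i _
    exact mem_univ _
  · intro s _
    exact ZMod.natCast_zmod_val s
  · intro i hi
    exact ZMod.val_natCast_of_lt (mem_range.1 hi)
  · intro s _
    rw [ZMod.natCast_zmod_val]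

omit [Fintype V] in
private lemma ps_cut {r : ℕ} [NeZero r] (W : ZMod (r + 2) → V) {j : ℕ} (h1 : 1 ≤ j)
    (h2 : j ≤ r) : cut 2 W (j : ZMod r) = W ((j + 2 : ℕ) : ZMod (r + 2)) := by
  rcases Nat.lt_or_ge j r with h | h
  · have hv : ((j : ℕ) : ZMod r).val = j := ZMod.val_natCast_of_lt h
    have h0 : ((j : ℕ) : ZMod r) ≠ 0 := by
      intro h0
      rw [h0, ZMod.val_zero] at hv
      omega
    unfold cut
    rw [if_neg h0, hv]
  · have hj : j = r := le_antisymm h2 h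
    subst hj
    unfold cut
    rw [if_pos (ZMod.natCast_self j), ZMod.natCast_self (j + 2)]

theorem ee_cut {r : ℕ} [NeZero r] (hr : 5 ≤ r) {D : ℝ} (hD : DegLe G D)
    (W : ZMod (r + 2) → V) : EE G W ≤ EE G (cut 2 W) + 4 * D ^ 2 := by
  unfold EE
  rw [ps_range (fun s : ZMod (r + 2) => (ee G W s : ℝ)),
    ps_range (fun s : ZMod r => (ee G (cut 2 W) s : ℝ))]
  obtain ⟨k, rfl⟩ : ∃ k, r = k + 2 := ⟨r - 2, by omega⟩
  have e1 : k + 2 + 2 = 4 + k := by omega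
  have e2 : k + 2 = 2 + k := by omega
  have s1 : ∑ i ∈ range (k + 2 + 2), (ee G W (i : ZMod (k + 2 + 2)) : ℝ) =
      ∑ i ∈ range 4, (ee G W (i : ZMod (k + 2 + 2)) : ℝ) +
      ∑ i ∈ range k, (ee G W ((4 + i : ℕ) : ZMod (k + 2 + 2)) : ℝ) := by
    rw [← Finset.sum_range_add (fun i : ℕ => (ee G W (i : ZMod (k + 2 + 2)) : ℝ)) 4 k]
    rw [show range (k + 2 + 2) = range (4 + k) by rw [e1]]
  have s2 : ∑ i ∈ range (k + 2), (ee G (cut 2 W) (i : ZMod (k + 2)) : ℝ) =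
      ∑ i ∈ range 2, (ee G (cut 2 W) (i : ZMod (k + 2)) : ℝ) +
      ∑ i ∈ range k, (ee G (cut 2 W) ((2 + i : ℕ) : ZMod (k + 2)) : ℝ) := by
    rw [← Finset.sum_range_add (fun i : ℕ => (ee G (cut 2 W) (i : ZMod (k + 2)) : ℝ)) 2 k]
    rw [show range (k + 2) = range (2 + k) by rw [e2]]
  rw [s1, s2]
  have t1 : ∑ i ∈ range 4, (ee G W (i : ZMod (k + 2 + 2)) : ℝ) ≤ 4 * D ^ 2 := by
    calc ∑ i ∈ range 4, (ee G W (i : ZMod (k + 2 + 2)) : ℝ) ≤ ∑ i ∈ range 4, D ^ 2 :=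
          Finset.sum_le_sum (fun i _ => ee_le hD W _)
      _ = 4 * D ^ 2 := by
          rw [Finset.sum_const, card_range, nsmul_eq_mul]
          push_cast
          ring
  have t2 : (0 : ℝ) ≤ ∑ i ∈ range 2, (ee G (cut 2 W) (i : ZMod (k + 2)) : ℝ) :=
    Finset.sum_nonneg (fun i _ => Nat.cast_nonneg _)
  have t3 : ∑ i ∈ range k, (ee G W ((4 + i : ℕ) : ZMod (k + 2 + 2)) : ℝ) =
      ∑ i ∈ range k, (ee G (cut 2 W) ((2 + i : ℕ) : ZMod (k + 2)) : ℝ) := by
    refine Finset.sum_congr rfl ?_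
    intro i hi
    have hi' := mem_range.1 hi
    have a1 : cut 2 W ((2 + i : ℕ) : ZMod (k + 2)) = W ((4 + i : ℕ) : ZMod (k + 2 + 2)) := by
      rw [ps_cut W (by omega) (by omega)]
      congr 2
      omega
    have a2 : cut 2 W (((2 + i : ℕ) : ZMod (k + 2)) + 1) =
        W (((4 + i : ℕ) : ZMod (k + 2 + 2)) + 1) := by
      have b1 : (((2 + i : ℕ) : ZMod (k + 2)) + 1) = ((2 + i + 1 : ℕ) : ZMod (k + 2)) := by
        push_cast; ring
      have b2 : (((4 + i : ℕ) : ZMod (k + 2 + 2)) + 1) =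
          ((2 + i + 1 + 2 : ℕ) : ZMod (k + 2 + 2)) := by
        push_cast; ring
      rw [b1, b2]
      exact ps_cut W (by omega) (by omega)
    have a3 : cut 2 W (((2 + i : ℕ) : ZMod (k + 2)) - 1) =
        W (((4 + i : ℕ) : ZMod (k + 2 + 2)) - 1) := by
      have b1 : (((2 + i : ℕ) : ZMod (k + 2)) - 1) = ((1 + i : ℕ) : ZMod (k + 2)) := by
        push_cast; ring
      have b2 : (((4 + i : ℕ) : ZMod (k + 2 + 2)) - 1) =
          ((1 + i + 2 : ℕ) : ZMod (k + 2 + 2)) := by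
        push_cast; ring
      rw [b1, b2]
      exact ps_cut W (by omega) (by omega)
    unfold ee
    rw [a1, a2, a3]
  rw [t3]
  linarith

theorem ee_rot {r : ℕ} [NeZero r] (W : ZMod r → V) (p : ZMod r) : EE G (rot W p) = EE G W := by
  unfold EE
  refine Fintype.sum_equiv (Equiv.addLeft p) _ _ ?_
  intro s
  have h1 : rot W p (s + 1) = W (p + s + 1) := by
    unfold rot
    rw [add_assoc]
  have h2 : rot W p (s - 1) = W (p + s - 1) := by
    unfold rot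
    rw [add_sub_assoc]
  have h3 : rot W p s = W (p + s) := rfl
  unfold ee
  rw [h1, h2, h3]
  rfl

end Pool.Agent.CycFD
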