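import Pool.Agent.W_1bfdb5fd_h19.Df

/-!
# Closed walks in the cycle

`pats r m` (in `W_1bfdb5_h19/NegA.lean`): the closed walks `h : ZMod r → ZMod m` with steps `1, -1`.
Let `r = m + 2 i` with `2 i < 2 m` and `m` odd.  Such a walk is given by `h 0` and by the signs; the
sum of the signs is divisible by `m`, odd and less than `3 m` in absolute value, so it is `m` or `-m`:
`i` signs of one kind and `m + i` of the other kind.
* `pats_at`, `pats_card`: exact counts.
* `pats_two`: fix `s`; `h 1 = h (-1) = s`: two choices for `h 0`, and the rest is a closed walk of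
  length `m + 2 (i - 1)` from `s` to `s` (for `i = 0` impossible).
* `pats_onto`: a closed walk that avoids a vertex is a closed walk in a path, so its length is even.
* `pats_visits`: by rotation all vertices of the cycle have the same total number of visits.
-/

namespace Pool.Agent.CycFD

open Finset Pool.Agent.CycGT
open scoped Classical

private lemma mem_pats' {k m : ℕ} [NeZero k] [NeZero m] {p : ZMod k → ZMod m} :
    p ∈ pats k m ↔ ∀ i, p (i + 1) = p i + 1 ∨ p i = p (i + 1) + 1 := by
  unfold pats
  rw [mem_filter]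
  exact and_iff_right (mem_univ _)

theorem pats_onto {m r : ℕ} [NeZero m] [NeZero r] (hm : 3 ≤ m) (ho : Odd m) (hr : Odd r)
    {h : ZMod r → ZMod m} (hh : h ∈ pats r m) : Function.Surjective h := by
  have _ := ho
  by_contra hns
  unfold Function.Surjective at hns
  push Not at hns
  obtain ⟨t, ht⟩ := hns
  rw [mem_pats'] at hh
  have hm1 : (1 : ZMod m).val = 1 := by
    have : Fact (1 < m) := ⟨by omega⟩
    exact ZMod.val_one m
  have h0 : ∀ p, (h p - t).val ≠ 0 := by
    intro p hp
    rw [ZMod.val_eq_zero] at hp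
    exact ht p (sub_eq_zero.1 hp)
  have hup : ∀ a : ZMod m, (a + 1).val ≠ 0 → (a + 1).val = a.val + 1 := by
    intro a ha
    rw [ZMod.val_add, hm1] at ha ⊢
    have h1 := ZMod.val_lt a
    by_cases h2 : a.val + 1 < m
    · exact Nat.mod_eq_of_lt h2
    · have h3 : a.val + 1 = m := by omega
      rw [h3, Nat.mod_self] at ha
      exact absurd rfl ha
  have hstep : ∀ p, (((h (p + 1) - t).val : ℕ) : ZMod 2) = (((h p - t).val : ℕ) : ZMod 2) + 1 := by
    intro p
    have two : (1 : ZMod 2) + 1 = 0 := rfl
    rcases hh p with e | e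
    · have e1 : h (p + 1) - t = (h p - t) + 1 := by rw [e]; ring
      have h1 := h0 (p + 1)
      rw [e1] at h1 ⊢
      rw [hup _ h1]
      push_cast
      rfl
    · have e1 : h p - t = (h (p + 1) - t) + 1 := by rw [e]; ring
      have h1 := h0 p
      rw [e1] at h1 ⊢
      rw [hup _ h1]
      push_cast
      rw [add_assoc, two, add_zero]
  have hall : ∀ n : ℕ, (((h ((n : ℕ) : ZMod r) - t).val : ℕ) : ZMod 2) =
      (((h 0 - t).val : ℕ) : ZMod 2) + n := by
    intro n
    induction n with
    | zero => simp
    | succ n ih =>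
      have := hstep ((n : ℕ) : ZMod r)
      rw [ih] at this
      push_cast
      rw [this, add_assoc]
  have hr1 := hall r
  rw [ZMod.natCast_self] at hr1
  have h2 : ((r : ℕ) : ZMod 2) = 0 := left_eq_add.1 hr1
  rw [ZMod.natCast_eq_zero_iff] at h2
  obtain ⟨a, ha⟩ := hr
  omega

/-- Number of visits at `t`, minus one. -/
noncomputable def vis {m r : ℕ} [NeZero r] (h : ZMod r → ZMod m) (t : ZMod m) : ℕ :=
  #(univ.filter (fun p => h p = t)) - 1

private lemma vis_succ {m r : ℕ} [NeZero m] [NeZero r] (hm : 3 ≤ m) (ho : Odd m) (hr : Odd r)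
    {h : ZMod r → ZMod m} (hh : h ∈ pats r m) (t : ZMod m) :
    #(univ.filter (fun p => h p = t)) = vis h t + 1 := by
  obtain ⟨p, hp⟩ := pats_onto hm ho hr hh t
  have : 0 < #(univ.filter (fun p => h p = t)) :=
    card_pos.2 ⟨p, mem_filter.2 ⟨mem_univ _, hp⟩⟩
  unfold vis
  omega

theorem vis_sum {m : ℕ} [NeZero m] (hm : 3 ≤ m) (ho : Odd m) (i : ℕ)
    {h : ZMod (m + 2 * i) → ZMod m} (hh : h ∈ pats (m + 2 * i) m) : ∑ t, vis h t = 2 * i := by
  have hr : Odd (m + 2 * i) := by
    obtain ⟨a, ha⟩ := ho
    exact ⟨a + i, by omega⟩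
  have h1 : ∑ t : ZMod m, #(univ.filter (fun p => h p = t)) = m + 2 * i := by
    rw [← card_eq_sum_card_fiberwise (f := h) (s := univ) (t := univ) (fun _ _ => mem_univ _),
      card_univ, ZMod.card]
  rw [sum_congr rfl (fun t _ => vis_succ hm ho hr hh t), sum_add_distrib, sum_const, card_univ,
    ZMod.card] at h1
  simp only [smul_eq_mul, mul_one] at h1
  omega

theorem vis_prod {m r : ℕ} [NeZero m] [NeZero r] (hm : 3 ≤ m) (ho : Odd m) (hr : Odd r)
    {h : ZMod r → ZMod m} (hh : h ∈ pats r m) (x : ZMod m → ℝ) :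
    ∏ p, x (h p) = (∏ t, x t) * ∏ t, x t ^ vis h t := by
  rw [← prod_mul_distrib, ← prod_fiberwise_of_maps_to (g := h) (t := univ) (fun _ _ => mem_univ _)]
  refine prod_congr rfl fun t _ => ?_
  have h1 : ∀ p ∈ univ.filter (fun p => h p = t), x (h p) = x t := by
    intro p hp
    rw [(mem_filter.1 hp).2]
  rw [prod_congr rfl h1, prod_const, vis_succ hm ho hr hh t, pow_succ, mul_comm]

theorem vis_rot {m : ℕ} [NeZero m] (hm : 3 ≤ m) (ho : Odd m) (i : ℕ) (t : ZMod m) :
    (m : ℝ) * ∑ h ∈ pats (m + 2 * i) m, (vis h t : ℝ) = 2 * i * #(pats (m + 2 * i) m) := by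
  have key : ∀ s : ZMod m, ∑ h ∈ pats (m + 2 * i) m, (vis h s : ℝ) =
      ∑ h ∈ pats (m + 2 * i) m, (vis h t : ℝ) := by
    intro s
    refine Finset.sum_nbij' (fun h p => h p + (t - s)) (fun h p => h p - (t - s)) ?_ ?_ ?_ ?_ ?_
    · intro h hh
      rw [mem_pats'] at hh ⊢
      intro q
      rcases hh q with e | e
      · left; rw [e]; ring
      · right; rw [e]; ring
    · intro h hh
      rw [mem_pats'] at hh ⊢
      intro q
      rcases hh q with e | e
      · left; rw [e]; ring
      · right; rw [e]; ring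
    · intro h _
      funext q
      simp
    · intro h _
      funext q
      simp
    · intro h _
      have : vis h s = vis (fun p => h p + (t - s)) t := by
        unfold vis
        congr 2
        ext p
        simp only [mem_filter, mem_univ, true_and]
        constructor
        · intro e; rw [e]; ring
        · intro e
          have := congrArg (fun z => z - (t - s)) e
          simpa using this
      rw [this]
  have h1 : ∑ s : ZMod m, ∑ h ∈ pats (m + 2 * i) m, (vis h s : ℝ) =
      2 * i * #(pats (m + 2 * i) m) := by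
    rw [sum_comm]
    have h2 : ∀ h ∈ pats (m + 2 * i) m, ∑ s : ZMod m, (vis h s : ℝ) = 2 * i := by
      intro h hh
      have := vis_sum hm ho i hh
      exact_mod_cast this
    rw [sum_congr rfl h2, sum_const, nsmul_eq_mul]
    ring
  rw [sum_congr rfl (fun s _ => key s), sum_const, card_univ, ZMod.card, nsmul_eq_mul] at h1
  exact h1

end Pool.Agent.CycFD
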