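import Pool.Agent.W_1bfdb5fd_h19.PtA

/-!
# From closed walks to the generalized Turan number, general length

* `cKL_fix`: in the sum of `cKL` only `1` contributes, as `3 (l + 2) > l + 2 + 2 j`.
* `CG_clos`: `cls_clos` for the identity map `Fin m → ZMod m`.
* `asym_gen`: upper bound `upper_gen` and `copy_le` as in `asym` (`W_1bfdb5_h19/Asym.lean`); lower
  bound `lower_of` (`W_1bfdb5_h19/Neg0.lean`) with `H = CG (identity)` and `x < cKL`.
* `exact_gen`: `oddFree_of_free`, `copy_le`.
-/

namespace Pool.Agent.CycFD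

open Finset Filter Topology Pool.Agent.CycGT
open scoped Classical

theorem cKL_fix (m j : ℕ) (hm : 5 ≤ m) (hj : j < m) :
    cKL (m + 2 * j) (m - 2) =
      (m : ℝ) / (m + 2 * j) * (1 / (m : ℝ) ^ (m + 2 * j)) * ((m + 2 * j).choose j : ℝ) := by
  have h2 : m - 2 + 2 = m := by omega
  have h2' : ((m - 2 : ℕ) : ℝ) + 2 = m := by exact_mod_cast h2
  have hf : (range (m + 2 * j + 1)).filter
      (fun i => Odd i ∧ i * (m - 2 + 2) ≤ m + 2 * j) = {1} := by
    ext i
    rw [mem_filter, mem_range, mem_singleton, h2]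
    constructor
    · rintro ⟨-, ho, hi⟩
      by_contra hne
      obtain ⟨t, rfl⟩ := ho
      have h3 : 3 ≤ 2 * t + 1 := by omega
      have h4 : 3 * m ≤ (2 * t + 1) * m := Nat.mul_le_mul_right m h3
      omega
    · rintro rfl
      refine ⟨by omega, odd_one, by omega⟩
  unfold cKL
  rw [hf, sum_singleton, h2', h2]
  have h3 : (m + 2 * j - 1 * m) / 2 = j := by omega
  rw [h3]
  push_cast
  rfl

theorem CG_clos {m k : ℕ} [NeZero m] [NeZero k] (hm : 3 ≤ m) :
    #(clos (CG (fun x : Fin m => ((x : ℕ) : ZMod m))) k) = #(pats k m) := by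
  rw [cls_clos hm]
  have h1 : ∀ a : ZMod m, #((univ : Finset (Fin m)).filter
      (fun x : Fin m => ((x : ℕ) : ZMod m) = a)) = 1 := by
    intro a
    rw [card_eq_one]
    refine ⟨⟨a.val, ZMod.val_lt a⟩, ?_⟩
    ext x
    rw [mem_filter, mem_singleton]
    constructor
    · rintro ⟨-, h⟩
      apply Fin.ext
      rw [← h]
      exact (ZMod.val_cast_of_lt x.2).symm
    · rintro rfl
      exact ⟨mem_univ _, ZMod.natCast_zmod_val a⟩
  rw [sum_congr rfl fun p _ => prod_congr rfl fun i _ => h1 (p i)]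
  simp

end Pool.Agent.CycFD
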