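import Pool.Agent.W_1bfdb5fd_h19.Df

/-!
# Vertices with good neighbours in at most one class are in few closed walks

`M = m + 2 j`, `b = #BB`.
* `many_bad`: choose a set of `m - 6` bad positions different from `0` (at most `2^M` choices); the
  bad positions have `b` choices each, the other `M - 1 - (m - 6) = 2 j + 5` positions `n` each.
* `prod_h`: `vis_prod`, AM-GM `∏ g ≤ (∑ g / m)^m ≤ (u + β u / m)^m ≤ u^m exp β`, the other `2 j`
  factors are at most `L u`, and the three missing factors are at least `u / 2`.
* `small_deg`: `W 0 = v`; if at most `m - 6` positions are bad, choose `h` by `heights`.  `W 1` and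
  `W (-1)` are adjacent to `v`, so they are bad or in the only class `s` where `v` has neighbours.
  (If both are bad: any `h`; if `W 1` is bad and `W (-1) ∈ AA s` then `h (-1) = s`; if both are in
  `AA s`, `h 1 = h (-1) = s`.)  `pats_card`, `pats_at`, `pats_two` and
  `choose (m + 2 j) j ≤ (m + 2 j)^j`.
-/

namespace Pool.Agent.CycFD

open Finset Pool.Agent.CycGT
open scoped Classical

variable {V : Type} [Fintype V] {G : SimpleGraph V} {m : ℕ} [NeZero m] {c : ZMod m → V}

private theorem many_bad_aux {r : ℕ} [NeZero r] (B : Finset V) (v : V) (T : Finset (ZMod r))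
    (h0 : (0 : ZMod r) ∉ T) :
    #(Fintype.piFinset (fun p : ZMod r => if p = 0 then ({v} : Finset V) else
      if p ∈ T then B else univ)) = #B ^ #T * Fintype.card V ^ (r - 1 - #T) := by
  rw [Fintype.card_piFinset]
  have h1 : ∀ p : ZMod r, #(if p = 0 then ({v} : Finset V) else if p ∈ T then B else univ) =
      (if p ∈ T then #B else 1) * (if p ∈ (univ \ insert 0 T : Finset (ZMod r)) then
        Fintype.card V else 1) := by
    intro p
    by_cases hp : p = 0
    · subst hp
      simp [h0]
    · by_cases hT : p ∈ T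
      · simp [hp, hT]
      · simp [hp, hT, Finset.card_univ]
  rw [Finset.prod_congr rfl (fun p _ => h1 p), Finset.prod_mul_distrib, Finset.prod_ite_mem,
    Finset.prod_ite_mem, Finset.univ_inter, Finset.univ_inter, Finset.prod_const,
    Finset.prod_const, Finset.card_sdiff_of_subset (Finset.subset_univ _), Finset.card_univ,
    ZMod.card, Finset.card_insert_of_notMem h0]
  congr 2
  omega

theorem many_bad (hm : 13 ≤ m) (j : ℕ) (c : ZMod m → V) (v : V) :
    #((clos G (m + 2 * j)).filter (fun W => W 0 = v ∧
      ¬ #(univ.filter (fun p => W p ∈ BB G c)) + 6 ≤ m)) ≤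
      2 ^ (m + 2 * j) * #(BB G c) ^ (m - 6) * Fintype.card V ^ (2 * j + 5) := by
  set S : Finset (Finset (ZMod (m + 2 * j))) :=
    univ.filter (fun T => #T = m - 6 ∧ (0 : ZMod (m + 2 * j)) ∉ T) with hS
  have hsub : (clos G (m + 2 * j)).filter (fun W => W 0 = v ∧
      ¬ #(univ.filter (fun p => W p ∈ BB G c)) + 6 ≤ m) ⊆
      S.biUnion (fun T => Fintype.piFinset (fun p : ZMod (m + 2 * j) =>
        if p = 0 then ({v} : Finset V) else if p ∈ T then BB G c else univ)) := by
    intro W hW
    rw [mem_filter] at hW
    obtain ⟨_, hW0, hb⟩ := hW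
    have hc : m - 6 ≤ #((univ.filter (fun p => W p ∈ BB G c)).erase 0) := by
      have := Finset.pred_card_le_card_erase (s := univ.filter (fun p => W p ∈ BB G c))
        (a := (0 : ZMod (m + 2 * j)))
      omega
    obtain ⟨T, hT, hTc⟩ := Finset.exists_subset_card_eq hc
    rw [mem_biUnion]
    refine ⟨T, ?_, ?_⟩
    · rw [hS, mem_filter]
      refine ⟨mem_univ _, hTc, fun h => ?_⟩
      exact absurd rfl (Finset.mem_erase.1 (hT h)).1
    · rw [Fintype.mem_piFinset]
      intro p
      by_cases hp : p = 0
      · subst hp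
        simp [hW0]
      · by_cases hpT : p ∈ T
        · have := (Finset.mem_filter.1 (Finset.mem_erase.1 (hT hpT)).2).2
          simpa [hp, hpT] using this
        · simp [hp, hpT]
  refine (Finset.card_le_card hsub).trans (Finset.card_biUnion_le.trans ?_)
  have hle : ∀ T ∈ S, #(Fintype.piFinset (fun p : ZMod (m + 2 * j) =>
      if p = 0 then ({v} : Finset V) else if p ∈ T then BB G c else univ)) ≤
      #(BB G c) ^ (m - 6) * Fintype.card V ^ (2 * j + 5) := by
    intro T hT
    rw [hS, mem_filter] at hT
    rw [many_bad_aux _ _ _ hT.2.2, hT.2.1]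
    refine le_of_eq ?_
    congr 2
    omega
  refine (Finset.sum_le_sum hle).trans ?_
  rw [Finset.sum_const, smul_eq_mul, mul_assoc]
  refine Nat.mul_le_mul_right _ ?_
  calc #S ≤ #(univ : Finset (Finset (ZMod (m + 2 * j)))) := Finset.card_le_card (Finset.subset_univ _)
    _ = 2 ^ (m + 2 * j) := by
        rw [Finset.card_univ, Fintype.card_finset, ZMod.card]

end Pool.Agent.CycFD
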