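import Pool.Agent.W_1bfdb5fd_h19.Xb
import Pool.Agent.W_1bfdb5fd_h19.Rec

/-!
# Step 1: rough bounds

`u = n / m`.  Let `X` be the minimum of `XX G i k` over all `i ≤ j`, `k ∈ AI G (m + 2 i)`.
(If all `AI G (m + 2 i)`, `i ≤ j`, are empty, then all `clos G (m + 2 i)` are empty by `count_rec`.)
`Y = (4 j + 12) (1 + X)`; `DegLe G (Y u)` by `X_bounds` (`n / r ≤ u`, `i ≤ j`), and by `ai_card`
`#AI ≤ m u^(m + 2 i) Y^(2 i + 2) exp (- X / 2)` (`n u^(2 i + 2) (n / r)^(r - (2 i + 3)) ≤ m u^r`).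
Induction with `count_rec`: `#clos G (m + 2 i) ≤ exp (- X / 2) Y^(4 i + 2) 3^i m^(1 + i) u^(m + 2 i)`
(uses `m + 2 i ≤ 2 m` and `∑ s < i, 2 * 3^s ≤ 3^i - 1`).  For `i = j` the hypothesis gives
`2 ≤ j! exp (- X / 2) ((4 j + 12) (1 + X))^(4 j + 2) 3^j`, which bounds `X`.
-/

namespace Pool.Agent.CycFD

open Finset Pool.Agent.CycGT
open scoped Classical

private theorem s1b_geo (i : ℕ) : 2 * ∑ s ∈ range i, (3 : ℝ) ^ s = 3 ^ i - 1 := by
  induction i with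
  | zero => simp
  | succ i ih => rw [sum_range_succ, mul_add, ih, pow_succ]; ring

theorem st1_main {V : Type} [Fintype V] {G : SimpleGraph V} {m : ℕ} [NeZero m] (j : ℕ)
    (hm : 6 * j + 7 ≤ m) (ho : Odd m) (hG : OddFree G m) {X : ℝ} (hX0 : 0 ≤ X)
    (hX : ∀ i ≤ j, ∀ k ∈ AI G (m + 2 * i), X ≤ XX G i k)
    (hD : DegLe G ((4 * j + 12) * (1 + X) * (Fintype.card V / m))) (i : ℕ) (hi : i ≤ j) :
    (#(AI G (m + 2 * i)) : ℝ) ≤ Real.exp (-X / 2) * ((4 * j + 12) * (1 + X)) ^ (2 * i + 2) *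
      m * ((Fintype.card V : ℝ) / m) ^ (m + 2 * i) ∧
    (#(clos G (m + 2 * i)) : ℝ) ≤ Real.exp (-X / 2) * ((4 * j + 12) * (1 + X)) ^ (4 * i + 2) *
      3 ^ i * m ^ (1 + i) * ((Fintype.card V : ℝ) / m) ^ (m + 2 * i) := by
  obtain ⟨Y, hY⟩ : ∃ Y : ℝ, Y = (4 * j + 12) * (1 + X) := ⟨_, rfl⟩
  obtain ⟨u, hu⟩ : ∃ u : ℝ, u = (Fintype.card V : ℝ) / m := ⟨_, rfl⟩
  obtain ⟨E, hE⟩ : ∃ E : ℝ, E = Real.exp (-X / 2) := ⟨_, rfl⟩
  have hE0 : 0 < E := hE ▸ Real.exp_pos _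
  have hm0 : (0 : ℝ) < m := by exact_mod_cast (by omega : 0 < m)
  have hm1 : (1 : ℝ) ≤ m := by exact_mod_cast (by omega : 1 ≤ m)
  have hu0 : 0 ≤ u := by rw [hu]; positivity
  have hY1 : 1 ≤ Y := by
    rw [hY]
    have : (0 : ℝ) ≤ j := Nat.cast_nonneg j
    nlinarith
  have hnu : (Fintype.card V : ℝ) = m * u := by rw [hu]; field_simp
  rw [← hY, ← hu] at hD
  simp only [← hY, ← hu, ← hE]
  have hAI : ∀ i ≤ j, (#(AI G (m + 2 * i)) : ℝ) ≤ E * Y ^ (2 * i + 2) * m * u ^ (m + 2 * i) := by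
    intro i hi
    have h1 := ai_card (G := G) (m := m) (i := i) (r := m + 2 * i) rfl ho hG (by omega) hD hX0
      (hX i hi)
    have h2 : (Fintype.card V : ℝ) / ((m + 2 * i : ℕ) : ℝ) ≤ u := by
      rw [hu]
      apply div_le_div_of_nonneg_left (Nat.cast_nonneg _) hm0
      exact_mod_cast (by omega : m ≤ m + 2 * i)
    have h3 : m + 2 * i - (2 * i + 3) = m - 3 := by omega
    rw [h3] at h1
    have h4 : ((Fintype.card V : ℝ) / ((m + 2 * i : ℕ) : ℝ)) ^ (m - 3) ≤ u ^ (m - 3) := by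
      apply pow_le_pow_left₀ _ h2
      positivity
    have h5 : (Fintype.card V : ℝ) * (Y * u) ^ (2 * i + 2) * u ^ (m - 3) =
        Y ^ (2 * i + 2) * m * u ^ (m + 2 * i) := by
      have e : m + 2 * i = 1 + (2 * i + 2) + (m - 3) := by omega
      rw [hnu, e, pow_add, pow_add, mul_pow]
      ring
    have h6 : (#(AI G (m + 2 * i)) : ℝ) * Real.exp (X / 2) ≤
        Y ^ (2 * i + 2) * m * u ^ (m + 2 * i) := by
      rw [← h5]
      refine h1.trans (mul_le_mul_of_nonneg_left h4 ?_)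
      positivity
    have h7 : E * Real.exp (X / 2) = 1 := by
      rw [hE, ← Real.exp_add]
      have : -X / 2 + X / 2 = 0 := by ring
      rw [this, Real.exp_zero]
    calc (#(AI G (m + 2 * i)) : ℝ) = E * ((#(AI G (m + 2 * i)) : ℝ) * Real.exp (X / 2)) := by
          rw [mul_comm (#(AI G (m + 2 * i)) : ℝ), ← mul_assoc, h7, one_mul]
      _ ≤ E * (Y ^ (2 * i + 2) * m * u ^ (m + 2 * i)) := mul_le_mul_of_nonneg_left h6 hE0.le
      _ = E * Y ^ (2 * i + 2) * m * u ^ (m + 2 * i) := by ring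
  refine ⟨hAI i hi, ?_⟩
  induction i using Nat.strong_induction_on with
  | _ i ih =>
    have h1 := count_rec (G := G) (m := m) (by omega) ho hG i hD
    have h2 : ((m : ℝ) + 2 * i) ≤ 2 * m := by
      have : (i : ℝ) ≤ j := by exact_mod_cast hi
      have h' : (6 * (j : ℝ) + 7) ≤ m := by exact_mod_cast hm
      linarith
    have h3 : ∀ s ∈ range i, (Y * u) ^ (2 * (i - s)) * (#(clos G (m + 2 * s)) : ℝ) ≤
        E * Y ^ (4 * i + 2) * m ^ i * u ^ (m + 2 * i) * 3 ^ s := by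
      intro s hs
      have hs' := mem_range.1 hs
      have h4 := ih s hs' (by omega)
      calc (Y * u) ^ (2 * (i - s)) * (#(clos G (m + 2 * s)) : ℝ)
          ≤ (Y * u) ^ (2 * (i - s)) * (E * Y ^ (4 * s + 2) * 3 ^ s * m ^ (1 + s) *
            u ^ (m + 2 * s)) := by
            apply mul_le_mul_of_nonneg_left h4
            positivity
        _ = E * Y ^ (2 * (i - s) + (4 * s + 2)) * m ^ (1 + s) * u ^ (m + 2 * i) * 3 ^ s := by
            have e : m + 2 * i = 2 * (i - s) + (m + 2 * s) := by omega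
            rw [e, pow_add u, pow_add Y, mul_pow]
            ring
        _ ≤ E * Y ^ (4 * i + 2) * m ^ i * u ^ (m + 2 * i) * 3 ^ s := by
            have a1 : Y ^ (2 * (i - s) + (4 * s + 2)) ≤ Y ^ (4 * i + 2) :=
              pow_le_pow_right₀ hY1 (by omega)
            have a2 : (m : ℝ) ^ (1 + s) ≤ (m : ℝ) ^ i := pow_le_pow_right₀ hm1 (by omega)
            gcongr
    have h4 : ∑ s ∈ range i, (Y * u) ^ (2 * (i - s)) * (#(clos G (m + 2 * s)) : ℝ) ≤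
        E * Y ^ (4 * i + 2) * m ^ i * u ^ (m + 2 * i) * ((3 ^ i - 1) / 2) := by
      refine (sum_le_sum h3).trans ?_
      rw [← mul_sum]
      have := s1b_geo i
      have e : ∑ s ∈ range i, (3 : ℝ) ^ s = (3 ^ i - 1) / 2 := by linarith
      rw [e]
    have h5 : (0 : ℝ) ≤ ∑ s ∈ range i, (Y * u) ^ (2 * (i - s)) * (#(clos G (m + 2 * s)) : ℝ) :=
      sum_nonneg fun s _ => mul_nonneg
        (pow_nonneg (mul_nonneg (zero_le_one.trans hY1) hu0) _) (Nat.cast_nonneg _)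
    have h6 : (0 : ℝ) ≤ E * Y ^ (4 * i + 2) * u ^ (m + 2 * i) := by positivity
    have h7 : (1 : ℝ) ≤ 3 ^ i := one_le_pow₀ (by norm_num)
    have h8 : (1 : ℝ) ≤ (m : ℝ) ^ i := one_le_pow₀ hm1
    calc (#(clos G (m + 2 * i)) : ℝ) ≤ #(AI G (m + 2 * i)) + ((m : ℝ) + 2 * i) *
          ∑ s ∈ range i, (Y * u) ^ (2 * (i - s)) * (#(clos G (m + 2 * s)) : ℝ) := h1
      _ ≤ E * Y ^ (2 * i + 2) * m * u ^ (m + 2 * i) + 2 * m *
          (E * Y ^ (4 * i + 2) * m ^ i * u ^ (m + 2 * i) * ((3 ^ i - 1) / 2)) :=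
          add_le_add (hAI i hi) (mul_le_mul h2 h4 h5 (by positivity))
      _ ≤ E * Y ^ (4 * i + 2) * m * u ^ (m + 2 * i) + 2 * m *
          (E * Y ^ (4 * i + 2) * m ^ i * u ^ (m + 2 * i) * ((3 ^ i - 1) / 2)) := by
          have a1 : Y ^ (2 * i + 2) ≤ Y ^ (4 * i + 2) := pow_le_pow_right₀ hY1 (by omega)
          gcongr
      _ = (E * Y ^ (4 * i + 2) * u ^ (m + 2 * i)) * m * (1 + m ^ i * (3 ^ i - 1)) := by ring
      _ ≤ (E * Y ^ (4 * i + 2) * u ^ (m + 2 * i)) * m * (m ^ i * 3 ^ i) := by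
          apply mul_le_mul_of_nonneg_left _ (by positivity)
          nlinarith
      _ = E * Y ^ (4 * i + 2) * 3 ^ i * m ^ (1 + i) * u ^ (m + 2 * i) := by
          rw [pow_add (m : ℝ) 1 i, pow_one]
          ring

end Pool.Agent.CycFD
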