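import Pool.Agent.W_1bfdb5fd_h19.St1A
import Pool.Agent.W_1bfdb5fd_h19.St1B

/-!
# Step 1: rough bounds

`u = n / m`.  Let `X` be the minimum of `XX G i k` over all `i ≤ j`, `k ∈ AI G (m + 2 i)`.
(If all `AI G (m + 2 i)`, `i ≤ j`, are empty, then all `clos G (m + 2 i)` are empty by `count_rec`.)
`Y = (4 j + 12) (1 + X)`; `DegLe G (Y u)` by `X_bounds` (`n / r ≤ u`, `i ≤ j`), and by `ai_card`
`#AI ≤ m u^(m + 2 i) Y^(2 i + 2) exp (- X / 2)` (`n u^(2 i + 2) (n / r)^(r - (2 i + 3)) ≤ m u^r`).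
Induction with `count_rec`: `#clos G (m + 2 i) ≤ exp (- X / 2) Y^(4 i + 2) 3^i m^(1 + i) u^(m + 2 i)`
(uses `m + 2 i ≤ 2 m` and `∑ s < i, 2 * 3^s ≤ 3^i - 1`).  For `i = j` the hypothesis gives
`2 ≤ j! exp (- X / 2) ((4 j + 12) (1 + X))^(4 j + 2) 3^j`, which bounds `X`.
-/

namespace Pool.Agent.CycFD

open Finset Pool.Agent.CycGT
open scoped Classical

private theorem St1C_empty {V : Type} [Fintype V] {G : SimpleGraph V} {m : ℕ} [NeZero m]
    (hm : 3 ≤ m) (ho : Odd m) (hG : OddFree G m) (j : ℕ)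
    (h : ∀ i ≤ j, #(AI G (m + 2 * i)) = 0) : ∀ i ≤ j, #(clos G (m + 2 * i)) = 0 := by
  intro i
  induction i using Nat.strong_induction_on with
  | _ i ih =>
    intro hi
    have hD : DegLe G (Fintype.card V : ℝ) := by
      intro v
      exact_mod_cast card_le_univ (Nb G v)
    have h1 := count_rec hm ho hG i hD
    have h2 : ∑ s ∈ range i, (Fintype.card V : ℝ) ^ (2 * (i - s)) * #(clos G (m + 2 * s)) = 0 := by
      refine sum_eq_zero fun s hs => ?_
      rw [mem_range] at hs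
      rw [ih s hs (by omega), Nat.cast_zero, mul_zero]
    rw [h2, h i hi, Nat.cast_zero, mul_zero, add_zero] at h1
    exact_mod_cast le_antisymm h1 (Nat.cast_nonneg _)

private theorem St1C_ne {V : Type} [Fintype V] {G : SimpleGraph V} {m : ℕ} [NeZero m] {j : ℕ}
    (hm : 6 * j + 7 ≤ m) (ho : Odd m) (hG : OddFree G m) (hpos : 0 < #(clos G (m + 2 * j))) :
    ((range (j + 1)).sigma (fun i => AI G (m + 2 * i))).Nonempty := by
  by_contra hne
  rw [not_nonempty_iff_eq_empty] at hne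
  have h0 : ∀ i ≤ j, #(AI G (m + 2 * i)) = 0 := by
    intro i hi
    rw [card_eq_zero, eq_empty_iff_forall_notMem]
    intro k hk
    have : (⟨i, k⟩ : (i : ℕ) × (ZMod (m + 2 * i) → V)) ∈
        ((range (j + 1)).sigma (fun i => AI G (m + 2 * i))) :=
      mem_sigma.2 ⟨mem_range.2 (Nat.lt_succ_of_le hi), hk⟩
    rw [hne] at this
    exact absurd this (notMem_empty _)
  have := St1C_empty (by omega) ho hG j h0 j le_rfl
  omega

theorem step1 (j : ℕ) : ∃ K : ℝ, 1 ≤ K ∧ ∀ m : ℕ, 6 * j + 7 ≤ m → Odd m → ∀ (_ : NeZero m)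
    (V : Type) (_ : Fintype V) (G : SimpleGraph V), OddFree G m →
    2 * (m : ℝ) ^ (1 + j) * ((Fintype.card V : ℝ) / m) ^ (m + 2 * j) ≤
      (j.factorial : ℝ) * #(clos G (m + 2 * j)) → 0 < #(clos G (m + 2 * j)) →
    DegLe G (K * (Fintype.card V / m)) ∧ ∀ i ≤ j,
      (#(AI G (m + 2 * i)) : ℝ) ≤ K * m * ((Fintype.card V : ℝ) / m) ^ (m + 2 * i) ∧
      (#(clos G (m + 2 * i)) : ℝ) ≤
        K * m ^ (1 + i) * ((Fintype.card V : ℝ) / m) ^ (m + 2 * i) := by
  obtain ⟨B, hB0, hB⟩ := st1_X j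
  have hj0 : (0 : ℝ) ≤ j := Nat.cast_nonneg j
  have h3j : (1 : ℝ) ≤ 3 ^ j := one_le_pow₀ (by norm_num)
  have hZ1 : (1 : ℝ) ≤ (4 * j + 12) * (1 + B) := by nlinarith
  have hZp : (1 : ℝ) ≤ ((4 * j + 12) * (1 + B)) ^ (4 * j + 2) := one_le_pow₀ hZ1
  refine ⟨((4 * j + 12) * (1 + B)) ^ (4 * j + 2) * 3 ^ j, one_le_mul_of_one_le_of_one_le hZp h3j,
    ?_⟩
  intro m hm ho _ V _ G hG hcl hpos
  have hm0 : (0 : ℝ) < m := by exact_mod_cast (by omega : 0 < m)
  obtain ⟨W0, hW0⟩ := card_pos.1 hpos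
  have hV : Nonempty V := ⟨W0 0⟩
  have hn : (0 : ℝ) < Fintype.card V := by exact_mod_cast Fintype.card_pos
  have hu : (0 : ℝ) < (Fintype.card V : ℝ) / m := div_pos hn hm0
  have hne := St1C_ne hm ho hG hpos
  obtain ⟨x0, hx0, hmin⟩ := exists_min_image
    ((range (j + 1)).sigma (fun i => AI G (m + 2 * i))) (fun x => XX G x.1 x.2) hne
  rw [mem_sigma, mem_range] at hx0
  obtain ⟨hi0, hk0⟩ := hx0
  obtain ⟨i0, k0⟩ := x0
  dsimp only at hi0 hk0 hmin
  obtain ⟨hX0, hD0⟩ := X_bounds (G := G) (m := m) (i := i0) (r := m + 2 * i0) rfl ho hG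
    (by omega) hk0
  have hXm : ∀ i ≤ j, ∀ k ∈ AI G (m + 2 * i), XX G i0 k0 ≤ XX G i k := by
    intro i hi k hk
    exact hmin ⟨i, k⟩ (mem_sigma.2 ⟨mem_range.2 (Nat.lt_succ_of_le hi), hk⟩)
  generalize XX G i0 k0 = X at hX0 hD0 hXm
  have hi0' : (i0 : ℝ) ≤ j := by exact_mod_cast (by omega : i0 ≤ j)
  have hi00 : (0 : ℝ) ≤ i0 := Nat.cast_nonneg i0
  have hD : DegLe G ((4 * j + 12) * (1 + X) * (Fintype.card V / m)) := by
    intro v
    refine (hD0 v).trans ?_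
    have e1 : (Fintype.card V : ℝ) / ((m + 2 * i0 : ℕ) : ℝ) ≤ Fintype.card V / m := by
      refine div_le_div_of_nonneg_left hn.le hm0 ?_
      push_cast
      linarith
    refine mul_le_mul ?_ e1 (by positivity) (by positivity)
    exact mul_le_mul_of_nonneg_right (by linarith) (by linarith)
  have hmain := st1_main j hm ho hG hX0 hXm hD
  have hXB : X ≤ B := by
    refine hB X hX0 ?_
    have h1 := (hmain j le_rfl).2
    have hP : (0 : ℝ) < (m : ℝ) ^ (1 + j) * ((Fintype.card V : ℝ) / m) ^ (m + 2 * j) := by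
      positivity
    have h2 : (j.factorial : ℝ) * #(clos G (m + 2 * j)) ≤ (j.factorial : ℝ) *
        (Real.exp (-X / 2) * ((4 * j + 12) * (1 + X)) ^ (4 * j + 2) *
          3 ^ j * m ^ (1 + j) * ((Fintype.card V : ℝ) / m) ^ (m + 2 * j)) :=
      mul_le_mul_of_nonneg_left h1 (Nat.cast_nonneg _)
    have h3 := hcl.trans h2
    refine le_of_mul_le_mul_right ?_ hP
    calc 2 * ((m : ℝ) ^ (1 + j) * ((Fintype.card V : ℝ) / m) ^ (m + 2 * j)) =
        2 * (m : ℝ) ^ (1 + j) * ((Fintype.card V : ℝ) / m) ^ (m + 2 * j) := by ring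
      _ ≤ _ := h3
      _ = _ := by ring
  have hYZ : (4 * (j : ℝ) + 12) * (1 + X) ≤ (4 * j + 12) * (1 + B) :=
    mul_le_mul_of_nonneg_left (by linarith) (by linarith)
  have hY0 : (0 : ℝ) ≤ (4 * (j : ℝ) + 12) * (1 + X) := by positivity
  have hexp : Real.exp (-X / 2) ≤ 1 := Real.exp_le_one_iff.2 (by linarith)
  have hYp : ∀ e ≤ 4 * j + 2, ((4 * (j : ℝ) + 12) * (1 + X)) ^ e ≤
      ((4 * (j : ℝ) + 12) * (1 + B)) ^ (4 * j + 2) := fun e he =>
    (pow_le_pow_left₀ hY0 hYZ e).trans (pow_le_pow_right₀ hZ1 he)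
  have hZK : ((4 * (j : ℝ) + 12) * (1 + B)) ^ (4 * j + 2) ≤
      ((4 * (j : ℝ) + 12) * (1 + B)) ^ (4 * j + 2) * 3 ^ j :=
    le_mul_of_one_le_right (by linarith) h3j
  refine ⟨?_, ?_⟩
  · intro v
    refine (hD v).trans (mul_le_mul_of_nonneg_right ?_ hu.le)
    have := hYp 1 (by omega)
    rw [pow_one] at this
    exact this.trans hZK
  · intro i hi
    obtain ⟨h1, h2⟩ := hmain i hi
    constructor
    · refine h1.trans ?_
      refine mul_le_mul_of_nonneg_right (mul_le_mul_of_nonneg_right ?_ hm0.le) (by positivity)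
      calc Real.exp (-X / 2) * ((4 * (j : ℝ) + 12) * (1 + X)) ^ (2 * i + 2) ≤
          1 * ((4 * (j : ℝ) + 12) * (1 + B)) ^ (4 * j + 2) :=
            mul_le_mul hexp (hYp _ (by omega)) (by positivity) zero_le_one
        _ ≤ _ := by rw [one_mul]; exact hZK
    · refine h2.trans ?_
      refine mul_le_mul_of_nonneg_right (mul_le_mul_of_nonneg_right ?_ (by positivity))
        (by positivity)
      have h3 : (3 : ℝ) ^ i ≤ 3 ^ j := pow_le_pow_right₀ (by norm_num) hi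
      calc Real.exp (-X / 2) * ((4 * (j : ℝ) + 12) * (1 + X)) ^ (4 * i + 2) * 3 ^ i ≤
          1 * ((4 * (j : ℝ) + 12) * (1 + B)) ^ (4 * j + 2) * 3 ^ j :=
            mul_le_mul (mul_le_mul hexp (hYp _ (by omega)) (by positivity) zero_le_one) h3
              (by positivity) (by positivity)
        _ = _ := by rw [one_mul]

end Pool.Agent.CycFD
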