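import Pool.Agent.W_1bfdb5fd_h19.Df

/-!
# Step 1: rough bounds

`u = n / m`.  Let `X` be the minimum of `XX G i k` over all `i ≤ j`, `k ∈ AI G (m + 2 i)`.
(If all `AI G (m + 2 i)`, `i ≤ j`, are empty, then all `clos G (m + 2 i)` are empty by `count_rec`.)
`Y = (4 j + 12) (1 + X)`; `DegLe G (Y u)` by `X_bounds` (`n / r ≤ u`, `i ≤ j`), and by `ai_card`
`#AI ≤ m u^(m + 2 i) Y^(2 i + 2) exp (- X / 2)` (`n u^(2 i + 2) (n / r)^(r - (2 i + 3)) ≤ m u^r`).
Induction with `count_rec`: `#clos G (m + 2 i) ≤ exp (- X / 2) Y^(4 i + 2) 3^i m^(1 + i) u^(m + 2 i)`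
(uses `m + 2 i ≤ 2 m` and `∑ s < i, 2 * 3^s ≤ 3^i - 1`).  For `i = j` the hypothesis gives
`2 ≤ j! exp (- X / 2) ((4 j + 12) (1 + X))^(4 j + 2) 3^j`, which bounds `X`.
-/

namespace Pool.Agent.CycFD

open Finset Pool.Agent.CycGT
open scoped Classical

/-- The numerical facts of step 1: the bound for the deficit. -/
theorem st1_X (j : ℕ) : ∃ B : ℝ, 0 ≤ B ∧ ∀ X : ℝ, 0 ≤ X →
    2 ≤ (j.factorial : ℝ) * (Real.exp (-X / 2) * ((4 * j + 12) * (1 + X)) ^ (4 * j + 2) * 3 ^ j) →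
    X ≤ B := by
  have h := Real.tendsto_pow_mul_exp_neg_atTop_nhds_zero (4 * j + 2)
  set c : ℝ := (j.factorial : ℝ) * (4 * j + 12) ^ (4 * j + 2) * 3 ^ j * 2 ^ (4 * j + 2) *
    Real.exp (1 / 2) with hc
  have hcpos : 0 < c := by
    have : (0 : ℝ) < j.factorial := by exact_mod_cast j.factorial_pos
    positivity
  have h2 := h.eventually (gt_mem_nhds (show (0 : ℝ) < 2 / c by positivity))
  obtain ⟨T, hT⟩ := Filter.eventually_atTop.1 h2
  refine ⟨max 0 (2 * T), le_max_left _ _, fun X hX hX2 => ?_⟩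
  by_contra hlt
  push Not at hlt
  have hXT : T ≤ (1 + X) / 2 := by
    have := (le_max_right (0 : ℝ) (2 * T)).trans_lt hlt
    linarith
  have h3 := hT _ hXT
  rw [lt_div_iff₀ hcpos] at h3
  have e1 : Real.exp (-X / 2) = Real.exp (1 / 2) * Real.exp (-((1 + X) / 2)) := by
    rw [← Real.exp_add]
    congr 1
    ring
  have e2 : (1 + X) ^ (4 * j + 2) = 2 ^ (4 * j + 2) * ((1 + X) / 2) ^ (4 * j + 2) := by
    rw [← mul_pow]
    congr 1
    ring
  have e3 : (j.factorial : ℝ) * (Real.exp (-X / 2) * ((4 * j + 12) * (1 + X)) ^ (4 * j + 2) *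
      3 ^ j) = ((1 + X) / 2) ^ (4 * j + 2) * Real.exp (-((1 + X) / 2)) * c := by
    rw [mul_pow, e2, e1, hc]
    ring
  rw [e3] at hX2
  linarith

end Pool.Agent.CycFD
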