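import Pool.Agent.W_1bfdb5fd_h19.Ps

/-!
# Step 2: a shortest odd closed walk with small deficit

`u = n / m`, `D = K u`.
* `far_count`: `j! #clos ≤ j! #(not far) + ∑ Psi 1`, `psi_lower`, `psi_total` (`F = 1`).
* `psi_exp`: by `EE_Dp`, `EE G c + 4 j D^2 ≤ m u^2 (1 + ((13 K + 5) Dp G c + 4 j K^2) / m)
  ≤ m u^2 exp (((13 K + 5) Dp G c + 4 j K^2) / m)`; so for `m ≥ 2 j (13 K + 5)` and `X ≤ Dp G c` for
  all `c` (`X ≥ 0`) the sum over `c` is at most
  `(m u^2)^j exp (4 j^2 K^2 / m) ∑ exp (Dp G c) exp (- Dp G c / 2)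
  ≤ (m u^2)^j exp (4 j^2 K^2 / m) exp (- X / 2) 2 m u^m`.
* `step2`: let `X` be the minimum of `Dp` (if `clos G m` is empty, `far_count` gives a contradiction
  for large `m`).  `2 m^(1+j) u^M ≤ j! C m^j u^M + (1 + 2 j / m) exp (4 j^2 K^2 / m) exp (- X / 2)
  2 m^(1+j) u^M`, so `1 - C' / m ≤ exp (- X / 2)`, and `X ≤ C'' / m`.
-/

namespace Pool.Agent.CycFD

open Finset Pool.Agent.CycGT
open scoped Classical

theorem far_count {V : Type} [Fintype V] {G : SimpleGraph V} {m : ℕ} [NeZero m] (hm : 19 ≤ m)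
    (ho : Odd m) (hG : OddFree G m) (j : ℕ) {D : ℝ} (hD : DegLe G D) :
    (j.factorial : ℝ) * #(clos G (m + 2 * j)) ≤
      j.factorial * #((clos G (m + 2 * j)).filter (fun W => ¬ Far G j W)) +
      (((m : ℝ) + 2 * j) / m) * ∑ c ∈ clos G m, (EE G c + 4 * j * D ^ 2) ^ j := by
  have h1 : (#(clos G (m + 2 * j)) : ℝ) = #((clos G (m + 2 * j)).filter (fun W => Far G j W)) +
      #((clos G (m + 2 * j)).filter (fun W => ¬ Far G j W)) := by
    have := card_filter_add_card_filter_not (s := clos G (m + 2 * j)) (fun W => Far G j W)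
    exact_mod_cast this.symm
  have h2 : (j.factorial : ℝ) * #((clos G (m + 2 * j)).filter (fun W => Far G j W)) ≤
      ∑ W ∈ clos G (m + 2 * j), Psi G m (fun _ => 1) j W := by
    calc (j.factorial : ℝ) * #((clos G (m + 2 * j)).filter (fun W => Far G j W))
        = ∑ W ∈ (clos G (m + 2 * j)).filter (fun W => Far G j W), (j.factorial : ℝ) := by
          rw [sum_const, nsmul_eq_mul, mul_comm]
      _ ≤ ∑ W ∈ (clos G (m + 2 * j)).filter (fun W => Far G j W), Psi G m (fun _ => 1) j W := by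
          refine sum_le_sum fun W hW => ?_
          rw [mem_filter] at hW
          exact psi_lower hm ho hG j W hW.1 hW.2
      _ ≤ _ := sum_le_sum_of_subset_of_nonneg (filter_subset _ _) fun W _ _ =>
          psi_nonneg _ (fun _ => zero_le_one) j W
  have h3 := psi_total (by omega : 5 ≤ m) hD j (fun _ => 1) (fun _ => zero_le_one) (fun _ _ => rfl)
  simp only [one_mul] at h3
  rw [h1, mul_add]
  linarith

end Pool.Agent.CycFD
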