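import Pool.Agent.W_1bfdb5fd_h19.JpA
import Pool.Agent.W_1bfdb5fd_h19.EbB

/-!
# Step 3: structure

`u = n / m`.
* `bal`: `Dp G c ≤ B / m` gives `#BB ≤ 2 B u / (m - 4) ≤ 3 B u / m` and `Phi ≤ (5 / 2) B / m`, so every
  `x - 1 - log x`, `x = #(AA G c t) m / n`, is at most `(5 / 2) B / m` (`Phi_eq`), and
  `|x - 1| ≤ ε` for large `m` (for `|x - 1| > ε`, `x - 1 - log x ≥ ε^2 / 6` if `ε ≤ 1`).
* `st3_num`: `b ≤ β u / m`, `a ≤ 2 u`, `P = 8 (2 + β)^(2 j) exp β u^(m + 2 j - 3)`, `n = m u`: the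
  bound of `small_deg` is smaller than `m^j u^(m + 2 j - 1) / (4 j!)` for large `m`; the first term is
  `2^(m + 2 j) β^(m - 6) m^(2 j + 5 - (m - 6)) u^(m + 2 j - 1)`.
* `step3`: `small_deg`, `prod_h` with `g t = #(AA G c t) + #(BB G c)`, `L = 2 + β`, `hom_ex`.
-/

namespace Pool.Agent.CycFD

open Finset Pool.Agent.CycGT
open scoped Classical

theorem phi_small (ε : ℝ) (hε : 0 < ε) (hε1 : ε ≤ 1) {x : ℝ} (hx : 0 < x)
    (h : x - 1 - Real.log x < ε ^ 2 / 6) : |x - 1| ≤ ε := by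
  obtain ⟨y, hy, rfl⟩ : ∃ y : ℝ, 0 < y ∧ y ^ 2 = x :=
    ⟨√x, Real.sqrt_pos.2 hx, Real.sq_sqrt hx.le⟩
  have h1 : Real.log (y ^ 2) = 2 * Real.log y := by
    rw [Real.log_pow]
    norm_num
  have h2 := Real.log_le_sub_one_of_pos hy
  rw [h1] at h
  have h3 : (y - 1) ^ 2 ≤ ε ^ 2 / 6 := by nlinarith
  have h4 : ε ^ 2 ≤ 1 := by nlinarith
  have h5 : y ≤ 141 / 100 := by
    by_contra h5
    push Not at h5
    nlinarith
  have h6 : (y + 1) ^ 2 ≤ 6 := by nlinarith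
  apply abs_le_of_sq_le_sq _ hε.le
  calc (y ^ 2 - 1) ^ 2 = (y - 1) ^ 2 * (y + 1) ^ 2 := by ring
    _ ≤ (ε ^ 2 / 6) * 6 := mul_le_mul h3 h6 (sq_nonneg _) (by positivity)
    _ = ε ^ 2 := by ring

theorem bal (B ε : ℝ) (hB : 0 ≤ B) (hε : 0 < ε) : ∃ m0 : ℕ, ∀ m : ℕ, m0 ≤ m → Odd m →
    ∀ (_ : NeZero m) (V : Type) (_ : Fintype V) (G : SimpleGraph V), OddFree G m →
    ∀ c ∈ clos G m, Dp G c ≤ B / m →
    (#(BB G c) : ℝ) ≤ 3 * B * (Fintype.card V / m) / m ∧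
    ∀ t, |(#(AA G c t) : ℝ) * m / Fintype.card V - 1| ≤ ε := by
  obtain ⟨δ, hδ, hδ1, hδε⟩ : ∃ δ : ℝ, 0 < δ ∧ δ ≤ 1 ∧ δ ≤ ε :=
    ⟨min ε 1, lt_min hε one_pos, min_le_right _ _, min_le_left _ _⟩
  obtain ⟨N, hN⟩ := exists_nat_gt (15 * B / δ ^ 2)
  refine ⟨max 13 N, fun m hm ho _ V _ G hG c hc hD => ?_⟩
  have hm13 : 13 ≤ m := (le_max_left _ _).trans hm
  have hmN : (N : ℝ) ≤ m := by exact_mod_cast (le_max_right _ _).trans hm
  have hc' : IsCl G m c := mem_clos.1 hc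
  have hn : (0 : ℝ) < Fintype.card V := by
    have : Nonempty V := ⟨c 0⟩
    exact_mod_cast Fintype.card_pos
  have hmR : (13 : ℝ) ≤ m := by exact_mod_cast hm13
  have hm0 : (0 : ℝ) < m := by linarith
  have hP0 := Phi_nonneg hm13 ho hG hc'
  have hPe := Phi_eq hm13 ho hG hc'
  have hb0 : (0 : ℝ) ≤ #(BB G c) := by positivity
  have hbn : (0 : ℝ) ≤ (#(BB G c) : ℝ) / Fintype.card V := by positivity
  unfold Dp at hD
  constructor
  · have h1 : ((m : ℝ) - 4) / 2 * ((#(BB G c) : ℝ) / Fintype.card V) ≤ B / m := by linarith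
    have h2 : (m : ℝ) / 3 * ((#(BB G c) : ℝ) / Fintype.card V) ≤ B / m :=
      (mul_le_mul_of_nonneg_right (by linarith) hbn).trans h1
    have h3 : (#(BB G c) : ℝ) =
        (m : ℝ) / 3 * ((#(BB G c) : ℝ) / Fintype.card V) * (3 * Fintype.card V / m) := by
      field_simp
    have h4 : 3 * B * (Fintype.card V / m) / m = B / m * (3 * Fintype.card V / m) := by
      field_simp
    rw [h4]
    calc (#(BB G c) : ℝ) =
        (m : ℝ) / 3 * ((#(BB G c) : ℝ) / Fintype.card V) * (3 * Fintype.card V / m) := h3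
      _ ≤ B / m * (3 * Fintype.card V / m) := mul_le_mul_of_nonneg_right h2 (by positivity)
  · intro t
    have hpos : ∀ s, (0 : ℝ) < (#(AA G c s) : ℝ) * m / Fintype.card V := by
      intro s
      have ha : (0 : ℝ) < #(AA G c s) := by
        exact_mod_cast card_pos.2 ⟨c s, AA_self hc' s⟩
      exact div_pos (mul_pos ha hm0) hn
    have hle : (#(AA G c t) : ℝ) * m / Fintype.card V - 1 -
        Real.log ((#(AA G c t) : ℝ) * m / Fintype.card V) ≤ Phi G c := by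
      rw [hPe]
      refine single_le_sum (f := fun s => (#(AA G c s) : ℝ) * m / Fintype.card V - 1 -
        Real.log ((#(AA G c s) : ℝ) * m / Fintype.card V)) (fun s _ => ?_) (mem_univ t)
      have := Real.log_le_sub_one_of_pos (hpos s)
      show 0 ≤ (#(AA G c s) : ℝ) * m / Fintype.card V - 1 -
        Real.log ((#(AA G c s) : ℝ) * m / Fintype.card V)
      linarith
    have h1 : 0 ≤ ((m : ℝ) - 4) / 2 * ((#(BB G c) : ℝ) / Fintype.card V) :=
      mul_nonneg (by linarith) hbn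
    have h2 : Phi G c ≤ 5 / 2 * (B / m) := by linarith
    have h3 : 5 / 2 * (B / m) < δ ^ 2 / 6 := by
      have h4 : 15 * B / δ ^ 2 < m := hN.trans_le hmN
      rw [div_lt_iff₀ (by positivity)] at h4
      have h5 : B / m < δ ^ 2 / 15 := by
        rw [div_lt_div_iff₀ hm0 (by norm_num)]
        linarith
      linarith
    exact (phi_small δ hδ hδ1 (hpos t) (by linarith)).trans hδε

end Pool.Agent.CycFD
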