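import Pool.Agent.W_1bfdb5fd_h19.Fs
import Pool.Agent.W_1bfdb5fd_h19.AiP
import Pool.Agent.W_1bfdb5fd_h19.Num1

/-!
# Deficit and maximum degree, number of chordless closed walks

* `X_bounds`: `num_X` with `f t = #(FS G i k t) r / n`, `U = cU G k r / n`, and `fs_sum`, `fs_deg`.
* `ai_card`: `ai_sum` with `∑ log #(FS G i k t) = r log (n / r) - XX G i k`, and
  `(r - (2 i + 3)) / r ≥ 1 / 2`.
-/

namespace Pool.Agent.CycFD

open Finset Pool.Agent.CycGT
open scoped Classical

variable {V : Type} [Fintype V] {G : SimpleGraph V} {m i r : ℕ} [NeZero r]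

theorem X_bounds (hr : r = m + 2 * i) (ho : Odd m) (hG : OddFree G m) (h6 : 6 * i + 6 < r)
    {k : ZMod r → V} (hk : k ∈ AI G r) :
    0 ≤ XX G i k ∧ DegLe G ((4 * i + 12) * (1 + XX G i k) * (Fintype.card V / r)) := by
  have hV : Nonempty V := ⟨k 0⟩
  have hn : (0 : ℝ) < Fintype.card V := by exact_mod_cast Fintype.card_pos
  have hr0 : (0 : ℝ) < r := by exact_mod_cast (by omega : 0 < r)
  have hcl := (mem_AI.1 hk).1
  have hfp : ∀ t, (0 : ℝ) < #(FS G i k t) := fun t => by exact_mod_cast fs_pos h6 hk t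
  have hq : (0 : ℝ) < (r : ℝ) / Fintype.card V := div_pos hr0 hn
  obtain ⟨h1, h2⟩ := num_X (fun t : ZMod r => (#(FS G i k t) : ℝ) * r / Fintype.card V)
    ((cU G k : ℝ) * r / Fintype.card V) (fun t => div_pos (mul_pos (hfp t) hr0) hn)
    (by positivity) (by
      have h3 := fs_sum hr ho hG hcl h6
      have h4 : ((∑ t, #(FS G i k t) + cU G k : ℕ) : ℝ) ≤ Fintype.card V := by exact_mod_cast h3
      push_cast at h4
      have h5 := mul_le_mul_of_nonneg_right h4 hq.le
      rw [ZMod.card]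
      have e1 : (Fintype.card V : ℝ) * (r / Fintype.card V) = r := by field_simp
      rw [e1, add_mul, sum_mul] at h5
      simp only [mul_div_assoc]
      exact h5)
  have hX : XX G i k = -∑ t, Real.log ((#(FS G i k t) : ℝ) * r / Fintype.card V) := rfl
  rw [← hX] at h1
  have h2' : ∀ t, (#(FS G i k t) : ℝ) * r / Fintype.card V ≤ 2 * XX G i k + 2 := by
    intro t
    rw [hX]
    exact h2 t
  have hX0 : 0 ≤ XX G i k := le_trans (by positivity) h1
  refine ⟨hX0, ?_⟩
  intro v
  obtain ⟨T, hT, hd⟩ := fs_deg hr ho hG hcl h6 v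
  have hd' : (#(Nb G v) : ℝ) ≤ cU G k + ∑ t ∈ T, (#(FS G i k t) : ℝ) := by exact_mod_cast hd
  have hp : (0 : ℝ) < (Fintype.card V : ℝ) / r := div_pos hn hr0
  have a1 : (cU G k : ℝ) ≤ XX G i k * (Fintype.card V / r) := by
    have := mul_le_mul_of_nonneg_right h1 hp.le
    have e : (cU G k : ℝ) * r / Fintype.card V * (Fintype.card V / r) = cU G k := by field_simp
    rwa [e] at this
  have a2 : ∀ t, (#(FS G i k t) : ℝ) ≤ (2 * XX G i k + 2) * (Fintype.card V / r) := by
    intro t
    have := mul_le_mul_of_nonneg_right (h2' t) hp.le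
    have e : (#(FS G i k t) : ℝ) * r / Fintype.card V * (Fintype.card V / r) = #(FS G i k t) := by
      field_simp
    rwa [e] at this
  have a3 : ∑ t ∈ T, (#(FS G i k t) : ℝ) ≤
      (2 * i + 5) * ((2 * XX G i k + 2) * (Fintype.card V / r)) := by
    calc ∑ t ∈ T, (#(FS G i k t) : ℝ) ≤ ∑ _t ∈ T, (2 * XX G i k + 2) * (Fintype.card V / r) :=
          sum_le_sum fun t _ => a2 t
      _ = #T * ((2 * XX G i k + 2) * (Fintype.card V / r)) := by
          rw [sum_const, nsmul_eq_mul]
      _ ≤ _ := by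
          refine mul_le_mul_of_nonneg_right ?_ (by positivity)
          exact_mod_cast hT
  have a4 : XX G i k * (Fintype.card V / r) +
      (2 * i + 5) * ((2 * XX G i k + 2) * (Fintype.card V / r)) ≤
      (4 * i + 12) * (1 + XX G i k) * (Fintype.card V / r) := by
    have hi : (0 : ℝ) ≤ i := Nat.cast_nonneg i
    have e : (4 * (i : ℝ) + 12) * (1 + XX G i k) * (Fintype.card V / r) -
        (XX G i k * (Fintype.card V / r) +
          (2 * i + 5) * ((2 * XX G i k + 2) * (Fintype.card V / r))) =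
        (2 + XX G i k) * (Fintype.card V / r) := by ring
    have e2 : 0 ≤ (2 + XX G i k) * ((Fintype.card V : ℝ) / r) := by positivity
    linarith
  linarith

theorem ai_card (hr : r = m + 2 * i) (ho : Odd m) (hG : OddFree G m) (h6 : 6 * i + 6 < r)
    {D : ℝ} (hD : DegLe G D) {X : ℝ} (hX0 : 0 ≤ X) (hX : ∀ k ∈ AI G r, X ≤ XX G i k) :
    (#(AI G r) : ℝ) * Real.exp (X / 2) ≤
      Fintype.card V * D ^ (2 * i + 2) * ((Fintype.card V : ℝ) / r) ^ (r - (2 * i + 3)) := by
  have hr0 : (0 : ℝ) < r := by exact_mod_cast (by omega : 0 < r)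
  rcases (AI G r).eq_empty_or_nonempty with h0 | ⟨k0, hk0⟩
  · rw [h0, card_empty, Nat.cast_zero, zero_mul]
    have e : D ^ (2 * i + 2) = (D ^ (i + 1)) ^ 2 := by ring
    rw [e]
    positivity
  have hV : Nonempty V := ⟨k0 0⟩
  have hn : (0 : ℝ) < Fintype.card V := by exact_mod_cast Fintype.card_pos
  have hD0 : 0 < D := lt_of_lt_of_le (by
    exact_mod_cast card_pos.2 ⟨k0 (0 + 1), mem_Nb.2 ((mem_AI.1 hk0).1 0).symm⟩) (hD (k0 0))
  have hq : (0 : ℝ) < (Fintype.card V : ℝ) / r := div_pos hn hr0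
  have hs := ai_sum i h6 hD
  set B : ℝ := Fintype.card V * D ^ (2 * i + 2) * ((Fintype.card V : ℝ) / r) ^ (r - (2 * i + 3))
    with hB
  have hB0 : 0 < B := by positivity
  have hterm : ∀ k ∈ AI G r, (B * Real.exp (-(X / 2)))⁻¹ ≤
      ((Fintype.card V : ℝ) * D ^ (2 * i + 2) *
        Real.exp (((r : ℝ) - (2 * i + 3)) / r * ∑ t, Real.log (#(FS G i k t) : ℝ)))⁻¹ := by
    intro k hk
    have hfp : ∀ t, (0 : ℝ) < #(FS G i k t) := fun t => by exact_mod_cast fs_pos h6 hk t
    have hlog : ∑ t, Real.log (#(FS G i k t) : ℝ) =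
        r * Real.log (Fintype.card V / r) - XX G i k := by
      have e1 : ∀ t, Real.log ((#(FS G i k t) : ℝ) * r / Fintype.card V) =
          Real.log (#(FS G i k t) : ℝ) - Real.log (Fintype.card V / r) := by
        intro t
        rw [← Real.log_div (hfp t).ne' hq.ne']
        congr 1
        field_simp
      unfold XX
      rw [sum_congr rfl fun t _ => e1 t, sum_sub_distrib, sum_const, Finset.card_univ, ZMod.card,
        nsmul_eq_mul]
      ring
    have hle : ((r : ℝ) - (2 * i + 3)) / r * ∑ t, Real.log (#(FS G i k t) : ℝ) ≤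
        ((r - (2 * i + 3) : ℕ) : ℝ) * Real.log (Fintype.card V / r) + -(X / 2) := by
      rw [hlog, Nat.cast_sub (by omega)]
      push_cast
      have e2 : ((r : ℝ) - (2 * i + 3)) / r * (r * Real.log (Fintype.card V / r) - XX G i k) =
          ((r : ℝ) - (2 * i + 3)) * Real.log (Fintype.card V / r) -
            ((r : ℝ) - (2 * i + 3)) / r * XX G i k := by
        field_simp
      rw [e2]
      have e3 : (1 / 2 : ℝ) ≤ ((r : ℝ) - (2 * i + 3)) / r := by
        rw [div_le_div_iff₀ (by norm_num) hr0]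
        have : (6 * (i : ℝ) + 6) < r := by exact_mod_cast h6
        have hi : (0 : ℝ) ≤ i := Nat.cast_nonneg i
        linarith
      have e4 : X / 2 ≤ ((r : ℝ) - (2 * i + 3)) / r * XX G i k := by
        calc X / 2 = 1 / 2 * X := by ring
          _ ≤ ((r : ℝ) - (2 * i + 3)) / r * XX G i k :=
            mul_le_mul e3 (hX k hk) hX0 (by linarith)
      linarith
    refine inv_anti₀ (by positivity) ?_
    have hexp := Real.exp_le_exp.2 hle
    rw [Real.exp_add, Real.exp_nat_mul, Real.exp_log hq] at hexp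
    calc (Fintype.card V : ℝ) * D ^ (2 * i + 2) *
        Real.exp (((r : ℝ) - (2 * i + 3)) / r * ∑ t, Real.log (#(FS G i k t) : ℝ)) ≤
        (Fintype.card V : ℝ) * D ^ (2 * i + 2) *
        (((Fintype.card V : ℝ) / r) ^ (r - (2 * i + 3)) * Real.exp (-(X / 2))) :=
          mul_le_mul_of_nonneg_left hexp (by positivity)
      _ = B * Real.exp (-(X / 2)) := by rw [hB]; ring
  have h1 := (sum_le_sum hterm).trans hs
  rw [sum_const, nsmul_eq_mul, ← div_eq_mul_inv, div_le_one (by positivity)] at h1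
  have h2 := mul_le_mul_of_nonneg_right h1 (Real.exp_pos (X / 2)).le
  rw [mul_assoc B, ← Real.exp_add, neg_add_cancel, Real.exp_zero, mul_one] at h2
  exact h2

end Pool.Agent.CycFD
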